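import Pool.Agent.Lib.MP_4332cb_co.Conn

/-!
Dense graphs have large complete minors (Mader).
-/

namespace Pool.Agent.Lib.MP_4332cb_co

open Finset

universe u

open Classical in
/-- ordered adjacent pairs -/
noncomputable def PA {V : Type*} [Fintype V] (G : SimpleGraph V) : Finset (V × V) :=
  univ.filter (fun p => G.Adj p.1 p.2)

lemma mem_PA {V : Type*} [Fintype V] {G : SimpleGraph V} {p : V × V} : p ∈ PA G ↔ G.Adj p.1 p.2 := by
  classical
  simp [PA]

/-- contraction of the edge `xy`, as a graph on the vertices different from `y` -/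
def contr {V : Type*} (G : SimpleGraph V) (x y : V) : SimpleGraph {v : V // v ≠ y} where
  Adj u v := u ≠ v ∧ (G.Adj u.1 v.1 ∨ (u.1 = x ∧ G.Adj y v.1) ∨ (v.1 = x ∧ G.Adj y u.1))
  symm := ⟨by
    rintro u v ⟨h1, h2 | h2 | h2⟩
    · exact ⟨h1.symm, Or.inl h2.symm⟩
    · exact ⟨h1.symm, Or.inr (Or.inr h2)⟩
    · exact ⟨h1.symm, Or.inr (Or.inl h2)⟩⟩
  loopless := ⟨by
    rintro u ⟨h, _⟩
    exact h rfl⟩

lemma Mn_contr {V : Type*} {G : SimpleGraph V} {x y : V} (h : G.Adj x y) : Mn (contr G x y) G := by
  refine ⟨fun v => {z | z = v.1 ∨ (v.1 = x ∧ z = y)}, ?_, ?_, ?_⟩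
  · intro v
    refine Cn_of_center (x := v.1) (Or.inl rfl) ?_
    rintro z (rfl | ⟨h1, rfl⟩)
    · exact RI.refl _
    · refine RI.single ?_ (Or.inl rfl) (Or.inr ⟨h1, rfl⟩)
      rw [h1]; exact h
  · intro u v huv
    rw [Set.disjoint_left]
    rintro z (h1 | ⟨h1, h1'⟩) (h2 | ⟨h2, h2'⟩)
    · exact huv (Subtype.ext (h1.symm.trans h2))
    · exact u.2 (h1.symm.trans h2')
    · exact v.2 (h2.symm.trans h1')
    · exact huv (Subtype.ext (h1.trans h2.symm))
  · rintro u v ⟨_, h1 | ⟨h1, h2⟩ | ⟨h1, h2⟩⟩
    · exact ⟨u.1, Or.inl rfl, v.1, Or.inl rfl, h1⟩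
    · exact ⟨y, Or.inr ⟨h1, rfl⟩, v.1, Or.inl rfl, h2⟩
    · exact ⟨u.1, Or.inl rfl, y, Or.inr ⟨h1, rfl⟩, h2.symm⟩

lemma contr_pairs {V : Type*} [Fintype V] [DecidableEq V] {G : SimpleGraph V} [DecidableRel G.Adj]
    {x y : V} (hxy : G.Adj x y) (c : ℕ)
    (hc : (univ.filter (fun z => G.Adj x z ∧ G.Adj y z)).card + 1 ≤ c) [Fintype {v : V // v ≠ y}] :
    (PA G).card ≤ (PA (contr G x y)).card + 2 * c := by
  classical
  set cm := insert x (univ.filter (fun z => G.Adj x z ∧ G.Adj y z)) with hcm
  have hcmc : cm.card ≤ c := (Finset.card_insert_le _ _).trans hc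
  set bad : Finset (V × V) := (cm.image (fun z => (y, z))) ∪ (cm.image (fun z => (z, y))) with hbad
  have hbadc : bad.card ≤ 2 * c := by
    calc bad.card ≤ (cm.image (fun z => (y, z))).card + (cm.image (fun z => (z, y))).card :=
          Finset.card_union_le _ _
      _ ≤ cm.card + cm.card := add_le_add Finset.card_image_le Finset.card_image_le
      _ ≤ 2 * c := by omega
  have h1 : (PA G \ bad).card ≤ (PA (contr G x y)).card := by
    have hyx : x ≠ y := hxy.ne
    let ρ : V → {v : V // v ≠ y} := fun v => if h : v = y then ⟨x, hyx⟩ else ⟨v, h⟩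
    have hρy : ρ y = ⟨x, hyx⟩ := by simp [ρ]
    have hρ : ∀ v (h : v ≠ y), ρ v = ⟨v, h⟩ := by intro v h; simp [ρ, h]
    refine Finset.card_le_card_of_injOn (fun p => (ρ p.1, ρ p.2)) ?_ ?_
    · rintro ⟨u, v⟩ hp
      rw [Finset.mem_coe, Finset.mem_sdiff, mem_PA] at hp
      obtain ⟨huv, hb⟩ := hp
      simp only at huv
      rw [Finset.mem_coe, mem_PA]
      show (contr G x y).Adj (ρ u) (ρ v)
      by_cases hu : u = y
      · subst hu
        have hv : v ≠ u := fun h => huv.ne h.symm
        have hvx : v ≠ x := by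
          rintro rfl
          apply hb
          rw [hbad, Finset.mem_union, Finset.mem_image]
          left
          exact ⟨v, Finset.mem_insert_self _ _, rfl⟩
        rw [hρy, hρ v hv]
        refine ⟨?_, Or.inr (Or.inl ⟨rfl, huv⟩)⟩
        intro h
        exact hvx (congrArg Subtype.val h).symm
      · by_cases hv : v = y
        · subst hv
          have hux : u ≠ x := by
            rintro rfl
            apply hb
            rw [hbad, Finset.mem_union, Finset.mem_image, Finset.mem_image]
            right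
            exact ⟨u, Finset.mem_insert_self _ _, rfl⟩
          rw [hρy, hρ u hu]
          refine ⟨?_, Or.inr (Or.inr ⟨rfl, huv.symm⟩)⟩
          intro h
          exact hux (congrArg Subtype.val h)
        · rw [hρ u hu, hρ v hv]
          refine ⟨?_, Or.inl huv⟩
          intro h
          exact huv.ne (congrArg Subtype.val h)
    · rintro ⟨u, v⟩ hp ⟨u', v'⟩ hp' he
      rw [Finset.mem_coe, Finset.mem_sdiff, mem_PA] at hp hp'
      obtain ⟨huv, hb⟩ := hp
      obtain ⟨huv', hb'⟩ := hp'
      simp only at huv huv'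
      simp only [Prod.mk.injEq] at he
      obtain ⟨he1, he2⟩ := he
      -- facts about pairs containing `y`
      have factL : ∀ z, G.Adj y z → (y, z) ∉ bad → z ≠ x ∧ ¬ G.Adj x z := by
        intro z hz hzb
        constructor
        · rintro rfl
          apply hzb
          rw [hbad, Finset.mem_union, Finset.mem_image]
          left
          exact ⟨z, Finset.mem_insert_self _ _, rfl⟩
        · intro h
          apply hzb
          rw [hbad, Finset.mem_union, Finset.mem_image]
          left
          refine ⟨z, ?_, rfl⟩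
          rw [hcm, Finset.mem_insert, Finset.mem_filter]
          exact Or.inr ⟨mem_univ _, h, hz⟩
      have factR : ∀ z, G.Adj y z → (z, y) ∉ bad → z ≠ x ∧ ¬ G.Adj x z := by
        intro z hz hzb
        constructor
        · rintro rfl
          apply hzb
          rw [hbad, Finset.mem_union, Finset.mem_image, Finset.mem_image]
          right
          exact ⟨z, Finset.mem_insert_self _ _, rfl⟩
        · intro h
          apply hzb
          rw [hbad, Finset.mem_union, Finset.mem_image, Finset.mem_image]
          right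
          refine ⟨z, ?_, rfl⟩
          rw [hcm, Finset.mem_insert, Finset.mem_filter]
          exact Or.inr ⟨mem_univ _, h, hz⟩
      have hρval : ∀ a b, ρ a = ρ b → a = b ∨ (a = y ∧ b = x) ∨ (a = x ∧ b = y) := by
        intro a b hab
        by_cases ha : a = y
        · by_cases hb2 : b = y
          · left; rw [ha, hb2]
          · rw [ha, hρy, hρ b hb2] at hab
            right; left
            exact ⟨ha, (congrArg Subtype.val hab).symm⟩
        · by_cases hb2 : b = y
          · rw [hb2, hρy, hρ a ha] at hab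
            right; right
            exact ⟨congrArg Subtype.val hab, hb2⟩
          · rw [hρ a ha, hρ b hb2] at hab
            left
            exact congrArg Subtype.val hab
      rcases hρval u u' he1 with h3 | ⟨h3, h3'⟩ | ⟨h3, h3'⟩ <;>
      rcases hρval v v' he2 with h4 | ⟨h4, h4'⟩ | ⟨h4, h4'⟩
      · rw [h3, h4]
      · exfalso
        subst h3 h4 h4'
        exact (factR u huv.symm hb).2 huv'.symm
      · exfalso
        subst h3 h4 h4'
        exact (factR u huv'.symm hb').2 huv.symm
      · exfalso
        subst h3 h3' h4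
        exact (factL v huv hb).2 huv'
      · exfalso
        subst h3 h4
        exact huv.ne rfl
      · exfalso
        rw [h3, h4] at huv hb
        exact (factL x huv hb).1 rfl
      · exfalso
        subst h3 h3' h4
        exact (factL v huv' hb').2 huv
      · exfalso
        rw [h3, h4] at huv hb
        exact (factR x huv.symm hb).1 rfl
      · exfalso
        rw [h3, h4] at huv
        exact huv.ne rfl
  have h2 : (PA G).card ≤ (PA G \ bad).card + bad.card := by
    have := Finset.le_card_sdiff bad (PA G)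
    omega
  omega

/-- adding a vertex adjacent to everything in a set -/
lemma KM_succ {V : Type*} {G : SimpleGraph V} {x : V} {t : ℕ}
    (h : KM (G.induce {y | G.Adj x y}) t) : KM G (t + 1) := by
  obtain ⟨f, f1, f2, f3⟩ := h
  refine ⟨fun i => if h : i.1 < t then Subtype.val '' (f ⟨i.1, h⟩) else {x}, ?_, ?_, ?_⟩
  · intro i
    by_cases hi : i.1 < t
    · simp only [hi, dif_pos]
      have h1 := f1 ⟨i.1, hi⟩
      obtain ⟨x0, hx0⟩ := h1.1
      refine Cn_of_center (x := x0.1) ⟨x0, hx0, rfl⟩ ?_
      rintro _ ⟨y, hy, rfl⟩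
      have h2 := h1.2 x0 hx0 y hy
      induction h2 with
      | refl => exact RI.refl _
      | tail h3 h4 ih =>
        refine (ih h4.2.1).trans ?_
        exact RI.single h4.1 ⟨_, h4.2.1, rfl⟩ ⟨_, h4.2.2, rfl⟩
    · simp only [hi, dif_neg, not_false_iff]
      exact Cn_singleton G x
  · intro i j hij
    rw [Set.disjoint_left]
    intro z hz hz'
    by_cases hi : i.1 < t <;> by_cases hj : j.1 < t
    · simp only [hi, hj, dif_pos] at hz hz'
      obtain ⟨a, ha, rfl⟩ := hz
      obtain ⟨b, hb, hab⟩ := hz'
      have : b = a := Subtype.ext hab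
      subst this
      refine Set.disjoint_left.1 (f2 ⟨i.1, hi⟩ ⟨j.1, hj⟩ ?_) ha hb
      intro h
      exact hij (Fin.ext (congrArg (fun k : Fin t => k.1) h))
    · simp only [hi, hj, dif_pos, dif_neg, not_false_iff] at hz hz'
      obtain ⟨a, ha, rfl⟩ := hz
      have h1 : a.1 = x := hz'
      have h2 : G.Adj x a.1 := a.2
      rw [h1] at h2
      exact h2.ne rfl
    · simp only [hi, hj, dif_pos, dif_neg, not_false_iff] at hz hz'
      obtain ⟨a, ha, rfl⟩ := hz'
      have h1 : a.1 = x := hz
      have h2 : G.Adj x a.1 := a.2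
      rw [h1] at h2
      exact h2.ne rfl
    · apply hij
      apply Fin.ext
      have := i.2
      have := j.2
      omega
  · intro i j hij
    have hij' : i ≠ j := hij
    by_cases hi : i.1 < t <;> by_cases hj : j.1 < t
    · obtain ⟨a, ha, b, hb, hab⟩ := f3 ⟨i.1, hi⟩ ⟨j.1, hj⟩ (by
        intro h
        exact hij' (Fin.ext (congrArg (fun k : Fin t => k.1) h)))
      simp only [hi, hj, dif_pos]
      exact ⟨a.1, ⟨a, ha, rfl⟩, b.1, ⟨b, hb, rfl⟩, hab⟩
    · obtain ⟨a, ha⟩ := (f1 ⟨i.1, hi⟩).1
      simp only [hi, hj, dif_pos, dif_neg, not_false_iff]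
      exact ⟨a.1, ⟨a, ha, rfl⟩, x, rfl, a.2.symm⟩
    · obtain ⟨a, ha⟩ := (f1 ⟨j.1, hj⟩).1
      simp only [hi, hj, dif_pos, dif_neg, not_false_iff]
      exact ⟨x, rfl, a.1, ⟨a, ha, rfl⟩, a.2⟩
    · exfalso
      apply hij'
      apply Fin.ext
      have := i.2
      have := j.2
      omega

/-- **Mader**: dense graphs have large complete minors -/
theorem dens (t : ℕ) : ∀ (n : ℕ) (V : Type u) [Fintype V] (G : SimpleGraph V), Fintype.card V = n →
    0 < n → 2 ^ (t + 1) * n ≤ (PA G).card → KM G t := by
  classical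
  induction t with
  | zero =>
    intro n V _ G _ _ _
    refine ⟨fun i => i.elim0, fun i => i.elim0, fun i => i.elim0, fun i => i.elim0⟩
  | succ t iht =>
    intro n
    induction n with
    | zero => intro V _ G _ h; exact absurd h (lt_irrefl _)
    | succ n ihn =>
      intro V _ G hV _ hG
      by_cases hex : ∃ x y, G.Adj x y ∧
          (univ.filter (fun z => G.Adj x z ∧ G.Adj y z)).card + 1 ≤ 2 ^ (t + 1)
      · obtain ⟨x, y, hxy, hc⟩ := hex
        have h1 := contr_pairs hxy (2 ^ (t+1)) hc
        have hcard : Fintype.card {v : V // v ≠ y} = n := by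
          rw [Fintype.card_subtype_compl, Fintype.card_subtype_eq, hV]; rfl
        have hn : 0 < n := by
          rw [← hcard, Fintype.card_pos_iff]
          exact ⟨⟨x, hxy.ne⟩⟩
        refine (ihn {v : V // v ≠ y} (contr G x y) hcard hn ?_).of_Mn (Mn_contr hxy)
        have h2 : 2 ^ (t + 1 + 1) * (n + 1) = 2 ^ (t+1+1) * n + 2 * 2 ^ (t+1) := by ring
        omega
      · push Not at hex
        -- pick a vertex with a neighbour
        have hne : (PA G).Nonempty := by
          rw [← Finset.card_pos]
          have : 0 < 2 ^ (t + 1 + 1) * (n + 1) := by positivity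
          omega
        obtain ⟨⟨x, y⟩, hxy⟩ := hne
        rw [mem_PA] at hxy
        simp only at hxy
        apply KM_succ (x := x)
        have hcp : 0 < Fintype.card {z // z ∈ {y | G.Adj x y}} := Fintype.card_pos_iff.2 ⟨⟨y, hxy⟩⟩
        refine iht (Fintype.card {z // z ∈ {y | G.Adj x y}}) _ (G.induce {y | G.Adj x y}) rfl hcp ?_
        -- count pairs
        have hsum : (PA (G.induce {y | G.Adj x y})).card =
            ∑ a : {z // z ∈ {y | G.Adj x y}}, (univ.filter (fun b : {z // z ∈ {y | G.Adj x y}} => G.Adj a.1 b.1)).card := by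
          unfold PA
          rw [Finset.card_filter, Fintype.sum_prod_type]
          apply Finset.sum_congr rfl
          intro a _
          rw [Finset.card_filter]
          rfl
        rw [hsum]
        have hle : ∀ a : {z // z ∈ {y | G.Adj x y}}, 2 ^ (t+1) ≤
            (univ.filter (fun b : {z // z ∈ {y | G.Adj x y}} => G.Adj a.1 b.1)).card := by
          intro a
          have h1 := hex x a.1 a.2
          have h2 : (univ.filter (fun z => G.Adj x z ∧ G.Adj a.1 z)).card ≤
              (univ.filter (fun b : {z // z ∈ {y | G.Adj x y}} => G.Adj a.1 b.1)).card := by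
            rw [← Finset.card_map (Function.Embedding.subtype _)]
            apply Finset.card_le_card
            intro z hz
            rw [Finset.mem_filter] at hz
            rw [Finset.mem_map]
            exact ⟨⟨z, hz.2.1⟩, by rw [Finset.mem_filter]; exact ⟨mem_univ _, hz.2.2⟩, rfl⟩
          omega
        calc 2 ^ (t+1) * Fintype.card {z // z ∈ {y | G.Adj x y}}
            = ∑ a : {z // z ∈ {y | G.Adj x y}}, 2 ^ (t+1) := by
              rw [Finset.sum_const, Finset.card_univ, smul_eq_mul, mul_comm]
          _ ≤ _ := Finset.sum_le_sum (fun a _ => hle a)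

end Pool.Agent.Lib.MP_4332cb_co
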