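import Pool.Agent.Lib.MP_4332cb_co.Core

/-!
Copies of a graph of bounded degree attached to a bounded number of further vertices (apices).
-/

namespace Pool.Agent.Lib.MP_4332cb_co

open Finset

universe u

/-- the vertices of the graph with apices -/
abbrev AV (K k N : ℕ) (V : Type u) := Fin K ⊕ (((Fin k ↪ Fin K) × Fin N) × V)

/-- Take `K` apices and, for every embedding `φ` of the labels into the apices, `N` copies of `H`; a
vertex with label `l` of such a copy is joined to the apex `φ l`. -/
def AG {V : Type u} (H : SimpleGraph V) {k : ℕ} (K N : ℕ) (lab : V → Fin k) :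
    SimpleGraph (AV K k N V) where
  Adj x y := match x, y with
    | .inl _, .inl _ => False
    | .inl a, .inr (i, v) => i.1 (lab v) = a
    | .inr (i, v), .inl a => i.1 (lab v) = a
    | .inr (i, v), .inr (j, w) => i = j ∧ H.Adj v w
  symm := ⟨by
    rintro (a | ⟨i, v⟩) (b | ⟨j, w⟩) h
    · exact h
    · exact h
    · exact h
    · exact ⟨h.1.symm, h.2.symm⟩⟩
  loopless := ⟨by
    rintro (a | ⟨i, v⟩) h
    · exact h
    · exact h.2.ne rfl⟩

variable {V : Type u} {H : SimpleGraph V} {k K N : ℕ} {lab : V → Fin k}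

lemma AG_inl {a : Fin K} {x : AV K k N V} (h : (AG H K N lab).Adj (.inl a) x) :
    ∃ i v, x = .inr (i, v) ∧ i.1 (lab v) = a := by
  rcases x with b | ⟨i, v⟩
  · exact absurd h (fun h => h)
  · exact ⟨i, v, rfl, h⟩

lemma AG_inr {i : (Fin k ↪ Fin K) × Fin N} {v : V} {x : AV K k N V}
    (h : (AG H K N lab).Adj (.inr (i, v)) x) :
    x = .inl (i.1 (lab v)) ∨ ∃ w, x = .inr (i, w) ∧ H.Adj v w := by
  rcases x with b | ⟨j, w⟩
  · left
    have h' : i.1 (lab v) = b := h
    rw [h']
  · right
    have h' : i = j ∧ H.Adj v w := h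
    obtain ⟨rfl, h2⟩ := h'
    exact ⟨w, rfl, h2⟩

/-- the graph with apices has girth at least `g`, for `g ≤ 6` -/
theorem AG_girth {g : ℕ} (hg : g ≤ 6) (hH : (g : ℕ∞) ≤ H.egirth)
    (h1 : ∀ u v, H.Adj u v → lab u ≠ lab v)
    (h2 : ∀ u v w, H.Adj u v → H.Adj v w → u ≠ w → lab u ≠ lab w)
    (h3 : ∀ u v w x, H.Adj u v → H.Adj v w → H.Adj w x → u ≠ x → lab u ≠ lab x) :
    (g : ℕ∞) ≤ (AG H K N lab).egirth := by
  classical
  rw [SimpleGraph.le_egirth]
  intro x w hw
  by_contra hlt
  have hlt' : w.length < g := by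
    by_contra h
    exact hlt (by exact_mod_cast not_lt.1 h)
  have hlen : w.length ≤ 5 := by omega
  by_cases hap : ∃ a : Fin K, (Sum.inl a : AV K k N V) ∈ w.support
  · obtain ⟨a, ha⟩ := hap
    -- start at the apex
    obtain ⟨p, hp, hpl⟩ : ∃ p : (AG H K N lab).Walk (.inl a) (.inl a), p.IsCycle ∧ p.length ≤ 5 :=
      ⟨w.rotate _ ha, hw.rotate ha, by rw [SimpleGraph.Walk.length_rotate]; exact hlen⟩
    have hp3 := hp.three_le_length
    have hinj := hp.getVert_injOn'
    have hne : ∀ i j, i ≤ p.length - 1 → j ≤ p.length - 1 → i ≠ j → p.getVert i ≠ p.getVert j :=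
      fun i j hi hj hij e => hij (hinj hi hj e)
    have h0 : p.getVert 0 = .inl a := p.getVert_zero
    have hlast : p.getVert p.length = .inl a := p.getVert_length
    -- first neighbour
    have a0 := p.adj_getVert_succ (i := 0) (by omega)
    rw [h0] at a0
    obtain ⟨i, v1, e1, hv1⟩ := AG_inl a0
    -- last neighbour
    have al := p.adj_getVert_succ (i := p.length - 1) (by omega)
    rw [show p.length - 1 + 1 = p.length by omega, hlast] at al
    obtain ⟨j, vl, el, hvl⟩ := AG_inl al.symm
    -- second vertex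
    have a1 := p.adj_getVert_succ (i := 1) (by omega)
    have hx2 : ∃ v2, p.getVert 2 = .inr (i, v2) ∧ H.Adj v1 v2 := by
      have e1' : p.getVert 1 = .inr (i, v1) := e1
      rw [e1'] at a1
      rcases AG_inr a1 with h | h
      · exfalso
        rw [hv1] at h
        exact hne 0 2 (by omega) (by omega) (by omega) (h0.trans h.symm)
      · exact h
    obtain ⟨v2, e2, hv12⟩ := hx2
    have hlab : ∀ v, i = j → i.1 (lab v) = a → lab v1 = lab v := by
      intro v _ hv
      exact i.1.injective (hv1.trans hv.symm)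
    rcases (show p.length = 3 ∨ p.length = 4 ∨ p.length = 5 by omega) with hl | hl | hl
    · rw [hl] at el
      have e : (Sum.inr (i, v2) : AV K k N V) = Sum.inr (j, vl) := e2.symm.trans el
      have e' := Sum.inr_injective e
      obtain ⟨rfl, rfl⟩ := Prod.mk.inj e'
      exact h1 v1 v2 hv12 (hlab v2 rfl hvl)
    · rw [hl] at el
      have a2 := p.adj_getVert_succ (i := 2) (by omega)
      rw [e2] at a2
      have el' : p.getVert (2 + 1) = .inr (j, vl) := el
      rw [el'] at a2
      have a2' : i = j ∧ H.Adj v2 vl := a2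
      obtain ⟨rfl, hv2l⟩ := a2'
      refine h2 v1 v2 vl hv12 hv2l ?_ (hlab vl rfl hvl)
      rintro rfl
      exact hne 1 3 (by omega) (by omega) (by omega) (e1.trans el'.symm)
    · rw [hl] at el
      have el' : p.getVert (3 + 1) = .inr (j, vl) := el
      have a3 := p.adj_getVert_succ (i := 3) (by omega)
      rw [el'] at a3
      have hx3 : ∃ v3, p.getVert 3 = .inr (j, v3) ∧ H.Adj vl v3 := by
        rcases AG_inr a3.symm with h | h
        · exfalso
          rw [hvl] at h
          exact hne 0 3 (by omega) (by omega) (by omega) (h0.trans h.symm)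
        · exact h
      obtain ⟨v3, e3, hvl3⟩ := hx3
      have a2 := p.adj_getVert_succ (i := 2) (by omega)
      have e3' : p.getVert (2 + 1) = .inr (j, v3) := e3
      rw [e2, e3'] at a2
      have a2' : i = j ∧ H.Adj v2 v3 := a2
      obtain ⟨rfl, hv23⟩ := a2'
      refine h3 v1 v2 v3 vl hv12 hv23 hvl3.symm ?_ (hlab vl rfl hvl)
      rintro rfl
      exact hne 1 4 (by omega) (by omega) (by omega) (e1.trans el'.symm)
  · push Not at hap
    -- all vertices lie in one copy
    obtain ⟨i0, v0, rfl⟩ : ∃ i v, x = .inr (i, v) := by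
      rcases x with b | ⟨i, v⟩
      · exact absurd w.start_mem_support (hap b)
      · exact ⟨i, v, rfl⟩
    set s : Set (AV K k N V) := {x | ∃ v, x = .inr (i0, v)} with hs
    have hall : ∀ (y z : AV K k N V) (q : (AG H K N lab).Walk y z), (∃ v, y = .inr (i0, v)) →
        (∀ a : Fin K, (Sum.inl a : AV K k N V) ∉ q.support) → ∀ x ∈ q.support, x ∈ s := by
      intro y z q
      induction q with
      | nil =>
        intro hy _ x hx
        rw [SimpleGraph.Walk.support_nil, List.mem_singleton] at hx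
        rw [hx]; exact hy
      | @cons y m z h q ih =>
        rintro ⟨v, rfl⟩ hq x hx
        rw [SimpleGraph.Walk.support_cons, List.mem_cons] at hx
        rcases hx with rfl | hx
        · exact ⟨v, rfl⟩
        · refine ih ?_ (fun a ha => hq a (by
            rw [SimpleGraph.Walk.support_cons]; exact List.mem_cons_of_mem _ ha)) x hx
          rcases AG_inr h with e | ⟨w', e, _⟩
          · exfalso
            apply hq (i0.1 (lab v))
            rw [SimpleGraph.Walk.support_cons, ← e]
            exact List.mem_cons_of_mem _ q.start_mem_support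
          · exact ⟨w', e⟩
    have hws := hall _ _ w ⟨v0, rfl⟩ hap
    have hcs : (w.induce s hws).IsCycle := by
      apply SimpleGraph.Walk.IsCycle.of_map (f := (SimpleGraph.Embedding.induce s).toHom)
      rw [SimpleGraph.Walk.map_induce]
      exact hw
    set ψ : (AG H K N lab).induce s →g H :=
      { toFun := fun x => Sum.elim (fun _ => v0) (fun z => z.2) x.1
        map_rel' := by
          rintro ⟨_, v, rfl⟩ ⟨_, v', rfl⟩ h
          have h' : i0 = i0 ∧ H.Adj v v' := h
          exact h'.2 } with hψ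
    have hψi : Function.Injective ψ := by
      rintro ⟨_, v, rfl⟩ ⟨_, v', rfl⟩ h
      have h' : v = v' := h
      rw [Subtype.mk.injEq, h']
    have hcyc : ((w.induce s hws).map ψ).IsCycle := hcs.map hψi
    have h4 := SimpleGraph.le_egirth.1 hH _ _ hcyc
    have h5 : ((w.induce s hws).map ψ).length = (w.induce s hws).length := SimpleGraph.Walk.length_map _ _
    have h6 : ((w.induce s hws).map (SimpleGraph.Embedding.induce (G := AG H K N lab) s).toHom).length =
        (w.induce s hws).length := SimpleGraph.Walk.length_map _ _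
    have h7 := congrArg SimpleGraph.Walk.length (SimpleGraph.Walk.map_induce w hws)
    have h8 : ((w.induce s hws).map ψ).length = w.length := h5.trans (h6.symm.trans h7)
    exact hlt (h4.trans_eq (congrArg Nat.cast h8))

/-- a connected set without apices lies in one copy -/
lemma AG_one_copy {S : Set (AV K k N V)} (hS : ∀ x ∈ S, ∃ i v, x = .inr (i, v))
    {i0 : (Fin k ↪ Fin K) × Fin N} {v0 : V} (y : AV K k N V)
    (h : RI (AG H K N lab) S (.inr (i0, v0)) y) (hy : y ∈ S) : ∃ v, y = .inr (i0, v) := by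
  induction h with
  | refl => exact ⟨v0, rfl⟩
  | @tail y z h1 h2 ih =>
    obtain ⟨v, rfl⟩ := ih h2.2.1
    obtain ⟨j, w, rfl⟩ := hS z h2.2.2
    have h3 : i0 = j ∧ H.Adj v w := h2.1
    exact ⟨w, by rw [h3.1]⟩

/-- deleting the apices destroys at most `K` branch sets -/
theorem AG_minor {t : ℕ} (ht : 1 ≤ t) (hH : ¬ KM H t) : ¬ KM (AG H K N lab) (t + K) := by
  classical
  rintro ⟨f, f1, f2, f3⟩
  set A : Finset (Fin (t + K)) := univ.filter (fun i => ∃ a : Fin K, Sum.inl a ∈ f i) with hA
  have hAc : A.card ≤ K := by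
    have hsub : A ⊆ (univ : Finset (Fin K)).biUnion (fun a => univ.filter (fun i => Sum.inl a ∈ f i)) := by
      intro i hi
      obtain ⟨a, ha⟩ := (Finset.mem_filter.1 hi).2
      rw [Finset.mem_biUnion]
      exact ⟨a, mem_univ _, Finset.mem_filter.2 ⟨mem_univ _, ha⟩⟩
    have h1 := (Finset.card_le_card hsub).trans (Finset.card_biUnion_le_card_mul _ _ 1 (fun a _ => by
      apply Finset.card_le_one.2
      intro i hi j hj
      by_contra hne
      exact Set.disjoint_left.1 (f2 i j hne) (Finset.mem_filter.1 hi).2 (Finset.mem_filter.1 hj).2))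
    rw [Finset.card_univ, Fintype.card_fin] at h1
    omega
  have hcard : Fintype.card (Fin t) ≤ Fintype.card {i : Fin (t + K) // i ∉ A} := by
    rw [Fintype.card_fin, Fintype.card_subtype_compl, Fintype.card_coe, Fintype.card_fin]
    omega
  obtain ⟨ι⟩ := Function.Embedding.nonempty_of_card_le hcard
  have hinr : ∀ j, ∀ x ∈ f (ι j).1, ∃ i v, x = Sum.inr (i, v) := by
    rintro j (a | ⟨i, v⟩) hx
    · exact absurd (Finset.mem_filter.2 ⟨mem_univ _, a, hx⟩) (ι j).2
    · exact ⟨i, v, rfl⟩
  obtain ⟨x0, hx0⟩ := (f1 (ι ⟨0, ht⟩).1).1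
  obtain ⟨i0, v0, rfl⟩ := hinr _ x0 hx0
  have hone0 : ∀ x ∈ f (ι ⟨0, ht⟩).1, ∃ v, x = Sum.inr (i0, v) := fun x hx =>
    AG_one_copy (hinr _) x ((f1 _).2 _ hx0 x hx) hx
  have hone : ∀ j, ∀ x ∈ f (ι j).1, ∃ v, x = Sum.inr (i0, v) := by
    intro j x hx
    by_cases hj : j = ⟨0, ht⟩
    · subst hj; exact hone0 x hx
    · have hne : (ι ⟨0, ht⟩).1 ≠ (ι j).1 := fun e => hj (ι.injective (Subtype.ext e)).symm
      obtain ⟨y, hy, z, hz, hyz⟩ := f3 _ _ ((SimpleGraph.top_adj _ _).2 hne)
      obtain ⟨v, rfl⟩ := hone0 y hy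
      obtain ⟨i, w, rfl⟩ := hinr _ z hz
      have h3 : i0 = i ∧ H.Adj v w := hyz
      obtain ⟨rfl, _⟩ := h3
      exact AG_one_copy (hinr _) x ((f1 _).2 _ hz x hx) hx
  apply hH
  refine ⟨fun j => {v | Sum.inr (i0, v) ∈ f (ι j).1}, ?_, ?_, ?_⟩
  · intro j
    obtain ⟨x, hx⟩ := (f1 (ι j).1).1
    obtain ⟨v, rfl⟩ := hone j x hx
    refine Cn_of_center (x := v) hx ?_
    have key : ∀ y, RI (AG H K N lab) (f (ι j).1) (Sum.inr (i0, v)) y → ∀ w, y = Sum.inr (i0, w) →
        RI H {v | Sum.inr (i0, v) ∈ f (ι j).1} v w := by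
      intro y hy
      induction hy with
      | refl =>
        intro w e
        have e1 : v = w := by
          have := Sum.inr_injective e
          exact (Prod.mk.injEq _ _ _ _ ▸ this).2
        rw [e1]; exact RI.refl _
      | @tail y z h1 h2 ih =>
        intro w e
        subst e
        obtain ⟨w', rfl⟩ := hone j y h2.2.1
        have h3 : i0 = i0 ∧ H.Adj w' w := h2.1
        exact (ih w' rfl).trans (RI.single h3.2 h2.2.1 h2.2.2)
    intro w hw
    exact key _ ((f1 _).2 _ hx _ hw) w rfl
  · intro j j' hne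
    rw [Set.disjoint_left]
    intro v hv hv'
    exact Set.disjoint_left.1 (f2 (ι j).1 (ι j').1 (fun e => hne (ι.injective (Subtype.ext e)))) hv hv'
  · intro j j' hadj
    have hne : (ι j).1 ≠ (ι j').1 := fun e => hadj.ne (ι.injective (Subtype.ext e))
    obtain ⟨y, hy, z, hz, hyz⟩ := f3 _ _ ((SimpleGraph.top_adj _ _).2 hne)
    obtain ⟨v, rfl⟩ := hone j y hy
    obtain ⟨w, rfl⟩ := hone j' z hz
    have h3 : i0 = i0 ∧ H.Adj v w := hyz
    exact ⟨v, hy, w, hz, h3.2⟩

end Pool.Agent.Lib.MP_4332cb_co
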