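import Pool.Agent.Lib.MP_4332cb_co.Apex

/-!
A clustered 3-colouring of the graph with apices gives a clustered 2-colouring of the graph itself.
-/

namespace Pool.Agent.Lib.MP_4332cb_co

open Finset

universe u

/-- greedy colouring -/
lemma greedy {V : Type u} [Fintype V] (N : V → Finset V) {k : ℕ} (hsym : ∀ u v, v ∈ N u → u ∈ N v)
    (hself : ∀ u, u ∈ N u) (hN : ∀ u, (N u).card ≤ k) (hk : 1 ≤ k) :
    ∃ lab : V → Fin k, ∀ u v, u ≠ v → v ∈ N u → lab u ≠ lab v := by
  classical
  have main : ∀ S : Finset V, ∃ lab : V → Fin k, ∀ u ∈ S, ∀ v ∈ S, u ≠ v → v ∈ N u → lab u ≠ lab v := by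
    intro S
    induction S using Finset.induction_on with
    | empty => exact ⟨fun _ => ⟨0, hk⟩, fun u hu => absurd hu (Finset.notMem_empty u)⟩
    | insert a S ha ih =>
      obtain ⟨lab, hlab⟩ := ih
      have hcard : (((N a).erase a).image lab).card < Fintype.card (Fin k) := by
        have h1 : (((N a).erase a).image lab).card ≤ ((N a).erase a).card := Finset.card_image_le
        have h2 := Finset.card_erase_of_mem (hself a)
        have h3 := hN a
        have h4 : 1 ≤ (N a).card := Finset.card_pos.2 ⟨a, hself a⟩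
        rw [Fintype.card_fin]
        omega
      obtain ⟨c, hc⟩ : ∃ c : Fin k, c ∉ ((N a).erase a).image lab := by
        by_contra hcon
        push Not at hcon
        have h1 : ((N a).erase a).image lab = univ := Finset.eq_univ_of_forall hcon
        rw [h1, Finset.card_univ] at hcard
        exact lt_irrefl _ hcard
      refine ⟨Function.update lab a c, ?_⟩
      intro u hu v hv huv huN
      rw [Finset.mem_insert] at hu hv
      rcases hu with rfl | hu
      · rcases hv with rfl | hv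
        · exact absurd rfl huv
        · rw [Function.update_self, Function.update_of_ne huv.symm]
          intro e
          apply hc
          rw [e]
          exact Finset.mem_image_of_mem _ (Finset.mem_erase.2 ⟨huv.symm, huN⟩)
      · rcases hv with rfl | hv
        · rw [Function.update_self, Function.update_of_ne huv]
          intro e
          apply hc
          rw [← e]
          exact Finset.mem_image_of_mem _ (Finset.mem_erase.2 ⟨huv, hsym _ _ huN⟩)
        · have hua : u ≠ a := fun e => ha (e ▸ hu)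
          have hva : v ≠ a := fun e => ha (e ▸ hv)
          rw [Function.update_of_ne hua, Function.update_of_ne hva]
          exact hlab u hu v hv huv huN
  obtain ⟨lab, hlab⟩ := main univ
  exact ⟨lab, fun u v => hlab u (mem_univ _) v (mem_univ _)⟩

/-- labels that differ on vertices joined by at most three edges -/
lemma exists_lab {V : Type u} [Fintype V] {H : SimpleGraph V} {Δ : ℕ}
    (hdeg : ∀ v, (nb H v).card ≤ Δ) : ∃ lab : V → Fin ((Δ + 1) ^ 3),
      (∀ u v, H.Adj u v → lab u ≠ lab v) ∧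
      (∀ u v w, H.Adj u v → H.Adj v w → u ≠ w → lab u ≠ lab w) ∧
      (∀ u v w x, H.Adj u v → H.Adj v w → H.Adj w x → u ≠ x → lab u ≠ lab x) := by
  classical
  set R : V → V → Prop := fun u v => u = v ∨ H.Adj u v ∨ (∃ w, H.Adj u w ∧ H.Adj w v) ∨
    (∃ w x, H.Adj u w ∧ H.Adj w x ∧ H.Adj x v) with hR
  have hstep : ∀ i u v w, v ∈ Nbh H u i → H.Adj v w → w ∈ Nbh H u (i + 1) := by
    intro i u v w hv hvw
    exact Finset.mem_union_right _ (Finset.mem_biUnion.2 ⟨v, hv, mem_nb.2 hvw⟩)
  have hmono : ∀ i u v, v ∈ Nbh H u i → v ∈ Nbh H u (i + 1) :=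
    fun i u v hv => Finset.mem_union_left _ hv
  have h0 : ∀ u, u ∈ Nbh H u 0 := fun u => Finset.mem_singleton_self u
  have hsub : ∀ u, univ.filter (fun v => R u v) ⊆ Nbh H u 3 := by
    intro u v hv
    rcases (Finset.mem_filter.1 hv).2 with rfl | h | ⟨w, h, h'⟩ | ⟨w, x, h, h', h''⟩
    · exact hmono 2 _ _ (hmono 1 _ _ (hmono 0 _ _ (h0 _)))
    · exact hmono 2 _ _ (hmono 1 _ _ (hstep 0 _ _ _ (h0 u) h))
    · exact hmono 2 _ _ (hstep 1 _ _ _ (hstep 0 _ _ _ (h0 u) h) h')
    · exact hstep 2 _ _ _ (hstep 1 _ _ _ (hstep 0 _ _ _ (h0 u) h) h') h''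
  obtain ⟨lab, hlab⟩ := greedy (fun u => univ.filter (fun v => R u v)) (k := (Δ + 1) ^ 3) (by
      intro u v hv
      rw [Finset.mem_filter] at hv ⊢
      refine ⟨mem_univ _, ?_⟩
      rcases hv.2 with h | h | ⟨w, h, h'⟩ | ⟨w, x, h, h', h''⟩
      · exact Or.inl h.symm
      · exact Or.inr (Or.inl h.symm)
      · exact Or.inr (Or.inr (Or.inl ⟨w, h'.symm, h.symm⟩))
      · exact Or.inr (Or.inr (Or.inr ⟨x, w, h''.symm, h'.symm, h.symm⟩)))
    (fun u => Finset.mem_filter.2 ⟨mem_univ _, Or.inl rfl⟩)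
    (fun u => (Finset.card_le_card (hsub u)).trans (Nbh_card hdeg u 3))
    (Nat.one_le_pow _ _ (by omega))
  refine ⟨lab, fun u v h => hlab u v h.ne (Finset.mem_filter.2 ⟨mem_univ _, Or.inr (Or.inl h)⟩),
    fun u v w h h' hne => hlab u w hne (Finset.mem_filter.2 ⟨mem_univ _, Or.inr (Or.inr (Or.inl ⟨v, h, h'⟩))⟩),
    fun u v w x h h' h'' hne => hlab u x hne
      (Finset.mem_filter.2 ⟨mem_univ _, Or.inr (Or.inr (Or.inr ⟨v, w, h, h', h''⟩))⟩)⟩

/-- a clustered 3-colouring of the graph with apices gives a clustered 2-colouring of `H` -/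
theorem AG_colour {V : Type u} [Fintype V] {H : SimpleGraph V} {k c : ℕ} (hk : 1 ≤ k) {lab : V → Fin k}
    {f : AV (3 * k) k (k * c + 1) V → Fin 3}
    (hf : ∀ C, Cn (AG H (3 * k) (k * c + 1) lab) C → (∀ x ∈ C, ∀ y ∈ C, f x = f y) → C.ncard ≤ c) :
    ∃ f' : V → Bool, ∀ C, Cn H C → (∀ x ∈ C, ∀ y ∈ C, f' x = f' y) → C.ncard ≤ c := by
  classical
  -- many apices of the same colour
  obtain ⟨χ, _, hχ⟩ := Finset.exists_le_card_fiber_of_mul_le_card_of_maps_to
    (s := (univ : Finset (Fin (3 * k)))) (t := (univ : Finset (Fin 3))) (f := fun a => f (.inl a))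
    (n := k) (fun _ _ => mem_univ _) ⟨0, mem_univ _⟩ (by simp)
  obtain ⟨φ0⟩ : Nonempty (Fin k ↪ {a : Fin (3 * k) // f (.inl a) = χ}) := by
    apply Function.Embedding.nonempty_of_card_le
    rw [Fintype.card_fin, Fintype.card_subtype]
    exact hχ
  set φ : Fin k ↪ Fin (3 * k) := φ0.trans (Function.Embedding.subtype _) with hφ
  have hφχ : ∀ l, f (.inl (φ l)) = χ := fun l => (φ0 l).2
  -- a copy without this colour
  have hcopy : ∃ n : Fin (k * c + 1), ∀ v, f (.inr ((φ, n), v)) ≠ χ := by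
    by_contra hcon
    push Not at hcon
    choose v hv using hcon
    obtain ⟨l, _, hl⟩ := Finset.exists_le_card_fiber_of_mul_le_card_of_maps_to
      (s := (univ : Finset (Fin (k * c + 1)))) (t := (univ : Finset (Fin k)))
      (f := fun n => lab (v n)) (n := c) (fun _ _ => mem_univ _) ⟨⟨0, hk⟩, mem_univ _⟩ (by simp)
    set F : Finset (Fin (k * c + 1)) := univ.filter (fun n => lab (v n) = l) with hF
    set C : Finset (AV (3 * k) k (k * c + 1) V) :=
      insert (.inl (φ l)) (F.image (fun n => .inr ((φ, n), v n))) with hC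
    have hCc : C.card = F.card + 1 := by
      rw [hC, Finset.card_insert_of_notMem (by simp), Finset.card_image_of_injective]
      intro n n' e
      have e1 := Sum.inr_injective e
      exact (Prod.mk.injEq _ _ _ _ ▸ (Prod.mk.injEq _ _ _ _ ▸ e1).1).2
    have hCn : Cn (AG H (3 * k) (k * c + 1) lab) (C : Set (AV (3 * k) k (k * c + 1) V)) := by
      have h0 : (.inl (φ l)) ∈ (C : Set (AV (3 * k) k (k * c + 1) V)) := by
        rw [Finset.mem_coe, hC]; exact Finset.mem_insert_self _ _
      refine Cn_of_center h0 ?_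
      intro y hy
      have hy' := hy
      rw [Finset.mem_coe, hC, Finset.mem_insert] at hy'
      rcases hy' with rfl | hy'
      · exact RI.refl _
      · obtain ⟨n, hn, rfl⟩ := Finset.mem_image.1 hy'
        refine RI.single ?_ h0 hy
        show φ (lab (v n)) = φ l
        rw [(Finset.mem_filter.1 hn).2]
    have hCf : ∀ x ∈ (C : Set (AV (3 * k) k (k * c + 1) V)), f x = χ := by
      intro x hx
      rw [Finset.mem_coe, hC, Finset.mem_insert] at hx
      rcases hx with rfl | hx
      · exact hφχ l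
      · obtain ⟨n, _, rfl⟩ := Finset.mem_image.1 hx
        exact hv n
    have h1 := hf _ hCn (fun x hx y hy => by rw [hCf x hx, hCf y hy])
    rw [Set.ncard_coe_finset, hCc] at h1
    omega
  obtain ⟨n, hn⟩ := hcopy
  refine ⟨fun v => decide (f (.inr ((φ, n), v)) = χ + 1), fun C hC hm => ?_⟩
  have hinj : Function.Injective (fun v : V => (.inr ((φ, n), v) : AV (3 * k) k (k * c + 1) V)) := by
    intro v w e
    have e1 := Sum.inr_injective e
    exact (Prod.mk.injEq _ _ _ _ ▸ e1).2
  rw [← Set.ncard_image_of_injective C hinj]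
  apply hf
  · obtain ⟨x0, hx0⟩ := hC.1
    refine Cn_of_center (x := .inr ((φ, n), x0)) ⟨x0, hx0, rfl⟩ ?_
    have key : ∀ y, RI H C x0 y → RI (AG H (3 * k) (k * c + 1) lab)
        ((fun v => .inr ((φ, n), v)) '' C) (.inr ((φ, n), x0)) (.inr ((φ, n), y)) := by
      intro y hy
      induction hy with
      | refl => exact RI.refl _
      | @tail y z h1 h2 ih =>
        exact ih.trans (RI.single ⟨rfl, h2.1⟩ ⟨y, h2.2.1, rfl⟩ ⟨z, h2.2.2, rfl⟩)
    rintro _ ⟨y, hy, rfl⟩
    exact key y (hC.2 x0 hx0 y hy)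
  · rintro _ ⟨x, hx, rfl⟩ _ ⟨y, hy, rfl⟩
    have h1 := hm x hx y hy
    have h2 := hn x
    have h3 := hn y
    have h4 : (f (.inr ((φ, n), x)) = χ + 1) ↔ (f (.inr ((φ, n), y)) = χ + 1) := by
      simpa using h1
    have h5 : ∀ c a b : Fin 3, a ≠ c → b ≠ c → ((a = c + 1) ↔ (b = c + 1)) → a = b := by decide
    exact h5 χ _ _ h2 h3 h4

end Pool.Agent.Lib.MP_4332cb_co
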