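import Pool.Agent.Lib.MP_4332cb_co.Layer

/-!
Graphs of bounded degree without a large complete minor are 3-colourable with bounded clustering.
-/

namespace Pool.Agent.Lib.MP_4332cb_co

open Finset

universe u

section Nbh

variable {V : Type*} [Fintype V]

open Classical in
/-- iterated neighbourhoods -/
noncomputable def Nbh (G : SimpleGraph V) (u : V) : ℕ → Finset V
  | 0 => {u}
  | (i + 1) => Nbh G u i ∪ (Nbh G u i).biUnion (fun x => nb G x)

lemma Nbh_card {G : SimpleGraph V} {Δ : ℕ} (hdeg : ∀ v, (nb G v).card ≤ Δ) (u : V) :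
    ∀ i, (Nbh G u i).card ≤ (Δ + 1) ^ i := by
  classical
  intro i
  induction i with
  | zero => simp [Nbh]
  | succ i ih =>
    have h1 : (Nbh G u (i + 1)).card ≤ (Nbh G u i).card + ((Nbh G u i).biUnion (fun x => nb G x)).card :=
      Finset.card_union_le _ _
    have h2 : ((Nbh G u i).biUnion (fun x => nb G x)).card ≤ (Nbh G u i).card * Δ :=
      Finset.card_biUnion_le_card_mul _ _ _ (fun x _ => hdeg x)
    calc (Nbh G u (i + 1)).card ≤ (Nbh G u i).card + (Nbh G u i).card * Δ := by omega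
      _ = (Nbh G u i).card * (Δ + 1) := by ring
      _ ≤ (Δ + 1) ^ i * (Δ + 1) := Nat.mul_le_mul_right _ ih
      _ = (Δ + 1) ^ (i + 1) := by rw [pow_succ]

lemma Nbh_cover {G : SimpleGraph V} {u : V} {D : Set V} {m : ℕ} (hD : Cn G D) (hu : u ∈ D)
    (hm : D.ncard ≤ m) : D ⊆ (Nbh G u m : Set V) := by
  classical
  have claim : ∀ i, D ⊆ (Nbh G u i : Set V) ∨ i + 1 ≤ (D ∩ (Nbh G u i : Set V)).ncard := by
    intro i
    induction i with
    | zero =>
      right
      have : D ∩ (Nbh G u 0 : Set V) = {u} := by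
        ext x
        simp only [Nbh, Finset.coe_singleton, Set.mem_inter_iff, Set.mem_singleton_iff]
        constructor
        · exact fun h => h.2
        · rintro rfl; exact ⟨hu, rfl⟩
      rw [this, Set.ncard_singleton]
    | succ i ih =>
      have hsub : (Nbh G u i : Set V) ⊆ (Nbh G u (i + 1) : Set V) := by
        intro x hx
        rw [Finset.mem_coe] at hx ⊢
        exact Finset.mem_union_left _ hx
      have hmem : ∀ i, u ∈ Nbh G u i := by
        intro i
        induction i with
        | zero => simp [Nbh]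
        | succ i ih2 => exact Finset.mem_union_left _ ih2
      rcases ih with h | h
      · exact Or.inl (h.trans hsub)
      · by_cases hc : D ⊆ (Nbh G u i : Set V)
        · exact Or.inl (hc.trans hsub)
        · rw [Set.not_subset] at hc
          obtain ⟨y, hy, hyN⟩ := hc
          obtain ⟨p, q, hp, hpN, hq, hqN, hpq⟩ := leave hD hu (Finset.mem_coe.2 (hmem i)) hy hyN
          right
          have hqN' : q ∈ (Nbh G u (i + 1) : Set V) := by
            rw [Finset.mem_coe]
            exact Finset.mem_union_right _ (Finset.mem_biUnion.2 ⟨p, Finset.mem_coe.1 hpN, mem_nb.2 hpq⟩)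
          have hss : D ∩ (Nbh G u i : Set V) ⊂ D ∩ (Nbh G u (i + 1) : Set V) := by
            refine ⟨Set.inter_subset_inter_right _ hsub, fun hcon => ?_⟩
            exact hqN (hcon ⟨hq, hqN'⟩).2
          have := Set.ncard_lt_ncard hss (Set.toFinite _)
          omega
  rcases claim m with h | h
  · exact h
  · have : (D ∩ (Nbh G u m : Set V)).ncard ≤ D.ncard := Set.ncard_le_ncard Set.inter_subset_left (Set.toFinite _)
    omega

end Nbh

section

variable {V : Type u} {G : SimpleGraph V} (L : Layering G)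

/-- power graph on layer `j` -/
def Layering.pw (m j : ℕ) : SimpleGraph V where
  Adj u v := u ≠ v ∧ L.lv u = j ∧ L.lv v = j ∧ ∃ D, Cn G D ∧ D.ncard ≤ m ∧ u ∈ D ∧ v ∈ D ∧ D ⊆ L.chunk j
  symm := ⟨by
    rintro u v ⟨h1, h2, h3, D, h4, h5, h6, h7, h8⟩
    exact ⟨h1.symm, h3, h2, D, h4, h5, h7, h6, h8⟩⟩
  loopless := ⟨by rintro u ⟨h, _⟩; exact h rfl⟩

variable [Fintype V]

lemma Layering.pw_deg {Δ : ℕ} (hdeg : ∀ v, (nb G v).card ≤ Δ) (m j : ℕ) :
    ∀ u, (nb (L.pw m j) u).card ≤ (Δ + 1) ^ m := by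
  intro u
  refine le_trans (Finset.card_le_card ?_) (Nbh_card hdeg u m)
  intro v hv
  rw [mem_nb] at hv
  obtain ⟨_, _, _, D, h4, h5, h6, h7, _⟩ := hv
  exact Finset.mem_coe.1 (Nbh_cover h4 h6 h5 h7)

/-- bound on the separators of the power graph -/
noncomputable def K4 (t Δ m : ℕ) : ℕ := K3 t Δ * (Δ + 1) ^ m + 1

theorem Layering.pw_bal {t Δ : ℕ} (ht : 1 ≤ t) (hΔ : 1 ≤ Δ) (hdeg : ∀ v, (nb G v).card ≤ Δ)
    (hKM : ¬ KM G t) (m j : ℕ) (hm : 1 ≤ m) : Bal (L.pw m j) (K4 t Δ m) := by
  classical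
  intro S
  by_cases hS : S.card ≤ 1
  · refine ⟨S, by unfold K4; omega, ?_⟩
    intro C _ hd
    have : S.filter (fun v => v ∈ C) = ∅ := by
      rw [Finset.filter_eq_empty_iff]
      intro v hv hvC
      exact Set.disjoint_left.1 hd hvC hv
    rw [this]; simp
  · push Not at hS
    obtain ⟨X, hX, hXb⟩ := L.chunk_bal ht hΔ hdeg hKM j S
    refine ⟨X.biUnion (fun x => Nbh G x m), ?_, ?_⟩
    · have h1 : (X.biUnion (fun x => Nbh G x m)).card ≤ X.card * (Δ + 1) ^ m :=
        Finset.card_biUnion_le_card_mul _ _ _ (fun x _ => Nbh_card hdeg x m)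
      have h2 : X.card * (Δ + 1) ^ m ≤ K3 t Δ * (Δ + 1) ^ m := Nat.mul_le_mul_right _ hX
      unfold K4; omega
    · intro C hC hd
      by_cases hlay : ∃ u ∈ C, L.lv u ≠ j
      · obtain ⟨u, hu, huj⟩ := hlay
        have hiso : ∀ w, ¬ (L.pw m j).Adj w u := fun w h => huj h.2.2.1
        have hCu : C ⊆ {u} := by
          intro v hv
          have h1 := hC.2 v hv u hu
          have : v = u := RI_ne_of_isolated hiso h1
          exact this
        have h2 : (S.filter (fun v => v ∈ C)).card ≤ 1 := by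
          apply Finset.card_le_one.2
          intro x hx y hy
          rw [Finset.mem_filter] at hx hy
          have e1 : x = u := hCu hx.2
          have e2 : y = u := hCu hy.2
          rw [e1, e2]
        omega
      · push Not at hlay
        have hchunk : ∀ u ∈ C, u ∈ L.chunk j := by
          intro u hu
          have := hlay u hu
          show j ≤ L.lv u + 1 ∧ L.lv u ≤ j + 1
          omega
        set C' : Set V := {y | ∃ u ∈ C, ∃ D, Cn G D ∧ D.ncard ≤ m ∧ u ∈ D ∧ y ∈ D ∧ D ⊆ L.chunk j} with hC'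
        have hCC' : C ⊆ C' := by
          intro u hu
          refine ⟨u, hu, {u}, Cn_singleton G u, ?_, rfl, rfl, ?_⟩
          · rw [Set.ncard_singleton]; exact hm
          · rintro v hv
            have : v = u := hv
            rw [this]; exact hchunk u hu
        have hDC' : ∀ u ∈ C, ∀ D, Cn G D → D.ncard ≤ m → u ∈ D → D ⊆ L.chunk j → D ⊆ C' :=
          fun u hu D h1 h2 h3 h4 y hy => ⟨u, hu, D, h1, h2, h3, hy, h4⟩
        have hC'C : Cn G C' := by
          obtain ⟨u0, hu0⟩ := hC.1
          refine Cn_of_center (hCC' hu0) ?_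
          have hgen : ∀ u, RI (L.pw m j) C u0 u → RI G C' u0 u := by
            intro u h
            induction h with
            | refl => exact RI.refl _
            | @tail y z h2 h3 ih =>
              obtain ⟨⟨_, _, _, D, d1, d2, d3, d4, d5⟩, hy, hz⟩ := h3
              exact ih.trans ((d1.2 y d3 z d4).monoS (hDC' y hy D d1 d2 d3 d5))
          rintro y ⟨u, hu, D, d1, d2, d3, d4, d5⟩
          exact (hgen u (hC.2 u0 hu0 u hu)).trans ((d1.2 u d3 y d4).monoS (hDC' u hu D d1 d2 d3 d5))
        have hC'j : C' ⊆ L.chunk j := by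
          rintro y ⟨u, _, D, _, _, _, d4, d5⟩
          exact d5 d4
        have hC'X : Disjoint C' (X : Set V) := by
          rw [Set.disjoint_left]
          rintro y ⟨u, hu, D, d1, d2, d3, d4, _⟩ hyX
          apply Set.disjoint_left.1 hd hu
          rw [Finset.mem_coe, Finset.mem_biUnion]
          exact ⟨y, hyX, Finset.mem_coe.1 (Nbh_cover d1 d4 d2 d3)⟩
        have h1 : 2 * (S.filter (fun v => v ∈ C')).card ≤ S.card := by
          convert hXb C' hC'C hC'j hC'X
        have h2 : (S.filter (fun v => v ∈ C)).card ≤ (S.filter (fun v => v ∈ C')).card := by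
          apply Finset.card_le_card
          intro v hv
          rw [Finset.mem_filter] at hv ⊢
          exact ⟨hv.1, hCC' hv.2⟩
        omega

end

/-- gluing lemma for a low-scale part `P` and a high-scale part `Q` -/
theorem two_layer {V : Type*} [Fintype V] {G J : SimpleGraph V} {C P Q : Set V} {a b Δ : ℕ}
    (hdeg : ∀ v, (nb G v).card ≤ Δ) (hC : Cn G C) (hCPQ : C ⊆ P ∪ Q) (hPQ : Disjoint P Q) (ha1 : 0 < a)
    (hP : ∀ D, D ⊆ C ∩ P → Cn G D → D.ncard ≤ a) (hQ : ∀ D, D ⊆ C ∩ Q → Cn J D → D.ncard ≤ b)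
    (hJ : ∀ u ∈ C ∩ Q, ∀ v ∈ C ∩ Q, u ≠ v → (∃ D, Cn G D ∧ D.ncard ≤ a + 2 ∧ u ∈ D ∧ v ∈ D ∧ D ⊆ C) →
      J.Adj u v) : C.ncard ≤ a + b + b * Δ * a := by
  classical
  by_cases hCQ : ∃ q, q ∈ C ∩ Q
  · obtain ⟨q0, hq0⟩ := hCQ
    -- the trace on `Q` is connected in `J`
    have inv : ∀ x, RI G C q0 x → (x ∈ Q → RI J (C ∩ Q) q0 x) ∧
        (x ∈ P → ∃ q ∈ C ∩ Q, RI J (C ∩ Q) q0 q ∧ ∃ y ∈ cmp G (C ∩ P) x, G.Adj q y ∧ y ∈ C ∩ P) := by
      intro x hx
      induction hx with
      | refl =>
        exact ⟨fun _ => RI.refl _, fun h => absurd hq0.2 (Set.disjoint_left.1 hPQ h)⟩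
      | @tail y z h1 h2 ih =>
        obtain ⟨hyz, hy, hz⟩ := h2
        constructor
        · intro hzQ
          rcases hCPQ hy with hyP | hyQ
          · obtain ⟨q, hq, hqr, w, hw, hqw, hwm⟩ := ih.2 hyP
            by_cases hqz : q = z
            · rw [← hqz]; exact hqr
            · refine hqr.trans (RI.single ?_ hq ⟨hz, hzQ⟩)
              have hcsub : cmp G (C ∩ P) y ⊆ C ∩ P := cmp_subset ⟨hy, hyP⟩
              apply hJ q hq z ⟨hz, hzQ⟩ hqz
              refine ⟨({q} ∪ cmp G (C ∩ P) y) ∪ {z}, ?_, ?_, Or.inl (Or.inl rfl), Or.inr rfl, ?_⟩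
              · refine Cn.union_of_adj ((Cn_singleton G q).union_of_adj Cn_cmp rfl hw hqw)
                  (Cn_singleton G z) (Or.inr mem_cmp_self) rfl hyz
              · have h3 := hP _ hcsub Cn_cmp
                have h4 : (({q} ∪ cmp G (C ∩ P) y) ∪ {z}).ncard ≤ ({q} ∪ cmp G (C ∩ P) y).ncard + ({z} : Set V).ncard :=
                  Set.ncard_union_le _ _
                have h5 : ({q} ∪ cmp G (C ∩ P) y).ncard ≤ ({q} : Set V).ncard + (cmp G (C ∩ P) y).ncard :=
                  Set.ncard_union_le _ _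
                rw [Set.ncard_singleton] at h4 h5
                omega
              · rintro w' ((h | h) | h)
                · have : w' = q := h
                  rw [this]; exact hq.1
                · exact (hcsub h).1
                · have : w' = z := h
                  rw [this]; exact hz
          · refine (ih.1 hyQ).trans (RI.single ?_ ⟨hy, hyQ⟩ ⟨hz, hzQ⟩)
            apply hJ y ⟨hy, hyQ⟩ z ⟨hz, hzQ⟩ hyz.ne
            refine ⟨{y} ∪ {z}, (Cn_singleton G y).union_of_adj (Cn_singleton G z) rfl rfl hyz, ?_, Or.inl rfl,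
              Or.inr rfl, ?_⟩
            · have h5 : ({y} ∪ {z} : Set V).ncard ≤ ({y} : Set V).ncard + ({z} : Set V).ncard :=
                Set.ncard_union_le _ _
              rw [Set.ncard_singleton, Set.ncard_singleton] at h5
              omega
            · rintro w' (h | h)
              · have : w' = y := h
                rw [this]; exact hy
              · have : w' = z := h
                rw [this]; exact hz
        · intro hzP
          rcases hCPQ hy with hyP | hyQ
          · obtain ⟨q, hq, hqr, w, hw, hqw, hwm⟩ := ih.2 hyP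
            refine ⟨q, hq, hqr, w, ?_, hqw, hwm⟩
            have h3 : RI G (C ∩ P) y w := hw
            have h4 : RI G (C ∩ P) y z := RI.single hyz ⟨hy, hyP⟩ ⟨hz, hzP⟩
            exact h4.symm.trans h3
          · exact ⟨y, ⟨hy, hyQ⟩, ih.1 hyQ, z, mem_cmp_self, hyz, ⟨hz, hzP⟩⟩
    have hQc : Cn J (C ∩ Q) := by
      refine Cn_of_center hq0 ?_
      intro x hx
      exact (inv x (hC.2 q0 hq0.1 x hx.1)).1 hx.2
    have hQb := hQ _ (le_refl _) hQc
    -- the part in `P`
    set QF : Finset V := univ.filter (fun v => v ∈ C ∩ Q) with hQF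
    have hQFc : QF.card = (C ∩ Q).ncard := by
      rw [← Set.ncard_coe_finset]
      congr 1
      ext v; simp [hQF]
    set PF : Finset V := univ.filter (fun v => v ∈ C ∩ P) with hPF
    have hPFc : PF.card = (C ∩ P).ncard := by
      rw [← Set.ncard_coe_finset]
      congr 1
      ext v; simp [hPF]
    have hcov : PF ⊆ (QF.biUnion (fun q => (nb G q).filter (fun y => y ∈ C ∩ P))).biUnion
        (fun y => univ.filter (fun v => v ∈ cmp G (C ∩ P) y)) := by
      intro x hx
      rw [hPF, Finset.mem_filter] at hx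
      obtain ⟨q, hq, _, y, hy, hqy, hym⟩ := (inv x (hC.2 q0 hq0.1 x hx.2.1)).2 hx.2.2
      rw [Finset.mem_biUnion]
      refine ⟨y, ?_, ?_⟩
      · rw [Finset.mem_biUnion]
        refine ⟨q, ?_, ?_⟩
        · rw [hQF, Finset.mem_filter]; exact ⟨mem_univ _, hq⟩
        · rw [Finset.mem_filter, mem_nb]; exact ⟨hqy, hym⟩
      · rw [Finset.mem_filter]
        refine ⟨mem_univ _, ?_⟩
        have h3 : RI G (C ∩ P) x y := hy
        exact h3.symm
    have h1 : (QF.biUnion (fun q => (nb G q).filter (fun y => y ∈ C ∩ P))).card ≤ QF.card * Δ :=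
      Finset.card_biUnion_le_card_mul _ _ _ (fun q _ => (Finset.card_filter_le _ _).trans (hdeg q))
    have h2 : ((QF.biUnion (fun q => (nb G q).filter (fun y => y ∈ C ∩ P))).biUnion
        (fun y => univ.filter (fun v => v ∈ cmp G (C ∩ P) y))).card ≤
        (QF.biUnion (fun q => (nb G q).filter (fun y => y ∈ C ∩ P))).card * a := by
      apply Finset.card_biUnion_le_card_mul
      intro y hy
      rw [Finset.mem_biUnion] at hy
      obtain ⟨q, _, hy⟩ := hy
      rw [Finset.mem_filter] at hy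
      have h3 := hP _ (cmp_subset hy.2) Cn_cmp
      have h4 : (univ.filter (fun v => v ∈ cmp G (C ∩ P) y)).card = (cmp G (C ∩ P) y).ncard := by
        rw [← Set.ncard_coe_finset]
        congr 1
        ext v; simp
      rw [h4]; exact h3
    have h3 : PF.card ≤ b * Δ * a := by
      calc PF.card ≤ _ := Finset.card_le_card hcov
        _ ≤ _ := h2
        _ ≤ QF.card * Δ * a := Nat.mul_le_mul_right _ h1
        _ ≤ b * Δ * a := by
            apply Nat.mul_le_mul_right
            apply Nat.mul_le_mul_right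
            rw [hQFc]; exact hQb
    have h4 : C ⊆ (C ∩ P) ∪ (C ∩ Q) := by
      intro x hx
      rcases hCPQ hx with h | h
      · exact Or.inl ⟨hx, h⟩
      · exact Or.inr ⟨hx, h⟩
    have h5 : C.ncard ≤ (C ∩ P).ncard + (C ∩ Q).ncard :=
      (Set.ncard_le_ncard h4 (Set.toFinite _)).trans (Set.ncard_union_le _ _)
    rw [hPFc] at h3
    omega
  · push Not at hCQ
    have hCP : C ⊆ C ∩ P := by
      intro x hx
      rcases hCPQ hx with h | h
      · exact ⟨hx, h⟩
      · exact absurd ⟨hx, h⟩ (hCQ x)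
    have := hP C hCP hC
    have h2 : 0 ≤ b * Δ * a := Nat.zero_le _
    omega

/-- clustering of one layer at scale `m` -/
noncomputable def cc (t Δ m : ℕ) : ℕ := 24 * K4 t Δ m * (Δ + 1) ^ m

/-- the three scales -/
noncomputable def scl (t Δ : ℕ) : ℕ → ℕ
  | 0 => 2
  | 1 => cc t Δ 2 + 2
  | _ => cc t Δ 2 + cc t Δ (cc t Δ 2 + 2) + 2

/-- the clustering bound of each type of layer -/
noncomputable def cl (t Δ i : ℕ) : ℕ := cc t Δ (scl t Δ i)

/-- final bound -/
noncomputable def CB (t Δ : ℕ) : ℕ :=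
  (cl t Δ 0 + cl t Δ 1 + cl t Δ 2 + 1) + (cl t Δ 0 + cl t Δ 1 + cl t Δ 2 + 1) +
    (cl t Δ 0 + cl t Δ 1 + cl t Δ 2 + 1) * Δ * (cl t Δ 0 + cl t Δ 1 + cl t Δ 2 + 1)

theorem bd_connected {t Δ : ℕ} (ht : 1 ≤ t) (hΔ : 1 ≤ Δ) {V : Type u} [Fintype V] {G : SimpleGraph V}
    (hG : G.Connected) (hdeg : ∀ v, (nb G v).card ≤ Δ) (hKM : ¬ KM G t) :
    ∃ f : V → Fin 3, ∀ C, Cn G C → (∀ x ∈ C, ∀ y ∈ C, f x = f y) → C.ncard ≤ CB t Δ := by
  classical
  obtain ⟨L⟩ := exists_layering hG
  have hK4 : ∀ m, 1 ≤ K4 t Δ m := fun m => by unfold K4; omega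
  have hscl : ∀ i, 2 ≤ scl t Δ i := by
    intro i
    rcases i with _ | _ | i
    · exact le_refl _
    · show 2 ≤ cc t Δ 2 + 2; omega
    · show 2 ≤ cc t Δ 2 + cc t Δ (cc t Δ 2 + 2) + 2; omega
  have hcol : ∀ j, ∃ f : V → Bool, ∀ C, Cn (L.pw (scl t Δ (j % 3)) j) C →
      (∀ x ∈ C, ∀ y ∈ C, f x = f y) → C.ncard ≤ cl t Δ (j % 3) := by
    intro j
    have h1 := two_col (J := L.pw (scl t Δ (j % 3)) j) (hK4 (scl t Δ (j % 3)))
      (Nat.one_le_pow _ _ (by omega)) (L.pw_deg hdeg _ j)
      (L.pw_bal ht hΔ hdeg hKM _ j (by have := hscl (j % 3); omega))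
    exact h1
  choose g hg using hcol
  -- connected sets of `G` inside a layer
  have hlayer : ∀ j, ∀ D, Cn G D → (∀ x ∈ D, L.lv x = j) → (∀ x ∈ D, ∀ y ∈ D, g j x = g j y) →
      D.ncard ≤ cl t Δ (j % 3) := by
    intro j D hD hDj hm
    refine hg j D ⟨hD.1, ?_⟩ hm
    intro x hx y hy
    refine (hD.2 x hx y hy).mono ?_ (le_refl _)
    intro u hu v hv huv
    refine ⟨huv.ne, hDj u hu, hDj v hv, {u} ∪ {v}, (Cn_singleton G u).union_of_adj (Cn_singleton G v) rfl rfl huv,
      ?_, Or.inl rfl, Or.inr rfl, ?_⟩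
    · have h5 : ({u} ∪ {v} : Set V).ncard ≤ ({u} : Set V).ncard + ({v} : Set V).ncard :=
        Set.ncard_union_le _ _
      rw [Set.ncard_singleton, Set.ncard_singleton] at h5
      have := hscl (j % 3)
      omega
    · have h1 := hDj u hu
      have h2 := hDj v hv
      rintro w (h | h)
      · have : w = u := h
        rw [this]; show j ≤ L.lv u + 1 ∧ L.lv u ≤ j + 1; omega
      · have : w = v := h
        rw [this]; show j ≤ L.lv v + 1 ∧ L.lv v ≤ j + 1; omega
  set F : V → ℕ := fun v => (L.lv v + (if g (L.lv v) v = true then 1 else 0)) % 3 with hF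
  refine ⟨fun v => ⟨F v, Nat.mod_lt _ (by norm_num)⟩, ?_⟩
  intro C hC hmono
  have hmono' : ∀ x ∈ C, ∀ y ∈ C, F x = F y := fun x hx y hy => congrArg Fin.val (hmono x hx y hy)
  obtain ⟨x0, hx0⟩ := hC.1
  set c := F x0 with hc
  have hc3 : c < 3 := Nat.mod_lt _ (by norm_num)
  have hFc : ∀ x ∈ C, F x = c := fun x hx => hmono' x hx x0 hx0
  -- the upper layer
  obtain ⟨j, hjc, hj0⟩ : ∃ j, j % 3 = c ∧ (L.lv x0 = j ∨ L.lv x0 + 1 = j) := by
    have h1 := hFc x0 hx0
    rw [hF] at h1
    simp only at h1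
    split_ifs at h1
    · exact ⟨L.lv x0 + 1, h1, Or.inr rfl⟩
    · exact ⟨L.lv x0, by omega, Or.inl rfl⟩
  have hallC : ∀ x ∈ C, L.lv x = j ∨ L.lv x + 1 = j := by
    have hgen : ∀ x, RI G C x0 x → L.lv x = j ∨ L.lv x + 1 = j := by
      intro x h
      induction h with
      | refl => exact hj0
      | @tail y z h1 h2 ih =>
        have h3 := L.adj_le y z h2.1
        have h4 := L.adj_le z y h2.1.symm
        have h5 := hFc z h2.2.2
        rw [hF] at h5
        simp only at h5
        split_ifs at h5 <;> omega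
    exact fun x hx => hgen x (hC.2 x0 hx0 x hx)
  -- values of `g`
  have hghi : ∀ x ∈ C, L.lv x = j → g j x = false := by
    intro x hx hxj
    have h5 := hFc x hx
    rw [hF] at h5
    simp only at h5
    rw [hxj] at h5
    by_contra hcon
    rw [Bool.not_eq_false] at hcon
    rw [if_pos hcon] at h5
    omega
  have hglo : ∀ x ∈ C, L.lv x + 1 = j → g (L.lv x) x = true := by
    intro x hx hxj
    have h5 := hFc x hx
    rw [hF] at h5
    simp only at h5
    by_contra hcon
    rw [if_neg hcon] at h5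
    omega
  set Hi : Set V := {v | L.lv v = j} with hHi
  set Lo : Set V := {v | L.lv v + 1 = j} with hLo
  have hdis : Disjoint Hi Lo := by
    rw [Set.disjoint_left]
    intro x hx hx'
    have h1 : L.lv x = j := hx
    have h2 : L.lv x + 1 = j := hx'
    omega
  -- generic estimate
  have hHiD : ∀ D, D ⊆ C ∩ Hi → Cn G D → D.ncard ≤ cl t Δ (j % 3) + 1 := by
    intro D hD hDc
    have := hlayer j D hDc (fun x hx => (hD hx).2) (fun x hx y hy => by
      rw [hghi x (hD hx).1 (hD hx).2, hghi y (hD hy).1 (hD hy).2])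
    omega
  have hLoD : ∀ D, D ⊆ C ∩ Lo → Cn G D → D.ncard ≤ cl t Δ ((j + 2) % 3) + 1 := by
    intro D hD hDc
    obtain ⟨x, hx⟩ := hDc.1
    have hxj : L.lv x + 1 = j := (hD hx).2
    have hall : ∀ y ∈ D, L.lv y = L.lv x := by
      intro y hy
      have hyj : L.lv y + 1 = j := (hD hy).2
      omega
    have h1 := hlayer (L.lv x) D hDc hall (fun y hy z hz => by
      have h1 := hglo y (hD hy).1 (hD hy).2
      have h2 := hglo z (hD hz).1 (hD hz).2
      rw [hall y hy] at h1
      rw [hall z hz] at h2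
      rw [h1, h2])
    have h2 : L.lv x % 3 = (j + 2) % 3 := by omega
    rw [h2] at h1
    omega
  have hHiJ : ∀ D, D ⊆ C ∩ Hi → Cn (L.pw (scl t Δ (j % 3)) j) D → D.ncard ≤ cl t Δ (j % 3) := by
    intro D hD hDc
    refine hg j D hDc (fun x hx y hy => ?_)
    rw [hghi x (hD hx).1 (hD hx).2, hghi y (hD hy).1 (hD hy).2]
  have hchHi : ∀ D, D ⊆ C → D ⊆ L.chunk j := by
    intro D hD x hx
    rcases hallC x (hD hx) with h | h
    · show j ≤ L.lv x + 1 ∧ L.lv x ≤ j + 1; omega
    · show j ≤ L.lv x + 1 ∧ L.lv x ≤ j + 1; omega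
  have hCU : C ⊆ Lo ∪ Hi := by
    intro x hx
    rcases hallC x hx with h | h
    · exact Or.inr h
    · exact Or.inl h
  have s0 : scl t Δ 0 = 2 := rfl
  have s1 : scl t Δ 1 = cc t Δ 2 + 2 := rfl
  have s2 : scl t Δ 2 = cc t Δ 2 + cc t Δ (cc t Δ 2 + 2) + 2 := rfl
  have l0 : cl t Δ 0 = cc t Δ 2 := rfl
  have l1 : cl t Δ 1 = cc t Δ (cc t Δ 2 + 2) := rfl
  have hccpos : ∀ m, 1 ≤ cc t Δ m := by
    intro m
    unfold cc
    have := hK4 m
    have h2 : 1 ≤ (Δ + 1) ^ m := Nat.one_le_pow _ _ (by omega)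
    exact Nat.mul_pos (by omega) h2
  have hfin : ∀ a b, a ≤ cl t Δ 0 + cl t Δ 1 + cl t Δ 2 + 1 → b ≤ cl t Δ 0 + cl t Δ 1 + cl t Δ 2 + 1 →
      a + b + b * Δ * a ≤ CB t Δ := by
    intro a b ha hb
    unfold CB
    have h1 : b * Δ * a ≤ (cl t Δ 0 + cl t Δ 1 + cl t Δ 2 + 1) * Δ * (cl t Δ 0 + cl t Δ 1 + cl t Δ 2 + 1) :=
      Nat.mul_le_mul (Nat.mul_le_mul_right _ hb) ha
    omega
  -- case distinction on the colour
  rcases (show c = 0 ∨ c = 1 ∨ c = 2 by omega) with h | h | h
  · -- upper layer type 0 (low scale), lower layer type 2 (high scale)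
    have hj3 : j % 3 = 0 := by omega
    have hj3' : (j + 2) % 3 = 2 := by omega
    by_cases hjpos : j = 0
    · -- only the upper layer
      have hsub : C ⊆ C ∩ Hi := by
        intro x hx
        rcases hallC x hx with h' | h'
        · exact ⟨hx, h'⟩
        · omega
      have h1 := hHiD C hsub hC
      rw [hj3] at h1
      refine le_trans ?_ (hfin (cl t Δ 0 + 1) 0 (by omega) (by omega))
      omega
    · obtain ⟨i, rfl⟩ : ∃ i, j = i + 1 := ⟨j - 1, by omega⟩
      have hi3 : i % 3 = 2 := by omega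
      have hg' : ∀ D, D ⊆ C ∩ Lo → Cn (L.pw (scl t Δ (i % 3)) i) D → D.ncard ≤ cl t Δ (i % 3) := by
        intro D hD hDc
        refine hg i D hDc (fun x hx y hy => ?_)
        have h1 : L.lv x + 1 = i + 1 := (hD hx).2
        have h2 : L.lv y + 1 = i + 1 := (hD hy).2
        have h3 := hglo x (hD hx).1 h1
        have h4 := hglo y (hD hy).1 h2
        have e1 : L.lv x = i := by omega
        have e2 : L.lv y = i := by omega
        rw [e1] at h3
        rw [e2] at h4
        rw [h3, h4]
      have := two_layer (J := L.pw (scl t Δ (i % 3)) i) (a := cl t Δ 0) (b := cl t Δ (i % 3)) hdeg hC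
        (P := Hi) (Q := Lo) (by rw [Set.union_comm]; exact hCU) hdis (by rw [l0]; exact hccpos 2)
        (by
          intro D hD hDc
          have := hlayer (i + 1) D hDc (fun x hx => (hD hx).2) (fun x hx y hy => by
            rw [hghi x (hD hx).1 (hD hx).2, hghi y (hD hy).1 (hD hy).2])
          rw [hj3] at this
          exact this) hg'
        (by
          rintro u hu v hv huv ⟨D, d1, d2, d3, d4, d5⟩
          have e1 : L.lv u + 1 = i + 1 := hu.2
          have e2 : L.lv v + 1 = i + 1 := hv.2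
          refine ⟨huv, by omega, by omega, D, d1, ?_, d3, d4, ?_⟩
          · rw [hi3, s2]
            rw [l0] at d2
            omega
          · intro x hx
            rcases hallC x (d5 hx) with h' | h'
            · show i ≤ L.lv x + 1 ∧ L.lv x ≤ i + 1; omega
            · show i ≤ L.lv x + 1 ∧ L.lv x ≤ i + 1; omega)
      rw [hi3] at this
      refine le_trans this (hfin _ _ (by omega) (by omega))
  · -- upper layer type 1 (high scale), lower layer type 0
    have hj3 : j % 3 = 1 := by omega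
    have hj3' : (j + 2) % 3 = 0 := by omega
    have := two_layer (J := L.pw (scl t Δ (j % 3)) j) (a := cl t Δ 0) (b := cl t Δ (j % 3)) hdeg hC
      (P := Lo) (Q := Hi) hCU hdis.symm (by rw [l0]; exact hccpos 2)
      (by
        intro D hD hDc
        obtain ⟨x, hx⟩ := hDc.1
        have hxj : L.lv x + 1 = j := (hD hx).2
        have hall : ∀ y ∈ D, L.lv y = L.lv x := by
          intro y hy
          have hyj : L.lv y + 1 = j := (hD hy).2
          omega
        have h1 := hlayer (L.lv x) D hDc hall (fun y hy z hz => by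
          have h1 := hglo y (hD hy).1 (hD hy).2
          have h2 := hglo z (hD hz).1 (hD hz).2
          rw [hall y hy] at h1
          rw [hall z hz] at h2
          rw [h1, h2])
        have h2 : L.lv x % 3 = 0 := by omega
        rw [h2] at h1
        exact h1) hHiJ
      (by
        rintro u hu v hv huv ⟨D, d1, d2, d3, d4, d5⟩
        refine ⟨huv, hu.2, hv.2, D, d1, ?_, d3, d4, hchHi D d5⟩
        rw [hj3, s1]
        rw [l0] at d2
        omega)
    rw [hj3] at this
    refine le_trans this (hfin _ _ (by omega) (by omega))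
  · -- upper layer type 2 (high scale), lower layer type 1
    have hj3 : j % 3 = 2 := by omega
    have := two_layer (J := L.pw (scl t Δ (j % 3)) j) (a := cl t Δ 1) (b := cl t Δ (j % 3)) hdeg hC
      (P := Lo) (Q := Hi) hCU hdis.symm (by rw [l1]; exact hccpos _)
      (by
        intro D hD hDc
        obtain ⟨x, hx⟩ := hDc.1
        have hxj : L.lv x + 1 = j := (hD hx).2
        have hall : ∀ y ∈ D, L.lv y = L.lv x := by
          intro y hy
          have hyj : L.lv y + 1 = j := (hD hy).2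
          omega
        have h1 := hlayer (L.lv x) D hDc hall (fun y hy z hz => by
          have h1 := hglo y (hD hy).1 (hD hy).2
          have h2 := hglo z (hD hz).1 (hD hz).2
          rw [hall y hy] at h1
          rw [hall z hz] at h2
          rw [h1, h2])
        have h2 : L.lv x % 3 = 1 := by omega
        rw [h2] at h1
        exact h1) hHiJ
      (by
        rintro u hu v hv huv ⟨D, d1, d2, d3, d4, d5⟩
        refine ⟨huv, hu.2, hv.2, D, d1, ?_, d3, d4, hchHi D d5⟩
        rw [hj3, s2]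
        rw [l1] at d2
        omega)
    rw [hj3] at this
    refine le_trans this (hfin _ _ (by omega) (by omega))

/-- **Bounded degree**: the disconnected case -/
theorem bd_three {t Δ : ℕ} (ht : 1 ≤ t) (hΔ : 1 ≤ Δ) {V : Type u} [Fintype V] {G : SimpleGraph V}
    (hdeg : ∀ v, (nb G v).card ≤ Δ) (hKM : ¬ KM G t) :
    ∃ f : V → Fin 3, ∀ C, Cn G C → (∀ x ∈ C, ∀ y ∈ C, f x = f y) → C.ncard ≤ CB t Δ := by
  classical
  have hcomp : ∀ c : G.ConnectedComponent, ∃ f : c.supp → Fin 3, ∀ C, Cn (G.induce c.supp) C →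
      (∀ x ∈ C, ∀ y ∈ C, f x = f y) → C.ncard ≤ CB t Δ := by
    intro c
    have hconn : (G.induce c.supp).Connected := c.connected_toSimpleGraph
    refine bd_connected ht hΔ hconn ?_ ?_
    · intro v
      refine le_trans ?_ (hdeg v.1)
      refine Finset.card_le_card_of_injOn Subtype.val ?_ (fun x _ y _ h => Subtype.ext h)
      intro w hw
      rw [Finset.mem_coe, mem_nb] at hw ⊢
      exact hw
    · intro h
      exact hKM (h.of_Mn (Mn_of_embedding Subtype.val Subtype.val_injective (fun u w h => h)))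
  choose F hF using hcomp
  refine ⟨fun v => F (G.connectedComponentMk v) ⟨v, rfl⟩, ?_⟩
  intro C hC hmono
  obtain ⟨x0, hx0⟩ := hC.1
  set c := G.connectedComponentMk x0 with hc
  have hCc : ∀ x ∈ C, G.connectedComponentMk x = c := by
    have hgen : ∀ x, RI G C x0 x → G.connectedComponentMk x = c := by
      intro x h
      induction h with
      | refl => rfl
      | tail h1 h2 ih =>
        rw [← ih]
        exact (SimpleGraph.ConnectedComponent.sound h2.1.reachable).symm
    exact fun x hx => hgen x (hC.2 x0 hx0 x hx)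
  have hFeq : ∀ x (hx : x ∈ C), F (G.connectedComponentMk x) ⟨x, rfl⟩ = F c ⟨x, hCc x hx⟩ := by
    intro x hx
    have h := hCc x hx
    clear_value c
    subst h
    rfl
  set C' : Set c.supp := {x | x.1 ∈ C} with hC'
  have hC'C : Cn (G.induce c.supp) C' := by
    refine Cn_of_center (x := ⟨x0, hCc x0 hx0⟩) hx0 ?_
    have hgen : ∀ x, RI G C x0 x → ∀ hx : x ∈ c.supp, RI (G.induce c.supp) C' ⟨x0, hCc x0 hx0⟩ ⟨x, hx⟩ := by
      intro x h
      induction h with
      | refl => intro _; exact RI.refl _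
      | @tail y z h1 h2 ih =>
        intro hz
        refine (ih (hCc y h2.2.1)).trans (RI.single ?_ h2.2.1 h2.2.2)
        exact h2.1
    rintro ⟨x, hx⟩ hxC
    exact hgen x (hC.2 x0 hx0 x hxC) hx
  have h1 := hF c C' hC'C (by
    rintro ⟨x, hx⟩ hxC ⟨y, hy⟩ hyC
    have h2 := hmono x hxC y hyC
    simp only at h2
    rw [hFeq x hxC, hFeq y hyC] at h2
    exact h2)
  have h2 : C.ncard = C'.ncard := by
    have : C = Subtype.val '' C' := by
      ext x
      constructor
      · intro hx; exact ⟨⟨x, hCc x hx⟩, hx, rfl⟩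
      · rintro ⟨y, hy, rfl⟩; exact hy
    rw [this, Set.ncard_image_of_injective _ Subtype.val_injective]
  omega

end Pool.Agent.Lib.MP_4332cb_co
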