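import Mathlib

/-!
Connected vertex sets and minors by branch sets.
-/

namespace Pool.Agent.Lib.MP_4332cb_co

open Finset

variable {V W : Type*}

/-- reachability inside a set of vertices -/
def RI (G : SimpleGraph V) (S : Set V) (x y : V) : Prop :=
  Relation.ReflTransGen (fun a b => G.Adj a b ∧ a ∈ S ∧ b ∈ S) x y

/-- connected nonempty set of vertices -/
def Cn (G : SimpleGraph V) (S : Set V) : Prop := S.Nonempty ∧ ∀ x ∈ S, ∀ y ∈ S, RI G S x y

lemma RI.refl {G : SimpleGraph V} {S : Set V} (x : V) : RI G S x x := Relation.ReflTransGen.refl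

lemma RI.trans {G : SimpleGraph V} {S : Set V} {x y z : V} (h1 : RI G S x y) (h2 : RI G S y z) :
    RI G S x z := Relation.ReflTransGen.trans h1 h2

lemma RI.symm {G : SimpleGraph V} {S : Set V} {x y : V} (h : RI G S x y) : RI G S y x := by
  induction h with
  | refl => exact RI.refl _
  | tail _ h2 ih => exact (Relation.ReflTransGen.single ⟨h2.1.symm, h2.2.2, h2.2.1⟩).trans ih

lemma RI.mono {G G' : SimpleGraph V} {S S' : Set V} (hG : ∀ a ∈ S, ∀ b ∈ S, G.Adj a b → G'.Adj a b)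
    (hS : S ⊆ S') {x y : V} (h : RI G S x y) : RI G' S' x y := by
  induction h with
  | refl => exact Relation.ReflTransGen.refl
  | tail _ h2 ih => exact Relation.ReflTransGen.tail ih ⟨hG _ h2.2.1 _ h2.2.2 h2.1, hS h2.2.1, hS h2.2.2⟩

lemma RI.monoS {G : SimpleGraph V} {S S' : Set V} (hS : S ⊆ S') {x y : V} (h : RI G S x y) :
    RI G S' x y := h.mono (fun _ _ _ _ h => h) hS

lemma RI.single {G : SimpleGraph V} {S : Set V} {x y : V} (h : G.Adj x y) (hx : x ∈ S) (hy : y ∈ S) :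
    RI G S x y := Relation.ReflTransGen.single ⟨h, hx, hy⟩

lemma RI.mem {G : SimpleGraph V} {S : Set V} {x y : V} (h : RI G S x y) (hx : x ∈ S) : y ∈ S := by
  induction h with
  | refl => exact hx
  | tail _ h2 _ => exact h2.2.2

lemma RI.mem_left {G : SimpleGraph V} {S : Set V} {x y : V} (h : RI G S x y) (hy : y ∈ S) : x ∈ S :=
  h.symm.mem hy

/-- the component of `x` in `S` -/
def cmp (G : SimpleGraph V) (S : Set V) (x : V) : Set V := {y | RI G S x y}

lemma cmp_subset {G : SimpleGraph V} {S : Set V} {x : V} (hx : x ∈ S) : cmp G S x ⊆ S :=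
  fun _ h => RI.mem h hx

lemma mem_cmp_self {G : SimpleGraph V} {S : Set V} {x : V} : x ∈ cmp G S x := RI.refl x

/-- reachability stays inside the component -/
lemma RI.in_cmp {G : SimpleGraph V} {S : Set V} {x y : V} (h : RI G S x y) :
    RI G (cmp G S x) x y := by
  induction h with
  | refl => exact RI.refl _
  | tail h1 h2 ih =>
    refine ih.trans (RI.single h2.1 h1 ?_)
    exact Relation.ReflTransGen.tail h1 h2

lemma Cn_cmp {G : SimpleGraph V} {S : Set V} {x : V} : Cn G (cmp G S x) := by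
  refine ⟨⟨x, mem_cmp_self⟩, fun y hy z hz => ?_⟩
  exact (RI.in_cmp hy).symm.trans (RI.in_cmp hz)

lemma Cn_singleton (G : SimpleGraph V) (x : V) : Cn G {x} := by
  refine ⟨⟨x, rfl⟩, ?_⟩
  rintro y rfl z rfl
  exact RI.refl _

lemma Cn.mono_graph {G G' : SimpleGraph V} {S : Set V}
    (hG : ∀ a ∈ S, ∀ b ∈ S, G.Adj a b → G'.Adj a b) (h : Cn G S) : Cn G' S :=
  ⟨h.1, fun x hx y hy => (h.2 x hx y hy).mono hG (le_refl _)⟩

lemma Cn.subset_cmp {G : SimpleGraph V} {S C : Set V} {x : V} (h : Cn G C) (hCS : C ⊆ S) (hx : x ∈ C) :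
    C ⊆ cmp G S x := fun y hy => (h.2 x hx y hy).monoS hCS

/-- a set all of whose elements are joined inside it to a fixed element is connected -/
lemma Cn_of_center {G : SimpleGraph V} {S : Set V} {x : V} (hx : x ∈ S) (h : ∀ y ∈ S, RI G S x y) :
    Cn G S := ⟨⟨x, hx⟩, fun y hy z hz => (h y hy).symm.trans (h z hz)⟩

lemma Cn.union_of_mem {G : SimpleGraph V} {S T : Set V} (hS : Cn G S) (hT : Cn G T) {x : V}
    (h1 : x ∈ S) (h2 : x ∈ T) : Cn G (S ∪ T) := by
  refine Cn_of_center (x := x) (Or.inl h1) ?_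
  rintro y (hy | hy)
  · exact (hS.2 x h1 y hy).monoS Set.subset_union_left
  · exact (hT.2 x h2 y hy).monoS Set.subset_union_right

lemma Cn.union_of_adj {G : SimpleGraph V} {S T : Set V} (hS : Cn G S) (hT : Cn G T) {x y : V}
    (h1 : x ∈ S) (h2 : y ∈ T) (h : G.Adj x y) : Cn G (S ∪ T) := by
  refine Cn_of_center (x := x) (Or.inl h1) ?_
  rintro z (hz | hz)
  · exact (hS.2 x h1 z hz).monoS Set.subset_union_left
  · exact (RI.single h (Or.inl h1) (Or.inr h2)).trans ((hT.2 y h2 z hz).monoS Set.subset_union_right)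

/-- union of a connected set with connected sets each of which is adjacent to it -/
lemma Cn.union_iUnion {G : SimpleGraph V} {ι : Type*} {S : Set V} (hS : Cn G S) (T : ι → Set V)
    (hT : ∀ i, Cn G (T i)) (h : ∀ i, ∃ x ∈ S, ∃ y ∈ T i, G.Adj x y ∨ x = y) : Cn G (S ∪ ⋃ i, T i) := by
  obtain ⟨x0, hx0⟩ := hS.1
  refine Cn_of_center (x := x0) (Or.inl hx0) ?_
  rintro z (hz | hz)
  · exact (hS.2 x0 hx0 z hz).monoS Set.subset_union_left
  · rw [Set.mem_iUnion] at hz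
    obtain ⟨i, hi⟩ := hz
    obtain ⟨x, hx, y, hy, hxy⟩ := h i
    have hsub : T i ⊆ S ∪ ⋃ i, T i := fun w hw => Or.inr (Set.mem_iUnion.2 ⟨i, hw⟩)
    have h1 : RI G (S ∪ ⋃ i, T i) x0 x := (hS.2 x0 hx0 x hx).monoS Set.subset_union_left
    have h2 : RI G (S ∪ ⋃ i, T i) x y := by
      rcases hxy with h3 | h3
      · exact RI.single h3 (Or.inl hx) (hsub hy)
      · rw [h3]; exact RI.refl _
    exact h1.trans (h2.trans (((hT i).2 y hy z hi).monoS hsub))

lemma Cn_iff (G : SimpleGraph V) (S : Set V) : Cn G S ↔ (G.induce S).Connected := by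
  constructor
  · rintro ⟨⟨x0, hx0⟩, h⟩
    have key : ∀ x (hx : x ∈ S) y (hy : y ∈ S), RI G S x y → (G.induce S).Reachable ⟨x, hx⟩ ⟨y, hy⟩ := by
      intro x hx y hy hxy
      induction hxy with
      | refl => exact SimpleGraph.Reachable.refl _
      | tail h1 h2 ih =>
        refine (ih h2.2.1).trans ?_
        apply SimpleGraph.Adj.reachable
        exact h2.1
    rw [SimpleGraph.connected_iff]
    refine ⟨?_, ⟨⟨x0, hx0⟩⟩⟩
    rintro ⟨x, hx⟩ ⟨y, hy⟩
    exact key x hx y hy (h x hx y hy)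
  · intro h
    obtain ⟨⟨x0, hx0⟩⟩ := h.nonempty
    refine ⟨⟨x0, hx0⟩, ?_⟩
    intro x hx y hy
    obtain ⟨w⟩ := h.preconnected ⟨x, hx⟩ ⟨y, hy⟩
    have key : ∀ (a b : S), (G.induce S).Walk a b → RI G S a.1 b.1 := by
      intro a b w
      induction w with
      | nil => exact RI.refl _
      | @cons u v w h _ ih =>
        have h' : G.Adj u.1 v.1 := h
        exact (RI.single h' u.2 v.2).trans ih
    exact key _ _ w

/-- `K` is a minor of `G`, by branch sets -/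
def Mn (K : SimpleGraph W) (G : SimpleGraph V) : Prop :=
  ∃ f : W → Set V, (∀ w, Cn G (f w)) ∧ (∀ u w, u ≠ w → Disjoint (f u) (f w)) ∧
    ∀ u w, K.Adj u w → ∃ x ∈ f u, ∃ y ∈ f w, G.Adj x y

lemma Mn.refl (G : SimpleGraph V) : Mn G G := by
  refine ⟨fun v => {v}, fun v => Cn_singleton G v, ?_, ?_⟩
  · intro u w h
    simpa using h
  · intro u w h
    exact ⟨u, rfl, w, rfl, h⟩

/-- blow-up of a connected set along connected branch sets is connected -/
lemma Cn_biUnion {K : SimpleGraph W} {G : SimpleGraph V} {f : W → Set V} {S : Set W}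
    (hf : ∀ w ∈ S, Cn G (f w)) (hadj : ∀ u ∈ S, ∀ w ∈ S, K.Adj u w → ∃ x ∈ f u, ∃ y ∈ f w, G.Adj x y)
    (hS : Cn K S) : Cn G (⋃ w ∈ S, f w) := by
  obtain ⟨u0, hu0⟩ := hS.1
  obtain ⟨x0, hx0⟩ := (hf u0 hu0).1
  have hsub : ∀ w ∈ S, f w ⊆ ⋃ w ∈ S, f w := fun w hw x hx => Set.mem_biUnion hw hx
  have key : ∀ w, RI K S u0 w → ∀ y ∈ f w, RI G (⋃ w ∈ S, f w) x0 y := by
    intro w hw
    induction hw with
    | refl => intro y hy; exact ((hf u0 hu0).2 x0 hx0 y hy).monoS (hsub u0 hu0)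
    | tail h1 h2 ih =>
      intro y hy
      obtain ⟨a, ha, b, hb, hab⟩ := hadj _ h2.2.1 _ h2.2.2 h2.1
      refine (ih a ha).trans ?_
      refine (RI.single hab (hsub _ h2.2.1 ha) (hsub _ h2.2.2 hb)).trans ?_
      exact ((hf _ h2.2.2).2 b hb y hy).monoS (hsub _ h2.2.2)
  refine Cn_of_center (hsub u0 hu0 hx0) ?_
  intro y hy
  rw [Set.mem_iUnion₂] at hy
  obtain ⟨w, hw, hy⟩ := hy
  exact key w (hS.2 u0 hu0 w hw) y hy

lemma Mn.trans {U : Type*} {J : SimpleGraph U} {K : SimpleGraph W} {G : SimpleGraph V}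
    (h1 : Mn J K) (h2 : Mn K G) : Mn J G := by
  obtain ⟨f, f1, f2, f3⟩ := h1
  obtain ⟨g, g1, g2, g3⟩ := h2
  refine ⟨fun u => ⋃ w ∈ f u, g w, ?_, ?_, ?_⟩
  · intro u
    exact Cn_biUnion (fun w _ => g1 w) (fun a _ b _ h => g3 a b h) (f1 u)
  · intro u u' h
    rw [Set.disjoint_left]
    intro x hx hx'
    rw [Set.mem_iUnion₂] at hx hx'
    obtain ⟨w, hw, hx⟩ := hx
    obtain ⟨w', hw', hx'⟩ := hx'
    have hne : w ≠ w' := by
      rintro rfl
      exact Set.disjoint_left.1 (f2 u u' h) hw hw'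
    exact Set.disjoint_left.1 (g2 w w' hne) hx hx'
  · intro u u' h
    obtain ⟨w, hw, w', hw', hww⟩ := f3 u u' h
    obtain ⟨x, hx, y, hy, hxy⟩ := g3 w w' hww
    exact ⟨x, Set.mem_biUnion hw hx, y, Set.mem_biUnion hw' hy, hxy⟩

/-- subgraphs are minors -/
lemma Mn_of_le {K G : SimpleGraph V} (h : K ≤ G) : Mn K G := by
  refine ⟨fun v => {v}, fun v => Cn_singleton G v, ?_, ?_⟩
  · intro u w h
    simpa using h
  · intro u w h1
    exact ⟨u, rfl, w, rfl, h h1⟩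

lemma Mn_of_embedding {K : SimpleGraph W} {G : SimpleGraph V} (φ : W → V) (hφ : Function.Injective φ)
    (h : ∀ u w, K.Adj u w → G.Adj (φ u) (φ w)) : Mn K G := by
  refine ⟨fun v => {φ v}, fun v => Cn_singleton G _, ?_, ?_⟩
  · intro u w h
    simpa using fun e => h (hφ e)
  · intro u w h1
    exact ⟨φ u, rfl, φ w, rfl, h u w h1⟩

/-- complete minor of order `t` -/
def KM (G : SimpleGraph V) (t : ℕ) : Prop := Mn (⊤ : SimpleGraph (Fin t)) G

lemma KM.of_Mn {K : SimpleGraph W} {G : SimpleGraph V} {t : ℕ} (h : KM K t) (h2 : Mn K G) : KM G t :=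
  Mn.trans h h2

/-- Minor obtained from disjoint connected sets (the vertices) and disjoint connected connectors
(one for each edge). -/
lemma Mn_of_rep {ι : Type*} [LinearOrder ι] {Γ : SimpleGraph ι} {G : SimpleGraph V} {κ : Type*}
    (Q : ι → Set V) (hQ : ∀ i, Cn G (Q i)) (hQd : ∀ i j, i ≠ j → Disjoint (Q i) (Q j))
    (Z : κ → Set V) (hZ : ∀ k, Cn G (Z k)) (hZd : ∀ k l, k ≠ l → Disjoint (Z k) (Z l))
    (hQZ : ∀ i k, Disjoint (Q i) (Z k))
    (rep : ι → ι → κ)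
    (hrep : ∀ i j i' j', Γ.Adj i j → i < j → Γ.Adj i' j' → i' < j' → rep i j = rep i' j' →
      i = i' ∧ j = j')
    (h1 : ∀ i j, Γ.Adj i j → i < j → (∃ x ∈ Q i, ∃ y ∈ Z (rep i j), G.Adj x y ∨ x = y))
    (h2 : ∀ i j, Γ.Adj i j → i < j → (∃ x ∈ Q j, ∃ y ∈ Z (rep i j), G.Adj x y)) :
    Mn Γ G := by
  refine ⟨fun i => Q i ∪ ⋃ (j : {j // Γ.Adj i j ∧ i < j}), Z (rep i j.1), ?_, ?_, ?_⟩
  · intro i
    exact (hQ i).union_iUnion _ (fun j => hZ _) (fun j => h1 i j.1 j.2.1 j.2.2)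
  · intro i i' hii
    rw [Set.disjoint_left]
    intro x hx hx'
    rcases hx with hx | hx <;> rcases hx' with hx' | hx'
    · exact Set.disjoint_left.1 (hQd i i' hii) hx hx'
    · rw [Set.mem_iUnion] at hx'
      obtain ⟨j, hj⟩ := hx'
      exact Set.disjoint_left.1 (hQZ i _) hx hj
    · rw [Set.mem_iUnion] at hx
      obtain ⟨j, hj⟩ := hx
      exact Set.disjoint_left.1 (hQZ i' _) hx' hj
    · rw [Set.mem_iUnion] at hx hx'
      obtain ⟨j, hj⟩ := hx
      obtain ⟨j', hj'⟩ := hx'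
      by_cases e : rep i j.1 = rep i' j'.1
      · exact hii (hrep i j.1 i' j'.1 j.2.1 j.2.2 j'.2.1 j'.2.2 e).1
      · exact Set.disjoint_left.1 (hZd _ _ e) hj hj'
  · intro i j hij
    rcases lt_or_gt_of_ne hij.ne with h | h
    · obtain ⟨x, hx, y, hy, hxy⟩ := h2 i j hij h
      refine ⟨y, Or.inr (Set.mem_iUnion.2 ⟨⟨j, hij, h⟩, hy⟩), x, Or.inl hx, hxy.symm⟩
    · obtain ⟨x, hx, y, hy, hxy⟩ := h2 j i hij.symm h
      refine ⟨x, Or.inl hx, y, Or.inr (Set.mem_iUnion.2 ⟨⟨i, hij.symm, h⟩, hy⟩), hxy⟩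

end Pool.Agent.Lib.MP_4332cb_co
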