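import Pool.Agent.Lib.MP_4332cb_co.G7

/-!
Bounded treewidth and girth at least nine: two colours with bounded clustering.
-/

namespace Pool.Agent.Lib.MP_4332cb_co

open Finset

universe u

section Tree

variable {I : Type*} {T : SimpleGraph I}

/-- in a tree every edge joins a vertex to its parent -/
lemma tree_par [Fintype I] (hT : T.IsTree) (L : Layering T) {u v : I} (h : T.Adj u v) :
    (L.lv u ≠ 0 ∧ L.par u = v) ∨ (L.lv v ≠ 0 ∧ L.par v = u) := by
  classical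
  set A : Finset I := univ.erase L.root with hA
  have hlv : ∀ x, x ∈ A → L.lv x ≠ 0 := by
    intro x hx h0
    exact (Finset.mem_erase.1 hx).1 (L.root_uniq x h0)
  have hmap : A.image (fun x => s(x, L.par x)) ⊆ T.edgeFinset := by
    intro e he
    obtain ⟨x, hx, rfl⟩ := Finset.mem_image.1 he
    rw [SimpleGraph.mem_edgeFinset, SimpleGraph.mem_edgeSet]
    exact L.par_adj x (hlv x hx)
  have hinj : Set.InjOn (fun x => s(x, L.par x)) (A : Set I) := by
    intro x hx y hy hxy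
    have h1 := L.par_lv x (hlv x hx)
    have h2 := L.par_lv y (hlv y hy)
    rcases Sym2.eq_iff.1 hxy with ⟨e, _⟩ | ⟨e1, e2⟩
    · exact e
    · exfalso
      rw [e2] at h1
      rw [← e1] at h2
      omega
  have hcard := hT.card_edgeFinset
  have hAc : A.card + 1 = Fintype.card I := by
    rw [hA, Finset.card_erase_of_mem (mem_univ _), Finset.card_univ]
    have : 0 < Fintype.card I := Fintype.card_pos_iff.2 ⟨L.root⟩
    omega
  have hic : (A.image (fun x => s(x, L.par x))).card = A.card := Finset.card_image_of_injOn hinj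
  have heq : A.image (fun x => s(x, L.par x)) = T.edgeFinset := by
    apply Finset.eq_of_subset_of_card_le hmap
    omega
  have hmem : s(u, v) ∈ T.edgeFinset := by
    rw [SimpleGraph.mem_edgeFinset, SimpleGraph.mem_edgeSet]; exact h
  rw [← heq] at hmem
  obtain ⟨x, hx, hxe⟩ := Finset.mem_image.1 hmem
  rcases Sym2.eq_iff.1 hxe with ⟨e1, e2⟩ | ⟨e1, e2⟩
  · left
    rw [← e1]; exact ⟨hlv x hx, e2⟩
  · right
    rw [← e1]; exact ⟨hlv x hx, e2⟩

/-- the ancestor in layer `a` is constant on a connected set above layer `a` -/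
lemma anc_const (L : Layering T)
    (hp : ∀ u v, T.Adj u v → (L.lv u ≠ 0 ∧ L.par u = v) ∨ (L.lv v ≠ 0 ∧ L.par v = u))
    {Q : Set I} {a : ℕ} (ha : ∀ x ∈ Q, a ≤ L.lv x) {x y : I} (hxy : RI T Q x y) :
    L.anc a x = L.anc a y := by
  induction hxy with
  | refl => rfl
  | @tail y z _ h2 ih =>
    rw [ih]
    rcases hp y z h2.1 with ⟨h3, h4⟩ | ⟨h3, h4⟩
    · have h5 := L.par_lv y h3
      rw [h4] at h5
      have h6 := ha z h2.2.2
      rw [← L.anc_par (a := a) (v := y) (by omega), h4]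
    · have h5 := L.par_lv z h3
      rw [h4] at h5
      have h6 := ha y h2.2.1
      rw [← L.anc_par (a := a) (v := z) (by omega), h4]

/-- two intersecting subtrees: the lower top lies in both -/
lemma top_mem (L : Layering T)
    (hp : ∀ u v, T.Adj u v → (L.lv u ≠ 0 ∧ L.par u = v) ∨ (L.lv v ≠ 0 ∧ L.par v = u))
    {Q R : Set I} (hQ : Cn T Q) (hR : Cn T R) {t s y : I} (ht1 : t ∈ Q)
    (ht2 : ∀ x ∈ Q, L.lv t ≤ L.lv x) (hs1 : s ∈ R) (hst : L.lv s ≤ L.lv t) (hyi : y ∈ Q)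
    (hyj : y ∈ R) : t ∈ R := by
  by_contra hcon
  set a := L.lv t with ha
  have h1 : L.anc a y = t := by
    rw [anc_const L hp ht2 (hQ.2 y hyi t ht1)]
    exact L.anc_of_le (le_refl _)
  have h2 : a ≤ L.lv y := ht2 y hyi
  set A : Set I := {x | a ≤ L.lv x ∧ L.anc a x = t} with hA
  have hyA : y ∈ A := ⟨h2, h1⟩
  have hsA : s ∉ A := by
    rintro ⟨h3, h4⟩
    rw [L.anc_of_le hst] at h4
    exact hcon (h4 ▸ hs1)
  obtain ⟨p, q, hp1, hpA, hq1, hqA, hpq⟩ := leave hR hyj hyA hs1 hsA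
  apply hqA
  have h6 : a ≤ L.lv p := hpA.1
  have h7 : L.anc a p = t := hpA.2
  rcases hp p q hpq with ⟨h3, h4⟩ | ⟨h3, h4⟩
  · have h5 := L.par_lv p h3
    rw [h4] at h5
    by_cases h8 : L.lv p = a
    · exfalso
      rw [L.anc_of_le (by omega)] at h7
      exact hcon (h7 ▸ hp1)
    · refine ⟨by omega, ?_⟩
      rw [← h7, ← L.anc_par (a := a) (v := p) (by omega), h4]
  · have h5 := L.par_lv q h3
    rw [h4] at h5
    refine ⟨by omega, ?_⟩
    rw [← L.anc_par (a := a) (v := q) (by omega), h4, h7]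

/-- pairwise intersecting subtrees of a finite tree have a common vertex -/
theorem helly [Fintype I] (hT : T.IsTree) {ι : Type*} [Finite ι] [Nonempty ι] (Q : ι → Set I)
    (hQ : ∀ i, Cn T (Q i)) (hQQ : ∀ i j, ∃ x, x ∈ Q i ∧ x ∈ Q j) : ∃ x, ∀ i, x ∈ Q i := by
  classical
  obtain ⟨L⟩ := exists_layering hT.connected
  have hp : ∀ u v, T.Adj u v → (L.lv u ≠ 0 ∧ L.par u = v) ∨ (L.lv v ≠ 0 ∧ L.par v = u) :=
    fun u v h => tree_par hT L h
  have hmin : ∀ i, ∃ t ∈ Q i, ∀ y ∈ Q i, L.lv t ≤ L.lv y :=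
    fun i => Set.exists_min_image (Q i) L.lv (Set.toFinite _) (hQ i).1
  choose t ht1 ht2 using hmin
  obtain ⟨i, hi⟩ := Finite.exists_max (fun i => L.lv (t i))
  refine ⟨t i, fun j => ?_⟩
  obtain ⟨y, hyi, hyj⟩ := hQQ i j
  exact top_mem L hp (hQ i) (hQ j) (ht1 i) (ht2 i) (ht1 j) (hi j) hyi hyj

end Tree

section Decomp

variable {V : Type u} {I : Type*} {G : SimpleGraph V} {T : SimpleGraph I} {bag : I → Finset V}

/-- the nodes whose bags meet a connected set form a connected set -/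
lemma touched_cn (hadj : ∀ u v, G.Adj u v → ∃ i, u ∈ bag i ∧ v ∈ bag i)
    (hcn : ∀ v, Cn T {i | v ∈ bag i}) {W : Set V} (hW : Cn G W) :
    Cn T {i | ∃ v ∈ W, v ∈ bag i} := by
  obtain ⟨v0, hv0⟩ := hW.1
  obtain ⟨i0, hi0⟩ := (hcn v0).1
  have hsub : ∀ v ∈ W, {i | v ∈ bag i} ⊆ {i | ∃ v ∈ W, v ∈ bag i} := fun v hv i hi => ⟨v, hv, hi⟩
  refine Cn_of_center (x := i0) ⟨v0, hv0, hi0⟩ ?_
  have key : ∀ v, RI G W v0 v → ∀ i, v ∈ bag i → RI T {i | ∃ v ∈ W, v ∈ bag i} i0 i := by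
    intro v h
    induction h with
    | refl => intro i hi; exact ((hcn v0).2 i0 hi0 i hi).monoS (hsub v0 hv0)
    | @tail y z h1 h2 ih =>
      intro i hi
      obtain ⟨j, hj1, hj2⟩ := hadj y z h2.1
      exact (ih j hj1).trans (((hcn z).2 j hj2 i hi).monoS (hsub z h2.2.2))
  rintro i ⟨v, hv, hi⟩
  exact key v (hW.2 v0 hv0 v hv) i hi

/-- minors of graphs of small treewidth have small balanced separators -/
theorem tw_bal {U : Type*} [Fintype U] [Fintype I] {K : SimpleGraph U} {w : ℕ} (hT : T.IsTree)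
    (hadj : ∀ u v, G.Adj u v → ∃ i, u ∈ bag i ∧ v ∈ bag i) (hcn : ∀ v, Cn T {i | v ∈ bag i})
    (hw : ∀ i, (bag i).card ≤ w + 1) (hK : Mn K G) : Bal K (w + 1) := by
  classical
  obtain ⟨f, f1, f2, f3⟩ := hK
  intro S
  by_contra hcon
  push Not at hcon
  set X : I → Finset U := fun i => univ.filter (fun u => ∃ v ∈ f u, v ∈ bag i) with hX
  have hXc : ∀ i, (X i).card ≤ w + 1 := by
    intro i
    refine le_trans ?_ (hw i)
    have h0 : ∀ u, ∃ v, u ∈ X i → v ∈ f u ∧ v ∈ bag i := by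
      intro u
      by_cases hu : u ∈ X i
      · obtain ⟨v, hv1, hv2⟩ := (Finset.mem_filter.1 hu).2
        exact ⟨v, fun _ => ⟨hv1, hv2⟩⟩
      · obtain ⟨v, _⟩ := (f1 u).1
        exact ⟨v, fun h => absurd h hu⟩
    choose g hg using h0
    refine Finset.card_le_card_of_injOn g (fun u hu => (hg u hu).2) ?_
    intro u hu u' hu' e
    by_contra hne
    have h1 := (hg u hu).1
    rw [e] at h1
    exact Set.disjoint_left.1 (f2 u u' hne) h1 (hg u' hu').1
  have hC := fun i => hcon (X i) (hXc i)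
  choose C c1 c2 c3 using hC
  set W : I → Set V := fun i => ⋃ u ∈ C i, f u with hW
  have hWc : ∀ i, Cn G (W i) :=
    fun i => Cn_biUnion (fun u _ => f1 u) (fun a _ b _ h => f3 a b h) (c1 i)
  haveI : Nonempty I := hT.connected.nonempty
  obtain ⟨x, hx⟩ := helly hT (fun i => {j | ∃ v ∈ W i, v ∈ bag j})
    (fun i => touched_cn hadj hcn (hWc i)) (by
      intro i j
      have hmeet : ∃ u, u ∈ C i ∧ u ∈ C j := by
        by_contra hno
        push Not at hno
        have hdis : Disjoint (S.filter (fun v => v ∈ C i)) (S.filter (fun v => v ∈ C j)) := by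
          rw [Finset.disjoint_left]
          intro v hv hv'
          exact hno v (Finset.mem_filter.1 hv).2 (Finset.mem_filter.1 hv').2
        have h1 := Finset.card_union_of_disjoint hdis
        have h2 : (S.filter (fun v => v ∈ C i) ∪ S.filter (fun v => v ∈ C j)).card ≤ S.card :=
          Finset.card_le_card (Finset.union_subset (Finset.filter_subset _ _) (Finset.filter_subset _ _))
        have h3 := c3 i
        have h4 := c3 j
        omega
      obtain ⟨u, hui, huj⟩ := hmeet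
      obtain ⟨v, hv⟩ := (f1 u).1
      obtain ⟨k, hk⟩ := (hcn v).1
      exact ⟨k, ⟨v, Set.mem_biUnion hui hv, hk⟩, ⟨v, Set.mem_biUnion huj hv, hk⟩⟩)
  obtain ⟨v, hv, hvx⟩ := hx x
  obtain ⟨u, hu, hvu⟩ := Set.mem_iUnion₂.1 hv
  refine Set.disjoint_left.1 (c2 x) hu ?_
  rw [Finset.mem_coe, hX, Finset.mem_filter]
  exact ⟨mem_univ _, v, hvu, hvx⟩

/-- every nonempty minor of a graph of treewidth at most `w` has a vertex of degree at most `w` -/
theorem tw_deg {U : Type*} [Fintype U] [Nonempty U] [Fintype I] {K : SimpleGraph U} {w : ℕ}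
    (hT : T.IsTree) (hadj : ∀ u v, G.Adj u v → ∃ i, u ∈ bag i ∧ v ∈ bag i)
    (hcn : ∀ v, Cn T {i | v ∈ bag i}) (hw : ∀ i, (bag i).card ≤ w + 1) (hK : Mn K G) :
    ∃ u, (nb K u).card ≤ w := by
  classical
  obtain ⟨f, f1, f2, f3⟩ := hK
  obtain ⟨L⟩ := exists_layering hT.connected
  have hp : ∀ u v, T.Adj u v → (L.lv u ≠ 0 ∧ L.par u = v) ∨ (L.lv v ≠ 0 ∧ L.par v = u) :=
    fun u v h => tree_par hT L h
  set Q : U → Set I := fun u => {j | ∃ v ∈ f u, v ∈ bag j} with hQd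
  have hQ : ∀ u, Cn T (Q u) := fun u => touched_cn hadj hcn (f1 u)
  have hmin : ∀ u, ∃ t ∈ Q u, ∀ y ∈ Q u, L.lv t ≤ L.lv y :=
    fun u => Set.exists_min_image (Q u) L.lv (Set.toFinite _) (hQ u).1
  choose t ht1 ht2 using hmin
  obtain ⟨u, hu⟩ := Finite.exists_max (fun u => L.lv (t u))
  refine ⟨u, ?_⟩
  have hmem : ∀ x, x ∈ insert u (nb K u) → t u ∈ Q x := by
    intro x hx
    rcases Finset.mem_insert.1 hx with rfl | hx
    · exact ht1 x
    · obtain ⟨a, ha, b, hb, hab⟩ := f3 u x (mem_nb.1 hx)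
      obtain ⟨k, hk1, hk2⟩ := hadj a b hab
      exact top_mem L hp (hQ u) (hQ x) (ht1 u) (ht2 u) (ht1 x) (hu x) ⟨a, ha, hk1⟩ ⟨b, hb, hk2⟩
  have h0 : ∀ x, ∃ v, x ∈ insert u (nb K u) → v ∈ f x ∧ v ∈ bag (t u) := by
    intro x
    by_cases hx : x ∈ insert u (nb K u)
    · obtain ⟨v, hv1, hv2⟩ := hmem x hx
      exact ⟨v, fun _ => ⟨hv1, hv2⟩⟩
    · obtain ⟨v, _⟩ := (f1 x).1
      exact ⟨v, fun h => absurd h hx⟩
  choose g hg using h0
  have h1 : (insert u (nb K u)).card ≤ (bag (t u)).card := by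
    refine Finset.card_le_card_of_injOn g (fun x hx => (hg x hx).2) ?_
    intro x hx x' hx' e
    by_contra hne
    have h1 := (hg x hx).1
    rw [e] at h1
    exact Set.disjoint_left.1 (f2 x x' hne) h1 (hg x' hx').1
  rw [Finset.card_insert_of_notMem (fun h => (mem_nb.1 h).ne rfl)] at h1
  have := hw (t u)
  omega

/-- **Bounded treewidth**, girth at least seven: two colours. -/
theorem tw_two [Fintype V] [Fintype I] {w : ℕ} (hg : (7 : ℕ∞) ≤ G.egirth) (hT : T.IsTree)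
    (hadj : ∀ u v, G.Adj u v → ∃ i, u ∈ bag i ∧ v ∈ bag i) (hcn : ∀ v, Cn T {i | v ∈ bag i})
    (hw : ∀ i, (bag i).card ≤ w + 1) :
    ∃ f : V → Bool, ∀ C, Cn G C → (∀ x ∈ C, ∀ y ∈ C, f x = f y) → C.ncard ≤ 24 * (w + 2) ^ 5 := by
  classical
  obtain ⟨H, W, hHG, hdeg, hW, hext⟩ := forced (p := w + 1) hg (by
    intro S hS
    obtain ⟨M, hM, hMd⟩ := order_minor7 hg S
    have : Nonempty {s : V // s ∈ S} := ⟨⟨hS.choose, hS.choose_spec⟩⟩
    obtain ⟨a, ha⟩ := tw_deg hT hadj hcn hw hM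
    exact ⟨a.1, a.2, by have := hMd a; omega⟩)
  have hbal := Sup_bal (W := W) (D := Set.univ) (k := w + 1) hdeg (by
    intro S
    obtain ⟨X, hX, hXb⟩ := tw_bal hT hadj hcn hw (Mn_of_le hHG) S
    refine ⟨X, hX, fun C hC _ hd => ?_⟩
    convert hXb C hC hd)
  obtain ⟨f0, hf0⟩ := two_col (k := (w + 1) * (w + 1 + 1) + 1) (Δ := (w + 1) * (w + 1 + 1)) (by omega)
    (Nat.mul_pos (Nat.succ_pos _) (Nat.succ_pos _)) (Sup_deg (W := W) (D := Set.univ) hdeg) hbal
  obtain ⟨f, hf1, hf2⟩ := hext f0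
  refine ⟨f, fun C hC hm => ?_⟩
  have hCH : Cn H C := hC.mono_graph (fun a ha b hb hab => hf2 a b hab (hm a ha b hb))
  have h1 := Sup_colour hdeg hW hf0 (fun v _ hv => hf1 v hv) hCH (Set.subset_univ C) hm
  refine h1.trans ?_
  have h2 : (w + 1) * (w + 1 + 1) + 1 ≤ (w + 2) ^ 2 := by nlinarith
  have h3 : 24 * ((w + 1) * (w + 1 + 1) + 1) * ((w + 1) * (w + 1 + 1)) * (w + 1 + 1) + 1 ≤
      24 * (w + 2) ^ 2 * ((w + 1) * (w + 2)) * (w + 2) + 24 * (w + 2) ^ 4 := by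
    have h4 : 24 * ((w + 1) * (w + 1 + 1) + 1) * ((w + 1) * (w + 1 + 1)) * (w + 1 + 1) ≤
        24 * (w + 2) ^ 2 * ((w + 1) * (w + 2)) * (w + 2) := by
      gcongr <;> omega
    have h5 : 1 ≤ 24 * (w + 2) ^ 4 := Nat.mul_pos (by norm_num) (by positivity)
    omega
  refine h3.trans (le_of_eq ?_)
  ring

end Decomp

end Pool.Agent.Lib.MP_4332cb_co
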