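import Pool.Agent.Lib.MP_4332cb_co.Red
import Pool.Agent.Lib.MP_4332cb_co.Tw

/-!
Removal of islands: sets of bounded treewidth with few boundary vertices, each of which has only one
neighbour outside the set.
-/

namespace Pool.Agent.Lib.MP_4332cb_co

open Finset

universe u

/-- treewidth at most `w` -/
def TW {V : Type u} (G : SimpleGraph V) (w : ℕ) : Prop :=
  ∃ (n : ℕ) (T : SimpleGraph (Fin n)) (bag : Fin n → Finset V), T.IsTree ∧
    (∀ i, (bag i).card ≤ w + 1) ∧
    (∀ u v, G.Adj u v → ∃ i, u ∈ bag i ∧ v ∈ bag i) ∧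
    ∀ v, (T.induce {i | v ∈ bag i}).Connected

/-- bounded treewidth and bounded degree: two colours -/
theorem tw_bd_two {V : Type u} [Fintype V] {G : SimpleGraph V} {w Δ : ℕ} (hΔ : 1 ≤ Δ) (hG : TW G w)
    (hdeg : ∀ v, (nb G v).card ≤ Δ) :
    ∃ f : V → Bool, ∀ C, Cn G C → (∀ x ∈ C, ∀ y ∈ C, f x = f y) → C.ncard ≤ 24 * (w + 1) * Δ := by
  obtain ⟨n, T, bag, hT, hw, hadj, hcn⟩ := hG
  exact two_col (k := w + 1) (Δ := Δ) (by omega) hΔ hdeg
    (tw_bal hT hadj (fun v => (Cn_iff T _).2 (hcn v)) hw (Mn.refl G))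

/-- changing a clustered colouring at few vertices -/
theorem precolour {V : Type u} [Fintype V] {G : SimpleGraph V} {c Δ m : ℕ}
    (hdeg : ∀ v, (nb G v).card ≤ Δ) {f f' : V → Bool}
    (hf : ∀ C, Cn G C → (∀ x ∈ C, ∀ y ∈ C, f x = f y) → C.ncard ≤ c)
    {P : Finset V} (hP : P.card ≤ m) (hff : ∀ v, v ∉ P → f' v = f v) :
    ∀ C, Cn G C → (∀ x ∈ C, ∀ y ∈ C, f' x = f' y) → C.ncard ≤ m + m * (Δ * c) + c := by
  classical
  intro C hC hm
  by_cases hmeet : ∃ p ∈ C, p ∈ P
  swap
  · push Not at hmeet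
    have h1 := hf C hC (fun x hx y hy => by
      rw [← hff x (hmeet x hx), ← hff y (hmeet y hy)]; exact hm x hx y hy)
    omega
  obtain ⟨p, hpC, hpP⟩ := hmeet
  set D : Set V := C \ (P : Set V) with hD
  set F : V → Finset V := fun a => if a ∈ D then univ.filter (fun y => y ∈ cmp G D a) else ∅ with hF
  have hFc : ∀ a, (F a).card ≤ c := by
    intro a
    by_cases ha : a ∈ D
    · have e : (F a).card = (cmp G D a).ncard := by
        rw [← Set.ncard_coe_finset]
        congr 1
        ext y
        rw [hF]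
        simp [ha]
      rw [e]
      refine hf _ Cn_cmp (fun x hx y hy => ?_)
      have hxD : x ∈ D := cmp_subset ha hx
      have hyD : y ∈ D := cmp_subset ha hy
      rw [← hff x hxD.2, ← hff y hyD.2]
      exact hm x hxD.1 y hyD.1
    · rw [hF]
      simp only
      rw [if_neg ha]
      simp
  have hcov : C ⊆ ((P ∪ P.biUnion (fun b => (nb G b).biUnion F) : Finset V) : Set V) := by
    intro y hy
    rw [Finset.mem_coe, Finset.mem_union]
    by_cases hyP : y ∈ P
    · exact Or.inl hyP
    · right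
      have hyD : y ∈ D := ⟨hy, hyP⟩
      have hpA : p ∉ cmp G D y := fun h => (cmp_subset hyD h).2 hpP
      obtain ⟨a, b, ha, haA, hb, hbA, hab⟩ := leave hC hy (mem_cmp_self (G := G) (S := D)) hpC hpA
      have haD : a ∈ D := cmp_subset hyD haA
      have hbP : b ∈ P := by
        by_contra hbP
        have hbD : b ∈ D := ⟨hb, hbP⟩
        exact hbA (RI.trans haA (RI.single hab haD hbD))
      rw [Finset.mem_biUnion]
      refine ⟨b, hbP, ?_⟩
      rw [Finset.mem_biUnion]
      refine ⟨a, mem_nb.2 hab.symm, ?_⟩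
      rw [hF]
      simp only
      rw [if_pos haD, Finset.mem_filter]
      exact ⟨mem_univ _, RI.symm haA⟩
  have h1 : C.ncard ≤ (P ∪ P.biUnion (fun b => (nb G b).biUnion F)).card := by
    rw [← Set.ncard_coe_finset]
    exact Set.ncard_le_ncard hcov (Finset.finite_toSet _)
  have h2 := Finset.card_union_le P (P.biUnion (fun b => (nb G b).biUnion F))
  have h3 : ∀ b, ((nb G b).biUnion F).card ≤ Δ * c := fun b =>
    (Finset.card_biUnion_le_card_mul _ _ _ (fun a _ => hFc a)).trans (Nat.mul_le_mul_right _ (hdeg b))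
  have h4 : (P.biUnion (fun b => (nb G b).biUnion F)).card ≤ P.card * (Δ * c) :=
    Finset.card_biUnion_le_card_mul _ _ _ (fun b _ => h3 b)
  have h5 : P.card * (Δ * c) ≤ m * (Δ * c) := Nat.mul_le_mul_right _ hP
  omega

/-- restriction of a connected set to a set containing it -/
lemma cn_restrict {V : Type u} {G : SimpleGraph V} {A C : Set V} (hCA : ∀ x ∈ C, x ∈ A) (hC : Cn G C) :
    Cn (G.induce A) {x | x.1 ∈ C} ∧ C = Subtype.val '' {x : A | x.1 ∈ C} := by
  constructor
  · obtain ⟨x0, hx0⟩ := hC.1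
    refine ⟨⟨⟨x0, hCA x0 hx0⟩, hx0⟩, ?_⟩
    have key : ∀ x (hx : x ∈ C) y (hy : y ∈ C), RI G C x y →
        RI (G.induce A) {x | x.1 ∈ C} ⟨x, hCA x hx⟩ ⟨y, hCA y hy⟩ := by
      intro x hx y hy hxy
      induction hxy with
      | refl => exact RI.refl _
      | tail h1 h2 ih =>
        exact (ih h2.2.1).trans (RI.single h2.1 h2.2.1 h2.2.2)
    rintro ⟨x, hx⟩ hxC ⟨y, hy⟩ hyC
    exact key x hxC y hyC (hC.2 x hxC y hyC)
  · ext x
    constructor
    · intro hx; exact ⟨⟨x, hCA x hx⟩, hx, rfl⟩
    · rintro ⟨y, hy, rfl⟩; exact hy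

/-- an `m`-island -/
def Isl {V : Type u} (G : SimpleGraph V) (m : ℕ) (S : Set V) : Prop :=
  S.Nonempty ∧ (∀ v ∈ S, ∀ x y, x ∉ S → y ∉ S → G.Adj v x → G.Adj v y → x = y) ∧
    {v | v ∈ S ∧ ∃ x, x ∉ S ∧ G.Adj v x}.ncard ≤ m ∧ TW (G.induce S) m

/-- the bound for the clusters in an island -/
def IB (m Δ : ℕ) : ℕ := m + m * (Δ * (24 * (m + 1) * Δ)) + 24 * (m + 1) * Δ

/-- removing islands -/
theorem islandsTW {m c Δ : ℕ} (hΔ : 1 ≤ Δ) (P : ∀ (V : Type u) [Fintype V], SimpleGraph V → Prop)
    (hP : ∀ (V : Type u) [Fintype V] (G : SimpleGraph V) (A : Set V) [Fintype A], P V G → P A (G.induce A))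
    (hPΔ : ∀ (V : Type u) [Fintype V] (G : SimpleGraph V), P V G → ∀ v, (nb G v).card ≤ Δ)
    (hcol : ∀ (V : Type u) [Fintype V] (G : SimpleGraph V), P V G → (¬ ∃ S, Isl G m S) →
      ∃ f : V → Bool, ∀ C, Cn G C → (∀ x ∈ C, ∀ y ∈ C, f x = f y) → C.ncard ≤ c) :
    ∀ (V : Type u) [Fintype V] (G : SimpleGraph V), P V G →
      ∃ f : V → Bool, ∀ C, Cn G C → (∀ x ∈ C, ∀ y ∈ C, f x = f y) → C.ncard ≤ max c (IB m Δ) := by
  classical
  have main : ∀ n : ℕ, ∀ (V : Type u) [Fintype V] (G : SimpleGraph V), P V G → Fintype.card V ≤ n →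
      ∃ f : V → Bool, ∀ C, Cn G C → (∀ x ∈ C, ∀ y ∈ C, f x = f y) → C.ncard ≤ max c (IB m Δ) := by
    intro n
    induction n with
    | zero =>
      intro V _ G _ hn
      refine ⟨fun _ => true, fun C hC _ => ?_⟩
      obtain ⟨x, _⟩ := hC.1
      have : 0 < Fintype.card V := Fintype.card_pos_iff.2 ⟨x⟩
      omega
    | succ n ih =>
      intro V _ G hPG hn
      by_cases hno : ∃ S, Isl G m S
      swap
      · obtain ⟨f, hf⟩ := hcol V G hPG hno
        exact ⟨f, fun C hC hm => (hf C hC hm).trans (le_max_left _ _)⟩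
      obtain ⟨S, hS, hSi, hSb, hStw⟩ := hno
      obtain ⟨v0, hv0⟩ := hS
      have hcard : Fintype.card (Sᶜ : Set V) ≤ n := by
        have h1 : Fintype.card (Sᶜ : Set V) < Fintype.card V := by
          refine Fintype.card_lt_of_injective_of_notMem (fun x : (Sᶜ : Set V) => x.1)
            Subtype.val_injective (b := v0) ?_
          rintro ⟨x, hx⟩
          have hx' : x.1 = v0 := hx
          exact x.2 (by rw [hx']; exact hv0)
        omega
      obtain ⟨f', hf'⟩ := ih (Sᶜ : Set V) (G.induce Sᶜ) (hP V G Sᶜ hPG) hcard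
      obtain ⟨f1, hf1⟩ := tw_bd_two hΔ hStw (hPΔ S (G.induce S) (hP V G S hPG))
      -- the colours outside the island
      set g : V → Bool := fun v => if h : v ∈ S then true else f' ⟨v, h⟩ with hg
      -- the colours on the island
      set f2 : S → Bool := fun v => if h : ∃ x, x ∉ S ∧ G.Adj v.1 x then !(g h.choose) else f1 v with hf2
      set f : V → Bool := fun v => if h : v ∈ S then f2 ⟨v, h⟩ else g v with hf
      have hout : ∀ v, v ∈ S → ∀ x, x ∉ S → G.Adj v x → f v ≠ f x := by
        intro v hv x hx hvx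
        have hex : ∃ x, x ∉ S ∧ G.Adj v x := ⟨x, hx, hvx⟩
        have e : hex.choose = x := hSi v hv _ x hex.choose_spec.1 hx hex.choose_spec.2 hvx
        have h1 : f v = !(g x) := by
          rw [hf]
          simp only
          rw [dif_pos hv, hf2]
          simp only
          rw [dif_pos hex, e]
        have h2 : f x = g x := by
          rw [hf]
          simp only
          rw [dif_neg hx]
        rw [h1, h2]
        cases g x <;> simp
      set B : Finset S := univ.filter (fun v => ∃ x, x ∉ S ∧ G.Adj v.1 x) with hB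
      have hBc : B.card ≤ m := by
        have h1 : (Subtype.val '' (B : Set S)).ncard ≤ m := by
          refine le_trans (Set.ncard_le_ncard ?_ (Set.toFinite _)) hSb
          rintro _ ⟨v, hv, rfl⟩
          rw [Finset.mem_coe, hB, Finset.mem_filter] at hv
          exact ⟨v.2, hv.2⟩
        rw [Set.ncard_image_of_injective _ Subtype.val_injective, Set.ncard_coe_finset] at h1
        exact h1
      have hf2c := precolour (m := m) (f' := f2) (hPΔ S (G.induce S) (hP V G S hPG)) hf1 hBc (by
        intro v hv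
        have hv' : ¬ ∃ x, x ∉ S ∧ G.Adj v.1 x := fun h => hv (by
          rw [hB, Finset.mem_filter]; exact ⟨mem_univ _, h⟩)
        rw [hf2]
        simp only
        rw [dif_neg hv'])
      refine ⟨f, fun C hC hm => ?_⟩
      by_cases hmeet : ∃ v ∈ C, v ∈ S
      · obtain ⟨v, hv, hvS⟩ := hmeet
        have hsub : ∀ y ∈ C, y ∈ S := by
          intro y hy
          by_contra hyS
          obtain ⟨a, b, ha, haS, hb, hbS, hab⟩ := leave hC hv hvS hy hyS
          exact hout a haS b hbS hab (hm a ha b hb)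
        obtain ⟨h1, h2⟩ := cn_restrict hsub hC
        have h3 := hf2c _ h1 (by
          rintro ⟨x, hx⟩ hxC ⟨y, hy⟩ hyC
          have h4 := hm x hxC y hyC
          have e1 : f x = f2 ⟨x, hx⟩ := by
            rw [hf]
            simp only
            rw [dif_pos hx]
          have e2 : f y = f2 ⟨y, hy⟩ := by
            rw [hf]
            simp only
            rw [dif_pos hy]
          rw [← e1, ← e2]; exact h4)
        rw [h2, Set.ncard_image_of_injective _ Subtype.val_injective]
        exact h3.trans (le_max_right _ _)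
      · push Not at hmeet
        obtain ⟨h1, h2⟩ := cn_restrict (A := Sᶜ) hmeet hC
        have h3 := hf' _ h1 (by
          rintro ⟨x, hx⟩ hxC ⟨y, hy⟩ hyC
          have h2 := hm x hxC y hyC
          have e1 : f x = f' ⟨x, hx⟩ := by
            rw [hf]
            simp only
            rw [dif_neg hx, hg]
            simp only
            rw [dif_neg hx]
          have e2 : f y = f' ⟨y, hy⟩ := by
            rw [hf]
            simp only
            rw [dif_neg hy, hg]
            simp only
            rw [dif_neg hy]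
          rw [← e1, ← e2]; exact h2)
        rw [h2, Set.ncard_image_of_injective _ Subtype.val_injective]
        exact h3
  intro V _ G hPG
  exact main _ V G hPG (le_refl _)

end Pool.Agent.Lib.MP_4332cb_co
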