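import Pool.Agent.Lib.MP_4332cb_co.Core

/-!
The question on two colours (Q2 of MP_4332cb_co) is equivalent to its restriction to graphs of
bounded maximum degree without islands.
-/

namespace Pool.Agent.Lib.MP_4332cb_co.CoreEquiv

open Pool.Agent.Lib.MP_4332cb_co

universe u

/-- `G` contains the complete graph on `t` vertices as a minor: there are `t` pairwise disjoint
vertex sets (branch sets), each inducing a connected (nonempty) subgraph, any two of them being
joined by an edge of `G`. -/
def HasCompleteMinor {V : Type u} (G : SimpleGraph V) (t : ℕ) : Prop :=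
  ∃ B : Fin t → Set V, (∀ i, (G.induce (B i)).Connected) ∧
    (∀ i j, i ≠ j → Disjoint (B i) (B j)) ∧
    ∀ i j, i ≠ j → ∃ x ∈ B i, ∃ y ∈ B j, G.Adj x y

/-- `G` has a `k`-colouring (not necessarily proper) with clustering at most `c`: every connected
component of the subgraph induced by each colour class has at most `c` vertices. -/
def HasClusteredColouring {V : Type u} (G : SimpleGraph V) (k c : ℕ) : Prop :=
  ∃ f : V → Fin k, ∀ i : Fin k, ∀ C : (G.induce {v | f v = i}).ConnectedComponent,
    C.supp.ncard ≤ c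

/-- every vertex of `G` has at most `Δ` neighbours -/
def MaxDegreeAtMost {V : Type u} (G : SimpleGraph V) (Δ : ℕ) : Prop :=
  ∀ v, (G.neighborSet v).ncard ≤ Δ

/-- `G` has treewidth at most `w`: there are a finite tree `T` and, for every node `i` of `T`, a
finite set `bag i` of at most `w + 1` vertices of `G` such that the two ends of every edge of `G`
lie in a common bag and, for every vertex `v`, the nodes whose bags contain `v` induce a
(nonempty) connected subgraph of `T`. -/
def HasTreewidthAtMost {V : Type u} (G : SimpleGraph V) (w : ℕ) : Prop :=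
  ∃ (n : ℕ) (T : SimpleGraph (Fin n)) (bag : Fin n → Finset V), T.IsTree ∧
    (∀ i, (bag i).card ≤ w + 1) ∧
    (∀ u v, G.Adj u v → ∃ i, u ∈ bag i ∧ v ∈ bag i) ∧
    ∀ v, (T.induce {i | v ∈ bag i}).Connected

/-- `S` is an `m`-island of `G`: it is nonempty, every vertex of `S` has at most one neighbour outside
`S`, at most `m` vertices of `S` have a neighbour outside `S`, and the subgraph induced by `S` has
treewidth at most `m`. -/
def IsIsland {V : Type u} (G : SimpleGraph V) (m : ℕ) (S : Set V) : Prop :=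
  S.Nonempty ∧ (∀ v ∈ S, ∀ x y, x ∉ S → y ∉ S → G.Adj v x → G.Adj v y → x = y) ∧
    {v | v ∈ S ∧ ∃ x, x ∉ S ∧ G.Adj v x}.ncard ≤ m ∧ HasTreewidthAtMost (G.induce S) m

/-- The positive answer to Q2 with the constant `g`: for every `t`, the finite `K_t`-minor-free
graphs of girth at least `g` are 2-colourable with bounded clustering. -/
def TwoColourable (g : ℕ) : Prop :=
  ∀ t : ℕ, ∃ c : ℕ, ∀ (V : Type u) [Fintype V] (G : SimpleGraph V),
    (g : ℕ∞) ≤ G.egirth → ¬ HasCompleteMinor G t → HasClusteredColouring G 2 c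

/-- The same statement for graphs of bounded maximum degree without islands: for all `t` and `Δ`,
the finite `K_t`-minor-free graphs of girth at least `g` and maximum degree at most `Δ` that have no
`m t Δ`-island are 2-colourable with bounded clustering. -/
def CoreTwoColourable (g : ℕ) (m : ℕ → ℕ → ℕ) : Prop :=
  ∀ t Δ : ℕ, ∃ c : ℕ, ∀ (V : Type u) [Fintype V] (G : SimpleGraph V),
    (g : ℕ∞) ≤ G.egirth → ¬ HasCompleteMinor G t → MaxDegreeAtMost G Δ →
      (¬ ∃ S, IsIsland G (m t Δ) S) → HasClusteredColouring G 2 c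

lemma KM_iff {V : Type u} (G : SimpleGraph V) (t : ℕ) : KM G t ↔ HasCompleteMinor G t := by
  unfold KM Mn HasCompleteMinor
  constructor
  · rintro ⟨f, h1, h2, h3⟩
    exact ⟨f, fun i => (Cn_iff G _).1 (h1 i), h2, fun i j hij => h3 i j hij⟩
  · rintro ⟨f, h1, h2, h3⟩
    exact ⟨f, fun i => (Cn_iff G _).2 (h1 i), h2, fun i j hij => h3 i j hij⟩

lemma component_cn {V : Type u} (G : SimpleGraph V) (S : Set V)
    (C : (G.induce S).ConnectedComponent) : Cn G (Subtype.val '' C.supp) := by
  have h1 : Cn (G.induce S) C.supp := by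
    rw [Cn_iff]; exact C.connected_toSimpleGraph
  obtain ⟨⟨x, hx⟩, h2⟩ := h1
  refine ⟨⟨x.1, x, hx, rfl⟩, ?_⟩
  have key : ∀ a b : S, RI (G.induce S) C.supp a b → RI G (Subtype.val '' C.supp) a.1 b.1 := by
    intro a b hab
    induction hab with
    | refl => exact RI.refl _
    | tail _ h ih =>
      exact ih.trans (RI.single h.1 ⟨_, h.2.1, rfl⟩ ⟨_, h.2.2, rfl⟩)
  rintro _ ⟨a, ha, rfl⟩ _ ⟨b, hb, rfl⟩
  exact key a b (h2 a ha b hb)

/-- from a clustered colouring with colours in `Fin 2` to one with colours in `Bool` -/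
lemma to_bool {V : Type u} [Fintype V] {G : SimpleGraph V} {c : ℕ}
    (h : HasClusteredColouring G 2 c) :
    ∃ f : V → Bool, ∀ C, Cn G C → (∀ x ∈ C, ∀ y ∈ C, f x = f y) → C.ncard ≤ c := by
  obtain ⟨f, hf⟩ := h
  refine ⟨fun v => decide (f v = 0), fun C hC hm => ?_⟩
  have hmono : ∀ x ∈ C, ∀ y ∈ C, f x = f y := by
    intro x hx y hy
    have h1 : (f x = 0) ↔ (f y = 0) := by
      have := hm x hx y hy
      simpa using this
    omega
  obtain ⟨x0, hx0⟩ := hC.1
  set i := f x0 with hi
  have key : ∀ y, RI G C x0 y → ∃ hy : f y = i,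
      (G.induce {v | f v = i}).Reachable ⟨x0, rfl⟩ ⟨y, hy⟩ := by
    intro y hy
    induction hy with
    | refl => exact ⟨rfl, SimpleGraph.Reachable.refl _⟩
    | @tail y z h1 h2 ih =>
      obtain ⟨h3, h4⟩ := ih
      have h5 : f z = i := (hmono z h2.2.2 x0 hx0)
      refine ⟨h5, h4.trans ?_⟩
      apply SimpleGraph.Adj.reachable
      exact h2.1
  have hsub : C ⊆ Subtype.val ''
      ((G.induce {v | f v = i}).connectedComponentMk ⟨x0, rfl⟩).supp := by
    intro y hy
    obtain ⟨h3, h4⟩ := key y (hC.2 x0 hx0 y hy)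
    refine ⟨⟨y, h3⟩, ?_, rfl⟩
    rw [SimpleGraph.ConnectedComponent.mem_supp_iff]
    exact (SimpleGraph.ConnectedComponent.sound h4).symm
  have h1 := Set.ncard_le_ncard hsub (Set.toFinite _)
  rw [Set.ncard_image_of_injective _ Subtype.val_injective] at h1
  exact h1.trans (hf i _)

lemma of_bool {V : Type u} {G : SimpleGraph V} {c : ℕ}
    (h : ∃ f : V → Bool, ∀ C, Cn G C → (∀ x ∈ C, ∀ y ∈ C, f x = f y) → C.ncard ≤ c) :
    HasClusteredColouring G 2 c := by
  obtain ⟨f, hf⟩ := h
  refine ⟨fun v => if f v = true then 0 else 1, fun i C => ?_⟩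
  have h1 := hf _ (component_cn G _ C) (by
    rintro _ ⟨a, _, rfl⟩ _ ⟨b, _, rfl⟩
    have ha : (if f a.1 = true then (0 : Fin 2) else 1) = i := a.2
    have hb : (if f b.1 = true then (0 : Fin 2) else 1) = i := b.2
    have hab := ha.trans hb.symm
    cases h1 : f a.1 <;> cases h2 : f b.1 <;> simp [h1, h2] at hab ⊢)
  rwa [Set.ncard_image_of_injective _ Subtype.val_injective] at h1

lemma ncard_nb {V : Type u} [Fintype V] (G : SimpleGraph V) (v : V) :
    (G.neighborSet v).ncard = (nb G v).card := by
  rw [← Set.ncard_coe_finset]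
  congr 1
  ext x
  rw [Finset.mem_coe, mem_nb, SimpleGraph.mem_neighborSet]

/-- **Reduction of the question on two colours.** For every `g` and every function `m`: the positive
answer to Q2 with constant `g` implies the statement for graphs of bounded maximum degree without
islands, and conversely the latter implies the positive answer to Q2 with constant
`max 9 (3 * g)`. -/
theorem core_equiv : ∀ (g : ℕ) (m : ℕ → ℕ → ℕ),
    (TwoColourable.{u} g → CoreTwoColourable.{u} g m) ∧
      (CoreTwoColourable.{u} g m → TwoColourable.{u} (max 9 (3 * g))) := by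
  intro g m
  refine ⟨fun h t Δ => ?_, fun h t => ?_⟩
  · obtain ⟨c, hc⟩ := h t
    exact ⟨c, fun V _ G h1 h2 _ _ => hc V G h1 h2⟩
  · set p := 2 ^ (t + 1) with hp
    set Δ := (p + 1) * p with hΔ
    have hΔ1 : 1 ≤ Δ := Nat.mul_pos (Nat.succ_pos _) (by positivity)
    obtain ⟨c, hc⟩ := h t Δ
    refine ⟨max 1 (max c (IB (m t Δ) Δ)) * (p + 1), ?_⟩
    intro V _ G hg hG
    apply of_bool
    have hg9 : (9 : ℕ∞) ≤ G.egirth := by
      refine le_trans ?_ hg
      exact_mod_cast le_max_left 9 (3 * g)
    have hg3 : ((3 * g : ℕ) : ℕ∞) ≤ G.egirth := by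
      refine le_trans ?_ hg
      exact_mod_cast le_max_right 9 (3 * g)
    refine two_red (t := t) (g := g) hp hg9 hg3 (fun h => hG ((KM_iff G t).1 h)) (le_max_left _ _) ?_
    intro U _ K hK hKg hdeg
    have key := islandsTW (m := m t Δ) (c := c) hΔ1
      (fun (W : Type u) _ (J : SimpleGraph W) => ¬ KM J t ∧ (g : ℕ∞) ≤ J.egirth ∧
        ∀ v, (nb J v).card ≤ Δ) (by
      rintro W _ J A _ ⟨h1, h2, h3⟩
      refine ⟨?_, ?_, ?_⟩
      · intro h4
        refine h1 (h4.of_Mn ⟨fun a => {a.1}, fun a => Cn_singleton J a.1, ?_, ?_⟩)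
        · intro a b hab
          rw [Set.disjoint_singleton]
          exact fun e => hab (Subtype.ext e)
        · intro a b hab
          exact ⟨a.1, rfl, b.1, rfl, hab⟩
      · rw [SimpleGraph.le_egirth] at h2 ⊢
        intro a w hw
        have h4 := h2 a.1 (w.map (SimpleGraph.Embedding.induce (G := J) A).toHom)
          (hw.map (SimpleGraph.Embedding.induce (G := J) A).injective)
        have h5 : (w.map (SimpleGraph.Embedding.induce (G := J) A).toHom).length = w.length :=
          SimpleGraph.Walk.length_map _ _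
        exact h4.trans_eq (congrArg Nat.cast h5)
      · intro v
        refine le_trans ?_ (h3 v.1)
        refine Finset.card_le_card_of_injOn (fun x => x.1) ?_ (fun x _ y _ e => Subtype.ext e)
        intro x hx
        rw [Finset.mem_coe, mem_nb] at hx
        rw [Finset.mem_coe, mem_nb]
        exact hx) (fun W _ J h => h.2.2) (by
      rintro W _ J ⟨h1, h2, h3⟩ h4
      apply to_bool
      refine hc W J h2 (fun h => h1 ((KM_iff J t).2 h)) (fun v => by rw [ncard_nb]; exact h3 v) ?_
      exact fun ⟨S, hS⟩ => h4 ⟨S, hS⟩)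
    obtain ⟨f, hf⟩ := key U K ⟨hK, hKg, hdeg⟩
    exact ⟨f, fun C hC hm => (hf C hC hm).trans (le_max_right _ _)⟩

end Pool.Agent.Lib.MP_4332cb_co.CoreEquiv
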