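import Pool.Agent.Lib.MP_4332cb_co.Pieces

/-!
Orderings of high-girth graphs without a large complete minor in which every vertex has few
directions leading to older vertices.
-/

namespace Pool.Agent.Lib.MP_4332cb_co

open Finset

universe u

section Girth

variable {V : Type*} {G : SimpleGraph V}

/-- two short paths between the same vertices coincide -/
lemma path_unique (hg : (9 : ℕ∞) ≤ G.egirth) {a b : V} {p q : G.Walk a b} (hp : p.IsPath) (hq : q.IsPath)
    (hl : p.length + q.length ≤ 8) : p = q := by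
  classical
  by_contra hne
  -- the subgraph formed by the edges of `p` and `q`
  set E : Set (Sym2 V) := {e | e ∈ p.edges ∨ e ∈ q.edges} with hE
  set H := SimpleGraph.fromEdgeSet E with hH
  have hpH : ∀ e ∈ p.edges, e ∈ H.edgeSet := by
    intro e he
    rw [hH, SimpleGraph.edgeSet_fromEdgeSet]
    refine ⟨Or.inl he, ?_⟩
    exact G.not_isDiag_of_mem_edgeSet (p.edges_subset_edgeSet he)
  have hqH : ∀ e ∈ q.edges, e ∈ H.edgeSet := by
    intro e he
    rw [hH, SimpleGraph.edgeSet_fromEdgeSet]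
    refine ⟨Or.inr he, ?_⟩
    exact G.not_isDiag_of_mem_edgeSet (q.edges_subset_edgeSet he)
  have hHG : H ≤ G := by
    rw [← SimpleGraph.edgeSet_subset_edgeSet]
    intro e he
    rw [hH, SimpleGraph.edgeSet_fromEdgeSet] at he
    rcases he.1 with h | h
    · exact p.edges_subset_edgeSet h
    · exact q.edges_subset_edgeSet h
  have hcyc : ¬ H.IsAcyclic := by
    intro hac
    have h1 := (hac.subsingleton_path a b).elim ⟨p.transfer H hpH, hp.transfer hpH⟩
      ⟨q.transfer H hqH, hq.transfer hqH⟩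
    have h2 : p.transfer H hpH = q.transfer H hqH := congrArg Subtype.val h1
    apply hne
    have h3 : (p.transfer H hpH).transfer G (fun e he => by
        rw [SimpleGraph.Walk.edges_transfer] at he; exact p.edges_subset_edgeSet he) =
        (q.transfer H hqH).transfer G (fun e he => by
        rw [SimpleGraph.Walk.edges_transfer] at he; exact q.edges_subset_edgeSet he) := by
      congr 1
    rw [SimpleGraph.Walk.transfer_transfer, SimpleGraph.Walk.transfer_transfer,
      SimpleGraph.Walk.transfer_self, SimpleGraph.Walk.transfer_self] at h3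
    exact h3
  unfold SimpleGraph.IsAcyclic at hcyc
  push Not at hcyc
  obtain ⟨v, c, hc⟩ := hcyc
  -- length bound
  have h1 : (9 : ℕ∞) ≤ c.length := by
    have h2 := SimpleGraph.le_egirth.1 hg v (c.mapLe hHG) (hc.mapLe hHG)
    rwa [SimpleGraph.Walk.length_mapLe] at h2
  have h3 : c.length ≤ p.length + q.length := by
    rw [← SimpleGraph.Walk.length_edges, ← SimpleGraph.Walk.length_edges, ← SimpleGraph.Walk.length_edges,
      ← List.length_append]
    apply List.Subperm.length_le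
    apply List.Nodup.subperm hc.edges_nodup
    intro e he
    have h4 := c.edges_subset_edgeSet he
    rw [hH, SimpleGraph.edgeSet_fromEdgeSet] at h4
    rw [List.mem_append]
    exact h4.1
  have h4 : (9 : ℕ) ≤ c.length := by exact_mod_cast h1
  omega

/-- no two distinct common neighbours -/
lemma uniq2 (hg : (9 : ℕ∞) ≤ G.egirth) {a b c d : V} (hab : G.Adj a b) (hbc : G.Adj b c)
    (had : G.Adj a d) (hdc : G.Adj d c) (hac : a ≠ c) : b = d := by
  have h := path_unique hg (p := .cons hab (.cons hbc .nil)) (q := .cons had (.cons hdc .nil))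
    (by simp [SimpleGraph.Walk.cons_isPath_iff, hab.ne, hbc.ne, hac])
    (by simp [SimpleGraph.Walk.cons_isPath_iff, had.ne, hdc.ne, hac]) (by simp)
  rw [SimpleGraph.Walk.cons.injEq] at h
  exact h.1

/-- no triangles -/
lemma no_tri (hg : (9 : ℕ∞) ≤ G.egirth) {a b c : V} (hab : G.Adj a b) (hbc : G.Adj b c)
    (hac : G.Adj a c) : False := by
  have h := path_unique hg (p := .cons hab (.cons hbc .nil)) (q := .cons hac .nil)
    (by simp [SimpleGraph.Walk.cons_isPath_iff, hab.ne, hbc.ne, hac.ne])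
    (by simp [SimpleGraph.Walk.cons_isPath_iff, hac.ne]) (by simp)
  rw [SimpleGraph.Walk.cons.injEq] at h
  exact hbc.ne h.1

/-- `b` is reached from `a` through `v` by a path of length at most four -/
def Via (G : SimpleGraph V) (a v b : V) : Prop :=
  ∃ p : G.Walk v b, p.IsPath ∧ a ∉ p.support ∧ p.length ≤ 3

lemma Via.inj (hg : (9 : ℕ∞) ≤ G.egirth) {a v v' b : V} (h1 : G.Adj a v) (h2 : G.Adj a v')
    (h : Via G a v b) (h' : Via G a v' b) : v = v' := by
  obtain ⟨p, p1, p2, p3⟩ := h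
  obtain ⟨q, q1, q2, q3⟩ := h'
  have h := path_unique hg (p := .cons h1 p) (q := .cons h2 q)
    (by rw [SimpleGraph.Walk.cons_isPath_iff]; exact ⟨p1, p2⟩)
    (by rw [SimpleGraph.Walk.cons_isPath_iff]; exact ⟨q1, q2⟩)
    (by rw [SimpleGraph.Walk.length_cons, SimpleGraph.Walk.length_cons]; omega)
  rw [SimpleGraph.Walk.cons.injEq] at h
  exact h.1

lemma Via.zero {a v : V} (h : a ≠ v) : Via G a v v :=
  ⟨.nil, by simp, by simpa using h, by simp⟩

lemma Via.one {a v b : V} (h1 : a ≠ v) (h2 : a ≠ b) (hvb : G.Adj v b) : Via G a v b :=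
  ⟨.cons hvb .nil, by simp [SimpleGraph.Walk.cons_isPath_iff, hvb.ne], by simp [h1, h2], by simp⟩

lemma Via.two {a v x b : V} (h1 : a ≠ v) (h2 : a ≠ x) (h3 : a ≠ b) (hvx : G.Adj v x) (hxb : G.Adj x b)
    (hvb : v ≠ b) : Via G a v b :=
  ⟨.cons hvx (.cons hxb .nil), by simp [SimpleGraph.Walk.cons_isPath_iff, hvx.ne, hxb.ne, hvb],
    by simp [h1, h2, h3], by simp⟩

lemma Via.three {a v x y b : V} (h1 : a ≠ v) (h2 : a ≠ x) (h3 : a ≠ y) (h4 : a ≠ b) (hvx : G.Adj v x)
    (hxy : G.Adj x y) (hyb : G.Adj y b) (hvy : v ≠ y) (hvb : v ≠ b) (hxb : x ≠ b) : Via G a v b :=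
  ⟨.cons hvx (.cons hxy (.cons hyb .nil)),
    by simp [SimpleGraph.Walk.cons_isPath_iff, hvx.ne, hxy.ne, hyb.ne, hvy, hvb, hxb],
    by simp [h1, h2, h3, h4], by simp⟩

end Girth

/-- `v` is a direction at `a` leading to `S` in at most four steps -/
def Dir {V : Type*} (G : SimpleGraph V) (S : Set V) (a v : V) : Prop :=
  G.Adj a v ∧ (v ∈ S ∨ (∃ x ∈ S, x ≠ a ∧ G.Adj v x) ∨
    (∃ x, x ∉ S ∧ ∃ y ∈ S, G.Adj v x ∧ G.Adj x y) ∨
    (∃ x, x ∉ S ∧ ∃ y, y ∉ S ∧ y ≠ v ∧ ∃ z ∈ S, G.Adj v x ∧ G.Adj x y ∧ G.Adj y z))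

open Classical in
theorem order_step {V : Type u} [Fintype V] {G : SimpleGraph V} (hg : (9 : ℕ∞) ≤ G.egirth) {t : ℕ}
    (hKM : ¬ KM G t) (S : Finset V) (hS : S.Nonempty) :
    ∃ a ∈ S, (univ.filter (fun v => Dir G (S : Set V) a v)).card ≤ 2 ^ (t + 1) := by
  by_contra hcon
  push Not at hcon
  apply hKM
  -- levels
  set l1 : V → Prop := fun x => x ∉ S ∧ ∃ s ∈ S, G.Adj x s with hl1
  have hc1 : ∀ x, ∃ s, l1 x → s ∈ S ∧ G.Adj x s := by
    intro x
    by_cases h : l1 x
    · obtain ⟨s, hs, hxs⟩ := h.2; exact ⟨s, fun _ => ⟨hs, hxs⟩⟩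
    · exact ⟨x, fun h' => absurd h' h⟩
  choose c1 hc1 using hc1
  set l2 : V → Prop := fun x => x ∉ S ∧ ¬ l1 x ∧ ∃ y, l1 y ∧ G.Adj x y with hl2
  have hc2 : ∀ x, ∃ y, l2 x → l1 y ∧ G.Adj x y := by
    intro x
    by_cases h : l2 x
    · obtain ⟨y, hy, hxy⟩ := h.2.2; exact ⟨y, fun _ => ⟨hy, hxy⟩⟩
    · exact ⟨x, fun h' => absurd h' h⟩
  choose c2 hc2 using hc2
  set cell : V → Set V := fun a => {x | x = a ∨ (l1 x ∧ c1 x = a) ∨ (l2 x ∧ c1 (c2 x) = a)} with hcell
  set M : SimpleGraph {s : V // s ∈ S} :=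
    { Adj := fun a b => a ≠ b ∧ ∃ x ∈ cell a.1, ∃ y ∈ cell b.1, G.Adj x y
      symm := ⟨by rintro a b ⟨h, x, hx, y, hy, hxy⟩; exact ⟨h.symm, y, hy, x, hx, hxy.symm⟩⟩
      loopless := ⟨by rintro a ⟨h, _⟩; exact h rfl⟩ } with hM
  have hcellC : ∀ a : {s : V // s ∈ S}, Cn G (cell a.1) := by
    intro a
    have ha : a.1 ∈ cell a.1 := Or.inl rfl
    refine Cn_of_center ha ?_
    rintro x (rfl | ⟨h1, h2⟩ | ⟨h1, h2⟩)
    · exact RI.refl _
    · refine RI.single ?_ ha (Or.inr (Or.inl ⟨h1, h2⟩))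
      rw [← h2]; exact (hc1 x h1).2.symm
    · obtain ⟨h3, h4⟩ := hc2 x h1
      have hy : c2 x ∈ cell a.1 := Or.inr (Or.inl ⟨h3, h2⟩)
      refine (RI.single ?_ ha hy).trans (RI.single h4.symm hy (Or.inr (Or.inr ⟨h1, h2⟩)))
      rw [← h2]; exact (hc1 _ h3).2.symm
  have hMG : Mn M G := by
    refine ⟨fun a => cell a.1, hcellC, ?_, fun a b h => h.2⟩
    intro a b hab
    rw [Set.disjoint_left]
    rintro x (h | ⟨h1, h2⟩ | ⟨h1, h2⟩) (h' | ⟨h1', h2'⟩ | ⟨h1', h2'⟩)
    · exact hab (Subtype.ext (h.symm.trans h'))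
    · exact h1'.1 (by rw [h]; exact a.2)
    · exact h1'.1 (by rw [h]; exact a.2)
    · exact h1.1 (by rw [h']; exact b.2)
    · exact hab (Subtype.ext (h2.symm.trans h2'))
    · exact h1'.2.1 h1
    · exact h1.1 (by rw [h']; exact b.2)
    · exact h1.2.1 h1'
    · exact hab (Subtype.ext (h2.symm.trans h2'))
  refine KM.of_Mn ?_ hMG
  -- each direction gives a neighbour in `M`
  have hdir : ∀ (a : {s : V // s ∈ S}) (v : V), ∃ b : {s : V // s ∈ S}, Dir G (S : Set V) a.1 v →
      M.Adj a b ∧ Via G a.1 v b.1 := by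
    intro a v
    by_cases hD : Dir G (S : Set V) a.1 v
    swap
    · exact ⟨a, fun h => absurd h hD⟩
    obtain ⟨hav, hD⟩ := hD
    have ha : a.1 ∈ cell a.1 := Or.inl rfl
    have haS : a.1 ∈ S := a.2
    by_cases hvS : v ∈ S
    · refine ⟨⟨v, hvS⟩, fun _ => ⟨⟨fun e => hav.ne (congrArg Subtype.val e), a.1, ha, v, Or.inl rfl, hav⟩,
        Via.zero hav.ne⟩⟩
    have hl1v : l1 v := ⟨hvS, a.1, haS, hav.symm⟩
    obtain ⟨hcS, hvc⟩ := hc1 v hl1v
    by_cases hca : c1 v = a.1
    swap
    · refine ⟨⟨c1 v, hcS⟩, fun _ => ⟨⟨fun e => hca (congrArg Subtype.val e).symm, a.1, ha, v,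
        Or.inr (Or.inl ⟨hl1v, rfl⟩), hav⟩, Via.one hav.ne (fun e => hca e.symm) hvc⟩⟩
    have hvcell : v ∈ cell a.1 := Or.inr (Or.inl ⟨hl1v, hca⟩)
    have hnv : ∀ b ∈ S, v ≠ b := fun b hb e => hvS (by rw [e]; exact hb)
    -- the level one case
    have caseL1 : ∀ x, x ∉ S → G.Adj v x → l1 x → ∃ b : {s : V // s ∈ S}, M.Adj a b ∧ Via G a.1 v b.1 := by
      intro x hxS hvx hx
      obtain ⟨h1, h2⟩ := hc1 x hx
      have hne : c1 x ≠ a.1 := by
        intro e
        rw [e] at h2
        exact no_tri hg hav hvx h2.symm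
      refine ⟨⟨c1 x, h1⟩, ⟨fun e => hne (congrArg Subtype.val e).symm, v, hvcell, x, Or.inr (Or.inl ⟨hx, rfl⟩), hvx⟩, ?_⟩
      refine Via.two hav.ne ?_ (fun e => hne e.symm) hvx h2 (hnv _ h1)
      intro e; exact hxS (by rw [← e]; exact haS)
    rcases hD with h | ⟨x, hxS, hxa, hvx⟩ | ⟨x, hxS, y, hyS, hvx, hxy⟩ | ⟨x, hxS, y, hyS, hyv, z, hzS, hvx, hxy, hyz⟩
    · exact absurd h hvS
    · have hxS' : x ∈ S := hxS
      exact ⟨⟨x, hxS'⟩, fun _ => ⟨⟨fun e => hxa (congrArg Subtype.val e).symm, v, hvcell, x, Or.inl rfl, hvx⟩,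
        Via.one hav.ne (fun e => hxa e.symm) hvx⟩⟩
    · have hxS' : x ∉ S := hxS
      obtain ⟨b, hb⟩ := caseL1 x hxS' hvx ⟨hxS', y, hyS, hxy⟩
      exact ⟨b, fun _ => hb⟩
    · have hxS' : x ∉ S := hxS
      have hyS' : y ∉ S := hyS
      by_cases hx1 : l1 x
      · obtain ⟨b, hb⟩ := caseL1 x hxS' hvx hx1
        exact ⟨b, fun _ => hb⟩
      · have hx2 : l2 x := ⟨hxS', hx1, v, hl1v, hvx.symm⟩
        obtain ⟨h3, h4⟩ := hc2 x hx2
        obtain ⟨h5, h6⟩ := hc1 _ h3
        have hax : a.1 ≠ x := fun e => hxS' (by rw [← e]; exact haS)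
        by_cases he : c1 (c2 x) = a.1
        · have hxcell : x ∈ cell a.1 := Or.inr (Or.inr ⟨hx2, he⟩)
          have hy1 : l1 y := ⟨hyS', z, hzS, hyz⟩
          obtain ⟨h7, h8⟩ := hc1 y hy1
          have hne : c1 y ≠ a.1 := by
            intro e
            rw [e] at h8
            exact hyv (uniq2 hg hav hvx h8.symm hxy.symm hax).symm
          have hay : a.1 ≠ y := fun e => hyS' (by rw [← e]; exact haS)
          refine ⟨⟨c1 y, h7⟩, fun _ => ⟨⟨fun e => hne (congrArg Subtype.val e).symm, x, hxcell, y,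
            Or.inr (Or.inl ⟨hy1, rfl⟩), hxy⟩, ?_⟩⟩
          exact Via.three hav.ne hax hay (fun e => hne e.symm) hvx hxy h8 (fun e => hyv e.symm) (hnv _ h7)
            (fun e => hxS' (by rw [e]; exact h7))
        · have hau : a.1 ≠ c2 x := fun e => h3.1 (by rw [← e]; exact haS)
          refine ⟨⟨c1 (c2 x), h5⟩, fun _ => ⟨⟨fun e => he (congrArg Subtype.val e).symm, v, hvcell, x,
            Or.inr (Or.inr ⟨hx2, rfl⟩), hvx⟩, ?_⟩⟩
          refine Via.three hav.ne hax hau (fun e => he e.symm) hvx h4 h6 ?_ (hnv _ h5)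
            (fun e => hxS' (by rw [e]; exact h5))
          intro e
          apply he
          rw [← e]; exact hca
  choose bb hbb using hdir
  have hnb : ∀ a : {s : V // s ∈ S}, 2 ^ (t + 1) ≤ (nb M a).card := by
    intro a
    have h1 := hcon a.1 a.2
    have h2 : (univ.filter (fun v => Dir G (S : Set V) a.1 v)).card ≤ (nb M a).card := by
      refine Finset.card_le_card_of_injOn (bb a) ?_ ?_
      · intro v hv
        rw [Finset.mem_coe, Finset.mem_filter] at hv
        rw [Finset.mem_coe, mem_nb]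
        exact (hbb a v hv.2).1
      · intro v hv v' hv' he
        rw [Finset.mem_coe, Finset.mem_filter] at hv hv'
        have h3 := (hbb a v hv.2).2
        have h4 := (hbb a v' hv'.2).2
        rw [he] at h3
        exact h3.inj hg hv.2.1 hv'.2.1 h4
    omega
  have hcard : Fintype.card {s : V // s ∈ S} = S.card := Fintype.card_coe S
  refine dens t S.card _ M hcard (Finset.card_pos.2 hS) ?_
  have hsum : (PA M).card = ∑ a : {s : V // s ∈ S}, (nb M a).card := by
    unfold PA nb
    rw [Finset.card_filter, Fintype.sum_prod_type]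
    apply Finset.sum_congr rfl
    intro a _
    rw [Finset.card_filter]
  rw [hsum]
  calc 2 ^ (t+1) * S.card = ∑ a : {s : V // s ∈ S}, 2 ^ (t+1) := by
        rw [Finset.sum_const, Finset.card_univ, smul_eq_mul, hcard, mul_comm]
    _ ≤ _ := Finset.sum_le_sum (fun a _ => hnb a)

open Classical in
/-- a good ordering from a choice of a last element of every nonempty set -/
theorem exists_order {V : Type*} [Fintype V] (φ : Finset V → V → Prop)
    (h : ∀ S : Finset V, S.Nonempty → ∃ a ∈ S, φ S a) :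
    ∃ r : V → ℕ, Function.Injective r ∧ ∀ a, φ (univ.filter (fun x => r x ≤ r a)) a := by
  have main : ∀ n : ℕ, ∀ S : Finset V, S.card = n → ∃ r : V → ℕ,
      (∀ x ∈ S, ∀ y ∈ S, r x = r y → x = y) ∧ (∀ x ∈ S, r x < n) ∧
      ∀ a ∈ S, φ (S.filter (fun x => r x ≤ r a)) a := by
    intro n
    induction n with
    | zero =>
      intro S hS
      rw [Finset.card_eq_zero] at hS
      subst hS
      exact ⟨fun _ => 0, fun x hx => absurd hx (Finset.notMem_empty x),
        fun x hx => absurd hx (Finset.notMem_empty x), fun x hx => absurd hx (Finset.notMem_empty x)⟩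
    | succ n ih =>
      intro S hS
      obtain ⟨a0, ha0, hφ⟩ := h S (by rw [← Finset.card_pos]; omega)
      obtain ⟨r, r1, r2, r3⟩ := ih (S.erase a0) (by rw [Finset.card_erase_of_mem ha0]; omega)
      have hr' : ∀ x, x ≠ a0 → (if x = a0 then n else r x) = r x := fun x hx => if_neg hx
      have hr0 : (if a0 = a0 then n else r a0) = n := if_pos rfl
      refine ⟨fun x => if x = a0 then n else r x, ?_, ?_, ?_⟩
      · intro x hx y hy hxy
        simp only at hxy
        by_cases h1 : x = a0 <;> by_cases h2 : y = a0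
        · rw [h1, h2]
        · rw [if_pos h1, if_neg h2] at hxy
          have := r2 y (Finset.mem_erase.2 ⟨h2, hy⟩)
          omega
        · rw [if_neg h1, if_pos h2] at hxy
          have := r2 x (Finset.mem_erase.2 ⟨h1, hx⟩)
          omega
        · rw [if_neg h1, if_neg h2] at hxy
          exact r1 x (Finset.mem_erase.2 ⟨h1, hx⟩) y (Finset.mem_erase.2 ⟨h2, hy⟩) hxy
      · intro x hx
        by_cases h1 : x = a0
        · simp only; rw [if_pos h1]; omega
        · simp only; rw [if_neg h1]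
          have := r2 x (Finset.mem_erase.2 ⟨h1, hx⟩)
          omega
      · intro a ha
        by_cases h1 : a = a0
        · subst h1
          have : S.filter (fun x => (if x = a then n else r x) ≤ (if a = a then n else r a)) = S := by
            rw [Finset.filter_eq_self]
            intro x hx
            rw [hr0]
            by_cases h2 : x = a
            · rw [if_pos h2]
            · rw [if_neg h2]
              have := r2 x (Finset.mem_erase.2 ⟨h2, hx⟩)
              omega
          show φ (S.filter (fun x => (if x = a then n else r x) ≤ (if a = a then n else r a))) a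
          rw [this]; exact hφ
        · have h3 := r3 a (Finset.mem_erase.2 ⟨h1, ha⟩)
          have hra := r2 a (Finset.mem_erase.2 ⟨h1, ha⟩)
          have : S.filter (fun x => (if x = a0 then n else r x) ≤ (if a = a0 then n else r a)) =
              (S.erase a0).filter (fun x => r x ≤ r a) := by
            ext x
            rw [Finset.mem_filter, Finset.mem_filter, Finset.mem_erase, if_neg h1]
            constructor
            · rintro ⟨h4, h5⟩
              by_cases h6 : x = a0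
              · rw [if_pos h6] at h5; omega
              · rw [if_neg h6] at h5; exact ⟨⟨h6, h4⟩, h5⟩
            · rintro ⟨⟨h4, h5⟩, h6⟩
              exact ⟨h5, by rw [if_neg h4]; exact h6⟩
          show φ (S.filter (fun x => (if x = a0 then n else r x) ≤ (if a = a0 then n else r a))) a
          rw [this]; exact h3
  obtain ⟨r, r1, _, r3⟩ := main _ univ rfl
  exact ⟨r, fun x y hxy => r1 x (mem_univ _) y (mem_univ _) hxy, fun a => r3 a (mem_univ _)⟩

end Pool.Agent.Lib.MP_4332cb_co
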