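import Pool.Agent.Lib.MP_4332cb_co.BD
import Pool.Agent.Lib.MP_4332cb_co.Order

/-!
Reduction from girth at least nine to bounded degree, and the main theorem.
-/

namespace Pool.Agent.Lib.MP_4332cb_co

open Finset

universe u

section Reduction

variable {V : Type u} [Fintype V] {G : SimpleGraph V} {r : V → ℕ}

/-- `w` is a younger neighbour of `a` that does not lead back to older vertices quickly -/
def Frc (G : SimpleGraph V) (r : V → ℕ) (a w : V) : Prop :=
  r a < r w ∧ G.Adj a w ∧ ¬ Dir G {x | r x ≤ r a} a w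

/-- the bounded degree subgraph -/
def Gp (G : SimpleGraph V) (r : V → ℕ) : SimpleGraph V where
  Adj u v := G.Adj u v ∧ ((r u < r v ∧ Dir G {x | r x ≤ r u} u v) ∨ (r v < r u ∧ Dir G {x | r x ≤ r v} v u))
  symm := ⟨by
    rintro u v ⟨h1, h2⟩
    exact ⟨h1.symm, h2.symm⟩⟩
  loopless := ⟨by rintro u ⟨h, _⟩; exact h.ne rfl⟩

lemma Gp_or_Frc (hr : Function.Injective r) {u v : V} (h : G.Adj u v) :
    (Gp G r).Adj u v ∨ Frc G r u v ∨ Frc G r v u := by
  have hne : r u ≠ r v := fun e => h.ne (hr e)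
  rcases lt_or_gt_of_ne hne with h1 | h1
  · by_cases hD : Dir G {x | r x ≤ r u} u v
    · exact Or.inl ⟨h, Or.inl ⟨h1, hD⟩⟩
    · exact Or.inr (Or.inl ⟨h1, h, hD⟩)
  · by_cases hD : Dir G {x | r x ≤ r v} v u
    · exact Or.inl ⟨h, Or.inr ⟨h1, hD⟩⟩
    · exact Or.inr (Or.inr ⟨h1, h.symm, hD⟩)

lemma Frc_not_Gp {a w : V} (h : Frc G r a w) : ¬ (Gp G r).Adj a w := by
  rintro ⟨_, ⟨_, h2⟩ | ⟨h1, _⟩⟩
  · exact h.2.2 h2
  · exact absurd h1 (not_lt.2 h.1.le)

lemma Frc_uniq (hr : Function.Injective r) {a a' w : V} (h : Frc G r a w) (h' : Frc G r a' w) : a = a' := by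
  by_contra hne
  have key : ∀ a a', Frc G r a w → Frc G r a' w → r a < r a' → False := by
    intro a a' h h' hlt
    apply h'.2.2
    refine ⟨h'.2.1, Or.inr (Or.inl ⟨a, ?_, ?_, h.2.1.symm⟩)⟩
    · show r a ≤ r a'; exact hlt.le
    · rintro rfl; exact lt_irrefl _ hlt
  rcases lt_or_gt_of_ne (fun e => hne (hr e) : r a ≠ r a') with h1 | h1
  · exact key a a' h h' h1
  · exact key a' a h' h h1

lemma sc1 (hg : (9 : ℕ∞) ≤ G.egirth) (hr : Function.Injective r) {a w a' w' : V} (h : Frc G r a w)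
    (h' : Frc G r a' w') (hadj : (Gp G r).Adj w w') : False := by
  have key : ∀ a w a' w', Frc G r a w → Frc G r a' w' → (Gp G r).Adj w w' → r a < r a' → False := by
    intro a w a' w' h h' hadj hlt
    apply h'.2.2
    refine ⟨h'.2.1, ?_⟩
    by_cases hw : r w ≤ r a'
    · right; left
      refine ⟨w, hw, ?_, hadj.1.symm⟩
      rintro rfl
      exact Frc_not_Gp h' hadj
    · right; right; left
      exact ⟨w, hw, a, hlt.le, hadj.1.symm, h.2.1.symm⟩
  by_cases e : a = a'
  · subst e
    exact no_tri hg h.2.1 hadj.1 h'.2.1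
  · rcases lt_or_gt_of_ne (fun e' => e (hr e') : r a ≠ r a') with h1 | h1
    · exact key a w a' w' h h' hadj h1
    · exact key a' w' a w h' h hadj.symm h1

lemma sc2 (hg : (9 : ℕ∞) ≤ G.egirth) (hr : Function.Injective r) {a w a' w' x : V} (h : Frc G r a w)
    (h' : Frc G r a' w') (h1 : (Gp G r).Adj w x) (h2 : (Gp G r).Adj w' x) : w = w' := by
  by_contra hne
  have key : ∀ a w a' w', w ≠ w' → Frc G r a w → Frc G r a' w' → (Gp G r).Adj w x → (Gp G r).Adj w' x →
      r a < r a' → False := by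
    intro a w a' w' hne h h' h1 h2 hlt
    apply h'.2.2
    refine ⟨h'.2.1, ?_⟩
    by_cases hx : r x ≤ r a'
    · right; left
      refine ⟨x, hx, ?_, h2.1⟩
      rintro rfl
      exact Frc_not_Gp h' h2.symm
    · by_cases hw : r w ≤ r a'
      · right; right; left
        exact ⟨x, hx, w, hw, h2.1, h1.1.symm⟩
      · right; right; right
        exact ⟨x, hx, w, hw, hne, a, hlt.le, h2.1, h1.1.symm, h.2.1.symm⟩
  by_cases e : a = a'
  · subst e
    by_cases hax : a = x
    · subst hax
      exact Frc_not_Gp h h1.symm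
    · exact hne (uniq2 hg h.2.1 h1.1 h'.2.1 h2.1 hax)
  · rcases lt_or_gt_of_ne (fun e' => e (hr e') : r a ≠ r a') with h3 | h3
    · exact key a w a' w' hne h h' h1 h2 h3
    · exact key a' w' a w (Ne.symm hne) h' h h2 h1 h3

open Classical in
lemma Gp_deg {p : ℕ} (hdir : ∀ a, (univ.filter (fun v => Dir G {x | r x ≤ r a} a v)).card ≤ p) :
    ∀ v, (nb (Gp G r) v).card ≤ p := by
  intro v
  refine le_trans (Finset.card_le_card ?_) (hdir v)
  intro w hw
  rw [mem_nb] at hw
  rw [Finset.mem_filter]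
  refine ⟨mem_univ _, ?_⟩
  rcases hw.2 with h | h
  · exact h.2
  · exact ⟨hw.1, Or.inl h.1.le⟩

open Classical in
/-- **Reduction to bounded degree.** -/
theorem reduction (hg : (9 : ℕ∞) ≤ G.egirth) (hr : Function.Injective r) {p : ℕ}
    (hdir : ∀ a, (univ.filter (fun v => Dir G {x | r x ≤ r a} a v)).card ≤ p)
    {α : Type*} (ot : α → α) (hot : ∀ x, ot x ≠ x) {c : ℕ} (hc1 : 1 ≤ c)
    (hcol : ∀ (U : Type u) [Fintype U] (K : SimpleGraph U), Mn K G → (∀ v, (nb K v).card ≤ (p + 1) * p) →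
      ∃ f : U → α, ∀ C, Cn K C → (∀ x ∈ C, ∀ y ∈ C, f x = f y) → C.ncard ≤ c) :
    ∃ f : V → α, ∀ C, Cn G C → (∀ x ∈ C, ∀ y ∈ C, f x = f y) → C.ncard ≤ c * (p + 1) := by
  have hGpG : ∀ u v, (Gp G r).Adj u v → G.Adj u v := fun u v h => h.1
  have hpdeg := Gp_deg hdir
  set Wd : V → Prop := fun w => ∃ a, Frc G r a w with hWd
  have hs1 : ∀ w w', Wd w → Wd w' → ¬ (Gp G r).Adj w w' := by
    rintro w w' ⟨a, ha⟩ ⟨a', ha'⟩ h
    exact sc1 hg hr ha ha' h
  have hs2 : ∀ w w' x, Wd w → Wd w' → (Gp G r).Adj w x → (Gp G r).Adj w' x → w = w' := by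
    rintro w w' x ⟨a, ha⟩ ⟨a', ha'⟩ h h'
    exact sc2 hg hr ha ha' h h'
  -- the projection
  have hπ : ∀ x, ∃ y, (Wd x → y = x) ∧ (∀ w, Wd w → (Gp G r).Adj w x → y = w) ∧
      ((¬ Wd x ∧ ∀ w, Wd w → ¬ (Gp G r).Adj w x) → y = x) := by
    intro x
    by_cases h1 : Wd x
    · exact ⟨x, fun _ => rfl, fun w hw h => absurd h (hs1 w x hw h1), fun _ => rfl⟩
    · by_cases h2 : ∃ w, Wd w ∧ (Gp G r).Adj w x
      · obtain ⟨w, hw, hwx⟩ := h2
        refine ⟨w, fun h => absurd h h1, fun w' hw' h => hs2 w w' x hw hw' hwx h, fun h => ?_⟩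
        exact absurd hwx (h.2 w hw)
      · push Not at h2
        exact ⟨x, fun h => rfl, fun w hw h => absurd h (h2 w hw), fun _ => rfl⟩
  choose π hπ1 hπ2 hπ3 using hπ
  have hπcase : ∀ x, π x = x ∨ (Wd (π x) ∧ (Gp G r).Adj (π x) x) := by
    intro x
    by_cases h1 : Wd x
    · exact Or.inl (hπ1 x h1)
    · by_cases h2 : ∃ w, Wd w ∧ (Gp G r).Adj w x
      · obtain ⟨w, hw, hwx⟩ := h2
        right
        rw [hπ2 x w hw hwx]
        exact ⟨hw, hwx⟩
      · push Not at h2
        exact Or.inl (hπ3 x ⟨h1, h2⟩)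
  have hππ : ∀ x, π (π x) = π x := by
    intro x
    rcases hπcase x with h | h
    · rw [h, h]
    · exact hπ1 _ h.1
  -- the quotient
  let U := {u : V // π u = u}
  let K : SimpleGraph U :=
    { Adj := fun u v => u ≠ v ∧ ∃ x y, π x = u.1 ∧ π y = v.1 ∧ (Gp G r).Adj x y
      symm := ⟨by rintro u v ⟨h, x, y, hx, hy, hxy⟩; exact ⟨h.symm, y, x, hy, hx, hxy.symm⟩⟩
      loopless := ⟨by rintro u ⟨h, _⟩; exact h rfl⟩ }
  have hKG : Mn K G := by
    refine ⟨fun u => {x | π x = u.1}, ?_, ?_, ?_⟩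
    · intro u
      refine Cn_of_center (x := u.1) u.2 ?_
      intro x hx
      have hx' : π x = u.1 := hx
      rcases hπcase x with h | h
      · rw [h] at hx'
        rw [hx']; exact RI.refl _
      · rw [hx'] at h
        exact RI.single (hGpG _ _ h.2) u.2 hx
    · intro u v huv
      rw [Set.disjoint_left]
      intro x hx hx'
      have h1 : π x = u.1 := hx
      have h2 : π x = v.1 := hx'
      exact huv (Subtype.ext (h1.symm.trans h2))
    · rintro u v ⟨_, x, y, hx, hy, hxy⟩
      exact ⟨x, hx, y, hy, hGpG _ _ hxy⟩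
  have hfib : ∀ u : V, (univ.filter (fun x => π x = u)).card ≤ p + 1 := by
    intro u
    have hsub : univ.filter (fun x => π x = u) ⊆ insert u (nb (Gp G r) u) := by
      intro x hx
      rw [Finset.mem_filter] at hx
      rw [Finset.mem_insert, mem_nb]
      rcases hπcase x with h | h
      · left; rw [← h]; exact hx.2
      · right; rw [← hx.2]; exact h.2
    have h1 := Finset.card_le_card hsub
    have h2 := Finset.card_insert_le u (nb (Gp G r) u)
    have h3 := hpdeg u
    omega
  have hKdeg : ∀ v, (nb K v).card ≤ (p + 1) * p := by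
    intro u
    have h1 : (nb K u).card ≤
        (((univ.filter (fun x => π x = u.1)).biUnion (fun x => nb (Gp G r) x)).image π).card := by
      refine Finset.card_le_card_of_injOn (fun v => v.1) ?_ (fun x _ y _ h => Subtype.ext h)
      intro v hv
      rw [Finset.mem_coe, mem_nb] at hv
      obtain ⟨_, x, y, hx, hy, hxy⟩ := hv
      rw [Finset.mem_coe, Finset.mem_image]
      refine ⟨y, ?_, hy⟩
      rw [Finset.mem_biUnion]
      exact ⟨x, by rw [Finset.mem_filter]; exact ⟨mem_univ _, hx⟩, mem_nb.2 hxy⟩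
    calc (nb K u).card ≤ _ := h1
      _ ≤ ((univ.filter (fun x => π x = u.1)).biUnion (fun x => nb (Gp G r) x)).card := Finset.card_image_le
      _ ≤ (univ.filter (fun x => π x = u.1)).card * p :=
          Finset.card_biUnion_le_card_mul _ _ _ (fun x _ => hpdeg x)
      _ ≤ (p + 1) * p := Nat.mul_le_mul_right _ (hfib u.1)
  obtain ⟨fK, hfK⟩ := hcol U K hKG hKdeg
  set f0 : V → α := fun v => fK ⟨π v, hππ v⟩ with hf0
  -- recolouring
  have hrec : ∀ n : ℕ, ∃ f : V → α, ∀ v, r v < n → (∀ a, Frc G r a v → f v ≠ f a) ∧ (f v = f0 v ∨ Wd v) := by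
    intro n
    induction n with
    | zero => exact ⟨f0, fun v h => absurd h (Nat.not_lt_zero _)⟩
    | succ n ih =>
      obtain ⟨f, hf⟩ := ih
      refine ⟨fun v => if r v = n then (if ∃ a, Frc G r a v ∧ f0 v = f a then ot (f0 v) else f0 v) else f v, ?_⟩
      intro v hv
      simp only
      by_cases hvn : r v = n
      · rw [if_pos hvn]
        by_cases hex : ∃ a, Frc G r a v ∧ f0 v = f a
        · rw [if_pos hex]
          obtain ⟨a, ha, hfa⟩ := hex
          refine ⟨?_, Or.inr ⟨a, ha⟩⟩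
          intro a' ha'
          have e : a = a' := Frc_uniq hr ha ha'
          subst e
          have hne : r a ≠ n := by have := ha.1; omega
          rw [if_neg hne, ← hfa]
          exact hot _
        · rw [if_neg hex]
          refine ⟨?_, Or.inl rfl⟩
          intro a' ha'
          have hne : r a' ≠ n := by have := ha'.1; omega
          rw [if_neg hne]
          intro e
          exact hex ⟨a', ha', e⟩
      · rw [if_neg hvn]
        have h1 := hf v (by omega)
        refine ⟨?_, h1.2⟩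
        intro a ha
        have hne : r a ≠ n := by have := ha.1; omega
        rw [if_neg hne]
        exact h1.1 a ha
  obtain ⟨m, hm⟩ : ∃ m, ∀ v, r v < m := by
    obtain ⟨m, hm⟩ := Finset.exists_nat_subset_range (univ.image r)
    exact ⟨m, fun v => Finset.mem_range.1 (hm (Finset.mem_image_of_mem _ (mem_univ v)))⟩
  obtain ⟨f, hf⟩ := hrec m
  have hf1 : ∀ a w, Frc G r a w → f w ≠ f a := fun a w h => (hf w (hm w)).1 a h
  have hf2 : ∀ v, ¬ Wd v → f v = f0 v := fun v hv => (hf v (hm v)).2.resolve_right hv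
  refine ⟨f, ?_⟩
  intro C hC hmono
  -- `C` is connected in the bounded degree graph
  have hCp : Cn (Gp G r) C := by
    refine hC.mono_graph ?_
    intro u hu v hv huv
    rcases Gp_or_Frc hr huv with h | h | h
    · exact h
    · exact absurd (hmono v hv u hu) (hf1 u v h)
    · exact absurd (hmono u hu v hv) (hf1 v u h)
  by_cases hrecol : ∃ v ∈ C, f v ≠ f0 v
  · obtain ⟨v, hv, hvf⟩ := hrecol
    have hWv : Wd v := by
      by_contra h
      exact hvf (hf2 v h)
    have hsub : C ⊆ {v} := by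
      intro y hy
      by_contra hyv
      obtain ⟨a, b, ha, haA, hb, hbA, hab⟩ := leave hCp hv (show v ∈ ({v} : Set V) from rfl) hy hyv
      have hav : a = v := haA
      subst hav
      have hWb : ¬ Wd b := fun h => hs1 a b hWv h hab
      have h1 : f b = f0 b := hf2 b hWb
      have h2 : π b = a := hπ2 b a hWv hab
      have h3 : π a = a := hπ1 a hWv
      have h4 : f0 b = f0 a := by
        rw [hf0]
        simp only
        congr 1
        apply Subtype.ext
        show π b = π a
        rw [h2, h3]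
      apply hvf
      rw [← h4, ← h1]
      exact hmono a ha b hb
    have h1 : C.ncard ≤ 1 := by
      have := Set.ncard_le_ncard hsub (Set.toFinite _)
      rwa [Set.ncard_singleton] at this
    have h2 : 1 ≤ c * (p + 1) := Nat.mul_pos hc1 (Nat.succ_pos _)
    omega
  · push Not at hrecol
    set C' : Set U := {u | ∃ x ∈ C, π x = u.1} with hC'
    let im : V → U := fun x => ⟨π x, hππ x⟩
    have him : ∀ x ∈ C, im x ∈ C' := fun x hx => ⟨x, hx, rfl⟩
    have hC'C : Cn K C' := by
      obtain ⟨x0, hx0⟩ := hC.1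
      refine Cn_of_center (him x0 hx0) ?_
      have hgen : ∀ x, RI (Gp G r) C x0 x → RI K C' (im x0) (im x) := by
        intro x h
        induction h with
        | refl => exact RI.refl _
        | @tail y z h1 h2 ih =>
          by_cases e : im y = im z
          · rw [← e]; exact ih
          · exact ih.trans (RI.single ⟨e, y, z, rfl, rfl, h2.1⟩ (him y h2.2.1) (him z h2.2.2))
      rintro u ⟨x, hx, hxu⟩
      have hu : u = im x := Subtype.ext hxu.symm
      rw [hu]
      exact hgen x (hCp.2 x0 hx0 x hx)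
    have h1 := hfK C' hC'C (by
      rintro u ⟨x, hx, hxu⟩ v ⟨y, hy, hyv⟩
      have e1 : u = im x := Subtype.ext hxu.symm
      have e2 : v = im y := Subtype.ext hyv.symm
      rw [e1, e2]
      have h2 := hmono x hx y hy
      rw [hrecol x hx, hrecol y hy] at h2
      exact h2)
    -- count
    set C'F : Finset U := univ.filter (fun u => u ∈ C') with hC'F
    have hC'Fc : C'F.card = C'.ncard := by
      rw [← Set.ncard_coe_finset]
      congr 1
      ext v; simp [hC'F]
    have hsub : C ⊆ ((C'F.biUnion (fun u => univ.filter (fun x => π x = u.1)) : Finset V) : Set V) := by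
      intro x hx
      rw [Finset.mem_coe, Finset.mem_biUnion]
      refine ⟨im x, ?_, ?_⟩
      · rw [hC'F, Finset.mem_filter]; exact ⟨mem_univ _, him x hx⟩
      · rw [Finset.mem_filter]; exact ⟨mem_univ _, rfl⟩
    have h2 : C.ncard ≤ (C'F.biUnion (fun u => univ.filter (fun x => π x = u.1))).card := by
      rw [← Set.ncard_coe_finset]
      exact Set.ncard_le_ncard hsub (Finset.finite_toSet _)
    have h3 : (C'F.biUnion (fun u => univ.filter (fun x => π x = u.1))).card ≤ C'F.card * (p + 1) :=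
      Finset.card_biUnion_le_card_mul _ _ _ (fun u _ => hfib u.1)
    calc C.ncard ≤ _ := h2
      _ ≤ _ := h3
      _ ≤ c * (p + 1) := Nat.mul_le_mul_right _ (by rw [hC'Fc]; exact h1)

end Reduction

/-- **Main theorem**: girth at least nine, no complete minor of order `t`: three colours. -/
theorem three_col {t : ℕ} (ht : 1 ≤ t) {V : Type u} [Fintype V] {G : SimpleGraph V}
    (hg : (9 : ℕ∞) ≤ G.egirth) (hKM : ¬ KM G t) :
    ∃ f : V → Fin 3, ∀ C, Cn G C → (∀ x ∈ C, ∀ y ∈ C, f x = f y) →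
      C.ncard ≤ CB t ((2 ^ (t + 1) + 1) * 2 ^ (t + 1)) * (2 ^ (t + 1) + 1) := by
  classical
  obtain ⟨r, hr, hdir⟩ := exists_order (V := V)
    (fun S a => (univ.filter (fun v => Dir G (S : Set V) a v)).card ≤ 2 ^ (t + 1))
    (fun S hS => order_step hg hKM S hS)
  have hΔ : 1 ≤ (2 ^ (t + 1) + 1) * 2 ^ (t + 1) := Nat.mul_pos (Nat.succ_pos _) (by positivity)
  refine reduction hg hr (p := 2 ^ (t + 1)) ?_ (fun x : Fin 3 => x + 1) ?_ ?_ ?_
  · intro a
    have h := hdir a
    have e : ((univ.filter (fun x => r x ≤ r a) : Finset V) : Set V) = {x | r x ≤ r a} := by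
      ext x; simp
    rw [e] at h
    convert h
  · intro x; fin_cases x <;> decide
  · unfold CB; omega
  · intro U _ K hK hdeg
    exact bd_three ht hΔ hdeg (fun h => hKM (h.of_Mn hK))

end Pool.Agent.Lib.MP_4332cb_co
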