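import Pool.Agent.Lib.MP_4332cb_co.Final

/-!
Graphs of girth at least seven: all but boundedly many edges at each vertex can be made
bichromatic by colouring an independent set of forced vertices last.
-/

namespace Pool.Agent.Lib.MP_4332cb_co

open Finset

universe u

section Girth7

variable {V : Type*} {G : SimpleGraph V}

/-- two short paths between the same vertices coincide -/
lemma path_unique7 (hg : (7 : ℕ∞) ≤ G.egirth) {a b : V} {p q : G.Walk a b} (hp : p.IsPath)
    (hq : q.IsPath) (hl : p.length + q.length ≤ 6) : p = q := by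
  classical
  by_contra hne
  -- the subgraph formed by the edges of `p` and `q`
  set E : Set (Sym2 V) := {e | e ∈ p.edges ∨ e ∈ q.edges} with hE
  set H := SimpleGraph.fromEdgeSet E with hH
  have hpH : ∀ e ∈ p.edges, e ∈ H.edgeSet := by
    intro e he
    rw [hH, SimpleGraph.edgeSet_fromEdgeSet]
    refine ⟨Or.inl he, ?_⟩
    exact G.not_isDiag_of_mem_edgeSet (p.edges_subset_edgeSet he)
  have hqH : ∀ e ∈ q.edges, e ∈ H.edgeSet := by
    intro e he
    rw [hH, SimpleGraph.edgeSet_fromEdgeSet]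
    refine ⟨Or.inr he, ?_⟩
    exact G.not_isDiag_of_mem_edgeSet (q.edges_subset_edgeSet he)
  have hHG : H ≤ G := by
    rw [← SimpleGraph.edgeSet_subset_edgeSet]
    intro e he
    rw [hH, SimpleGraph.edgeSet_fromEdgeSet] at he
    rcases he.1 with h | h
    · exact p.edges_subset_edgeSet h
    · exact q.edges_subset_edgeSet h
  have hcyc : ¬ H.IsAcyclic := by
    intro hac
    have h1 := (hac.subsingleton_path a b).elim ⟨p.transfer H hpH, hp.transfer hpH⟩
      ⟨q.transfer H hqH, hq.transfer hqH⟩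
    have h2 : p.transfer H hpH = q.transfer H hqH := congrArg Subtype.val h1
    apply hne
    have h3 : (p.transfer H hpH).transfer G (fun e he => by
        rw [SimpleGraph.Walk.edges_transfer] at he; exact p.edges_subset_edgeSet he) =
        (q.transfer H hqH).transfer G (fun e he => by
        rw [SimpleGraph.Walk.edges_transfer] at he; exact q.edges_subset_edgeSet he) := by
      congr 1
    rw [SimpleGraph.Walk.transfer_transfer, SimpleGraph.Walk.transfer_transfer,
      SimpleGraph.Walk.transfer_self, SimpleGraph.Walk.transfer_self] at h3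
    exact h3
  unfold SimpleGraph.IsAcyclic at hcyc
  push Not at hcyc
  obtain ⟨v, c, hc⟩ := hcyc
  -- length bound
  have h1 : (7 : ℕ∞) ≤ c.length := by
    have h2 := SimpleGraph.le_egirth.1 hg v (c.mapLe hHG) (hc.mapLe hHG)
    rwa [SimpleGraph.Walk.length_mapLe] at h2
  have h3 : c.length ≤ p.length + q.length := by
    rw [← SimpleGraph.Walk.length_edges, ← SimpleGraph.Walk.length_edges, ← SimpleGraph.Walk.length_edges,
      ← List.length_append]
    apply List.Subperm.length_le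
    apply List.Nodup.subperm hc.edges_nodup
    intro e he
    have h4 := c.edges_subset_edgeSet he
    rw [hH, SimpleGraph.edgeSet_fromEdgeSet] at h4
    rw [List.mem_append]
    exact h4.1
  have h4 : (7 : ℕ) ≤ c.length := by exact_mod_cast h1
  omega

/-- no triangles -/
lemma no_tri7 (hg : (7 : ℕ∞) ≤ G.egirth) {a b c : V} (hab : G.Adj a b) (hbc : G.Adj b c)
    (hac : G.Adj a c) : False := by
  have h := path_unique7 hg (p := .cons hab (.cons hbc .nil)) (q := .cons hac .nil)
    (by simp [SimpleGraph.Walk.cons_isPath_iff, hab.ne, hbc.ne, hac.ne])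
    (by simp [SimpleGraph.Walk.cons_isPath_iff, hac.ne]) (by simp)
  rw [SimpleGraph.Walk.cons.injEq] at h
  exact hbc.ne h.1

/-- `b` is reached from `a` through `v` by a path of length at most three -/
def Via7 (G : SimpleGraph V) (a v b : V) : Prop :=
  ∃ p : G.Walk v b, p.IsPath ∧ a ∉ p.support ∧ p.length ≤ 2

lemma Via7.inj (hg : (7 : ℕ∞) ≤ G.egirth) {a v v' b : V} (h1 : G.Adj a v) (h2 : G.Adj a v')
    (h : Via7 G a v b) (h' : Via7 G a v' b) : v = v' := by
  obtain ⟨p, p1, p2, p3⟩ := h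
  obtain ⟨q, q1, q2, q3⟩ := h'
  have h := path_unique7 hg (p := .cons h1 p) (q := .cons h2 q)
    (by rw [SimpleGraph.Walk.cons_isPath_iff]; exact ⟨p1, p2⟩)
    (by rw [SimpleGraph.Walk.cons_isPath_iff]; exact ⟨q1, q2⟩)
    (by rw [SimpleGraph.Walk.length_cons, SimpleGraph.Walk.length_cons]; omega)
  rw [SimpleGraph.Walk.cons.injEq] at h
  exact h.1

lemma Via7.zero {a v : V} (h : a ≠ v) : Via7 G a v v :=
  ⟨.nil, by simp, by simpa using h, by simp⟩

lemma Via7.one {a v b : V} (h1 : a ≠ v) (h2 : a ≠ b) (hvb : G.Adj v b) : Via7 G a v b :=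
  ⟨.cons hvb .nil, by simp [SimpleGraph.Walk.cons_isPath_iff, hvb.ne], by simp [h1, h2], by simp⟩

lemma Via7.two {a v x b : V} (h1 : a ≠ v) (h2 : a ≠ x) (h3 : a ≠ b) (hvx : G.Adj v x) (hxb : G.Adj x b)
    (hvb : v ≠ b) : Via7 G a v b :=
  ⟨.cons hvx (.cons hxb .nil), by simp [SimpleGraph.Walk.cons_isPath_iff, hvx.ne, hxb.ne, hvb],
    by simp [h1, h2, h3], by simp⟩

end Girth7

/-- `v` is a direction at `a` leading to `S` in at most three steps -/
def Dir7 {V : Type*} (G : SimpleGraph V) (S : Set V) (a v : V) : Prop :=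
  G.Adj a v ∧ (v ∈ S ∨ (∃ x ∈ S, x ≠ a ∧ G.Adj v x) ∨
    (∃ x, x ∉ S ∧ ∃ y ∈ S, G.Adj v x ∧ G.Adj x y))

open Classical in
/-- every nonempty vertex set `S` of a graph of girth at least seven carries a minor in which every
vertex has at least as many neighbours as it has directions -/
theorem order_minor7 {V : Type u} [Fintype V] {G : SimpleGraph V} (hg : (7 : ℕ∞) ≤ G.egirth)
    (S : Finset V) : ∃ M : SimpleGraph {s : V // s ∈ S}, Mn M G ∧
      ∀ a : {s : V // s ∈ S}, (univ.filter (fun v => Dir7 G (S : Set V) a.1 v)).card ≤ (nb M a).card := by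
  set l1 : V → Prop := fun x => x ∉ S ∧ ∃ s ∈ S, G.Adj x s with hl1
  have hc1 : ∀ x, ∃ s, l1 x → s ∈ S ∧ G.Adj x s := by
    intro x
    by_cases h : l1 x
    · obtain ⟨s, hs, hxs⟩ := h.2; exact ⟨s, fun _ => ⟨hs, hxs⟩⟩
    · exact ⟨x, fun h' => absurd h' h⟩
  choose c1 hc1 using hc1
  set cell : V → Set V := fun a => {x | x = a ∨ (l1 x ∧ c1 x = a)} with hcell
  set M : SimpleGraph {s : V // s ∈ S} :=
    { Adj := fun a b => a ≠ b ∧ ∃ x ∈ cell a.1, ∃ y ∈ cell b.1, G.Adj x y
      symm := ⟨by rintro a b ⟨h, x, hx, y, hy, hxy⟩; exact ⟨h.symm, y, hy, x, hx, hxy.symm⟩⟩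
      loopless := ⟨by rintro a ⟨h, _⟩; exact h rfl⟩ } with hM
  have hcellC : ∀ a : {s : V // s ∈ S}, Cn G (cell a.1) := by
    intro a
    have ha : a.1 ∈ cell a.1 := Or.inl rfl
    refine Cn_of_center ha ?_
    rintro x (rfl | ⟨h1, h2⟩)
    · exact RI.refl _
    · refine RI.single ?_ ha (Or.inr ⟨h1, h2⟩)
      rw [← h2]; exact (hc1 x h1).2.symm
  have hMG : Mn M G := by
    refine ⟨fun a => cell a.1, hcellC, ?_, fun a b h => h.2⟩
    intro a b hab
    rw [Set.disjoint_left]
    rintro x (h | ⟨h1, h2⟩) (h' | ⟨h1', h2'⟩)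
    · exact hab (Subtype.ext (h.symm.trans h'))
    · exact h1'.1 (by rw [h]; exact a.2)
    · exact h1.1 (by rw [h']; exact b.2)
    · exact hab (Subtype.ext (h2.symm.trans h2'))
  -- each direction gives a neighbour in `M`
  have hdir : ∀ (a : {s : V // s ∈ S}) (v : V), ∃ b : {s : V // s ∈ S}, Dir7 G (S : Set V) a.1 v →
      M.Adj a b ∧ Via7 G a.1 v b.1 := by
    intro a v
    by_cases hD : Dir7 G (S : Set V) a.1 v
    swap
    · exact ⟨a, fun h => absurd h hD⟩
    obtain ⟨hav, hD⟩ := hD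
    have ha : a.1 ∈ cell a.1 := Or.inl rfl
    have haS : a.1 ∈ S := a.2
    by_cases hvS : v ∈ S
    · refine ⟨⟨v, hvS⟩, fun _ => ⟨⟨fun e => hav.ne (congrArg Subtype.val e), a.1, ha, v, Or.inl rfl, hav⟩,
        Via7.zero hav.ne⟩⟩
    have hl1v : l1 v := ⟨hvS, a.1, haS, hav.symm⟩
    obtain ⟨hcS, hvc⟩ := hc1 v hl1v
    by_cases hca : c1 v = a.1
    swap
    · refine ⟨⟨c1 v, hcS⟩, fun _ => ⟨⟨fun e => hca (congrArg Subtype.val e).symm, a.1, ha, v,
        Or.inr ⟨hl1v, rfl⟩, hav⟩, Via7.one hav.ne (fun e => hca e.symm) hvc⟩⟩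
    have hvcell : v ∈ cell a.1 := Or.inr ⟨hl1v, hca⟩
    have hnv : ∀ b ∈ S, v ≠ b := fun b hb e => hvS (by rw [e]; exact hb)
    rcases hD with h | ⟨x, hxS, hxa, hvx⟩ | ⟨x, hxS, y, hyS, hvx, hxy⟩
    · exact absurd h hvS
    · have hxS' : x ∈ S := hxS
      exact ⟨⟨x, hxS'⟩, fun _ => ⟨⟨fun e => hxa (congrArg Subtype.val e).symm, v, hvcell, x, Or.inl rfl, hvx⟩,
        Via7.one hav.ne (fun e => hxa e.symm) hvx⟩⟩
    · have hxS' : x ∉ S := hxS
      have hx : l1 x := ⟨hxS', y, hyS, hxy⟩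
      obtain ⟨h1, h2⟩ := hc1 x hx
      have hne : c1 x ≠ a.1 := by
        intro e
        rw [e] at h2
        exact no_tri7 hg hav hvx h2.symm
      refine ⟨⟨c1 x, h1⟩, fun _ => ⟨⟨fun e => hne (congrArg Subtype.val e).symm, v, hvcell, x,
        Or.inr ⟨hx, rfl⟩, hvx⟩, ?_⟩⟩
      refine Via7.two hav.ne ?_ (fun e => hne e.symm) hvx h2 (hnv _ h1)
      intro e; exact hxS' (by rw [← e]; exact haS)
  choose bb hbb using hdir
  refine ⟨M, hMG, fun a => ?_⟩
  refine Finset.card_le_card_of_injOn (bb a) ?_ ?_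
  · intro v hv
    rw [Finset.mem_coe, Finset.mem_filter] at hv
    rw [Finset.mem_coe, mem_nb]
    exact (hbb a v hv.2).1
  · intro v hv v' hv' he
    rw [Finset.mem_coe, Finset.mem_filter] at hv hv'
    have h3 := (hbb a v hv.2).2
    have h4 := (hbb a v' hv'.2).2
    rw [he] at h3
    exact h3.inj hg hv.2.1 hv'.2.1 h4

open Classical in
/-- **Forced vertices.** If every nonempty vertex set has a vertex with at most `p` directions, then
there are a subgraph `H` of maximum degree at most `p` and an `H`-independent set `W` of forced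
vertices such that every 2-colouring can be changed on `W` so that all edges outside `H` get two
colours. -/
theorem forced {V : Type u} [Fintype V] {G : SimpleGraph V} (hg : (7 : ℕ∞) ≤ G.egirth) {p : ℕ}
    (hmin : ∀ S : Finset V, S.Nonempty →
      ∃ a ∈ S, (univ.filter (fun v => Dir7 G (S : Set V) a v)).card ≤ p) :
    ∃ (H : SimpleGraph V) (W : Set V), H ≤ G ∧ (∀ v, (nb H v).card ≤ p) ∧
      (∀ u ∈ W, ∀ v ∈ W, ¬ H.Adj u v) ∧
      ∀ f0 : V → Bool, ∃ f : V → Bool, (∀ v, v ∉ W → f v = f0 v) ∧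
        ∀ u v, G.Adj u v → f u = f v → H.Adj u v := by
  obtain ⟨r, hr, hdir0⟩ := exists_order (V := V)
    (fun S a => (univ.filter (fun v => Dir7 G (S : Set V) a v)).card ≤ p) hmin
  have hdir : ∀ a, (univ.filter (fun v => Dir7 G {x | r x ≤ r a} a v)).card ≤ p := by
    intro a
    have h := hdir0 a
    have e : ((univ.filter (fun x => r x ≤ r a) : Finset V) : Set V) = {x | r x ≤ r a} := by
      ext x; simp
    rw [e] at h
    convert h
  set Frc : V → V → Prop := fun a w => r a < r w ∧ G.Adj a w ∧ ¬ Dir7 G {x | r x ≤ r a} a w with hF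
  set H : SimpleGraph V :=
    { Adj := fun u v => G.Adj u v ∧ ((r u < r v ∧ Dir7 G {x | r x ≤ r u} u v) ∨
        (r v < r u ∧ Dir7 G {x | r x ≤ r v} v u))
      symm := ⟨by
        rintro u v ⟨h1, h2⟩
        exact ⟨h1.symm, h2.symm⟩⟩
      loopless := ⟨by rintro u ⟨h, _⟩; exact h.ne rfl⟩ } with hH
  have hor : ∀ u v, G.Adj u v → H.Adj u v ∨ Frc u v ∨ Frc v u := by
    intro u v h
    have hne : r u ≠ r v := fun e => h.ne (hr e)
    rcases lt_or_gt_of_ne hne with h1 | h1
    · by_cases hD : Dir7 G {x | r x ≤ r u} u v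
      · exact Or.inl ⟨h, Or.inl ⟨h1, hD⟩⟩
      · exact Or.inr (Or.inl ⟨h1, h, hD⟩)
    · by_cases hD : Dir7 G {x | r x ≤ r v} v u
      · exact Or.inl ⟨h, Or.inr ⟨h1, hD⟩⟩
      · exact Or.inr (Or.inr ⟨h1, h.symm, hD⟩)
  have hnot : ∀ a w, Frc a w → ¬ H.Adj a w := by
    rintro a w h ⟨_, ⟨_, h2⟩ | ⟨h1, _⟩⟩
    · exact h.2.2 h2
    · exact absurd h1 (not_lt.2 h.1.le)
  have huniq : ∀ a a' w, Frc a w → Frc a' w → a = a' := by
    have key : ∀ a a' w, Frc a w → Frc a' w → r a < r a' → False := by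
      intro a a' w h h' hlt
      apply h'.2.2
      refine ⟨h'.2.1, Or.inr (Or.inl ⟨a, ?_, ?_, h.2.1.symm⟩)⟩
      · show r a ≤ r a'; exact hlt.le
      · rintro rfl; exact lt_irrefl _ hlt
    intro a a' w h h'
    by_contra hne
    rcases lt_or_gt_of_ne (fun e => hne (hr e) : r a ≠ r a') with h1 | h1
    · exact key a a' w h h' h1
    · exact key a' a w h' h h1
  have hsc1 : ∀ a w a' w', Frc a w → Frc a' w' → H.Adj w w' → False := by
    have key : ∀ a w a' w', Frc a w → Frc a' w' → H.Adj w w' → r a < r a' → False := by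
      intro a w a' w' h h' hadj hlt
      apply h'.2.2
      refine ⟨h'.2.1, ?_⟩
      by_cases hw : r w ≤ r a'
      · right; left
        refine ⟨w, hw, ?_, hadj.1.symm⟩
        rintro rfl
        exact hnot _ _ h' hadj
      · right; right
        exact ⟨w, hw, a, hlt.le, hadj.1.symm, h.2.1.symm⟩
    intro a w a' w' h h' hadj
    by_cases e : a = a'
    · subst e
      exact no_tri7 hg h.2.1 hadj.1 h'.2.1
    · rcases lt_or_gt_of_ne (fun e' => e (hr e') : r a ≠ r a') with h1 | h1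
      · exact key a w a' w' h h' hadj h1
      · exact key a' w' a w h' h hadj.symm h1
  refine ⟨H, {w | ∃ a, Frc a w}, fun u v h => h.1, ?_, ?_, ?_⟩
  · intro v
    refine le_trans (Finset.card_le_card ?_) (hdir v)
    intro w hw
    rw [mem_nb] at hw
    rw [Finset.mem_filter]
    refine ⟨mem_univ _, ?_⟩
    rcases hw.2 with h | h
    · exact h.2
    · exact ⟨hw.1, Or.inl h.1.le⟩
  · rintro u ⟨a, ha⟩ v ⟨b, hb⟩ h
    exact hsc1 a u b v ha hb h
  · intro f0
    have hrec : ∀ n : ℕ, ∃ f : V → Bool, ∀ v, r v < n →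
        (∀ a, Frc a v → f v ≠ f a) ∧ ((¬ ∃ a, Frc a v) → f v = f0 v) := by
      intro n
      induction n with
      | zero => exact ⟨f0, fun v h => absurd h (Nat.not_lt_zero _)⟩
      | succ n ih =>
        obtain ⟨f, hf⟩ := ih
        refine ⟨fun v => if r v = n then (if h : ∃ a, Frc a v then !(f h.choose) else f0 v) else f v, ?_⟩
        intro v hv
        simp only
        by_cases hvn : r v = n
        · rw [if_pos hvn]
          by_cases hex : ∃ a, Frc a v
          · rw [dif_pos hex]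
            refine ⟨?_, fun h => absurd hex h⟩
            intro a' ha'
            have e : hex.choose = a' := huniq _ _ v hex.choose_spec ha'
            have hne : r a' ≠ n := by have := ha'.1; omega
            rw [if_neg hne, e]
            cases f a' <;> simp
          · rw [dif_neg hex]
            exact ⟨fun a ha => absurd ⟨a, ha⟩ hex, fun _ => rfl⟩
        · rw [if_neg hvn]
          have h1 := hf v (by omega)
          refine ⟨?_, h1.2⟩
          intro a ha
          have hne : r a ≠ n := by have := ha.1; omega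
          rw [if_neg hne]
          exact h1.1 a ha
    obtain ⟨m, hm⟩ : ∃ m, ∀ v, r v < m := by
      obtain ⟨m, hm⟩ := Finset.exists_nat_subset_range (univ.image r)
      exact ⟨m, fun v => Finset.mem_range.1 (hm (Finset.mem_image_of_mem _ (mem_univ v)))⟩
    obtain ⟨f, hf⟩ := hrec m
    refine ⟨f, fun v hv => (hf v (hm v)).2 hv, ?_⟩
    intro u v huv he
    rcases hor u v huv with h | h | h
    · exact h
    · exact absurd he.symm ((hf v (hm v)).1 u h)
    · exact absurd he ((hf u (hm u)).1 v h)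

section Sup

variable {V : Type u} {H : SimpleGraph V} {W D : Set V}

/-- the graph obtained inside `D` by suppressing the vertices of `W` -/
def Sup (H : SimpleGraph V) (W D : Set V) : SimpleGraph V where
  Adj x y := x ≠ y ∧ (x ∉ W ∧ x ∈ D) ∧ (y ∉ W ∧ y ∈ D) ∧
    (H.Adj x y ∨ ∃ w, w ∈ W ∧ w ∈ D ∧ H.Adj x w ∧ H.Adj w y)
  symm := ⟨by
    rintro x y ⟨h1, h2, h3, h4⟩
    refine ⟨h1.symm, h3, h2, ?_⟩
    rcases h4 with h | ⟨w, a, b, c, d⟩
    · exact Or.inl h.symm
    · exact Or.inr ⟨w, a, b, d.symm, c.symm⟩⟩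
  loopless := ⟨by rintro x ⟨h, _⟩; exact h rfl⟩

variable [Fintype V]

lemma Sup_deg {p : ℕ} (hdeg : ∀ v, (nb H v).card ≤ p) (v : V) : (nb (Sup H W D) v).card ≤ p * (p + 1) := by
  classical
  have hsub : nb (Sup H W D) v ⊆ nb H v ∪ (nb H v).biUnion (fun w => nb H w) := by
    intro y hy
    rw [mem_nb] at hy
    rw [Finset.mem_union, Finset.mem_biUnion]
    rcases hy.2.2.2 with h | ⟨w, _, _, h1, h2⟩
    · exact Or.inl (mem_nb.2 h)
    · exact Or.inr ⟨w, mem_nb.2 h1, mem_nb.2 h2⟩
  have h1 : ((nb H v).biUnion (fun w => nb H w)).card ≤ (nb H v).card * p :=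
    Finset.card_biUnion_le_card_mul _ _ _ (fun x _ => hdeg x)
  have h2 := (Finset.card_le_card hsub).trans (Finset.card_union_le _ _)
  have h3 := hdeg v
  have h4 : (nb H v).card * p ≤ p * p := Nat.mul_le_mul_right _ h3
  have h5 : p * (p + 1) = p * p + p := by ring
  omega

open Classical in
theorem Sup_bal {p k : ℕ} (hdeg : ∀ v, (nb H v).card ≤ p)
    (hb : ∀ S : Finset V, ∃ X : Finset V, X.card ≤ k ∧ ∀ C, Cn H C → C ⊆ D → Disjoint C (X : Set V) →
      2 * (S.filter (fun v => v ∈ C)).card ≤ S.card) : Bal (Sup H W D) (k * (p + 1) + 1) := by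
  intro S
  by_cases hS : S.card ≤ 1
  · refine ⟨S, by omega, ?_⟩
    intro C _ hd
    have : S.filter (fun v => v ∈ C) = ∅ := by
      rw [Finset.filter_eq_empty_iff]
      intro v hv hvC
      exact Set.disjoint_left.1 hd hvC hv
    rw [this]; simp
  push Not at hS
  obtain ⟨X, hX, hXb⟩ := hb S
  refine ⟨X.biUnion (fun x => insert x (nb H x)), ?_, ?_⟩
  · have h1 : (X.biUnion (fun x => insert x (nb H x))).card ≤ X.card * (p + 1) := by
      apply Finset.card_biUnion_le_card_mul
      intro x _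
      have h2 := Finset.card_insert_le x (nb H x)
      have h3 := hdeg x
      omega
    have h2 : X.card * (p + 1) ≤ k * (p + 1) := Nat.mul_le_mul_right _ hX
    omega
  · intro C hC hd
    by_cases hgood : ∀ u ∈ C, u ∉ W ∧ u ∈ D
    · set C' : Set V := {y | ∃ x ∈ C, y = x ∨ (y ∈ W ∧ y ∈ D ∧ H.Adj x y)} with hC'
      have hCC' : C ⊆ C' := fun x hx => ⟨x, hx, Or.inl rfl⟩
      have hC'c : Cn H C' := by
        obtain ⟨x0, hx0⟩ := hC.1
        refine Cn_of_center (hCC' hx0) ?_
        have hgen : ∀ x, RI (Sup H W D) C x0 x → RI H C' x0 x := by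
          intro x h
          induction h with
          | refl => exact RI.refl _
          | @tail y z h2 h3 ih =>
            obtain ⟨⟨_, _, _, h4⟩, hy, hz⟩ := h3
            refine ih.trans ?_
            rcases h4 with h | ⟨w, w1, w2, w3, w4⟩
            · exact RI.single h (hCC' hy) (hCC' hz)
            · have hw : w ∈ C' := ⟨y, hy, Or.inr ⟨w1, w2, w3⟩⟩
              exact (RI.single w3 (hCC' hy) hw).trans (RI.single w4 hw (hCC' hz))
        rintro y ⟨x, hx, h | ⟨h1, h2, h3⟩⟩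
        · rw [h]; exact hgen x (hC.2 x0 hx0 x hx)
        · exact (hgen x (hC.2 x0 hx0 x hx)).trans (RI.single h3 (hCC' hx) ⟨x, hx, Or.inr ⟨h1, h2, h3⟩⟩)
      have hC'D : C' ⊆ D := by
        rintro y ⟨x, hx, h | ⟨h1, h2, h3⟩⟩
        · rw [h]; exact (hgood x hx).2
        · exact h2
      have hC'X : Disjoint C' (X : Set V) := by
        rw [Set.disjoint_left]
        rintro y ⟨x, hx, h | ⟨h1, h2, h3⟩⟩ hyX
        · apply Set.disjoint_left.1 hd hx
          rw [Finset.mem_coe, Finset.mem_biUnion]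
          exact ⟨y, hyX, by rw [h]; exact Finset.mem_insert_self _ _⟩
        · apply Set.disjoint_left.1 hd hx
          rw [Finset.mem_coe, Finset.mem_biUnion]
          exact ⟨y, hyX, Finset.mem_insert_of_mem (mem_nb.2 h3.symm)⟩
      have h1 : 2 * (S.filter (fun v => v ∈ C')).card ≤ S.card := by
        convert hXb C' hC'c hC'D hC'X
      have h2 : (S.filter (fun v => v ∈ C)).card ≤ (S.filter (fun v => v ∈ C')).card := by
        apply Finset.card_le_card
        intro v hv
        rw [Finset.mem_filter] at hv ⊢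
        exact ⟨hv.1, hCC' hv.2⟩
      omega
    · push Not at hgood
      obtain ⟨u, hu, hbad⟩ := hgood
      have hiso : ∀ w, ¬ (Sup H W D).Adj w u := fun w h => hbad h.2.2.1.1 h.2.2.1.2
      have hCu : C ⊆ {u} := by
        intro v hv
        exact RI_ne_of_isolated hiso (hC.2 v hv u hu)
      have h2 : (S.filter (fun v => v ∈ C)).card ≤ 1 := by
        apply Finset.card_le_one.2
        intro x hx y hy
        rw [Finset.mem_filter] at hx hy
        have e1 : x = u := hCu hx.2
        have e2 : y = u := hCu hy.2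
        rw [e1, e2]
      omega

/-- clusters of the changed colouring -/
theorem Sup_colour {p c : ℕ} (hdeg : ∀ v, (nb H v).card ≤ p) (hW : ∀ u ∈ W, ∀ v ∈ W, ¬ H.Adj u v)
    {α : Type*} {f0 f : V → α}
    (hf0 : ∀ C, Cn (Sup H W D) C → (∀ x ∈ C, ∀ y ∈ C, f0 x = f0 y) → C.ncard ≤ c)
    {C : Set V} (hff : ∀ v ∈ C, v ∉ W → f v = f0 v) (hC : Cn H C) (hCD : C ⊆ D)
    (hm : ∀ x ∈ C, ∀ y ∈ C, f x = f y) : C.ncard ≤ c * (p + 1) + 1 := by
  classical
  by_cases hfree : ∃ x ∈ C, x ∉ W
  · obtain ⟨x0, hx0, hx0W⟩ := hfree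
    set F : Set V := C \ W with hFd
    have hx0F : x0 ∈ F := ⟨hx0, hx0W⟩
    have inv : ∀ y, RI H C x0 y → (y ∉ W → RI (Sup H W D) F x0 y) ∧
        (y ∈ W → ∃ x ∈ F, RI (Sup H W D) F x0 x ∧ H.Adj x y) := by
      intro y hy
      induction hy with
      | refl => exact ⟨fun _ => RI.refl _, fun h => absurd h hx0W⟩
      | @tail y z h1 h2 ih =>
        obtain ⟨hyz, hyC, hzC⟩ := h2
        by_cases hyW : y ∈ W
        · obtain ⟨x, hxF, hxr, hxy⟩ := ih.2 hyW
          refine ⟨fun hzW => ?_, fun hzW => absurd hyz (hW y hyW z hzW)⟩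
          by_cases hxz : x = z
          · rw [← hxz]; exact hxr
          · exact hxr.trans (RI.single ⟨hxz, ⟨hxF.2, hCD hxF.1⟩, ⟨hzW, hCD hzC⟩,
              Or.inr ⟨y, hyW, hCD hyC, hxy, hyz⟩⟩ hxF ⟨hzC, hzW⟩)
        · refine ⟨fun hzW => (ih.1 hyW).trans (RI.single ⟨hyz.ne, ⟨hyW, hCD hyC⟩, ⟨hzW, hCD hzC⟩,
            Or.inl hyz⟩ ⟨hyC, hyW⟩ ⟨hzC, hzW⟩), fun hzW => ⟨y, ⟨hyC, hyW⟩, ih.1 hyW, hyz⟩⟩
    have hFc : Cn (Sup H W D) F :=
      Cn_of_center hx0F (fun y hy => (inv y (hC.2 x0 hx0 y hy.1)).1 hy.2)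
    have hFn : F.ncard ≤ c := by
      refine hf0 F hFc (fun x hx y hy => ?_)
      rw [← hff x hx.1 hx.2, ← hff y hy.1 hy.2]
      exact hm x hx.1 y hy.1
    set FF : Finset V := univ.filter (fun v => v ∈ F) with hFF
    have hFFc : FF.card = F.ncard := by
      rw [← Set.ncard_coe_finset]
      congr 1
      ext v; simp [hFF]
    have hcov : C ⊆ ((FF ∪ FF.biUnion (fun x => nb H x) : Finset V) : Set V) := by
      intro y hy
      rw [Finset.mem_coe, Finset.mem_union, Finset.mem_biUnion]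
      by_cases hyW : y ∈ W
      · obtain ⟨x, hxF, _, hxy⟩ := (inv y (hC.2 x0 hx0 y hy)).2 hyW
        exact Or.inr ⟨x, by rw [hFF, Finset.mem_filter]; exact ⟨mem_univ _, hxF⟩, mem_nb.2 hxy⟩
      · exact Or.inl (by rw [hFF, Finset.mem_filter]; exact ⟨mem_univ _, hy, hyW⟩)
    have h1 : C.ncard ≤ (FF ∪ FF.biUnion (fun x => nb H x)).card := by
      rw [← Set.ncard_coe_finset]
      exact Set.ncard_le_ncard hcov (Finset.finite_toSet _)
    have h2 := Finset.card_union_le FF (FF.biUnion (fun x => nb H x))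
    have h3 : (FF.biUnion (fun x => nb H x)).card ≤ FF.card * p :=
      Finset.card_biUnion_le_card_mul _ _ _ (fun x _ => hdeg x)
    have h4 : FF.card * p ≤ c * p := Nat.mul_le_mul_right _ (by omega)
    have h5 : c * (p + 1) = c * p + c := by ring
    omega
  · push Not at hfree
    obtain ⟨x0, hx0⟩ := hC.1
    have hsub : C ⊆ {x0} := by
      intro y hy
      by_contra hyv
      obtain ⟨a, b, ha, _, hb, _, hab⟩ := leave hC hx0 (show x0 ∈ ({x0} : Set V) from rfl) hy hyv
      exact hW a (hfree a ha) b (hfree b hb) hab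
    have h1 : C.ncard ≤ 1 := by
      have := Set.ncard_le_ncard hsub (Set.toFinite _)
      rwa [Set.ncard_singleton] at this
    omega

end Sup

end Pool.Agent.Lib.MP_4332cb_co
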