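import Pool.Agent.Lib.MP_4332cb_co.Pieces

/-!
Selection of disjoint connectors, rich pairs, and crossing families.
-/

namespace Pool.Agent.Lib.MP_4332cb_co

open Finset

universe u

/-- Minor obtained from disjoint connected sets (the vertices) and disjoint connected connectors
(one for each edge). -/
lemma Mn_of_conn {V : Type*} {ι : Type*} [LinearOrder ι] {Γ : SimpleGraph ι} {G : SimpleGraph V}
    (Q : ι → Set V) (hQ : ∀ i, Cn G (Q i)) (hQd : ∀ i j, i ≠ j → Disjoint (Q i) (Q j))
    (Z : ι → ι → Set V) (hZ : ∀ i j, Γ.Adj i j → i < j → Cn G (Z i j))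
    (hZd : ∀ i j i' j', Γ.Adj i j → i < j → Γ.Adj i' j' → i' < j' → ¬ (i = i' ∧ j = j') →
      Disjoint (Z i j) (Z i' j'))
    (hQZ : ∀ l i j, Γ.Adj i j → i < j → Disjoint (Q l) (Z i j))
    (h1 : ∀ i j, Γ.Adj i j → i < j → (∃ x ∈ Q i, ∃ y ∈ Z i j, G.Adj x y))
    (h2 : ∀ i j, Γ.Adj i j → i < j → (∃ x ∈ Q j, ∃ y ∈ Z i j, G.Adj x y)) :
    Mn Γ G := by
  refine ⟨fun i => Q i ∪ ⋃ (j : {j // Γ.Adj i j ∧ i < j}), Z i j.1, ?_, ?_, ?_⟩
  · intro i
    refine (hQ i).union_iUnion _ (fun j => hZ _ _ j.2.1 j.2.2) (fun j => ?_)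
    obtain ⟨x, hx, y, hy, hxy⟩ := h1 i j.1 j.2.1 j.2.2
    exact ⟨x, hx, y, hy, Or.inl hxy⟩
  · intro i i' hii
    rw [Set.disjoint_left]
    intro x hx hx'
    rcases hx with hx | hx <;> rcases hx' with hx' | hx'
    · exact Set.disjoint_left.1 (hQd i i' hii) hx hx'
    · rw [Set.mem_iUnion] at hx'
      obtain ⟨j, hj⟩ := hx'
      exact Set.disjoint_left.1 (hQZ i _ _ j.2.1 j.2.2) hx hj
    · rw [Set.mem_iUnion] at hx
      obtain ⟨j, hj⟩ := hx
      exact Set.disjoint_left.1 (hQZ i' _ _ j.2.1 j.2.2) hx' hj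
    · rw [Set.mem_iUnion] at hx hx'
      obtain ⟨j, hj⟩ := hx
      obtain ⟨j', hj'⟩ := hx'
      exact Set.disjoint_left.1 (hZd i j.1 i' j'.1 j.2.1 j.2.2 j'.2.1 j'.2.2 (fun h => hii h.1)) hj hj'
  · intro i j hij
    rcases lt_or_gt_of_ne hij.ne with h | h
    · obtain ⟨x, hx, y, hy, hxy⟩ := h2 i j hij h
      refine ⟨y, Or.inr (Set.mem_iUnion.2 ⟨⟨j, hij, h⟩, hy⟩), x, Or.inl hx, hxy.symm⟩
    · obtain ⟨x, hx, y, hy, hxy⟩ := h2 j i hij.symm h
      refine ⟨x, Or.inl hx, y, Or.inr (Set.mem_iUnion.2 ⟨⟨i, hij.symm, h⟩, hy⟩), hxy⟩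

/-- sizes needed in the selection lemma -/
def kf (N : ℕ) : ℕ → ℕ
  | 0 => 0
  | (n + 1) => N * kf N n + N * (n + 1)

open Classical in
theorem select {V κ : Type*} (N : ℕ) (hN : 1 ≤ N) (P : κ → ℕ → Set V) :
    ∀ (n : ℕ) (E : Finset κ) (I : κ → Finset ℕ), E.card = n → (∀ e ∈ E, kf N n ≤ (I e).card) →
      (∃ c : κ → ℕ, (∀ e ∈ E, c e ∈ I e) ∧
        ∀ e ∈ E, ∀ e' ∈ E, e ≠ e' → Disjoint (P e (c e)) (P e' (c e'))) ∨
      (∃ e ∈ E, ∃ e' ∈ E, ∃ S ⊆ I e, ∃ T ⊆ I e', S.card = N ∧ T.card = N ∧
        ∀ i ∈ S, ∀ j ∈ T, ¬ Disjoint (P e i) (P e' j)) := by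
  intro n
  induction n with
  | zero =>
    intro E I hE _
    left
    rw [Finset.card_eq_zero] at hE
    subst hE
    exact ⟨fun _ => 0, fun e he => absurd he (Finset.notMem_empty e),
      fun e he => absurd he (Finset.notMem_empty e)⟩
  | succ n ih =>
    intro E I hE hI
    have hne : E.Nonempty := by rw [← Finset.card_pos]; omega
    obtain ⟨e0, he0⟩ := hne
    set E' := E.erase e0 with hE'
    have hE'c : E'.card = n := by rw [hE', Finset.card_erase_of_mem he0]; omega
    have hkf : kf N (n + 1) = N * kf N n + N * (n + 1) := rfl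
    by_cases hgood : ∃ i ∈ I e0, ∀ e ∈ E', kf N n ≤ ((I e).filter (fun j => Disjoint (P e0 i) (P e j))).card
    · obtain ⟨i, hi, hgi⟩ := hgood
      rcases ih E' (fun e => (I e).filter (fun j => Disjoint (P e0 i) (P e j))) hE'c hgi with
        ⟨c, c1, c2⟩ | ⟨e, he, e', he', S, hS, T, hT, h1, h2, h3⟩
      · left
        refine ⟨fun e => if e = e0 then i else c e, ?_, ?_⟩
        · intro e he
          by_cases h : e = e0
          · subst h; simp only [if_true]; exact hi
          · simp only [h, if_false]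
            have := c1 e (Finset.mem_erase.2 ⟨h, he⟩)
            exact (Finset.mem_filter.1 this).1
        · intro e he e' he' hee
          by_cases h : e = e0
          · have h' : e' ≠ e0 := fun h'' => hee (h.trans h''.symm)
            subst h
            simp only [if_true, h', if_false]
            have := c1 e' (Finset.mem_erase.2 ⟨h', he'⟩)
            exact (Finset.mem_filter.1 this).2
          · by_cases h' : e' = e0
            · subst h'
              simp only [if_true, h, if_false]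
              have := c1 e (Finset.mem_erase.2 ⟨h, he⟩)
              exact (Finset.mem_filter.1 this).2.symm
            · simp only [h, h', if_false]
              exact c2 e (Finset.mem_erase.2 ⟨h, he⟩) e' (Finset.mem_erase.2 ⟨h', he'⟩) hee
      · right
        exact ⟨e, Finset.mem_of_mem_erase he, e', Finset.mem_of_mem_erase he', S,
          hS.trans (Finset.filter_subset _ _), T, hT.trans (Finset.filter_subset _ _), h1, h2, h3⟩
    · right
      push Not at hgood
      have : Nonempty κ := ⟨e0⟩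
      choose! f hf1 hf2 using hgood
      have hpig : E'.card * N < (I e0).card := by
        have h1 := hI e0 he0
        rw [hE'c]
        rw [hkf] at h1
        have : n * N < N * kf N n + N * (n + 1) := by nlinarith
        omega
      obtain ⟨e, he, hcard⟩ := Finset.exists_lt_card_fiber_of_mul_lt_card_of_maps_to hf1 hpig
      obtain ⟨S, hS, hSc⟩ := Finset.exists_subset_card_eq hcard.le
      set bad : Finset ℕ := S.biUnion (fun i => (I e).filter (fun j => Disjoint (P e0 i) (P e j))) with hbad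
      have hbadc : bad.card ≤ N * kf N n := by
        have h0 : bad.card ≤ S.card * kf N n := by
          apply Finset.card_biUnion_le_card_mul
          intro i hi
          have h1 := hS hi
          rw [Finset.mem_filter] at h1
          have h2 := hf2 i h1.1
          rw [h1.2] at h2
          exact h2.le
        rwa [hSc] at h0
      have hT0 : N ≤ (I e \ bad).card := by
        have h1 := hI e (Finset.mem_of_mem_erase he)
        rw [hkf] at h1
        have h2 := Finset.le_card_sdiff bad (I e)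
        have h3 : N ≤ N * (n + 1) := Nat.le_mul_of_pos_right _ (Nat.succ_pos _)
        omega
      obtain ⟨T, hT, hTc⟩ := Finset.exists_subset_card_eq hT0
      refine ⟨e0, he0, e, Finset.mem_of_mem_erase he, S, ?_, T, hT.trans Finset.sdiff_subset, hSc, hTc, ?_⟩
      · intro i hi
        exact (Finset.mem_filter.1 (hS hi)).1
      · intro i hi j hj hdis
        have h1 := hT hj
        rw [Finset.mem_sdiff] at h1
        apply h1.2
        rw [hbad, Finset.mem_biUnion]
        exact ⟨i, hi, Finset.mem_filter.2 ⟨h1.1, hdis⟩⟩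

/-- **Rich pairs** -/
theorem rich {V : Type u} [Fintype V] {G : SimpleGraph V} {N t : ℕ} (hN : 0 < N)
    (Q : Fin N → Set V) (hQ : ∀ i, Cn G (Q i)) (hQd : ∀ i j, i ≠ j → Disjoint (Q i) (Q j))
    {κ : Type*} [Fintype κ] (Z : κ → Set V) (hZ : ∀ k, Cn G (Z k))
    (hZd : ∀ k l, k ≠ l → Disjoint (Z k) (Z l)) (hQZ : ∀ i k, Disjoint (Q i) (Z k))
    (T : κ → Finset (Fin N)) (hT : ∀ k, t ≤ (T k).card)
    (hTadj : ∀ k, ∀ i ∈ T k, ∃ x ∈ Q i, ∃ y ∈ Z k, G.Adj x y)
    (hM : t ^ 2 * 2 ^ t * N ≤ Fintype.card κ) (ht : 1 ≤ t) : KM G t := by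
  classical
  have hκ : 0 < Fintype.card κ := by
    have : 0 < t ^ 2 * 2 ^ t * N := by positivity
    omega
  by_cases hA : ∃ k, ∀ i ∈ T k, ∀ j ∈ T k, i < j →
      t ^ 2 ≤ (univ.filter (fun k' => i ∈ T k' ∧ j ∈ T k')).card
  · obtain ⟨k0, hk0⟩ := hA
    obtain ⟨S, hS, hSc⟩ := Finset.exists_subset_card_eq (hT k0)
    set φ : Fin t ↪o Fin N := S.orderEmbOfFin hSc with hφ
    have hφm : ∀ i, φ i ∈ T k0 := fun i => hS (Finset.orderEmbOfFin_mem S hSc i)
    -- Hall
    have hall : ∃ f : {p : Fin t × Fin t // p.1 < p.2} → κ, Function.Injective f ∧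
        ∀ p, f p ∈ univ.filter (fun k' => φ p.1.1 ∈ T k' ∧ φ p.1.2 ∈ T k') := by
      rw [← Finset.all_card_le_biUnion_card_iff_exists_injective]
      intro s
      by_cases hs : s = ∅
      · subst hs; simp
      · obtain ⟨p, hp⟩ := Finset.nonempty_iff_ne_empty.2 hs
        have h1 : s.card ≤ t ^ 2 := by
          calc s.card ≤ Fintype.card {p : Fin t × Fin t // p.1 < p.2} := Finset.card_le_univ s
            _ ≤ Fintype.card (Fin t × Fin t) := Fintype.card_subtype_le _
            _ = t ^ 2 := by rw [Fintype.card_prod, Fintype.card_fin, sq]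
        have h2 := hk0 (φ p.1.1) (hφm _) (φ p.1.2) (hφm _) (φ.lt_iff_lt.2 p.2)
        refine h1.trans (h2.trans (Finset.card_le_card ?_))
        intro k hk
        exact Finset.mem_biUnion.2 ⟨p, hp, hk⟩
    obtain ⟨f, hf, hfm⟩ := hall
    refine Mn_of_conn (fun i => Q (φ i)) (fun i => hQ _) (fun i j h => hQd _ _ (fun e => h (φ.injective e)))
      (fun i j => if h : i < j then Z (f ⟨(i, j), h⟩) else ∅) ?_ ?_ ?_ ?_ ?_
    · intro i j _ h; rw [dif_pos h]; exact hZ _
    · intro i j i' j' _ h _ h' hne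
      rw [dif_pos h, dif_pos h']
      apply hZd
      intro e
      apply hne
      have := hf e
      rw [Subtype.mk.injEq, Prod.mk.injEq] at this
      exact this
    · intro l i j _ h; rw [dif_pos h]; exact hQZ _ _
    · intro i j _ h
      rw [dif_pos h]
      exact hTadj _ _ (Finset.mem_filter.1 (hfm ⟨(i, j), h⟩)).2.1
    · intro i j _ h
      rw [dif_pos h]
      exact hTadj _ _ (Finset.mem_filter.1 (hfm ⟨(i, j), h⟩)).2.2
  · push Not at hA
    choose a ha b hb hab hpoor using hA
    set e : κ → Fin N × Fin N := fun k => (a k, b k) with he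
    set Γ : SimpleGraph (Fin N) :=
      { Adj := fun i j => (i < j ∧ ∃ k, e k = (i, j)) ∨ (j < i ∧ ∃ k, e k = (j, i))
        symm := ⟨fun i j h => h.symm⟩
        loopless := ⟨fun i h => by rcases h with h | h <;> exact lt_irrefl _ h.1⟩ } with hΓ
    have hrep : ∀ i j, Γ.Adj i j → i < j → ∃ k, e k = (i, j) := by
      intro i j h hij
      rcases h with h | h
      · exact h.2
      · exact absurd h.1 (not_lt.2 hij.le)
    have hcnt : 2 ^ t * N ≤ (univ.image e).card := by
      have h1 : (univ : Finset κ).card ≤ t ^ 2 * (univ.image e).card := by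
        apply Finset.card_le_mul_card_image
        intro p hp
        rw [Finset.mem_image] at hp
        obtain ⟨k, _, rfl⟩ := hp
        refine le_trans (Finset.card_le_card ?_) (hpoor k).le
        intro k' hk'
        rw [Finset.mem_filter] at hk' ⊢
        refine ⟨mem_univ _, ?_⟩
        have h2 := hk'.2
        rw [he] at h2
        simp only [Prod.mk.injEq] at h2
        rw [← h2.1, ← h2.2]
        exact ⟨ha k', hb k'⟩
      rw [Finset.card_univ] at h1
      have h2 : t ^ 2 * (2 ^ t * N) ≤ t ^ 2 * (univ.image e).card := by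
        calc t ^ 2 * (2 ^ t * N) = t ^ 2 * 2 ^ t * N := by ring
          _ ≤ _ := hM.trans h1
      exact Nat.le_of_mul_le_mul_left h2 (by positivity)
    have hPA : 2 ^ (t + 1) * N ≤ (PA Γ).card := by
      have hsub : (univ.image e) ∪ (univ.image (fun k => (b k, a k))) ⊆ PA Γ := by
        intro p hp
        rw [mem_PA]
        rw [Finset.mem_union, Finset.mem_image, Finset.mem_image] at hp
        rcases hp with ⟨k, _, rfl⟩ | ⟨k, _, rfl⟩
        · exact Or.inl ⟨hab k, k, rfl⟩
        · exact Or.inr ⟨hab k, k, rfl⟩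
      have hdis : Disjoint (univ.image e) (univ.image (fun k => (b k, a k))) := by
        rw [Finset.disjoint_left]
        intro p hp hp'
        rw [Finset.mem_image] at hp hp'
        obtain ⟨k, _, rfl⟩ := hp
        obtain ⟨k', _, h⟩ := hp'
        rw [he] at h
        simp only [Prod.mk.injEq] at h
        have h1 := hab k
        have h2 := hab k'
        rw [h.1, h.2] at h2
        exact lt_asymm h1 h2
      have hc2 : (univ.image (fun k => (b k, a k))).card = (univ.image e).card := by
        have : univ.image (fun k => (b k, a k)) = (univ.image e).image Prod.swap := by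
          rw [Finset.image_image]
          rfl
        rw [this, Finset.card_image_of_injective _ Prod.swap_injective]
      have := Finset.card_le_card hsub
      rw [Finset.card_union_of_disjoint hdis, hc2] at this
      have h3 : 2 ^ (t + 1) * N = 2 * (2 ^ t * N) := by ring
      omega
    have hKΓ : KM Γ t := dens t N (Fin N) Γ (Fintype.card_fin N) hN hPA
    refine hKΓ.of_Mn ?_
    have hex : ∀ i j, ∃ k : κ, (∃ k, e k = (i, j)) → e k = (i, j) := by
      intro i j
      by_cases h : ∃ k, e k = (i, j)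
      · obtain ⟨k, hk⟩ := h; exact ⟨k, fun _ => hk⟩
      · obtain ⟨k⟩ : Nonempty κ := Fintype.card_pos_iff.1 hκ
        exact ⟨k, fun h' => absurd h' h⟩
    choose g hg using hex
    have hg' : ∀ i j, Γ.Adj i j → i < j → e (g i j) = (i, j) := fun i j h h' => hg i j (hrep i j h h')
    refine Mn_of_conn Q hQ hQd (fun i j => Z (g i j)) ?_ ?_ ?_ ?_ ?_
    · intro i j _ _; exact hZ _
    · intro i j i' j' h h' h1 h1' hne
      apply hZd
      intro e'
      apply hne
      have h3 := hg' i j h h'
      have h4 := hg' i' j' h1 h1'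
      rw [e', h4] at h3
      rw [Prod.mk.injEq] at h3
      exact ⟨h3.1.symm, h3.2.symm⟩
    · intro l i j _ _; exact hQZ _ _
    · intro i j h h'
      have h3 := hg' i j h h'
      rw [he] at h3
      simp only [Prod.mk.injEq] at h3
      apply hTadj
      have h5 := ha (g i j)
      rwa [h3.1] at h5
    · intro i j h h'
      have h3 := hg' i j h h'
      rw [he] at h3
      simp only [Prod.mk.injEq] at h3
      apply hTadj
      have h5 := hb (g i j)
      rwa [h3.2] at h5

/-- size of the crossing families that force a complete minor -/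
def NN (t Δ : ℕ) : ℕ := 2 * t ^ 2 * 2 ^ t * Δ * t ^ 2

/-- **Crossing families** next to a connected set of bounded degree force a complete minor. -/
theorem crossing {V : Type u} [Fintype V] {G : SimpleGraph V} {t Δ : ℕ} (ht : 1 ≤ t) (hΔ : 1 ≤ Δ)
    (hdeg : ∀ v, (nb G v).card ≤ Δ) {B : Set V} (hB : Cn G B) (hB2 : ∀ v, v ∉ B → ∃ b ∈ B, G.Adj v b)
    {N : ℕ} (hN : N = NN t Δ) (P Q : Fin N → Set V) (hP : ∀ i, Cn G (P i)) (hQ : ∀ i, Cn G (Q i))
    (hPd : ∀ i j, i ≠ j → Disjoint (P i) (P j)) (hQd : ∀ i j, i ≠ j → Disjoint (Q i) (Q j))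
    (hPB : ∀ i, P i ⊆ Bᶜ) (hQB : ∀ i, Q i ⊆ Bᶜ) (hPQ : ∀ i j, ¬ Disjoint (P i) (Q j)) : KM G t := by
  classical
  have hNpos : 0 < N := by rw [hN, NN]; positivity
  have hx : ∀ i j, ∃ x, x ∈ P i ∧ x ∈ Q j := by
    intro i j
    exact Set.not_disjoint_iff.1 (hPQ i j)
  choose x hxP hxQ using hx
  have hxB : ∀ i j, x i j ∉ B := fun i j => hPB i (hxP i j)
  have hτ : ∀ i j, ∃ b ∈ B, G.Adj (x i j) b := fun i j => hB2 _ (hxB i j)
  choose τ hτB hτadj using hτ
  have hxinj : ∀ i j i' j', x i j = x i' j' → i = i' ∧ j = j' := by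
    intro i j i' j' h
    constructor
    · by_contra hne
      exact Set.disjoint_left.1 (hPd i i' hne) (hxP i j) (by rw [h]; exact hxP i' j')
    · by_contra hne
      exact Set.disjoint_left.1 (hQd j j' hne) (hxQ i j) (by rw [h]; exact hxQ i' j')
  set I : Set V → Finset (Fin N × Fin N) := fun Z => univ.filter (fun p => τ p.1 p.2 ∈ Z) with hI
  set r : Set V → ℕ := fun Z => (I Z).card with hr
  have hrs : SubAdd r := by
    constructor
    · simp [hr, hI]
    · intro A A'
      have : I (A ∪ A') = I A ∪ I A' := by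
        ext p
        simp only [hI, Finset.mem_filter, Finset.mem_union, Set.mem_union, mem_univ, true_and]
      show (I (A ∪ A')).card ≤ (I A).card + (I A').card
      rw [this]; exact Finset.card_union_le _ _
  have hr1 : ∀ v, r {v} ≤ Δ := by
    intro v
    refine le_trans ?_ (hdeg v)
    refine Finset.card_le_card_of_injOn (fun p => x p.1 p.2) ?_ ?_
    · intro p hp
      rw [Finset.mem_coe, hI, Finset.mem_filter] at hp
      rw [Finset.mem_coe, mem_nb]
      have h1 : τ p.1 p.2 = v := hp.2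
      rw [← h1]; exact (hτadj p.1 p.2).symm
    · intro p _ p' _ h
      have := hxinj _ _ _ _ h
      exact Prod.ext this.1 this.2
  have hrB : r B = N * N := by
    have : I B = univ := by
      ext p
      simp only [hI, Finset.mem_filter, mem_univ, true_and, iff_true]
      exact hτB _ _
    show (I B).card = _
    rw [this, Finset.card_univ, Fintype.card_prod, Fintype.card_fin]
  set M := 2 * (t ^ 2 * 2 ^ t * N) with hM
  have hq1 : 1 ≤ t ^ 2 := Nat.one_le_pow _ _ ht
  obtain ⟨Z, z1, z2, z3, z4⟩ := pieces (q := t ^ 2) hΔ hΔ hq1 hdeg hrs hr1 M B hB (by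
    rw [hrB]
    apply le_of_eq
    have h1 : Δ + Δ * (t ^ 2 - 1) = Δ * t ^ 2 := by
      obtain ⟨s, hs⟩ : ∃ s, t ^ 2 = s + 1 := ⟨t ^ 2 - 1, by omega⟩
      rw [hs]; simp only [Nat.add_sub_cancel]; ring
    rw [h1, hM]
    have h2 : N = 2 * t ^ 2 * 2 ^ t * Δ * t ^ 2 := by rw [hN]; rfl
    calc 2 * (t ^ 2 * 2 ^ t * N) * (Δ * t ^ 2) = (2 * t ^ 2 * 2 ^ t * Δ * t ^ 2) * N := by ring
      _ = N * N := by rw [← h2])
  set R : Fin M → Finset (Fin N) := fun k => (I (Z k)).image Prod.fst with hR
  set C : Fin M → Finset (Fin N) := fun k => (I (Z k)).image Prod.snd with hC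
  have hRC : ∀ k, t ≤ (R k).card ∨ t ≤ (C k).card := by
    intro k
    by_contra hcon
    push Not at hcon
    have h1 : (I (Z k)) ⊆ R k ×ˢ C k := by
      intro p hp
      rw [Finset.mem_product]
      exact ⟨Finset.mem_image_of_mem _ hp, Finset.mem_image_of_mem _ hp⟩
    have h2 := Finset.card_le_card h1
    rw [Finset.card_product] at h2
    have h3 : t ^ 2 ≤ (I (Z k)).card := z4 k
    have h4 : (R k).card * (C k).card ≤ (t - 1) * (t - 1) := Nat.mul_le_mul (by omega) (by omega)
    have h5 : (t - 1) * (t - 1) < t ^ 2 := by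
      obtain ⟨s, hs⟩ : ∃ s, t = s + 1 := ⟨t - 1, by omega⟩
      rw [hs]; simp only [Nat.add_sub_cancel]; nlinarith
    omega
  have hsplit : t ^ 2 * 2 ^ t * N ≤ (univ.filter (fun k => t ≤ (R k).card)).card ∨
      t ^ 2 * 2 ^ t * N ≤ (univ.filter (fun k => t ≤ (C k).card)).card := by
    by_contra hcon
    push Not at hcon
    have h1 : (univ : Finset (Fin M)) = (univ.filter (fun k => t ≤ (R k).card)) ∪
        (univ.filter (fun k => t ≤ (C k).card)) := by
      ext k
      simp only [mem_univ, true_iff, Finset.mem_union, Finset.mem_filter, true_and]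
      exact hRC k
    have h2 : M ≤ (univ.filter (fun k => t ≤ (R k).card)).card +
        (univ.filter (fun k => t ≤ (C k).card)).card := by
      calc M = (univ : Finset (Fin M)).card := by simp
        _ ≤ _ := by conv_lhs => rw [h1]
                    exact Finset.card_union_le _ _
    omega
  have hZB : ∀ k, ∀ y ∈ Z k, y ∈ B := fun k y hy => z2 k hy
  rcases hsplit with h | h
  · refine rich (t := t) (κ := {k : Fin M // t ≤ (R k).card}) hNpos P hP hPd (fun k => Z k.1) (fun k => z1 _)
      (fun k l hkl => z3 _ _ (fun e => hkl (Subtype.ext e))) ?_ (fun k => R k.1) (fun k => k.2) ?_ ?_ ht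
    · intro i k
      rw [Set.disjoint_left]
      intro y hy hy'
      exact hPB i hy (hZB k.1 y hy')
    · intro k i hi
      obtain ⟨p, hp, rfl⟩ := Finset.mem_image.1 hi
      rw [hI, Finset.mem_filter] at hp
      exact ⟨x p.1 p.2, hxP _ _, τ p.1 p.2, hp.2, hτadj _ _⟩
    · rw [Fintype.card_subtype]; exact h
  · refine rich (t := t) (κ := {k : Fin M // t ≤ (C k).card}) hNpos Q hQ hQd (fun k => Z k.1) (fun k => z1 _)
      (fun k l hkl => z3 _ _ (fun e => hkl (Subtype.ext e))) ?_ (fun k => C k.1) (fun k => k.2) ?_ ?_ ht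
    · intro i k
      rw [Set.disjoint_left]
      intro y hy hy'
      exact hQB i hy (hZB k.1 y hy')
    · intro k i hi
      obtain ⟨p, hp, rfl⟩ := Finset.mem_image.1 hi
      rw [hI, Finset.mem_filter] at hp
      exact ⟨x p.1 p.2, hxQ _ _, τ p.1 p.2, hp.2, hτadj _ _⟩
    · rw [Fintype.card_subtype]; exact h

end Pool.Agent.Lib.MP_4332cb_co
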