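import Pool.Agent.Lib.MP_4332cb_co.Grid

/-!
The key lemma: in a graph of bounded degree without a large complete minor, the set of vertices
outside a connected dominating set has bounded balanced separators.
-/

namespace Pool.Agent.Lib.MP_4332cb_co

open Finset

universe u

section Weight

variable {V : Type*} [Fintype V]

open Classical in
/-- weight of a set -/
noncomputable def Wt (w : V → ℕ) (C : Set V) : ℕ := ∑ v, if v ∈ C then w v else 0

lemma Wt_mono {w : V → ℕ} {C D : Set V} (h : C ⊆ D) : Wt w C ≤ Wt w D := by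
  classical
  unfold Wt
  apply Finset.sum_le_sum
  intro v _
  by_cases h1 : v ∈ C
  · rw [if_pos h1, if_pos (h h1)]
  · rw [if_neg h1]; exact Nat.zero_le _

lemma Wt_disj {w : V → ℕ} {C D : Set V} (h : Disjoint C D) : Wt w C + Wt w D = Wt w (C ∪ D) := by
  classical
  unfold Wt
  rw [← Finset.sum_add_distrib]
  apply Finset.sum_congr rfl
  intro v _
  by_cases h1 : v ∈ C
  · have h2 : v ∉ D := fun h2 => Set.disjoint_left.1 h h1 h2
    have h3 : v ∈ C ∪ D := Or.inl h1
    rw [if_pos h1, if_neg h2, if_pos h3]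
    omega
  · by_cases h2 : v ∈ D
    · have h3 : v ∈ C ∪ D := Or.inr h2
      rw [if_neg h1, if_pos h2, if_pos h3]; omega
    · rw [if_neg h1, if_neg h2, if_neg]
      rintro (h3 | h3)
      · exact h1 h3
      · exact h2 h3

/-- heavy connected set -/
def Heavy (G : SimpleGraph V) (B : Set V) (w : V → ℕ) (C : Set V) : Prop :=
  Cn G C ∧ C ⊆ Bᶜ ∧ Wt w Bᶜ < 2 * Wt w C

lemma Heavy.meet {G : SimpleGraph V} {B : Set V} {w : V → ℕ} {C D : Set V} (hC : Heavy G B w C)
    (hD : Heavy G B w D) : ∃ x, x ∈ C ∧ x ∈ D := by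
  by_contra hcon
  push Not at hcon
  have hdis : Disjoint C D := Set.disjoint_left.2 hcon
  have h1 := Wt_disj (w := w) hdis
  have h2 : Wt w (C ∪ D) ≤ Wt w Bᶜ := Wt_mono (Set.union_subset hC.2.1 hD.2.1)
  have := hC.2.2
  have := hD.2.2
  omega

/-- the property defining the rank -/
def RkP (G : SimpleGraph V) (B : Set V) (w : V → ℕ) (Y : Set V) (n : ℕ) : Prop :=
  ∃ X : Finset V, X.card = n ∧ ∀ C, Heavy G B w C → Disjoint C (X : Set V) → Disjoint C Y

/-- the rank of a set of vertices: how many vertices are needed to separate it from the heavy sets -/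
noncomputable def rk (G : SimpleGraph V) (B : Set V) (w : V → ℕ) (Y : Set V) : ℕ :=
  sInf {n | RkP G B w Y n}

lemma rk_le {G : SimpleGraph V} {B : Set V} {w : V → ℕ} {Y : Set V} {X : Finset V}
    (h : ∀ C, Heavy G B w C → Disjoint C (X : Set V) → Disjoint C Y) : rk G B w Y ≤ X.card :=
  Nat.sInf_le ⟨X, rfl, h⟩

lemma rk_spec (G : SimpleGraph V) (B : Set V) (w : V → ℕ) (Y : Set V) : RkP G B w Y (rk G B w Y) := by
  classical
  have hne : {n | RkP G B w Y n}.Nonempty := by
    refine ⟨_, univ.filter (fun v => v ∈ Y), rfl, ?_⟩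
    intro C _ h
    rw [Set.disjoint_left] at h ⊢
    intro x hx hY
    exact h hx (by rw [Finset.mem_coe, Finset.mem_filter]; exact ⟨mem_univ _, hY⟩)
  exact Nat.sInf_mem hne

lemma rk_exists {G : SimpleGraph V} {B : Set V} {w : V → ℕ} {Y : Set V} {X : Finset V}
    (h : X.card < rk G B w Y) : ∃ C, Heavy G B w C ∧ Disjoint C (X : Set V) ∧ ∃ y, y ∈ C ∧ y ∈ Y := by
  by_contra hcon
  push Not at hcon
  have : rk G B w Y ≤ X.card := by
    apply rk_le
    intro C h1 h2
    rw [Set.disjoint_left]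
    exact hcon C h1 h2
  omega

lemma rk_union (G : SimpleGraph V) (B : Set V) (w : V → ℕ) (Y Y' : Set V) :
    rk G B w (Y ∪ Y') ≤ rk G B w Y + rk G B w Y' := by
  classical
  obtain ⟨X, hX, h⟩ := rk_spec G B w Y
  obtain ⟨X', hX', h'⟩ := rk_spec G B w Y'
  have : rk G B w (Y ∪ Y') ≤ (X ∪ X').card := by
    apply rk_le
    intro C hC hd
    rw [Finset.coe_union, Set.disjoint_union_right] at hd
    rw [Set.disjoint_union_right]
    exact ⟨h C hC hd.1, h' C hC hd.2⟩
  have h2 := Finset.card_union_le X X'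
  omega

end Weight

open Classical in
/-- the ordered pairs in `Fin t` -/
noncomputable def EP (t : ℕ) : Finset (Fin t × Fin t) := univ.filter (fun p => p.1 < p.2)

/-- bound of the key lemma -/
noncomputable def KK (t Δ : ℕ) : ℕ := t * (Δ * (kf (NN t Δ) (EP t).card + 1))

theorem key {t Δ : ℕ} (ht : 1 ≤ t) (hΔ : 1 ≤ Δ) {V : Type u} [Fintype V] {G : SimpleGraph V}
    {B : Set V} (hB : Cn G B) (hdeg : ∀ v, (nb G v).card ≤ Δ)
    (hB2 : ∀ v, v ∉ B → ∃ b ∈ B, G.Adj v b) (hKM : ¬ KM G t) (w : V → ℕ) :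
    ∃ X : Finset V, X.card ≤ KK t Δ ∧ ∀ C, Cn G C → C ⊆ Bᶜ → Disjoint C (X : Set V) →
      2 * Wt w C ≤ Wt w Bᶜ := by
  classical
  by_contra hcon
  push Not at hcon
  apply hKM
  have heavy : ∀ X : Finset V, X.card ≤ KK t Δ → ∃ C, Heavy G B w C ∧ Disjoint C (X : Set V) := by
    intro X hX
    obtain ⟨C, h1, h2, h3, h4⟩ := hcon X hX
    exact ⟨C, ⟨h1, h2, h4⟩, h3⟩
  have hrkB : KK t Δ + 1 ≤ rk G B w Bᶜ := by
    by_contra hlt
    obtain ⟨X, hX, h⟩ := rk_spec G B w Bᶜ
    obtain ⟨C, hC, hCX⟩ := heavy X (by omega)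
    obtain ⟨x, hx⟩ := hC.1.1
    exact Set.disjoint_left.1 (h C hC hCX) hx (hC.2.1 hx)
  have hτ : ∀ v, ∃ b, v ∉ B → b ∈ B ∧ G.Adj v b := by
    intro v
    by_cases h : v ∈ B
    · exact ⟨v, fun h' => absurd h h'⟩
    · obtain ⟨b, hb, hvb⟩ := hB2 v h
      exact ⟨b, fun _ => ⟨hb, hvb⟩⟩
  choose τ hτ using hτ
  set A : Set V → Set V := fun Z => {h | h ∉ B ∧ τ h ∈ Z} with hA
  set r : Set V → ℕ := fun Z => rk G B w (A Z) with hr
  have hrs : SubAdd r := by
    constructor
    · have : A ∅ = ∅ := by ext h; simp [hA]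
      show rk G B w (A ∅) = 0
      rw [this]
      have := rk_le (G := G) (B := B) (w := w) (Y := ∅) (X := ∅) (fun C _ _ => Set.disjoint_empty C)
      simpa using this
    · intro Y Y'
      have : A (Y ∪ Y') = A Y ∪ A Y' := by
        ext h
        simp only [hA, Set.mem_union, Set.mem_ofPred_eq]
        tauto
      show rk G B w (A (Y ∪ Y')) ≤ rk G B w (A Y) + rk G B w (A Y')
      rw [this]
      exact rk_union G B w _ _
  have hr1 : ∀ v, r {v} ≤ Δ := by
    intro v
    refine le_trans (rk_le (X := nb G v) ?_) (hdeg v)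
    intro C _ hC
    rw [Set.disjoint_left] at hC ⊢
    rintro x hx ⟨h1, h2⟩
    apply hC hx
    rw [Finset.mem_coe, mem_nb]
    have h3 : τ x = v := h2
    rw [← h3]; exact (hτ x h1).2.symm
  set q := kf (NN t Δ) (EP t).card + 1 with hq
  obtain ⟨Z, z1, z2, z3, z4⟩ := pieces (q := q) hΔ hΔ (by omega) hdeg hrs hr1 t B hB (by
    have h0 : A B = Bᶜ := by
      ext h
      simp only [hA, Set.mem_ofPred_eq, Set.mem_compl_iff]
      exact ⟨fun h => h.1, fun h1 => ⟨h1, (hτ h h1).1⟩⟩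
    have h1 : r B = rk G B w Bᶜ := by
      show rk G B w (A B) = _
      rw [h0]
    rw [h1]
    have h2 : Δ + Δ * (q - 1) = Δ * q := by
      rw [hq]; simp only [Nat.add_sub_cancel]; ring
    rw [h2]
    have h3 : KK t Δ = t * (Δ * q) := rfl
    omega)
  -- the graph on the complement of `B`
  set H : SimpleGraph V :=
    { Adj := fun u v => G.Adj u v ∧ u ∉ B ∧ v ∉ B
      symm := ⟨fun u v h => ⟨h.1.symm, h.2.2, h.2.1⟩⟩
      loopless := ⟨fun u h => h.1.ne rfl⟩ } with hH
  have hHG : ∀ u v, H.Adj u v → G.Adj u v := fun u v h => h.1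
  have hHB : ∀ (C : Set V), Cn H C → ∀ x ∈ C, x ∉ B → C ⊆ Bᶜ := by
    intro C hC x hx hxB y hy hyB
    have h1 := hC.2 x hx y hy
    cases h1 with
    | refl => exact hxB hyB
    | tail _ h2 => exact h2.1.2.2 hyB
  have hlink : ∀ i j, Lk H (A (Z i)) (A (Z j)) q := by
    intro i j
    apply menger
    intro X hX
    by_contra hlt
    push Not at hlt
    have hi : q ≤ rk G B w (A (Z i)) := z4 i
    have hj : q ≤ rk G B w (A (Z j)) := z4 j
    obtain ⟨C, hC, hCX, a, haC, haA⟩ := rk_exists (X := X) (lt_of_lt_of_le hlt hi)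
    obtain ⟨C', hC', hCX', b, hbC, hbA⟩ := rk_exists (X := X) (lt_of_lt_of_le hlt hj)
    obtain ⟨x, hx, hx'⟩ := hC.meet hC'
    have hcn := hC.1.union_of_mem hC'.1 hx hx'
    have hsub : C ∪ C' ⊆ Bᶜ := Set.union_subset hC.2.1 hC'.2.1
    have hX1 : C ∪ C' ⊆ (X : Set V)ᶜ := by
      rintro y (hy | hy) hyX
      · exact Set.disjoint_left.1 hCX hy hyX
      · exact Set.disjoint_left.1 hCX' hy hyX
    refine hX a haA b hbA (hX1 (Or.inl haC)) (hX1 (Or.inr hbC)) ?_
    refine (hcn.2 a (Or.inl haC) b (Or.inr hbC)).mono ?_ hX1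
    intro u hu v hv huv
    exact ⟨huv, hsub hu, hsub hv⟩
  choose P p1 p2 p3 p4 using hlink
  have hPB : ∀ i j s, P i j s ⊆ Bᶜ := by
    intro i j s
    obtain ⟨x, hx, hxA⟩ := p3 i j s
    exact hHB _ (p1 i j s) x hx hxA.1
  have hPG : ∀ i j s, Cn G (P i j s) := fun i j s => (p1 i j s).mono_graph (fun u _ v _ h => hHG u v h)
  -- families indexed by naturals
  set P' : Fin t × Fin t → ℕ → Set V := fun e s => if h : s < q then P e.1 e.2 ⟨s, h⟩ else ∅ with hP'
  have hNpos : 1 ≤ NN t Δ := by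
    rw [NN]
    have : 0 < 2 * t ^ 2 * 2 ^ t * Δ * t ^ 2 := by positivity
    exact this
  rcases select (NN t Δ) hNpos P' (EP t).card (EP t) (fun _ => range q) rfl (by
      intro e _; rw [Finset.card_range]; omega) with ⟨c, c1, c2⟩ | ⟨e, he, e', he', S, hS, T, hT, hSc, hTc, hST⟩
  · -- disjoint connectors
    have hlt : ∀ i j : Fin t, i < j → c (i, j) < q := by
      intro i j h
      exact Finset.mem_range.1 (c1 (i, j) (by rw [EP, Finset.mem_filter]; exact ⟨mem_univ _, h⟩))
    refine Mn_of_conn Z z1 z3 (fun i j => P' (i, j) (c (i, j))) ?_ ?_ ?_ ?_ ?_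
    · intro i j _ h
      rw [hP']; simp only [hlt i j h, dif_pos]
      exact hPG _ _ _
    · intro i j i' j' _ h _ h' hne
      apply c2
      · rw [EP, Finset.mem_filter]; exact ⟨mem_univ _, h⟩
      · rw [EP, Finset.mem_filter]; exact ⟨mem_univ _, h'⟩
      · intro e
        rw [Prod.mk.injEq] at e
        exact hne e
    · intro l i j _ h
      rw [hP']; simp only [hlt i j h, dif_pos]
      rw [Set.disjoint_left]
      intro x hx hx'
      exact hPB _ _ _ hx' (z2 l hx)
    · intro i j _ h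
      rw [hP']; simp only [hlt i j h, dif_pos]
      obtain ⟨x, hx, hxA⟩ := p3 i j ⟨c (i, j), hlt i j h⟩
      exact ⟨τ x, hxA.2, x, hx, (hτ x hxA.1).2.symm⟩
    · intro i j _ h
      rw [hP']; simp only [hlt i j h, dif_pos]
      obtain ⟨x, hx, hxA⟩ := p4 i j ⟨c (i, j), hlt i j h⟩
      exact ⟨τ x, hxA.2, x, hx, (hτ x hxA.1).2.symm⟩
  · -- crossing families
    have eS : Fin (NN t Δ) ≃ S := (Finset.equivFinOfCardEq hSc).symm
    have eT : Fin (NN t Δ) ≃ T := (Finset.equivFinOfCardEq hTc).symm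
    have hSq : ∀ i, ((eS i).1 : ℕ) < q := fun i => Finset.mem_range.1 (hS (eS i).2)
    have hTq : ∀ i, ((eT i).1 : ℕ) < q := fun i => Finset.mem_range.1 (hT (eT i).2)
    have hS' : ∀ i, P' e (eS i).1 = P e.1 e.2 ⟨(eS i).1, hSq i⟩ := by
      intro i; rw [hP']; simp only [hSq i, dif_pos]
    have hT' : ∀ i, P' e' (eT i).1 = P e'.1 e'.2 ⟨(eT i).1, hTq i⟩ := by
      intro i; rw [hP']; simp only [hTq i, dif_pos]
    refine crossing ht hΔ hdeg hB hB2 rfl (fun i => P' e (eS i).1) (fun i => P' e' (eT i).1) ?_ ?_ ?_ ?_ ?_ ?_ ?_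
    · intro i; rw [hS']; exact hPG _ _ _
    · intro i; rw [hT']; exact hPG _ _ _
    · intro i j hij
      rw [hS', hS']
      apply p2
      intro h
      apply hij
      apply eS.injective
      apply Subtype.ext
      exact congrArg (fun k : Fin q => k.1) h
    · intro i j hij
      rw [hT', hT']
      apply p2
      intro h
      apply hij
      apply eT.injective
      apply Subtype.ext
      exact congrArg (fun k : Fin q => k.1) h
    · intro i; rw [hS']; exact hPB _ _ _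
    · intro i; rw [hT']; exact hPB _ _ _
    · intro i j
      exact hST _ (eS i).2 _ (eT j).2

end Pool.Agent.Lib.MP_4332cb_co
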