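import Pool.Agent.Lib.MP_4332cb_co.Pieces

/-!
Bounded degree and bounded balanced separators give a 2-colouring with bounded clustering.
-/

namespace Pool.Agent.Lib.MP_4332cb_co

open Finset

variable {V : Type*}

open Classical in
/-- every set of vertices has a balanced separator of size at most `k` -/
def Bal (J : SimpleGraph V) (k : ℕ) : Prop :=
  ∀ S : Finset V, ∃ X : Finset V, X.card ≤ k ∧ ∀ C, Cn J C → Disjoint C (X : Set V) →
    2 * (S.filter (fun v => v ∈ C)).card ≤ S.card

lemma leave {J : SimpleGraph V} {C A : Set V} (hC : Cn J C) {x y : V} (hx : x ∈ C) (hxA : x ∈ A)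
    (hy : y ∈ C) (hyA : y ∉ A) : ∃ u v, u ∈ C ∧ u ∈ A ∧ v ∈ C ∧ v ∉ A ∧ J.Adj u v := by
  have h := hC.2 x hx y hy
  induction h with
  | refl => exact absurd hxA hyA
  | @tail b c h1 h2 ih =>
    by_cases hb : b ∈ A
    · exact ⟨b, c, h2.2.1, hb, h2.2.2, hyA, h2.1⟩
    · exact ih h2.2.1 hb

/-- the size function of the root set -/
def rho (k s : ℕ) : ℕ := if s ≤ 12 * k then s else 2 * s - 4 * k

/-- the induction statement -/
structure GoodC (J : SimpleGraph V) (k M : ℕ) (U S : Finset V) (b : Bool) (f : V → Bool) (R : Finset V) :
    Prop where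
  sub : S ⊆ R
  subU : R ⊆ U
  col : ∀ x ∈ R, f x = b
  nbr : ∀ x ∈ R, ∀ y ∈ U, J.Adj x y → y ∉ R → f y = !b
  card : R.card ≤ rho k S.card
  clus : ∀ C, Cn J C → C ⊆ (U : Set V) → (∀ x ∈ C, ∀ y ∈ C, f x = f y) → C.ncard ≤ 2 * M

theorem goodC_exists [Fintype V] {J : SimpleGraph V} {k Δ : ℕ} (hk : 1 ≤ k) (hΔ : 1 ≤ Δ)
    (hdeg : ∀ v, (nb J v).card ≤ Δ) (hbal : Bal J k) :
    ∀ n : ℕ, ∀ s : ℕ, ∀ U : Finset V, U.card ≤ n → ∀ S : Finset V, S ⊆ U → S.card ≤ s →
      S.card ≤ 12 * k * Δ → ∀ b : Bool, ∃ f R, GoodC J k (12 * k * Δ) U S b f R := by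
  classical
  have hM : 12 * k ≤ 12 * k * Δ := Nat.le_mul_of_pos_right _ hΔ
  intro n
  induction n with
  | zero =>
    intro s U hU S hS _ _ b
    have hU0 : U = ∅ := Finset.card_eq_zero.1 (Nat.le_zero.1 hU)
    subst hU0
    have hS0 : S = ∅ := Finset.subset_empty.1 hS
    subst hS0
    refine ⟨fun _ => b, ∅, ⟨Finset.Subset.refl _, Finset.Subset.refl _, fun _ _ => rfl, ?_, ?_, ?_⟩⟩
    · intro x hx; exact absurd hx (Finset.notMem_empty x)
    · simp
    · intro C hC hCU _
      obtain ⟨x, hx⟩ := hC.1
      have := hCU hx
      rw [Finset.mem_coe] at this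
      exact absurd this (Finset.notMem_empty x)
  | succ n ihn =>
    intro s
    induction s using Nat.strong_induction_on with
    | _ s ihs =>
    intro U hU S hS hSs hSM b
    by_cases hU0 : U = ∅
    · exact ihn s U (by rw [hU0]; simp) S hS hSs hSM b
    by_cases hsmall : S.card ≤ 12 * k
    · -- small `S`
      obtain ⟨u, hu⟩ := Finset.nonempty_iff_ne_empty.2 hU0
      obtain ⟨S1, hSS1, hS1U, hS1n, hS1c, hS1e⟩ : ∃ S1 : Finset V, S ⊆ S1 ∧ S1 ⊆ U ∧ S1.Nonempty ∧
          S1.card ≤ 12 * k ∧ (∀ x ∈ S, S1 = S) := by
        by_cases h : S = ∅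
        · refine ⟨{u}, by rw [h]; simp, by simpa using hu, by simp, by simp; omega, ?_⟩
          intro x hx; rw [h] at hx; exact absurd hx (Finset.notMem_empty x)
        · exact ⟨S, Finset.Subset.refl _, hS, Finset.nonempty_iff_ne_empty.2 h, hsmall, fun _ _ => rfl⟩
      set U' := U \ S1 with hU'
      have hU'c : U'.card ≤ n := by
        have h1 : U'.card < U.card := Finset.card_lt_card (Finset.sdiff_ssubset hS1U hS1n)
        omega
      set S' := U'.filter (fun y => ∃ x ∈ S1, J.Adj x y) with hS'
      have hS'c : S'.card ≤ 12 * k * Δ := by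
        have h1 : S' ⊆ S1.biUnion (fun x => nb J x) := by
          intro y hy
          rw [hS', Finset.mem_filter] at hy
          obtain ⟨_, x, hx, hxy⟩ := hy
          exact Finset.mem_biUnion.2 ⟨x, hx, mem_nb.2 hxy⟩
        calc S'.card ≤ (S1.biUnion (fun x => nb J x)).card := Finset.card_le_card h1
          _ ≤ S1.card * Δ := Finset.card_biUnion_le_card_mul _ _ _ (fun x _ => hdeg x)
          _ ≤ 12 * k * Δ := Nat.mul_le_mul_right _ hS1c
      obtain ⟨f', R', g⟩ := ihn S'.card U' hU'c S' (Finset.filter_subset _ _) le_rfl hS'c (!b)
      have hf : ∀ v, v ∉ S1 → (if v ∈ S1 then b else f' v) = f' v := fun v h => if_neg h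
      have hnb : ∀ x ∈ S1, ∀ y ∈ U, J.Adj x y → y ∉ S1 → f' y = !b := by
        intro x hx y hy hxy hyS
        apply g.col
        apply g.sub
        rw [hS', Finset.mem_filter, hU', Finset.mem_sdiff]
        exact ⟨⟨hy, hyS⟩, x, hx, hxy⟩
      refine ⟨fun v => if v ∈ S1 then b else f' v, S, ⟨Finset.Subset.refl _, hS, ?_, ?_, ?_, ?_⟩⟩
      · intro x hx; exact if_pos (hSS1 hx)
      · intro x hx y hy hxy hyS
        have hS1S := hS1e x hx
        have hyS1 : y ∉ S1 := by rw [hS1S]; exact hyS
        show (if y ∈ S1 then b else f' y) = !b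
        rw [if_neg hyS1]
        exact hnb x (hSS1 hx) y hy hxy hyS1
      · unfold rho; rw [if_pos hsmall]
      · intro C hC hCU hmono
        by_cases hmeet : ∃ x ∈ C, x ∈ S1
        · obtain ⟨x, hx, hxS⟩ := hmeet
          have hsub : C ⊆ (S1 : Set V) := by
            intro y hy
            by_contra hyS
            obtain ⟨p, q, hp, hpS, hq, hqS, hpq⟩ := leave hC hx (show x ∈ (S1 : Set V) from hxS) hy hyS
            have h1 := hnb p hpS q (hCU hq) hpq hqS
            have h2 := hmono p hp q hq
            rw [if_pos (show p ∈ S1 from hpS), if_neg (show q ∉ S1 from hqS), h1] at h2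
            cases b <;> simp at h2
          have h3 : C.ncard ≤ S1.card := by
            rw [← Set.ncard_coe_finset]
            exact Set.ncard_le_ncard hsub (Finset.finite_toSet _)
          omega
        · push Not at hmeet
          refine g.clus C hC ?_ ?_
          · intro x hx
            rw [Finset.mem_coe, hU', Finset.mem_sdiff]
            exact ⟨hCU hx, hmeet x hx⟩
          · intro x hx y hy
            have h2 := hmono x hx y hy
            rwa [if_neg (hmeet x hx), if_neg (hmeet y hy)] at h2
    · -- large `S`: split
      push Not at hsmall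
      obtain ⟨X0, hX0, hX0b⟩ := hbal S
      set X := X0 ∩ U with hX
      have hXc : X.card ≤ k := (Finset.card_le_card Finset.inter_subset_left).trans hX0
      have hXU : X ⊆ U := Finset.inter_subset_right
      set Y := U \ X with hY
      set cand := Y.powerset.filter (fun D => (∀ x ∈ D, ∀ y ∈ Y, J.Adj x y → y ∈ D) ∧
        3 * (S ∩ D).card ≤ 2 * S.card) with hcand
      have hcn : cand.Nonempty := by
        refine ⟨∅, ?_⟩
        rw [hcand, Finset.mem_filter]
        refine ⟨Finset.empty_mem_powerset _, ?_, by simp⟩
        intro x hx; exact absurd hx (Finset.notMem_empty x)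
      obtain ⟨D, hD, hDmax⟩ := Finset.exists_max_image cand (fun D => (S ∩ D).card) hcn
      rw [hcand, Finset.mem_filter, Finset.mem_powerset] at hD
      obtain ⟨hDY, hDcl, hDc⟩ := hD
      set D' := Y \ D with hD'
      have hD'cl : ∀ x ∈ D', ∀ y ∈ Y, J.Adj x y → y ∈ D' := by
        intro x hx y hy hxy
        rw [hD', Finset.mem_sdiff] at hx ⊢
        exact ⟨hy, fun h => hx.2 (hDcl y h x hx.1 hxy.symm)⟩
      -- sizes
      have hcardeq : (S ∩ D).card + (S ∩ D').card + (S ∩ X).card = S.card := by
        have h1 : S ∩ X ∪ (S ∩ D ∪ S ∩ D') = S := by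
          ext v
          simp only [Finset.mem_union, Finset.mem_inter, hD', hY, Finset.mem_sdiff]
          constructor
          · tauto
          · intro hv
            have := hS hv
            tauto
        have h2 : Disjoint (S ∩ D) (S ∩ D') := by
          rw [Finset.disjoint_left]
          intro v hv hv'
          rw [Finset.mem_inter] at hv hv'
          rw [hD', Finset.mem_sdiff] at hv'
          exact hv'.2.2 hv.2
        have h3 : Disjoint (S ∩ X) (S ∩ D ∪ S ∩ D') := by
          rw [Finset.disjoint_left]
          intro v hv hv'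
          rw [Finset.mem_inter] at hv
          rw [Finset.mem_union, Finset.mem_inter, Finset.mem_inter] at hv'
          rcases hv' with h | h
          · have := hDY h.2
            rw [hY, Finset.mem_sdiff] at this
            exact this.2 hv.2
          · have := h.2
            rw [hD', Finset.mem_sdiff, hY, Finset.mem_sdiff] at this
            exact this.1.2 hv.2
        have h4 : (S ∩ X ∪ (S ∩ D ∪ S ∩ D')).card = S.card := by rw [h1]
        rw [Finset.card_union_of_disjoint h3, Finset.card_union_of_disjoint h2] at h4
        omega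
      have hD'c : 3 * (S ∩ D').card ≤ 2 * S.card := by
        by_contra hcon
        push Not at hcon
        have hne : (S ∩ D').Nonempty := by
          rw [← Finset.card_pos]; omega
        obtain ⟨x, hx⟩ := hne
        rw [Finset.mem_inter] at hx
        have hxY : x ∈ Y := by have := hx.2; rw [hD', Finset.mem_sdiff] at this; exact this.1
        set C := cmp J (Y : Set V) x with hC
        have hCY : C ⊆ (Y : Set V) := cmp_subset hxY
        have hCdis : Disjoint C (X0 : Set V) := by
          rw [Set.disjoint_left]
          intro v hv hv'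
          have := hCY hv
          rw [Finset.mem_coe, hY, Finset.mem_sdiff] at this
          exact this.2 (by rw [hX, Finset.mem_inter]; exact ⟨hv', this.1⟩)
        have hhalf := hX0b C Cn_cmp hCdis
        set Cf : Finset V := Y.filter (fun v => v ∈ C) with hCf
        have hSC : S.filter (fun v => v ∈ C) = S ∩ Cf := by
          ext v
          simp only [Finset.mem_filter, Finset.mem_inter, hCf]
          constructor
          · rintro ⟨h1, h2⟩; exact ⟨h1, hCY h2, h2⟩
          · rintro ⟨h1, _, h2⟩; exact ⟨h1, h2⟩
        rw [hSC] at hhalf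
        have hCcl : ∀ v ∈ Cf, ∀ y ∈ Y, J.Adj v y → y ∈ Cf := by
          intro v hv y hy hvy
          rw [hCf, Finset.mem_filter] at hv ⊢
          refine ⟨hy, ?_⟩
          have h1 : RI J (Y : Set V) x v := hv.2
          exact h1.trans (RI.single hvy hv.1 hy)
        have hCD' : Cf ⊆ D' := by
          intro v hv
          rw [hCf, Finset.mem_filter] at hv
          have h1 : RI J (Y : Set V) x v := hv.2
          have hgen : ∀ z, RI J (Y : Set V) x z → z ∈ D' := by
            intro z hz
            induction hz with
            | refl => exact hx.2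
            | tail _ h2 ih => exact hD'cl _ ih _ h2.2.2 h2.1
          exact hgen v h1
        have hCpos : 1 ≤ (S ∩ Cf).card := by
          apply Finset.card_pos.2
          exact ⟨x, Finset.mem_inter.2 ⟨hx.1, Finset.mem_filter.2 ⟨hxY, mem_cmp_self⟩⟩⟩
        have hdisj : Disjoint (S ∩ D) (S ∩ Cf) := by
          rw [Finset.disjoint_left]
          intro v hv hv'
          rw [Finset.mem_inter] at hv hv'
          have := hCD' hv'.2
          rw [hD', Finset.mem_sdiff] at this
          exact this.2 hv.2
        have hun : (S ∩ (D ∪ Cf)).card = (S ∩ D).card + (S ∩ Cf).card := by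
          rw [Finset.inter_union_distrib_left, Finset.card_union_of_disjoint hdisj]
        by_cases h1 : 3 * (S ∩ (D ∪ Cf)).card ≤ 2 * S.card
        · have h2 : D ∪ Cf ∈ cand := by
            rw [hcand, Finset.mem_filter, Finset.mem_powerset]
            refine ⟨Finset.union_subset hDY (Finset.filter_subset _ _), ?_, h1⟩
            intro v hv y hy hvy
            rw [Finset.mem_union] at hv ⊢
            rcases hv with hv | hv
            · exact Or.inl (hDcl v hv y hy hvy)
            · exact Or.inr (hCcl v hv y hy hvy)
          have h3 := hDmax _ h2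
          omega
        · have h2 : Cf ∈ cand := by
            rw [hcand, Finset.mem_filter, Finset.mem_powerset]
            refine ⟨Finset.filter_subset _ _, hCcl, ?_⟩
            omega
          have h3 := hDmax _ h2
          omega
      have hXD : Disjoint (S ∩ D) X := by
        rw [Finset.disjoint_left]
        intro v hv hv'
        rw [Finset.mem_inter] at hv
        have := hDY hv.2
        rw [hY, Finset.mem_sdiff] at this
        exact this.2 hv'
      have hXD' : Disjoint (S ∩ D') X := by
        rw [Finset.disjoint_left]
        intro v hv hv'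
        rw [Finset.mem_inter] at hv
        have := hv.2
        rw [hD', Finset.mem_sdiff, hY, Finset.mem_sdiff] at this
        exact this.1.2 hv'
      have hSX : (S ∩ X).card ≤ X.card := Finset.card_le_card Finset.inter_subset_right
      set U1 := D ∪ X with hU1
      set U2 := D' ∪ X with hU2
      set S1 := (S ∩ D) ∪ X with hS1
      set S2 := (S ∩ D') ∪ X with hS2
      have hS1c : S1.card = (S ∩ D).card + X.card := by rw [hS1, Finset.card_union_of_disjoint hXD]
      have hS2c : S2.card = (S ∩ D').card + X.card := by rw [hS2, Finset.card_union_of_disjoint hXD']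
      have hDU : D ⊆ U := hDY.trans Finset.sdiff_subset
      have hD'U : D' ⊆ U := Finset.sdiff_subset.trans Finset.sdiff_subset
      have hU1U : U1 ⊆ U := Finset.union_subset hDU hXU
      have hU2U : U2 ⊆ U := Finset.union_subset hD'U hXU
      obtain ⟨f1, R1, g1⟩ := ihs S1.card (by omega) U1 ((Finset.card_le_card hU1U).trans hU) S1
        (Finset.union_subset_union Finset.inter_subset_right (Finset.Subset.refl _)) le_rfl (by omega) b
      obtain ⟨f2, R2, g2⟩ := ihs S2.card (by omega) U2 ((Finset.card_le_card hU2U).trans hU) S2
        (Finset.union_subset_union Finset.inter_subset_right (Finset.Subset.refl _)) le_rfl (by omega) b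
      have hX1 : X ⊆ R1 := (Finset.subset_union_right).trans g1.sub
      have hX2 : X ⊆ R2 := (Finset.subset_union_right).trans g2.sub
      have hUc : ∀ v ∈ U, v ∈ X ∨ (v ∉ X ∧ v ∈ D) ∨ (v ∉ X ∧ v ∉ D ∧ v ∈ D') := by
        intro v hv
        by_cases h1 : v ∈ X
        · exact Or.inl h1
        · by_cases h2 : v ∈ D
          · exact Or.inr (Or.inl ⟨h1, h2⟩)
          · refine Or.inr (Or.inr ⟨h1, h2, ?_⟩)
            rw [hD', Finset.mem_sdiff, hY, Finset.mem_sdiff]
            exact ⟨⟨hv, h1⟩, h2⟩
      have hYm : ∀ v ∈ U, v ∉ X → v ∈ Y := fun v h h' => Finset.mem_sdiff.2 ⟨h, h'⟩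
      have hDX : ∀ v ∈ D, v ∉ X := fun v h => (Finset.mem_sdiff.1 (hDY h)).2
      have hD'X : ∀ v ∈ D', v ∉ X ∧ v ∉ D := fun v h =>
        ⟨(Finset.mem_sdiff.1 (Finset.mem_sdiff.1 h).1).2, (Finset.mem_sdiff.1 h).2⟩
      set f : V → Bool := fun v => if v ∈ U1 then f1 v else f2 v with hf
      have hf1 : ∀ v ∈ U1, f v = f1 v := fun v h => if_pos h
      have hf2 : ∀ v ∈ U2, f v = f2 v := by
        intro v hv
        by_cases h : v ∈ U1
        · rw [hf1 v h]
          have hvX : v ∈ X := by
            rw [hU1, Finset.mem_union] at h
            rw [hU2, Finset.mem_union] at hv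
            rcases h with h | h
            · rcases hv with hv | hv
              · exact absurd h (hD'X v hv).2
              · exact hv
            · exact h
          rw [g1.col v (hX1 hvX), g2.col v (hX2 hvX)]
        · exact if_neg h
      refine ⟨f, R1 ∪ R2, ⟨?_, ?_, ?_, ?_, ?_, ?_⟩⟩
      · intro v hv
        rw [Finset.mem_union]
        rcases hUc v (hS hv) with h | h | h
        · exact Or.inl (hX1 h)
        · exact Or.inl (g1.sub (Finset.mem_union_left _ (Finset.mem_inter.2 ⟨hv, h.2⟩)))
        · exact Or.inr (g2.sub (Finset.mem_union_left _ (Finset.mem_inter.2 ⟨hv, h.2.2⟩)))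
      · exact Finset.union_subset (g1.subU.trans hU1U) (g2.subU.trans hU2U)
      · intro v hv
        rw [Finset.mem_union] at hv
        rcases hv with hv | hv
        · rw [hf1 v (g1.subU hv)]; exact g1.col v hv
        · rw [hf2 v (g2.subU hv)]; exact g2.col v hv
      · intro x hx y hy hxy hyR
        rw [Finset.mem_union] at hx hyR
        push Not at hyR
        have hyX : y ∉ X := fun h => hyR.1 (hX1 h)
        by_cases hyD : y ∈ D
        · have hyU1 : y ∈ U1 := Finset.mem_union_left _ hyD
          rw [hf1 y hyU1]
          have hx1 : x ∈ R1 := by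
            rcases hx with hx | hx
            · exact hx
            · have h1 := g2.subU hx
              rw [hU2, Finset.mem_union] at h1
              rcases h1 with h1 | h1
              · exfalso
                have h2 := hDcl y hyD x (hYm x (hD'U h1) (hD'X x h1).1) hxy.symm
                exact (hD'X x h1).2 h2
              · exact hX1 h1
          exact g1.nbr x hx1 y hyU1 hxy hyR.1
        · have hyD' : y ∈ D' := Finset.mem_sdiff.2 ⟨hYm y hy hyX, hyD⟩
          have hyU2 : y ∈ U2 := Finset.mem_union_left _ hyD'
          rw [hf2 y hyU2]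
          have hx2 : x ∈ R2 := by
            rcases hx with hx | hx
            · have h1 := g1.subU hx
              rw [hU1, Finset.mem_union] at h1
              rcases h1 with h1 | h1
              · exfalso
                exact hyD (hDcl x h1 y (hYm y hy hyX) hxy)
              · exact hX2 h1
            · exact hx
          exact g2.nbr x hx2 y hyU2 hxy hyR.2
      · have h1 : (R1 ∪ R2).card + X.card ≤ R1.card + R2.card := by
          have h0 := Finset.card_union_add_card_inter R1 R2
          have : X.card ≤ (R1 ∩ R2).card := Finset.card_le_card (Finset.subset_inter hX1 hX2)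
          omega
        have c1 := g1.card
        have c2 := g2.card
        unfold rho at c1 c2 ⊢
        split_ifs at c1 c2 ⊢ <;> omega
      · intro C hC hCU hmono
        by_cases hmeet : ∃ x ∈ C, x ∈ R1 ∪ R2
        · obtain ⟨x, hx, hxR⟩ := hmeet
          have hRcol : ∀ v ∈ R1 ∪ R2, f v = b := by
            intro v hv
            rw [Finset.mem_union] at hv
            rcases hv with hv | hv
            · rw [hf1 v (g1.subU hv)]; exact g1.col v hv
            · rw [hf2 v (g2.subU hv)]; exact g2.col v hv
          have hsub : C ⊆ ((R1 ∪ R2 : Finset V) : Set V) := by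
            intro y hy
            by_contra hyS
            obtain ⟨p, q, hp, hpS, hq, hqS, hpq⟩ :=
              leave hC hx (show x ∈ ((R1 ∪ R2 : Finset V) : Set V) from hxR) hy hyS
            have h2 := hmono p hp q hq
            rw [hRcol p hpS] at h2
            have h3 : f q = !b := by
              -- same argument as above
              have hqR : q ∉ R1 ∧ q ∉ R2 := by
                constructor
                · intro h; exact hqS (Finset.mem_coe.2 (Finset.mem_union_left _ h))
                · intro h; exact hqS (Finset.mem_coe.2 (Finset.mem_union_right _ h))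
              have hqU : q ∈ U := hCU hq
              have hqX : q ∉ X := fun h => hqR.1 (hX1 h)
              have hpS' : p ∈ R1 ∨ p ∈ R2 := Finset.mem_union.1 (Finset.mem_coe.1 hpS)
              by_cases hqD : q ∈ D
              · have hqU1 : q ∈ U1 := Finset.mem_union_left _ hqD
                rw [hf1 q hqU1]
                have hx1 : p ∈ R1 := by
                  rcases hpS' with hx | hx
                  · exact hx
                  · have h1 := g2.subU hx
                    rw [hU2, Finset.mem_union] at h1
                    rcases h1 with h1 | h1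
                    · exfalso
                      have h2 := hDcl q hqD p (hYm p (hD'U h1) (hD'X p h1).1) hpq.symm
                      exact (hD'X p h1).2 h2
                    · exact hX1 h1
                exact g1.nbr p hx1 q hqU1 hpq hqR.1
              · have hqD' : q ∈ D' := Finset.mem_sdiff.2 ⟨hYm q hqU hqX, hqD⟩
                have hqU2 : q ∈ U2 := Finset.mem_union_left _ hqD'
                rw [hf2 q hqU2]
                have hx2 : p ∈ R2 := by
                  rcases hpS' with hx | hx
                  · have h1 := g1.subU hx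
                    rw [hU1, Finset.mem_union] at h1
                    rcases h1 with h1 | h1
                    · exfalso
                      exact hqD (hDcl p h1 q (hYm q hqU hqX) hpq)
                    · exact hX2 h1
                  · exact hx
                exact g2.nbr p hx2 q hqU2 hpq hqR.2
            rw [h3] at h2
            cases b <;> simp at h2
          have h3 : C.ncard ≤ (R1 ∪ R2).card := by
            rw [← Set.ncard_coe_finset]
            exact Set.ncard_le_ncard hsub (Finset.finite_toSet _)
          have h1 : (R1 ∪ R2).card + X.card ≤ R1.card + R2.card := by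
            have h0 := Finset.card_union_add_card_inter R1 R2
            have : X.card ≤ (R1 ∩ R2).card := Finset.card_le_card (Finset.subset_inter hX1 hX2)
            omega
          have c1 := g1.card
          have c2 := g2.card
          unfold rho at c1 c2
          split_ifs at c1 c2 <;> omega
        · push Not at hmeet
          have hCX : ∀ v ∈ C, v ∉ X := fun v hv h => hmeet v hv (Finset.mem_union_left _ (hX1 h))
          obtain ⟨x0, hx0⟩ := hC.1
          by_cases hxD : x0 ∈ D
          · have hsub : C ⊆ (D : Set V) := by
              intro y hy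
              by_contra hyS
              obtain ⟨p, q, hp, hpS, hq, hqS, hpq⟩ := leave hC hx0 (show x0 ∈ (D : Set V) from hxD) hy hyS
              exact hqS (hDcl p hpS q (hYm q (hCU hq) (hCX q hq)) hpq)
            refine g1.clus C hC (fun v hv => Finset.mem_union_left _ (hsub hv)) ?_
            intro x hx y hy
            have h2 := hmono x hx y hy
            rwa [hf1 x (Finset.mem_union_left _ (hsub hx)), hf1 y (Finset.mem_union_left _ (hsub hy))] at h2
          · have hx0D' : x0 ∈ D' := Finset.mem_sdiff.2 ⟨hYm x0 (hCU hx0) (hCX x0 hx0), hxD⟩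
            have hsub : C ⊆ (D' : Set V) := by
              intro y hy
              by_contra hyS
              obtain ⟨p, q, hp, hpS, hq, hqS, hpq⟩ := leave hC hx0 (show x0 ∈ (D' : Set V) from hx0D') hy hyS
              exact hqS (hD'cl p hpS q (hYm q (hCU hq) (hCX q hq)) hpq)
            refine g2.clus C hC (fun v hv => Finset.mem_union_left _ (hsub hv)) ?_
            intro x hx y hy
            have h2 := hmono x hx y hy
            rwa [hf2 x (Finset.mem_union_left _ (hsub hx)), hf2 y (Finset.mem_union_left _ (hsub hy))] at h2

/-- **Two colours**: bounded degree and bounded balanced separators. -/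
theorem two_col [Fintype V] {J : SimpleGraph V} {k Δ : ℕ} (hk : 1 ≤ k) (hΔ : 1 ≤ Δ)
    (hdeg : ∀ v, (nb J v).card ≤ Δ) (hbal : Bal J k) :
    ∃ f : V → Bool, ∀ C, Cn J C → (∀ x ∈ C, ∀ y ∈ C, f x = f y) → C.ncard ≤ 24 * k * Δ := by
  obtain ⟨f, R, g⟩ := goodC_exists hk hΔ hdeg hbal (Fintype.card V) 0 univ (by simp) ∅
    (Finset.empty_subset _) (by simp) (by simp) true
  refine ⟨f, fun C hC hm => ?_⟩
  have := g.clus C hC (by simp) hm
  have h2 : 2 * (12 * k * Δ) = 24 * k * Δ := by ring
  omega

end Pool.Agent.Lib.MP_4332cb_co
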