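import Pool.Agent.Lib.MP_4332cb_co.Key
import Pool.Agent.Lib.MP_4332cb_co.TwoCol

/-!
Breadth first layerings: the quotient onto a layer, and balanced separators for three consecutive
layers.
-/

namespace Pool.Agent.Lib.MP_4332cb_co

open Finset

universe u

/-- a breadth-first layering -/
structure Layering {V : Type*} (G : SimpleGraph V) where
  lv : V → ℕ
  par : V → V
  root : V
  adj_le : ∀ u v, G.Adj u v → lv u ≤ lv v + 1
  root_lv : lv root = 0
  root_uniq : ∀ v, lv v = 0 → v = root
  par_adj : ∀ v, lv v ≠ 0 → G.Adj v (par v)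
  par_lv : ∀ v, lv v ≠ 0 → lv (par v) + 1 = lv v

lemma exists_layering {V : Type*} {G : SimpleGraph V} (hG : G.Connected) : Nonempty (Layering G) := by
  classical
  obtain ⟨ρ⟩ := hG.nonempty
  have hpar : ∀ v, ∃ u, G.dist ρ v ≠ 0 → G.Adj v u ∧ G.dist ρ u + 1 = G.dist ρ v := by
    intro v
    by_cases h : G.dist ρ v = 0
    · exact ⟨v, fun h' => absurd h h'⟩
    · obtain ⟨p, hp⟩ := hG.exists_walk_length_eq_dist ρ v
      -- reverse walk from v
      have hq : p.reverse.length = G.dist ρ v := by rw [SimpleGraph.Walk.length_reverse, hp]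
      generalize p.reverse = q at hq
      cases q with
      | nil => exact absurd hq.symm h
      | @cons _ u _ hvu q' =>
        refine ⟨u, fun _ => ⟨hvu, ?_⟩⟩
        rw [SimpleGraph.Walk.length_cons] at hq
        have h1 : G.dist ρ u ≤ q'.length := by
          rw [SimpleGraph.dist_comm]; exact SimpleGraph.dist_le q'
        have h2 : G.dist ρ v ≤ G.dist ρ u + 1 := by
          have := hG.dist_triangle (u := ρ) (v := u) (w := v)
          have h3 : G.dist u v = 1 := SimpleGraph.dist_eq_one_iff_adj.2 hvu.symm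
          omega
        omega
  choose par hpar using hpar
  refine ⟨⟨G.dist ρ, par, ρ, ?_, ?_, ?_, ?_, ?_⟩⟩
  · intro u v huv
    have := hG.dist_triangle (u := ρ) (v := v) (w := u)
    have h3 : G.dist v u = 1 := SimpleGraph.dist_eq_one_iff_adj.2 huv.symm
    omega
  · exact SimpleGraph.dist_self
  · intro v hv
    exact ((hG.dist_eq_zero_iff).1 hv).symm
  · intro v hv; exact (hpar v hv).1
  · intro v hv; exact (hpar v hv).2

section

variable {V : Type u} {G : SimpleGraph V} (L : Layering G)

/-- ancestor in layer `a` (the vertex itself if it is at most in layer `a`) -/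
def Layering.anc (a : ℕ) (v : V) : V := L.par^[L.lv v - a] v

lemma Layering.anc_of_le {a : ℕ} {v : V} (h : L.lv v ≤ a) : L.anc a v = v := by
  unfold Layering.anc
  rw [Nat.sub_eq_zero_of_le h]; rfl

lemma Layering.anc_par {a : ℕ} {v : V} (h : a < L.lv v) : L.anc a (L.par v) = L.anc a v := by
  unfold Layering.anc
  have h1 := L.par_lv v (by omega)
  have h2 : L.lv v - a = (L.lv (L.par v) - a) + 1 := by omega
  rw [h2, Function.iterate_succ_apply]

lemma Layering.lv_anc {a : ℕ} : ∀ (n : ℕ) (v : V), L.lv v = a + n → L.lv (L.anc a v) = a := by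
  intro n
  induction n with
  | zero => intro v hv; rw [L.anc_of_le (by omega)]; omega
  | succ n ih =>
    intro v hv
    rw [← L.anc_par (by omega)]
    apply ih
    have := L.par_lv v (by omega)
    omega

lemma Layering.lv_anc' {a : ℕ} {v : V} (h : a ≤ L.lv v) : L.lv (L.anc a v) = a :=
  L.lv_anc (L.lv v - a) v (by omega)

lemma Layering.lv_anc_le (a : ℕ) (v : V) : L.lv (L.anc a v) ≤ a := by
  by_cases h : L.lv v ≤ a
  · rw [L.anc_of_le h]; exact h
  · rw [L.lv_anc' (by omega)]

/-- the fibre over `u`, up to three layers -/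
def Layering.fib (a : ℕ) (u : V) : Set V := {x | L.lv x ≤ a + 3 ∧ L.anc a x = u}

lemma Layering.fib_center {a : ℕ} {u : V} (hu : L.lv u ≤ a) : u ∈ L.fib a u :=
  ⟨by omega, L.anc_of_le hu⟩

lemma Layering.fib_RI {a : ℕ} {u : V} : ∀ (n : ℕ) (x : V), L.lv x - a = n →
    x ∈ L.fib a u → RI G (L.fib a u) x u := by
  intro n
  induction n with
  | zero =>
    intro x hx hxf
    have h1 : L.anc a x = x := L.anc_of_le (by omega)
    have h2 : x = u := by rw [← h1]; exact hxf.2
    rw [h2]; exact RI.refl _
  | succ n ih =>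
    intro x hx hxf
    have h1 := L.par_lv x (by omega)
    have h2 : L.par x ∈ L.fib a u := ⟨by have := hxf.1; omega, by rw [L.anc_par (by omega)]; exact hxf.2⟩
    exact (RI.single (L.par_adj x (by omega)) hxf h2).trans (ih (L.par x) (by omega) h2)

lemma Layering.fib_Cn {a : ℕ} {u : V} (hu : L.lv u ≤ a) : Cn G (L.fib a u) :=
  Cn_of_center (L.fib_center hu) (fun y hy => (L.fib_RI _ y rfl hy).symm)

/-- the quotient graph on the layers `≤ a` -/
def Layering.quo (a : ℕ) : SimpleGraph {v : V // L.lv v ≤ a} where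
  Adj u v := u ≠ v ∧ ∃ x ∈ L.fib a u.1, ∃ y ∈ L.fib a v.1, G.Adj x y
  symm := ⟨by
    rintro u v ⟨h, x, hx, y, hy, hxy⟩
    exact ⟨h.symm, y, hy, x, hx, hxy.symm⟩⟩
  loopless := ⟨by rintro u ⟨h, _⟩; exact h rfl⟩

lemma Layering.Mn_quo (a : ℕ) : Mn (L.quo a) G := by
  refine ⟨fun u => L.fib a u.1, fun u => L.fib_Cn u.2, ?_, ?_⟩
  · intro u v h
    rw [Set.disjoint_left]
    intro x hx hx'
    exact h (Subtype.ext (hx.2.symm.trans hx'.2))
  · intro u v h; exact h.2

variable [Fintype V]

/-- size bound for the fibres -/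
def s3 (Δ : ℕ) : ℕ := 1 + Δ + Δ ^ 2 + Δ ^ 3

open Classical in
lemma Layering.fib_layer_card {Δ : ℕ} (hdeg : ∀ v, (nb G v).card ≤ Δ) (a : ℕ) (u : V) :
    ∀ i : ℕ, (univ.filter (fun x => L.lv x = a + i ∧ L.anc a x = u)).card ≤ Δ ^ i := by
  intro i
  induction i with
  | zero =>
    rw [pow_zero]
    apply Finset.card_le_one.2
    intro x hx y hy
    rw [Finset.mem_filter] at hx hy
    rw [← L.anc_of_le (a := a) (v := x) (by omega), ← L.anc_of_le (a := a) (v := y) (by omega),
      hx.2.2, hy.2.2]
  | succ i ih =>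
    have hsub : univ.filter (fun x => L.lv x = a + (i + 1) ∧ L.anc a x = u) ⊆
        (univ.filter (fun x => L.lv x = a + i ∧ L.anc a x = u)).biUnion (fun x => nb G x) := by
      intro x hx
      rw [Finset.mem_filter] at hx
      rw [Finset.mem_biUnion]
      refine ⟨L.par x, ?_, mem_nb.2 (L.par_adj x (by omega)).symm⟩
      rw [Finset.mem_filter]
      have h1 := L.par_lv x (by omega)
      refine ⟨mem_univ _, by omega, ?_⟩
      rw [L.anc_par (by omega)]; exact hx.2.2
    calc _ ≤ _ := Finset.card_le_card hsub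
      _ ≤ (univ.filter (fun x => L.lv x = a + i ∧ L.anc a x = u)).card * Δ :=
          Finset.card_biUnion_le_card_mul _ _ _ (fun x _ => hdeg x)
      _ ≤ Δ ^ i * Δ := Nat.mul_le_mul_right _ ih
      _ = Δ ^ (i + 1) := by rw [pow_succ]

open Classical in
lemma Layering.fib_card {Δ : ℕ} (hdeg : ∀ v, (nb G v).card ≤ Δ) (a : ℕ) (u : V) :
    (univ.filter (fun x => x ∈ L.fib a u)).card ≤ s3 Δ := by
  by_cases h : L.lv u = a
  · have hsub : univ.filter (fun x => x ∈ L.fib a u) ⊆
        (((univ.filter (fun x => L.lv x = a + 0 ∧ L.anc a x = u)) ∪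
        (univ.filter (fun x => L.lv x = a + 1 ∧ L.anc a x = u))) ∪
        (univ.filter (fun x => L.lv x = a + 2 ∧ L.anc a x = u))) ∪
        (univ.filter (fun x => L.lv x = a + 3 ∧ L.anc a x = u)) := by
      intro x hx
      rw [Finset.mem_filter] at hx
      have h1 := hx.2.1
      have h2 := hx.2.2
      have h3 : a ≤ L.lv x := by
        by_contra hcon
        have h4 := L.anc_of_le (a := a) (v := x) (by omega)
        have h5 : x = u := by rw [← h4]; exact h2
        rw [h5] at hcon
        omega
      simp only [Finset.mem_union, Finset.mem_filter, mem_univ, true_and]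
      have h4 : L.lv x = a + 0 ∨ L.lv x = a + 1 ∨ L.lv x = a + 2 ∨ L.lv x = a + 3 := by omega
      rcases h4 with h4 | h4 | h4 | h4
      · exact Or.inl (Or.inl (Or.inl ⟨h4, h2⟩))
      · exact Or.inl (Or.inl (Or.inr ⟨h4, h2⟩))
      · exact Or.inl (Or.inr ⟨h4, h2⟩)
      · exact Or.inr ⟨h4, h2⟩
    have c0 := L.fib_layer_card hdeg a u 0
    have c1 := L.fib_layer_card hdeg a u 1
    have c2 := L.fib_layer_card hdeg a u 2
    have c3 := L.fib_layer_card hdeg a u 3
    have h1 := Finset.card_le_card hsub
    have h2 := Finset.card_union_le (((univ.filter (fun x => L.lv x = a + 0 ∧ L.anc a x = u)) ∪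
        (univ.filter (fun x => L.lv x = a + 1 ∧ L.anc a x = u))) ∪
        (univ.filter (fun x => L.lv x = a + 2 ∧ L.anc a x = u)))
        (univ.filter (fun x => L.lv x = a + 3 ∧ L.anc a x = u))
    have h3 := Finset.card_union_le ((univ.filter (fun x => L.lv x = a + 0 ∧ L.anc a x = u)) ∪
        (univ.filter (fun x => L.lv x = a + 1 ∧ L.anc a x = u)))
        (univ.filter (fun x => L.lv x = a + 2 ∧ L.anc a x = u))
    have h4 := Finset.card_union_le (univ.filter (fun x => L.lv x = a + 0 ∧ L.anc a x = u))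
        (univ.filter (fun x => L.lv x = a + 1 ∧ L.anc a x = u))
    rw [pow_zero] at c0
    rw [pow_one] at c1
    unfold s3
    omega
  · have hsub : univ.filter (fun x => x ∈ L.fib a u) ⊆ {u} := by
      intro x hx
      rw [Finset.mem_filter] at hx
      rw [Finset.mem_singleton]
      have h2 := hx.2.2
      by_cases h3 : L.lv x ≤ a
      · rw [L.anc_of_le h3] at h2; exact h2
      · exfalso
        have h4 := L.lv_anc' (a := a) (v := x) (by omega)
        rw [h2] at h4
        exact h h4
    have h1 := Finset.card_le_card hsub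
    rw [Finset.card_singleton] at h1
    unfold s3
    omega

lemma Layering.quo_deg {Δ : ℕ} (hdeg : ∀ v, (nb G v).card ≤ Δ) (a : ℕ) [Fintype {v : V // L.lv v ≤ a}] :
    ∀ u, (nb (L.quo a) u).card ≤ s3 Δ * Δ := by
  classical
  intro u
  have hinj : (nb (L.quo a) u).card ≤
      (((univ.filter (fun x => x ∈ L.fib a u.1)).biUnion (fun x => nb G x)).image (fun y => L.anc a y)).card := by
    refine Finset.card_le_card_of_injOn (fun v => v.1) ?_ ?_
    · intro v hv
      rw [Finset.mem_coe, mem_nb] at hv
      obtain ⟨_, x, hx, y, hy, hxy⟩ := hv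
      rw [Finset.mem_coe, Finset.mem_image]
      refine ⟨y, ?_, hy.2⟩
      rw [Finset.mem_biUnion]
      exact ⟨x, by rw [Finset.mem_filter]; exact ⟨mem_univ _, hx⟩, mem_nb.2 hxy⟩
    · intro v _ v' _ h
      exact Subtype.ext h
  calc _ ≤ _ := hinj
    _ ≤ ((univ.filter (fun x => x ∈ L.fib a u.1)).biUnion (fun x => nb G x)).card := Finset.card_image_le
    _ ≤ (univ.filter (fun x => x ∈ L.fib a u.1)).card * Δ :=
        Finset.card_biUnion_le_card_mul _ _ _ (fun x _ => hdeg x)
    _ ≤ s3 Δ * Δ := Nat.mul_le_mul_right _ (L.fib_card hdeg a u.1)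

/-- three consecutive layers around layer `j` -/
def Layering.chunk (j : ℕ) : Set V := {v | j ≤ L.lv v + 1 ∧ L.lv v ≤ j + 1}

/-- bound on the separators of a chunk -/
noncomputable def K3 (t Δ : ℕ) : ℕ := KK t (s3 Δ * Δ) * s3 Δ + s3 Δ

open Classical in
theorem Layering.chunk_bal {t Δ : ℕ} (ht : 1 ≤ t) (hΔ : 1 ≤ Δ) (hdeg : ∀ v, (nb G v).card ≤ Δ)
    (hKM : ¬ KM G t) (j : ℕ) (S : Finset V) :
    ∃ X : Finset V, X.card ≤ K3 t Δ ∧ ∀ C, Cn G C → C ⊆ L.chunk j → Disjoint C (X : Set V) →
      2 * (S.filter (fun v => v ∈ C)).card ≤ S.card := by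
  by_cases hj : j ≤ 2
  · refine ⟨univ.filter (fun x => x ∈ L.fib 0 L.root), ?_, ?_⟩
    · have := L.fib_card hdeg 0 L.root
      unfold K3; omega
    · intro C hC hCj hd
      exfalso
      obtain ⟨x, hx⟩ := hC.1
      apply Set.disjoint_left.1 hd hx
      rw [Finset.mem_coe, Finset.mem_filter]
      have h1 := (hCj hx).2
      refine ⟨mem_univ _, by omega, ?_⟩
      apply L.root_uniq
      have := L.lv_anc_le 0 x
      omega
  · push Not at hj
    obtain ⟨a, rfl⟩ : ∃ a, j = a + 2 := ⟨j - 2, by omega⟩
    have ha : 1 ≤ a := by omega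
    set B : Set {v : V // L.lv v ≤ a} := {v | L.lv v.1 < a} with hB
    have hs3 : 1 ≤ s3 Δ * Δ := by
      have : 1 ≤ s3 Δ := by unfold s3; omega
      exact Nat.mul_pos this hΔ
    have hrootB : (⟨L.root, by rw [L.root_lv]; omega⟩ : {v : V // L.lv v ≤ a}) ∈ B := by
      show L.lv L.root < a
      rw [L.root_lv]; omega
    have hquo_adj : ∀ u v : {v : V // L.lv v ≤ a}, G.Adj u.1 v.1 → (L.quo a).Adj u v := by
      intro u v h
      refine ⟨fun e => h.ne (congrArg Subtype.val e), u.1, L.fib_center u.2, v.1, L.fib_center v.2, h⟩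
    have hBC : Cn (L.quo a) B := by
      refine Cn_of_center hrootB ?_
      have hgen : ∀ n : ℕ, ∀ v : {v : V // L.lv v ≤ a}, L.lv v.1 = n → v ∈ B →
          RI (L.quo a) B v ⟨L.root, by rw [L.root_lv]; omega⟩ := by
        intro n
        induction n with
        | zero =>
          intro v hv _
          have : v = ⟨L.root, by rw [L.root_lv]; omega⟩ := Subtype.ext (L.root_uniq v.1 hv)
          rw [this]; exact RI.refl _
        | succ n ih =>
          intro v hv hvB
          have h1 := L.par_lv v.1 (by omega)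
          have hvB' : L.lv v.1 < a := hvB
          set p : {v : V // L.lv v ≤ a} := ⟨L.par v.1, by omega⟩ with hp
          have hpB : p ∈ B := by show L.lv (L.par v.1) < a; omega
          refine (RI.single (hquo_adj v p (L.par_adj v.1 (by omega))) hvB hpB).trans
            (ih p (by show L.lv (L.par v.1) = n; omega) hpB)
      intro v hv
      exact (hgen _ v rfl hv).symm
    have hB2 : ∀ v, v ∉ B → ∃ b ∈ B, (L.quo a).Adj v b := by
      intro v hv
      have hv' : ¬ L.lv v.1 < a := hv
      have hva := v.2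
      have h1 := L.par_lv v.1 (by omega)
      refine ⟨⟨L.par v.1, by omega⟩, by show L.lv (L.par v.1) < a; omega, ?_⟩
      exact hquo_adj _ _ (L.par_adj v.1 (by omega))
    have hKM' : ¬ KM (L.quo a) t := fun h => hKM (h.of_Mn (L.Mn_quo a))
    set w : {v : V // L.lv v ≤ a} → ℕ := fun b =>
      (S.filter (fun s => s ∈ L.chunk (a + 2) ∧ L.anc a s = b.1)).card with hw
    obtain ⟨X, hX, hXb⟩ := key ht hs3 hBC (L.quo_deg hdeg a) hB2 hKM' w
    set X' : Finset V := X.biUnion (fun b => univ.filter (fun x => x ∈ L.fib a b.1)) with hX'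
    refine ⟨X', ?_, ?_⟩
    · have h1 : X'.card ≤ X.card * s3 Δ :=
        Finset.card_biUnion_le_card_mul _ _ _ (fun b _ => L.fib_card hdeg a b.1)
      have h2 : X.card * s3 Δ ≤ KK t (s3 Δ * Δ) * s3 Δ := Nat.mul_le_mul_right _ hX
      unfold K3; omega
    · intro C hC hCj hd
      -- the image of `C`
      have hCle : ∀ x ∈ C, a < L.lv x ∧ L.lv x ≤ a + 3 := by
        intro x hx
        have := hCj hx
        unfold Layering.chunk at this
        have h1 := this.1
        have h2 := this.2
        omega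
      have hCfib : ∀ x ∈ C, x ∈ L.fib a (L.anc a x) := fun x hx => ⟨(hCle x hx).2, rfl⟩
      set C' : Set {v : V // L.lv v ≤ a} := {b | ∃ x ∈ C, L.anc a x = b.1} with hC'
      let im : V → {v : V // L.lv v ≤ a} := fun x => ⟨L.anc a x, L.lv_anc_le a x⟩
      have him : ∀ x ∈ C, im x ∈ C' := fun x hx => ⟨x, hx, rfl⟩
      have hC'C : Cn (L.quo a) C' := by
        obtain ⟨x0, hx0⟩ := hC.1
        refine Cn_of_center (him x0 hx0) ?_
        have hgen : ∀ x, RI G C x0 x → RI (L.quo a) C' (im x0) (im x) := by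
          intro x h1
          induction h1 with
          | refl => exact RI.refl _
          | @tail y z h2 h3 ih =>
            by_cases e : im y = im z
            · rw [← e]; exact ih
            · refine ih.trans (RI.single ⟨e, y, hCfib y h3.2.1, z, hCfib z h3.2.2, h3.1⟩
                (him y h3.2.1) (him z h3.2.2))
        rintro b ⟨x, hx, hxb⟩
        have hb : b = im x := Subtype.ext hxb.symm
        rw [hb]
        exact hgen x (hC.2 x0 hx0 x hx)
      have hC'B : C' ⊆ Bᶜ := by
        rintro b ⟨x, hx, hxb⟩ hbB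
        have h1 := L.lv_anc' (a := a) (v := x) (by have := hCle x hx; omega)
        have h2 : L.lv b.1 < a := hbB
        rw [← hxb] at h2
        omega
      have hC'X : Disjoint C' (X : Set {v : V // L.lv v ≤ a}) := by
        rw [Set.disjoint_left]
        rintro b ⟨x, hx, hxb⟩ hbX
        apply Set.disjoint_left.1 hd hx
        rw [Finset.mem_coe, hX', Finset.mem_biUnion]
        refine ⟨b, hbX, ?_⟩
        rw [Finset.mem_filter]
        refine ⟨mem_univ _, ?_⟩
        rw [← hxb]; exact hCfib x hx
      have h1 := hXb C' hC'C hC'B hC'X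
      have h2 : (S.filter (fun v => v ∈ C)).card ≤ Wt w C' := by
        have hsub : S.filter (fun v => v ∈ C) ⊆ (univ.filter (fun b => b ∈ C')).biUnion
            (fun b => S.filter (fun s => s ∈ L.chunk (a + 2) ∧ L.anc a s = b.1)) := by
          intro v hv
          rw [Finset.mem_filter] at hv
          rw [Finset.mem_biUnion]
          refine ⟨im v, ?_, ?_⟩
          · rw [Finset.mem_filter]; exact ⟨mem_univ _, him v hv.2⟩
          · rw [Finset.mem_filter]; exact ⟨hv.1, hCj hv.2, rfl⟩
        have h3 := (Finset.card_le_card hsub).trans Finset.card_biUnion_le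
        refine h3.trans ?_
        unfold Wt
        rw [Finset.sum_filter]
        exact Finset.sum_le_sum (fun b _ => by split_ifs <;> exact le_refl _)
      have h3 : Wt w Bᶜ ≤ S.card := by
        have h4 : Wt w Bᶜ ≤ ∑ b : {v : V // L.lv v ≤ a}, w b := by
          unfold Wt
          apply Finset.sum_le_sum
          intro b _
          split_ifs <;> omega
        refine h4.trans ?_
        have h5 : ∑ b : {v : V // L.lv v ≤ a}, w b =
            ((univ : Finset {v : V // L.lv v ≤ a}).biUnion
              (fun b => S.filter (fun s => s ∈ L.chunk (a + 2) ∧ L.anc a s = b.1))).card := by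
          rw [Finset.card_biUnion]
          intro b _ b' _ hbb
          show Disjoint _ _
          rw [Finset.disjoint_left]
          intro s hs hs'
          rw [Finset.mem_filter] at hs hs'
          exact hbb (Subtype.ext (hs.2.2.symm.trans hs'.2.2))
        rw [h5]
        apply Finset.card_le_card
        intro s hs
        rw [Finset.mem_biUnion] at hs
        obtain ⟨b, _, hb⟩ := hs
        exact (Finset.mem_filter.1 hb).1
      omega

end

end Pool.Agent.Lib.MP_4332cb_co
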