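import Pool.Agent.Lib.MP_4332cb_co.G7

/-!
Breadth first layerings: balanced separators for any bounded number of consecutive layers, and the
partition theorem for graphs of girth at least seven without a large complete minor.
-/

namespace Pool.Agent.Lib.MP_4332cb_co

open Finset

universe u

section

variable {V : Type u} {G : SimpleGraph V} (L : Layering G)

/-- the fibre over `u`, up to `b` layers -/
def Layering.fibN (b a : ℕ) (u : V) : Set V := {x | L.lv x ≤ a + b ∧ L.anc a x = u}

lemma Layering.fibN_center {b a : ℕ} {u : V} (hu : L.lv u ≤ a) : u ∈ L.fibN b a u :=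
  ⟨by omega, L.anc_of_le hu⟩

lemma Layering.fibN_RI {b a : ℕ} {u : V} : ∀ (n : ℕ) (x : V), L.lv x - a = n →
    x ∈ L.fibN b a u → RI G (L.fibN b a u) x u := by
  intro n
  induction n with
  | zero =>
    intro x hx hxf
    have h1 : L.anc a x = x := L.anc_of_le (by omega)
    have h2 : x = u := by rw [← h1]; exact hxf.2
    rw [h2]; exact RI.refl _
  | succ n ih =>
    intro x hx hxf
    have h1 := L.par_lv x (by omega)
    have h2 : L.par x ∈ L.fibN b a u :=
      ⟨by have := hxf.1; omega, by rw [L.anc_par (by omega)]; exact hxf.2⟩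
    exact (RI.single (L.par_adj x (by omega)) hxf h2).trans (ih (L.par x) (by omega) h2)

lemma Layering.fibN_Cn {b a : ℕ} {u : V} (hu : L.lv u ≤ a) : Cn G (L.fibN b a u) :=
  Cn_of_center (L.fibN_center hu) (fun y hy => (L.fibN_RI _ y rfl hy).symm)

/-- the quotient graph on the layers `≤ a` -/
def Layering.quoN (b a : ℕ) : SimpleGraph {v : V // L.lv v ≤ a} where
  Adj u v := u ≠ v ∧ ∃ x ∈ L.fibN b a u.1, ∃ y ∈ L.fibN b a v.1, G.Adj x y
  symm := ⟨by
    rintro u v ⟨h, x, hx, y, hy, hxy⟩
    exact ⟨h.symm, y, hy, x, hx, hxy.symm⟩⟩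
  loopless := ⟨by rintro u ⟨h, _⟩; exact h rfl⟩

lemma Layering.Mn_quoN (b a : ℕ) : Mn (L.quoN b a) G := by
  refine ⟨fun u => L.fibN b a u.1, fun u => L.fibN_Cn u.2, ?_, ?_⟩
  · intro u v h
    rw [Set.disjoint_left]
    intro x hx hx'
    exact h (Subtype.ext (hx.2.symm.trans hx'.2))
  · intro u v h; exact h.2

variable [Fintype V]

/-- size bound for the fibres -/
def sN (b Δ : ℕ) : ℕ := ∑ i ∈ range (b + 1), Δ ^ i

lemma one_le_sN (b Δ : ℕ) : 1 ≤ sN b Δ := by
  unfold sN
  have h := Finset.single_le_sum (f := fun i => Δ ^ i) (s := range (b + 1))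
    (fun i _ => Nat.zero_le _) (Finset.mem_range.2 (Nat.succ_pos b))
  simpa using h

open Classical in
lemma Layering.fibN_card {Δ : ℕ} (hdeg : ∀ v, (nb G v).card ≤ Δ) (b a : ℕ) (u : V) :
    (univ.filter (fun x => x ∈ L.fibN b a u)).card ≤ sN b Δ := by
  by_cases h : L.lv u = a
  · have hsub : univ.filter (fun x => x ∈ L.fibN b a u) ⊆
        (range (b + 1)).biUnion (fun i => univ.filter (fun x => L.lv x = a + i ∧ L.anc a x = u)) := by
      intro x hx
      rw [Finset.mem_filter] at hx
      have h1 : L.lv x ≤ a + b := hx.2.1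
      have h2 : L.anc a x = u := hx.2.2
      have h3 : a ≤ L.lv x := by
        by_contra hcon
        have h4 := L.anc_of_le (a := a) (v := x) (by omega)
        have h5 : x = u := by rw [← h4]; exact h2
        rw [h5] at hcon
        omega
      rw [Finset.mem_biUnion]
      refine ⟨L.lv x - a, Finset.mem_range.2 (by omega), ?_⟩
      rw [Finset.mem_filter]
      exact ⟨mem_univ _, by omega, h2⟩
    refine (Finset.card_le_card hsub).trans (Finset.card_biUnion_le.trans ?_)
    unfold sN
    refine Finset.sum_le_sum (fun i _ => ?_)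
    convert L.fib_layer_card hdeg a u i
  · have hsub : univ.filter (fun x => x ∈ L.fibN b a u) ⊆ {u} := by
      intro x hx
      rw [Finset.mem_filter] at hx
      rw [Finset.mem_singleton]
      have h2 : L.anc a x = u := hx.2.2
      by_cases h3 : L.lv x ≤ a
      · rw [L.anc_of_le h3] at h2; exact h2
      · exfalso
        have h4 := L.lv_anc' (a := a) (v := x) (by omega)
        rw [h2] at h4
        exact h h4
    have h1 := Finset.card_le_card hsub
    rw [Finset.card_singleton] at h1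
    exact h1.trans (one_le_sN b Δ)

lemma Layering.quoN_deg {Δ : ℕ} (hdeg : ∀ v, (nb G v).card ≤ Δ) (b a : ℕ)
    [Fintype {v : V // L.lv v ≤ a}] :
    ∀ u, (nb (L.quoN b a) u).card ≤ sN b Δ * Δ := by
  classical
  intro u
  have hinj : (nb (L.quoN b a) u).card ≤
      (((univ.filter (fun x => x ∈ L.fibN b a u.1)).biUnion (fun x => nb G x)).image
        (fun y => L.anc a y)).card := by
    refine Finset.card_le_card_of_injOn (fun v => v.1) ?_ ?_
    · intro v hv
      rw [Finset.mem_coe, mem_nb] at hv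
      obtain ⟨_, x, hx, y, hy, hxy⟩ := hv
      rw [Finset.mem_coe, Finset.mem_image]
      refine ⟨y, ?_, hy.2⟩
      rw [Finset.mem_biUnion]
      exact ⟨x, by rw [Finset.mem_filter]; exact ⟨mem_univ _, hx⟩, mem_nb.2 hxy⟩
    · intro v _ v' _ h
      exact Subtype.ext h
  calc _ ≤ _ := hinj
    _ ≤ ((univ.filter (fun x => x ∈ L.fibN b a u.1)).biUnion (fun x => nb G x)).card :=
        Finset.card_image_le
    _ ≤ (univ.filter (fun x => x ∈ L.fibN b a u.1)).card * Δ :=
        Finset.card_biUnion_le_card_mul _ _ _ (fun x _ => hdeg x)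
    _ ≤ sN b Δ * Δ := Nat.mul_le_mul_right _ (by convert L.fibN_card hdeg b a u.1)

/-- at most `b` layers above layer `a`, or the first layers if `a = 0` -/
def Layering.Reg (b a : ℕ) : Set V := {v | (a = 0 ∨ a < L.lv v) ∧ L.lv v ≤ a + b}

/-- bound on the separators of a region -/
noncomputable def KN (t Δ b : ℕ) : ℕ := KK t (sN b Δ * Δ) * sN b Δ + sN b Δ

open Classical in
theorem Layering.reg_bal {t Δ : ℕ} (ht : 1 ≤ t) (hΔ : 1 ≤ Δ) (hdeg : ∀ v, (nb G v).card ≤ Δ)
    (hKM : ¬ KM G t) (m a : ℕ) (S : Finset V) :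
    ∃ X : Finset V, X.card ≤ KN t Δ m ∧ ∀ C, Cn G C → C ⊆ L.Reg m a → Disjoint C (X : Set V) →
      2 * (S.filter (fun v => v ∈ C)).card ≤ S.card := by
  by_cases ha0 : a = 0
  · refine ⟨univ.filter (fun x => x ∈ L.fibN m 0 L.root), ?_, ?_⟩
    · have := L.fibN_card hdeg m 0 L.root
      unfold KN; omega
    · intro C hC hCj hd
      exfalso
      obtain ⟨x, hx⟩ := hC.1
      apply Set.disjoint_left.1 hd hx
      rw [Finset.mem_coe, Finset.mem_filter]
      have h1 := (hCj hx).2
      refine ⟨mem_univ _, by omega, ?_⟩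
      apply L.root_uniq
      have := L.lv_anc_le 0 x
      omega
  · have ha : 1 ≤ a := by omega
    set B : Set {v : V // L.lv v ≤ a} := {v | L.lv v.1 < a} with hB
    have hs3 : 1 ≤ sN m Δ * Δ := Nat.mul_pos (one_le_sN m Δ) hΔ
    have hrootB : (⟨L.root, by rw [L.root_lv]; omega⟩ : {v : V // L.lv v ≤ a}) ∈ B := by
      show L.lv L.root < a
      rw [L.root_lv]; omega
    have hquo_adj : ∀ u v : {v : V // L.lv v ≤ a}, G.Adj u.1 v.1 → (L.quoN m a).Adj u v := by
      intro u v h
      refine ⟨fun e => h.ne (congrArg Subtype.val e), u.1, L.fibN_center u.2, v.1, L.fibN_center v.2, h⟩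
    have hBC : Cn (L.quoN m a) B := by
      refine Cn_of_center hrootB ?_
      have hgen : ∀ n : ℕ, ∀ v : {v : V // L.lv v ≤ a}, L.lv v.1 = n → v ∈ B →
          RI (L.quoN m a) B v ⟨L.root, by rw [L.root_lv]; omega⟩ := by
        intro n
        induction n with
        | zero =>
          intro v hv _
          have : v = ⟨L.root, by rw [L.root_lv]; omega⟩ := Subtype.ext (L.root_uniq v.1 hv)
          rw [this]; exact RI.refl _
        | succ n ih =>
          intro v hv hvB
          have h1 := L.par_lv v.1 (by omega)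
          have hvB' : L.lv v.1 < a := hvB
          set p : {v : V // L.lv v ≤ a} := ⟨L.par v.1, by omega⟩ with hp
          have hpB : p ∈ B := by show L.lv (L.par v.1) < a; omega
          refine (RI.single (hquo_adj v p (L.par_adj v.1 (by omega))) hvB hpB).trans
            (ih p (by show L.lv (L.par v.1) = n; omega) hpB)
      intro v hv
      exact (hgen _ v rfl hv).symm
    have hB2 : ∀ v, v ∉ B → ∃ b ∈ B, (L.quoN m a).Adj v b := by
      intro v hv
      have hv' : ¬ L.lv v.1 < a := hv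
      have hva := v.2
      have h1 := L.par_lv v.1 (by omega)
      refine ⟨⟨L.par v.1, by omega⟩, by show L.lv (L.par v.1) < a; omega, ?_⟩
      exact hquo_adj _ _ (L.par_adj v.1 (by omega))
    have hKM' : ¬ KM (L.quoN m a) t := fun h => hKM (h.of_Mn (L.Mn_quoN m a))
    set w : {v : V // L.lv v ≤ a} → ℕ := fun b =>
      (S.filter (fun s => s ∈ L.Reg m a ∧ L.anc a s = b.1)).card with hw
    obtain ⟨X, hX, hXb⟩ := key ht hs3 hBC (L.quoN_deg hdeg m a) hB2 hKM' w
    set X' : Finset V := X.biUnion (fun b => univ.filter (fun x => x ∈ L.fibN m a b.1)) with hX'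
    refine ⟨X', ?_, ?_⟩
    · have h1 : X'.card ≤ X.card * sN m Δ :=
        Finset.card_biUnion_le_card_mul _ _ _ (fun b _ => L.fibN_card hdeg m a b.1)
      have h2 : X.card * sN m Δ ≤ KK t (sN m Δ * Δ) * sN m Δ := Nat.mul_le_mul_right _ hX
      unfold KN; omega
    · intro C hC hCj hd
      -- the image of `C`
      have hCle : ∀ x ∈ C, a < L.lv x ∧ L.lv x ≤ a + m := by
        intro x hx
        have h1 := (hCj hx).1
        have h2 := (hCj hx).2
        exact ⟨h1.resolve_left ha0, h2⟩
      have hCfib : ∀ x ∈ C, x ∈ L.fibN m a (L.anc a x) := fun x hx => ⟨(hCle x hx).2, rfl⟩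
      set C' : Set {v : V // L.lv v ≤ a} := {b | ∃ x ∈ C, L.anc a x = b.1} with hC'
      let im : V → {v : V // L.lv v ≤ a} := fun x => ⟨L.anc a x, L.lv_anc_le a x⟩
      have him : ∀ x ∈ C, im x ∈ C' := fun x hx => ⟨x, hx, rfl⟩
      have hC'C : Cn (L.quoN m a) C' := by
        obtain ⟨x0, hx0⟩ := hC.1
        refine Cn_of_center (him x0 hx0) ?_
        have hgen : ∀ x, RI G C x0 x → RI (L.quoN m a) C' (im x0) (im x) := by
          intro x h1
          induction h1 with
          | refl => exact RI.refl _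
          | @tail y z h2 h3 ih =>
            by_cases e : im y = im z
            · rw [← e]; exact ih
            · refine ih.trans (RI.single ⟨e, y, hCfib y h3.2.1, z, hCfib z h3.2.2, h3.1⟩
                (him y h3.2.1) (him z h3.2.2))
        rintro b ⟨x, hx, hxb⟩
        have hb : b = im x := Subtype.ext hxb.symm
        rw [hb]
        exact hgen x (hC.2 x0 hx0 x hx)
      have hC'B : C' ⊆ Bᶜ := by
        rintro b ⟨x, hx, hxb⟩ hbB
        have h1 := L.lv_anc' (a := a) (v := x) (by have := hCle x hx; omega)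
        have h2 : L.lv b.1 < a := hbB
        rw [← hxb] at h2
        omega
      have hC'X : Disjoint C' (X : Set {v : V // L.lv v ≤ a}) := by
        rw [Set.disjoint_left]
        rintro b ⟨x, hx, hxb⟩ hbX
        apply Set.disjoint_left.1 hd hx
        rw [Finset.mem_coe, hX', Finset.mem_biUnion]
        refine ⟨b, hbX, ?_⟩
        rw [Finset.mem_filter]
        refine ⟨mem_univ _, ?_⟩
        rw [← hxb]; exact hCfib x hx
      have h1 := hXb C' hC'C hC'B hC'X
      have h2 : (S.filter (fun v => v ∈ C)).card ≤ Wt w C' := by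
        have hsub : S.filter (fun v => v ∈ C) ⊆ (univ.filter (fun b => b ∈ C')).biUnion
            (fun b => S.filter (fun s => s ∈ L.Reg m a ∧ L.anc a s = b.1)) := by
          intro v hv
          rw [Finset.mem_filter] at hv
          rw [Finset.mem_biUnion]
          refine ⟨im v, ?_, ?_⟩
          · rw [Finset.mem_filter]; exact ⟨mem_univ _, him v hv.2⟩
          · rw [Finset.mem_filter]; exact ⟨hv.1, hCj hv.2, rfl⟩
        have h3 := (Finset.card_le_card hsub).trans Finset.card_biUnion_le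
        refine h3.trans ?_
        unfold Wt
        rw [Finset.sum_filter]
        exact Finset.sum_le_sum (fun b _ => by split_ifs <;> exact le_refl _)
      have h3 : Wt w Bᶜ ≤ S.card := by
        have h4 : Wt w Bᶜ ≤ ∑ b : {v : V // L.lv v ≤ a}, w b := by
          unfold Wt
          apply Finset.sum_le_sum
          intro b _
          split_ifs <;> omega
        refine h4.trans ?_
        have h5 : ∑ b : {v : V // L.lv v ≤ a}, w b =
            ((univ : Finset {v : V // L.lv v ≤ a}).biUnion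
              (fun b => S.filter (fun s => s ∈ L.Reg m a ∧ L.anc a s = b.1))).card := by
          rw [Finset.card_biUnion]
          intro b _ b' _ hbb
          show Disjoint _ _
          rw [Finset.disjoint_left]
          intro s hs hs'
          rw [Finset.mem_filter] at hs hs'
          exact hbb (Subtype.ext (hs.2.2.symm.trans hs'.2.2))
        rw [h5]
        apply Finset.card_le_card
        intro s hs
        rw [Finset.mem_biUnion] at hs
        obtain ⟨b, _, hb⟩ := hs
        exact (Finset.mem_filter.1 hb).1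
      omega

end

lemma not_dvd_shift {n j l : ℕ} (hj : j < n) (h : l % n ≠ j) : ¬ n ∣ l + (n - j) := by
  intro hd
  apply h
  have h1 : (l + (n - j)) % n = 0 := Nat.mod_eq_zero_of_dvd hd
  have h2 : l % n < n := Nat.mod_lt _ (by omega)
  have h3 : (l % n + (n - j)) % n = 0 := by rw [Nat.mod_add_mod]; exact h1
  rcases lt_or_ge (l % n + (n - j)) n with h4 | h4
  · rw [Nat.mod_eq_of_lt h4] at h3; omega
  · have h5 : (l % n + (n - j)) % n = l % n + (n - j) - n := by
      rw [Nat.mod_eq_sub_mod h4, Nat.mod_eq_of_lt (by omega)]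
    omega

lemma div_eq_of_near {n m m' : ℕ} (h1 : m ≤ m' + 1) (h2 : m' ≤ m + 1) (h3 : ¬ n ∣ m)
    (h4 : ¬ n ∣ m') : m / n = m' / n := by
  rcases Nat.lt_trichotomy m m' with h | h | h
  · have e : m' = m + 1 := by omega
    subst e
    rw [Nat.succ_div, if_neg h4]; rfl
  · rw [h]
  · have e : m = m' + 1 := by omega
    subst e
    rw [Nat.succ_div, if_neg h3]; rfl

/-- final bound -/
noncomputable def BN (t p n : ℕ) : ℕ :=
  24 * (KN t p n * (p + 1) + 1) * (p * (p + 1)) * (p + 1) + 1

theorem band_connected {t p n : ℕ} (ht : 1 ≤ t) (hp : 1 ≤ p) {V : Type u} [Fintype V]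
    {H : SimpleGraph V} (hH : H.Connected) (hdeg : ∀ v, (nb H v).card ≤ p) (hKM : ¬ KM H t)
    {W : Set V} (hW : ∀ u ∈ W, ∀ v ∈ W, ¬ H.Adj u v) :
    ∃ l : V → ℕ, ∀ j, j < n → ∃ f0 : V → Bool, ∀ f : V → Bool, (∀ v, v ∉ W → f v = f0 v) →
      ∀ C, Cn H C → (∀ x ∈ C, l x % n ≠ j) → (∀ x ∈ C, ∀ y ∈ C, f x = f y) → C.ncard ≤ BN t p n := by
  classical
  obtain ⟨L⟩ := exists_layering hH
  refine ⟨L.lv, fun j hj => ?_⟩
  set D : ℕ → Set V := fun q => {v | q * n < L.lv v + (n - j) ∧ L.lv v + (n - j) < (q + 1) * n} with hD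
  have hDR : ∀ q, D q ⊆ L.Reg n (q * n + j - n) := by
    intro q v hv
    have h1 : q * n < L.lv v + (n - j) := hv.1
    have h2 : L.lv v + (n - j) < (q + 1) * n := hv.2
    have h3 : (q + 1) * n = q * n + n := by ring
    show (q * n + j - n = 0 ∨ q * n + j - n < L.lv v) ∧ L.lv v ≤ q * n + j - n + n
    omega
  have hcol : ∀ q, ∃ g : V → Bool, ∀ C, Cn (Sup H W (D q)) C → (∀ x ∈ C, ∀ y ∈ C, g x = g y) →
      C.ncard ≤ 24 * (KN t p n * (p + 1) + 1) * (p * (p + 1)) := by
    intro q
    refine two_col (by omega) (Nat.mul_pos hp (Nat.succ_pos _)) (Sup_deg hdeg) (Sup_bal hdeg ?_)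
    intro S
    obtain ⟨X, hX, hXb⟩ := L.reg_bal ht hp hdeg hKM n (q * n + j - n) S
    refine ⟨X, hX, fun C hC hCD hd => ?_⟩
    convert hXb C hC (hCD.trans (hDR q)) hd
  choose g hg using hcol
  refine ⟨fun v => g ((L.lv v + (n - j)) / n) v, ?_⟩
  intro f hf C hC hCj hm
  obtain ⟨x0, hx0⟩ := hC.1
  set q := (L.lv x0 + (n - j)) / n with hq
  have hall : ∀ x ∈ C, (L.lv x + (n - j)) / n = q := by
    have hgen : ∀ x, RI H C x0 x → (L.lv x + (n - j)) / n = q := by
      intro x h
      induction h with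
      | refl => rfl
      | @tail y z _ h2 ih =>
        rw [← ih]
        have h3 := L.adj_le y z h2.1
        have h4 := L.adj_le z y h2.1.symm
        exact (div_eq_of_near (by omega) (by omega) (not_dvd_shift hj (hCj y h2.2.1))
          (not_dvd_shift hj (hCj z h2.2.2))).symm
    exact fun x hx => hgen x (hC.2 x0 hx0 x hx)
  have hCD : C ⊆ D q := by
    intro x hx
    have h1 := hall x hx
    have h2 := not_dvd_shift hj (hCj x hx)
    have h3 := Nat.div_add_mod (L.lv x + (n - j)) n
    have h4 : (L.lv x + (n - j)) % n ≠ 0 := fun e => h2 (Nat.dvd_of_mod_eq_zero e)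
    have h5 : (L.lv x + (n - j)) % n < n := Nat.mod_lt _ (by omega)
    rw [h1] at h3
    show q * n < L.lv x + (n - j) ∧ L.lv x + (n - j) < (q + 1) * n
    have h6 : (q + 1) * n = n * q + n := by ring
    have h7 : q * n = n * q := Nat.mul_comm _ _
    rw [h6, h7]
    omega
  refine Sup_colour (f0 := g q) (f := f) hdeg hW (hg q) ?_ hC hCD hm
  intro v hv hvW
  rw [hf v hvW]
  show g ((L.lv v + (n - j)) / n) v = g q v
  rw [hall v hv]

/-- the disconnected case -/
theorem band {t p n : ℕ} (ht : 1 ≤ t) (hp : 1 ≤ p) {V : Type u} [Fintype V]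
    {H : SimpleGraph V} (hdeg : ∀ v, (nb H v).card ≤ p) (hKM : ¬ KM H t)
    {W : Set V} (hW : ∀ u ∈ W, ∀ v ∈ W, ¬ H.Adj u v) :
    ∃ l : V → ℕ, ∀ j, j < n → ∃ f0 : V → Bool, ∀ f : V → Bool, (∀ v, v ∉ W → f v = f0 v) →
      ∀ C, Cn H C → (∀ x ∈ C, l x % n ≠ j) → (∀ x ∈ C, ∀ y ∈ C, f x = f y) → C.ncard ≤ BN t p n := by
  classical
  have hcomp : ∀ c : H.ConnectedComponent, ∃ l : c.supp → ℕ, ∀ j, j < n → ∃ f0 : c.supp → Bool,
      ∀ f : c.supp → Bool, (∀ v, v ∉ {x : c.supp | x.1 ∈ W} → f v = f0 v) →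
      ∀ C, Cn (H.induce c.supp) C → (∀ x ∈ C, l x % n ≠ j) → (∀ x ∈ C, ∀ y ∈ C, f x = f y) →
        C.ncard ≤ BN t p n := by
    intro c
    have hconn : (H.induce c.supp).Connected := c.connected_toSimpleGraph
    refine band_connected ht hp hconn ?_ ?_ ?_
    · intro v
      refine le_trans ?_ (hdeg v.1)
      refine Finset.card_le_card_of_injOn Subtype.val ?_ (fun x _ y _ h => Subtype.ext h)
      intro w hw
      rw [Finset.mem_coe, mem_nb] at hw ⊢
      exact hw
    · intro h
      exact hKM (h.of_Mn (Mn_of_embedding Subtype.val Subtype.val_injective (fun u w h => h)))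
    · intro u hu v hv h
      exact hW u.1 hu v.1 hv h
  choose l hl using hcomp
  refine ⟨fun v => l (H.connectedComponentMk v) ⟨v, rfl⟩, fun j hj => ?_⟩
  have h0 : ∀ c : H.ConnectedComponent, ∃ f0 : c.supp → Bool,
      ∀ f : c.supp → Bool, (∀ v, v ∉ {x : c.supp | x.1 ∈ W} → f v = f0 v) →
      ∀ C, Cn (H.induce c.supp) C → (∀ x ∈ C, l c x % n ≠ j) → (∀ x ∈ C, ∀ y ∈ C, f x = f y) →
        C.ncard ≤ BN t p n := fun c => hl c j hj
  choose F hF using h0
  refine ⟨fun v => F (H.connectedComponentMk v) ⟨v, rfl⟩, ?_⟩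
  intro f hf C hC hCj hmono
  obtain ⟨x0, hx0⟩ := hC.1
  set c := H.connectedComponentMk x0 with hc
  have hCc : ∀ x ∈ C, H.connectedComponentMk x = c := by
    have hgen : ∀ x, RI H C x0 x → H.connectedComponentMk x = c := by
      intro x h
      induction h with
      | refl => rfl
      | tail h1 h2 ih =>
        rw [← ih]
        exact (SimpleGraph.ConnectedComponent.sound h2.1.reachable).symm
    exact fun x hx => hgen x (hC.2 x0 hx0 x hx)
  have hFeq : ∀ x (hx : H.connectedComponentMk x = c),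
      F (H.connectedComponentMk x) ⟨x, rfl⟩ = F c ⟨x, hx⟩ := by
    intro x h
    clear_value c
    subst h
    rfl
  have hleq : ∀ x (hx : H.connectedComponentMk x = c),
      l (H.connectedComponentMk x) ⟨x, rfl⟩ = l c ⟨x, hx⟩ := by
    intro x h
    clear_value c
    subst h
    rfl
  set C' : Set c.supp := {x | x.1 ∈ C} with hC'
  have hC'C : Cn (H.induce c.supp) C' := by
    refine Cn_of_center (x := ⟨x0, hCc x0 hx0⟩) hx0 ?_
    have hgen : ∀ x, RI H C x0 x → ∀ hx : x ∈ c.supp,
        RI (H.induce c.supp) C' ⟨x0, hCc x0 hx0⟩ ⟨x, hx⟩ := by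
      intro x h
      induction h with
      | refl => intro _; exact RI.refl _
      | @tail y z h1 h2 ih =>
        intro hz
        refine (ih (hCc y h2.2.1)).trans (RI.single ?_ h2.2.1 h2.2.2)
        exact h2.1
    rintro ⟨x, hx⟩ hxC
    exact hgen x (hC.2 x0 hx0 x hxC) hx
  have h1 := hF c (fun x => f x.1) (by
      rintro ⟨x, hx⟩ hxW
      have hxW' : x ∉ W := hxW
      exact (hf x hxW').trans (hFeq x hx)) C' hC'C (by
      rintro ⟨x, hx⟩ hxC
      rw [← hleq x hx]
      exact hCj x hxC) (by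
      rintro ⟨x, hx⟩ hxC ⟨y, hy⟩ hyC
      exact hmono x hxC y hyC)
  have h2 : C.ncard = C'.ncard := by
    have : C = Subtype.val '' C' := by
      ext x
      constructor
      · intro hx; exact ⟨⟨x, hCc x hx⟩, hx, rfl⟩
      · rintro ⟨y, hy, rfl⟩; exact hy
    rw [this, Set.ncard_image_of_injective _ Subtype.val_injective]
  omega

/-- **Partition theorem**: girth at least seven, no complete minor of order `t`. -/
theorem part {t n : ℕ} (ht : 1 ≤ t) (hn : 1 ≤ n) {V : Type u} [Fintype V] {G : SimpleGraph V}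
    (hg : (7 : ℕ∞) ≤ G.egirth) (hKM : ¬ KM G t) :
    ∃ cls : V → Fin n, ∀ j : Fin n, ∃ f : V → Bool, ∀ C, Cn G C → (∀ x ∈ C, cls x ≠ j) →
      (∀ x ∈ C, ∀ y ∈ C, f x = f y) → C.ncard ≤ BN t (2 ^ (t + 1)) n := by
  classical
  obtain ⟨H, W, hHG, hdeg, hW, hext⟩ := forced (p := 2 ^ (t + 1)) hg (by
    intro S hS
    obtain ⟨M, hM, hMd⟩ := order_minor7 hg S
    by_contra hcon
    push Not at hcon
    apply hKM
    refine KM.of_Mn ?_ hM
    have hcard : Fintype.card {s : V // s ∈ S} = S.card := Fintype.card_coe S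
    refine dens t S.card _ M hcard (Finset.card_pos.2 hS) ?_
    have hsum : (PA M).card = ∑ a : {s : V // s ∈ S}, (nb M a).card := by
      unfold PA nb
      rw [Finset.card_filter, Fintype.sum_prod_type]
      apply Finset.sum_congr rfl
      intro a _
      rw [Finset.card_filter]
    rw [hsum]
    calc 2 ^ (t+1) * S.card = ∑ a : {s : V // s ∈ S}, 2 ^ (t+1) := by
          rw [Finset.sum_const, Finset.card_univ, smul_eq_mul, hcard, mul_comm]
      _ ≤ _ := Finset.sum_le_sum (fun a _ => by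
          have h1 := hMd a
          have h2 := hcon a.1 a.2
          omega))
  have hKMH : ¬ KM H t := fun h => hKM (h.of_Mn (Mn_of_le hHG))
  obtain ⟨l, hl⟩ := band (n := n) ht (Nat.one_le_pow _ _ (by norm_num)) hdeg hKMH hW
  refine ⟨fun v => ⟨l v % n, Nat.mod_lt _ hn⟩, fun j => ?_⟩
  obtain ⟨f0, hf0⟩ := hl j.1 j.2
  obtain ⟨f, hf1, hf2⟩ := hext f0
  refine ⟨f, fun C hC hCj hm => ?_⟩
  have hCH : Cn H C := hC.mono_graph (fun a ha b hb hab => hf2 a b hab (hm a ha b hb))
  exact hf0 f hf1 C hCH (fun x hx e => hCj x hx (Fin.ext e)) hm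

end Pool.Agent.Lib.MP_4332cb_co
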