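import Pool.Agent.Lib.MP_4332cb_co.Dens

/-!
Menger's theorem for vertex sets, with disjoint connected sets instead of paths.
-/

namespace Pool.Agent.Lib.MP_4332cb_co

open Finset

variable {V : Type*}

/-- `X` separates `A` from `B` -/
def Sp (G : SimpleGraph V) (A B X : Set V) : Prop :=
  ∀ a ∈ A, ∀ b ∈ B, a ∉ X → b ∉ X → ¬ RI G Xᶜ a b

lemma Sp.symm {G : SimpleGraph V} {A B X : Set V} (h : Sp G A B X) : Sp G B A X :=
  fun b hb a ha h1 h2 h3 => h a ha b hb h2 h1 h3.symm

/-- first hit of `X` along a walk inside `S` -/
lemma first_hit {G : SimpleGraph V} {S X : Set V} {a b : V} (h : RI G S a b) (ha : a ∈ S) :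
    (a ∈ X) ∨ (a ∉ X ∧ RI G (S ∩ Xᶜ) a b) ∨
      (a ∉ X ∧ ∃ w z, RI G (S ∩ Xᶜ) a w ∧ z ∈ X ∧ z ∈ S ∧ G.Adj w z) := by
  by_cases haX : a ∈ X
  · exact Or.inl haX
  right
  induction h with
  | refl => exact Or.inl ⟨haX, RI.refl _⟩
  | @tail b c h1 h2 ih =>
    rcases ih with ⟨_, ih⟩ | ih
    · by_cases hc : c ∈ X
      · right
        exact ⟨haX, b, c, ih, hc, h2.2.2, h2.1⟩
      · left
        refine ⟨haX, ih.trans (RI.single h2.1 ?_ ⟨h2.2.2, hc⟩)⟩
        exact ih.mem ⟨ha, haX⟩
    · right; exact ih

/-- trimmed connector -/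
def trim (G : SimpleGraph V) (C X : Set V) (a x : V) : Set V :=
  {z | a ∉ X ∧ RI G (C ∩ Xᶜ) a z} ∪ {x}

lemma trim_spec {G : SimpleGraph V} {C X : Set V} {a x : V} (hC : Cn G C) (ha : a ∈ C) (hx : x ∈ C)
    (hxX : x ∈ X) (huniq : ∀ z ∈ C, z ∈ X → z = x) :
    Cn G (trim G C X a x) ∧ a ∈ trim G C X a x ∧ x ∈ trim G C X a x ∧ trim G C X a x ⊆ C ∧
      ∀ z ∈ trim G C X a x, z ∉ X → a ∉ X ∧ RI G Xᶜ a z := by
  have hsub : trim G C X a x ⊆ C := by
    rintro z (⟨h1, h2⟩ | h)
    · exact (h2.mem ⟨ha, h1⟩).1
    · have : z = x := h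
      rw [this]; exact hx
  have hxm : x ∈ trim G C X a x := Or.inr rfl
  refine ⟨?_, ?_, hxm, hsub, ?_⟩
  · rcases first_hit (X := X) (hC.2 a ha x hx) ha with h | ⟨h1, h2⟩ | ⟨h1, w, z, h2, h3, h4, h5⟩
    · have : trim G C X a x = {x} := by
        unfold trim
        ext z
        constructor
        · rintro (⟨h1, _⟩ | h1)
          · exact absurd h h1
          · exact h1
        · exact fun h1 => Or.inr h1
      rw [this]; exact Cn_singleton G x
    · exact absurd hxX (h2.mem ⟨ha, h1⟩).2
    · have hz : z = x := huniq z h4 h3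
      subst hz
      have e : {z | a ∉ X ∧ RI G (C ∩ Xᶜ) a z} = cmp G (C ∩ Xᶜ) a := by
        ext z
        exact ⟨fun h => h.2, fun h => ⟨h1, h⟩⟩
      unfold trim
      rw [e]
      exact Cn_cmp.union_of_adj (Cn_singleton G _) (show w ∈ cmp G (C ∩ Xᶜ) a from h2) rfl h5
  · by_cases h : a ∈ X
    · exact Or.inr (huniq a ha h)
    · exact Or.inl ⟨h, RI.refl _⟩
  · rintro z (⟨h1, h2⟩ | h) hz
    · exact ⟨h1, h2.monoS Set.inter_subset_right⟩
    · have : z = x := h
      rw [this] at hz
      exact absurd hxX hz

open Classical in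
/-- non isolated vertices -/
noncomputable def niso [Fintype V] (G : SimpleGraph V) : Finset V := univ.filter (fun v => ∃ w, G.Adj v w)

lemma mem_niso [Fintype V] {G : SimpleGraph V} {v : V} : v ∈ niso G ↔ ∃ w, G.Adj v w := by
  classical
  simp [niso]

/-- contraction of `xy` on the same vertex set (`y` becomes isolated) -/
def contr' (G : SimpleGraph V) (x y : V) : SimpleGraph V where
  Adj u v := u ≠ v ∧ u ≠ y ∧ v ≠ y ∧ (G.Adj u v ∨ (u = x ∧ G.Adj y v) ∨ (v = x ∧ G.Adj y u))
  symm := ⟨by
    rintro u v ⟨h1, h2, h3, h4 | h4 | h4⟩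
    · exact ⟨h1.symm, h3, h2, Or.inl h4.symm⟩
    · exact ⟨h1.symm, h3, h2, Or.inr (Or.inr h4)⟩
    · exact ⟨h1.symm, h3, h2, Or.inr (Or.inl h4)⟩⟩
  loopless := ⟨by
    rintro u ⟨h, _⟩
    exact h rfl⟩

/-- deletion of the edge `xy` -/
def del' (G : SimpleGraph V) (x y : V) : SimpleGraph V where
  Adj u v := G.Adj u v ∧ ¬ (u = x ∧ v = y) ∧ ¬ (u = y ∧ v = x)
  symm := ⟨by
    rintro u v ⟨h1, h2, h3⟩
    exact ⟨h1.symm, fun h => h3 ⟨h.2, h.1⟩, fun h => h2 ⟨h.2, h.1⟩⟩⟩
  loopless := ⟨by
    rintro u ⟨h, _⟩
    exact h.ne rfl⟩

lemma RI_ne_of_isolated {G : SimpleGraph V} {S : Set V} {a y : V} (hy : ∀ u, ¬ G.Adj u y) (h : RI G S a y) :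
    a = y := by
  cases h with
  | refl => rfl
  | tail _ h2 => exact absurd h2.1 (hy _)

/-- the vertex set of a connector family, packaged -/
def Lk (G : SimpleGraph V) (A B : Set V) (k : ℕ) : Prop :=
  ∃ C : Fin k → Set V, (∀ i, Cn G (C i)) ∧ (∀ i j, i ≠ j → Disjoint (C i) (C j)) ∧
    (∀ i, (C i ∩ A).Nonempty) ∧ (∀ i, (C i ∩ B).Nonempty)

theorem menger_aux [Fintype V] : ∀ (N n : ℕ) (G : SimpleGraph V) (A B : Set V) (k : ℕ),
    (niso G).card ≤ N → (PA G).card ≤ n → (∀ X : Finset V, Sp G A B (X : Set V) → k ≤ X.card) →
    Lk G A B k := by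
  classical
  intro N
  induction N with
  | zero =>
    intro n G A B k hN _ hsep
    -- no edges
    have hno : ∀ u v, ¬ G.Adj u v := by
      intro u v huv
      have : u ∈ niso G := mem_niso.2 ⟨v, huv⟩
      rw [Finset.card_eq_zero.1 (Nat.le_zero.1 hN)] at this
      exact absurd this (Finset.notMem_empty u)
    have h1 := hsep (univ.filter (fun v => v ∈ A ∧ v ∈ B)) (by
      intro a ha b hb ha' _ h
      have hab : a = b := by
        cases h with
        | refl => rfl
        | tail _ h2 => exact absurd h2.1 (hno _ _)
      apply ha'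
      rw [Finset.mem_coe, Finset.mem_filter]
      exact ⟨mem_univ _, ha, by rw [hab]; exact hb⟩)
    obtain ⟨T, hT, hTc⟩ := Finset.exists_subset_card_eq h1
    obtain ⟨e⟩ : Nonempty (Fin k ≃ T) := ⟨(Finset.equivFinOfCardEq hTc).symm⟩
    refine ⟨fun i => {(e i).1}, fun i => Cn_singleton G _, ?_, ?_, ?_⟩
    · intro i j hij
      rw [Set.disjoint_singleton]
      intro h
      exact hij (e.injective (Subtype.ext h))
    · intro i
      have := hT (e i).2
      rw [Finset.mem_filter] at this
      exact ⟨(e i).1, rfl, this.2.1⟩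
    · intro i
      have := hT (e i).2
      rw [Finset.mem_filter] at this
      exact ⟨(e i).1, rfl, this.2.2⟩
  | succ N ihN =>
    intro n
    induction n with
    | zero =>
      intro G A B k hN hn hsep
      refine ihN 0 G A B k ?_ hn hsep
      have : niso G = ∅ := by
        rw [Finset.eq_empty_iff_forall_notMem]
        intro v hv
        obtain ⟨w, hw⟩ := mem_niso.1 hv
        have : (v, w) ∈ PA G := mem_PA.2 hw
        rw [Finset.card_eq_zero.1 (Nat.le_zero.1 hn)] at this
        exact absurd this (Finset.notMem_empty _)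
      rw [this]; simp
    | succ n ihn =>
      intro G A B k hN hn hsep
      by_cases hE : PA G = ∅
      · exact ihn G A B k hN (by rw [hE]; simp) hsep
      obtain ⟨⟨x, y⟩, hxy⟩ := Finset.nonempty_iff_ne_empty.2 hE
      rw [mem_PA] at hxy
      simp only at hxy
      have hxney : x ≠ y := hxy.ne
      set G1 := contr' G x y with hG1
      set A1 : Set V := {a | a ≠ y ∧ (a ∈ A ∨ (a = x ∧ y ∈ A))} with hA1
      set B1 : Set V := {a | a ≠ y ∧ (a ∈ B ∨ (a = x ∧ y ∈ B))} with hB1
      have hniso : (niso G1).card ≤ N := by
        have hss : niso G1 ⊆ (niso G).erase y := by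
          intro u hu
          obtain ⟨v, h1, h2, h3, h4⟩ := mem_niso.1 hu
          rw [Finset.mem_erase]
          refine ⟨h2, mem_niso.2 ?_⟩
          rcases h4 with h4 | ⟨h4, h5⟩ | ⟨h4, h5⟩
          · exact ⟨v, h4⟩
          · exact ⟨y, by rw [h4]; exact hxy⟩
          · exact ⟨y, h5.symm⟩
        have hy : y ∈ niso G := mem_niso.2 ⟨x, hxy.symm⟩
        have := Finset.card_le_card hss
        rw [Finset.card_erase_of_mem hy] at this
        omega
      by_cases hc : ∀ X : Finset V, Sp G1 A1 B1 (X : Set V) → k ≤ X.card
      · obtain ⟨C, c1, c2, c3, c4⟩ := ihN (PA G1).card G1 A1 B1 k hniso le_rfl hc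
        have hyC : ∀ i, y ∉ C i := by
          intro i hy
          obtain ⟨a, ha, haA⟩ := c3 i
          have hiso : ∀ u, ¬ G1.Adj u y := fun u h => h.2.2.1 rfl
          have := RI_ne_of_isolated hiso ((c1 i).2 a ha y hy)
          exact haA.1 this
        have lift : ∀ i, ∀ u ∈ C i, ∀ v ∈ C i, RI G {z | z ∈ C i ∨ (z = y ∧ x ∈ C i)} u v := by
          intro i u hu v hv
          have h := (c1 i).2 u hu v hv
          induction h with
          | refl => exact RI.refl _
          | @tail b c h1 h2 ih =>
            refine (ih h2.2.1).trans ?_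
            obtain ⟨⟨g1, g2, g3, g4⟩, hb, hc'⟩ := h2
            rcases g4 with g4 | ⟨g4, g5⟩ | ⟨g4, g5⟩
            · exact RI.single g4 (Or.inl hb) (Or.inl hc')
            · subst g4
              exact (RI.single hxy (Or.inl hb) (Or.inr ⟨rfl, hb⟩)).trans
                (RI.single g5 (Or.inr ⟨rfl, hb⟩) (Or.inl hc'))
            · subst g4
              exact (RI.single g5.symm (Or.inl hb) (Or.inr ⟨rfl, hc'⟩)).trans
                (RI.single hxy.symm (Or.inr ⟨rfl, hc'⟩) (Or.inl hc'))
        refine ⟨fun i => {z | z ∈ C i ∨ (z = y ∧ x ∈ C i)}, ?_, ?_, ?_, ?_⟩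
        · intro i
          obtain ⟨a, ha⟩ := (c1 i).1
          refine Cn_of_center (x := a) (Or.inl ha) ?_
          rintro z (hz | ⟨hz, hx⟩)
          · exact lift i a ha z hz
          · rw [hz]
            exact (lift i a ha x hx).trans (RI.single hxy (Or.inl hx) (Or.inr ⟨rfl, hx⟩))
        · intro i j hij
          rw [Set.disjoint_left]
          rintro z (h1 | ⟨h1, h1'⟩) (h2 | ⟨h2, h2'⟩)
          · exact Set.disjoint_left.1 (c2 i j hij) h1 h2
          · rw [h2] at h1; exact hyC i h1
          · rw [h1] at h2; exact hyC j h2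
          · exact Set.disjoint_left.1 (c2 i j hij) h1' h2'
        · intro i
          obtain ⟨a, ha, h1, h2 | ⟨h2, h3⟩⟩ := c3 i
          · exact ⟨a, Or.inl ha, h2⟩
          · exact ⟨y, Or.inr ⟨rfl, by rw [← h2]; exact ha⟩, h3⟩
        · intro i
          obtain ⟨a, ha, h1, h2 | ⟨h2, h3⟩⟩ := c4 i
          · exact ⟨a, Or.inl ha, h2⟩
          · exact ⟨y, Or.inr ⟨rfl, by rw [← h2]; exact ha⟩, h3⟩
      · push Not at hc
        obtain ⟨X', hX', hX'c⟩ := hc
        -- x ∈ X'
        have hxX' : x ∈ X' := by
          by_contra hx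
          have h1 := hsep (X'.erase y) (by
            intro a ha b hb ha' hb' h
            -- map by ρ
            let ρ : V → V := fun v => if v = y then x else v
            have hρy : ρ y = x := by simp [ρ]
            have hρ : ∀ v, v ≠ y → ρ v = v := by intro v h; simp [ρ, h]
            have hav : ∀ v, v ∉ (↑(X'.erase y) : Set V) → ρ v ∉ (↑X' : Set V) := by
              intro v hv
              by_cases e : v = y
              · rw [e, hρy]; exact hx
              · rw [hρ v e]
                intro h3
                apply hv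
                rw [Finset.mem_coe, Finset.mem_erase]
                exact ⟨e, h3⟩
            have hρne : ∀ v, ρ v ≠ y := by
              intro v
              by_cases e : v = y
              · rw [e, hρy]; exact hxney
              · rw [hρ v e]; exact e
            have key : RI G1 (↑X' : Set V)ᶜ (ρ a) (ρ b) := by
              induction h with
              | refl => exact RI.refl _
              | @tail b c h1 h2 ih =>
                have hb2 : b ∉ (↑(X'.erase y) : Set V) := h2.2.1
                have hc2 : c ∉ (↑(X'.erase y) : Set V) := h2.2.2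
                have ihb : RI G1 (↑X' : Set V)ᶜ (ρ a) (ρ b) := by
                  have : ∀ b', Relation.ReflTransGen (fun a b => G.Adj a b ∧ a ∈ (↑(X'.erase y) : Set V)ᶜ ∧ b ∈ (↑(X'.erase y) : Set V)ᶜ) a b' →
                      RI G1 (↑X' : Set V)ᶜ (ρ a) (ρ b') := by
                    intro b' hb'
                    induction hb' with
                    | refl => exact RI.refl _
                    | @tail d e h4 h5 ih5 =>
                      by_cases he : ρ d = ρ e
                      · rw [← he]; exact ih5
                      · refine ih5.trans (RI.single ?_ (hav _ h5.2.1) (hav _ h5.2.2))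
                        refine ⟨he, hρne d, hρne e, ?_⟩
                        by_cases hd : d = y
                        · have hey : e ≠ y := by rintro rfl; exact he (by rw [hd])
                          rw [hd, hρy, hρ e hey]
                          right; left
                          refine ⟨rfl, ?_⟩
                          rw [← hd]; exact h5.1
                        · by_cases hey : e = y
                          · rw [hey, hρy, hρ d hd]
                            right; right
                            refine ⟨rfl, ?_⟩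
                            rw [← hey]; exact h5.1.symm
                          · rw [hρ d hd, hρ e hey]
                            left; exact h5.1
                  exact this b h1
                by_cases he : ρ b = ρ c
                · rw [← he]; exact ihb
                · refine ihb.trans (RI.single ?_ (hav _ hb2) (hav _ hc2))
                  refine ⟨he, hρne b, hρne c, ?_⟩
                  by_cases hd : b = y
                  · have hey : c ≠ y := by rintro rfl; exact he (by rw [hd])
                    rw [hd, hρy, hρ c hey]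
                    right; left
                    refine ⟨rfl, ?_⟩
                    rw [← hd]; exact h2.1
                  · by_cases hey : c = y
                    · rw [hey, hρy, hρ b hd]
                      right; right
                      refine ⟨rfl, ?_⟩
                      rw [← hey]; exact h2.1.symm
                    · rw [hρ b hd, hρ c hey]
                      left; exact h2.1
            have hA : ρ a ∈ A1 := by
              refine ⟨hρne a, ?_⟩
              by_cases e : a = y
              · right; rw [e, hρy]; exact ⟨rfl, by rw [← e]; exact ha⟩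
              · left; rw [hρ a e]; exact ha
            have hB : ρ b ∈ B1 := by
              refine ⟨hρne b, ?_⟩
              by_cases e : b = y
              · right; rw [e, hρy]; exact ⟨rfl, by rw [← e]; exact hb⟩
              · left; rw [hρ b e]; exact hb
            exact hX' _ hA _ hB (hav a ha') (hav b hb') key)
          have h2 : (X'.erase y).card ≤ X'.card := Finset.card_le_card (Finset.erase_subset _ _)
          omega
        set X : Finset V := insert y X' with hX
        have hXx : x ∈ X := Finset.mem_insert_of_mem hxX'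
        have hXy : y ∈ X := Finset.mem_insert_self _ _
        have hSpX : Sp G A B (X : Set V) := by
          intro a ha b hb ha' hb' h
          have hne : ∀ v, v ∉ (X : Set V) → v ≠ y ∧ v ∉ (X' : Set V) := by
            intro v hv
            constructor
            · rintro rfl; exact hv hXy
            · intro h3; exact hv (Finset.mem_insert_of_mem h3)
          refine hX' a ⟨(hne a ha').1, Or.inl ha⟩ b ⟨(hne b hb').1, Or.inl hb⟩ (hne a ha').2 (hne b hb').2 ?_
          refine h.mono (S' := (X' : Set V)ᶜ) ?_ ?_
          · intro u hu v hv huv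
            exact ⟨huv.ne, (hne u hu).1, (hne v hv).1, Or.inl huv⟩
          · intro v hv; exact (hne v hv).2
        have hXc : X.card = k := by
          have h1 := hsep X hSpX
          have h2 : X.card ≤ X'.card + 1 := Finset.card_insert_le _ _
          omega
        -- deletion
        set G2 := del' G x y with hG2
        have hG2le : ∀ u v, G2.Adj u v → G.Adj u v := fun u v h => h.1
        have hPA2 : (PA G2).card ≤ n := by
          have hss : PA G2 ⊆ (PA G).erase (x, y) := by
            rintro ⟨u, v⟩ huv
            rw [mem_PA] at huv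
            rw [Finset.mem_erase, mem_PA]
            refine ⟨?_, huv.1⟩
            intro h
            rw [Prod.mk.injEq] at h
            exact huv.2.1 h
          have hmem : (x, y) ∈ PA G := mem_PA.2 hxy
          have := Finset.card_le_card hss
          rw [Finset.card_erase_of_mem hmem] at this
          omega
        have hniso2 : (niso G2).card ≤ N + 1 := by
          refine le_trans (Finset.card_le_card ?_) hN
          intro u hu
          obtain ⟨v, hv⟩ := mem_niso.1 hu
          exact mem_niso.2 ⟨v, hv.1⟩
        have hsepgen : ∀ (A B : Set V), Sp G A B (X : Set V) →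
            (∀ Z : Finset V, Sp G A B (Z : Set V) → k ≤ Z.card) →
            ∀ Z : Finset V, Sp G2 A (X : Set V) (Z : Set V) → k ≤ Z.card := by
          intro A B hS hs Z hZ
          apply hs
          intro a ha b hb ha' hb' h
          rcases first_hit (X := (X : Set V)) h ha' with h1 | ⟨h1, h2⟩ | ⟨h1, w, z, h2, h3, h4, h5⟩
          · exact hZ a ha a h1 ha' ha' (RI.refl _)
          · exact hS a ha b hb h1 (h2.mem ⟨ha', h1⟩).2 (h2.monoS Set.inter_subset_right)
          · refine hZ a ha z h3 ha' h4 ?_
            have hw := h2.mem ⟨ha', h1⟩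
            refine RI.trans (y := w) ?_ (RI.single ?_ hw.1 h4)
            · refine h2.mono (S' := (Z : Set V)ᶜ) ?_ Set.inter_subset_left
              intro u hu v hv huv
              refine ⟨huv, ?_, ?_⟩
              · rintro ⟨e1, e2⟩; rw [e1] at hu; exact hu.2 hXx
              · rintro ⟨e1, e2⟩; rw [e1] at hu; exact hu.2 hXy
            · refine ⟨h5, ?_, ?_⟩
              · rintro ⟨e1, e2⟩; rw [e1] at hw; exact hw.2 hXx
              · rintro ⟨e1, e2⟩; rw [e1] at hw; exact hw.2 hXy
        obtain ⟨C, c1, c2, c3, c4⟩ := ihn G2 A (X : Set V) k hniso2 hPA2 (hsepgen A B hSpX hsep)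
        obtain ⟨D, d1, d2, d3, d4⟩ := ihn G2 B (X : Set V) k hniso2 hPA2
          (hsepgen B A hSpX.symm (fun Z hZ => hsep Z hZ.symm))
        choose a ha haA using c3
        choose ξ hξ hξX using c4
        choose b hb hbB using d3
        choose η hη hηX using d4
        have bij : ∀ (C : Fin k → Set V) (ξ : Fin k → V), (∀ i j, i ≠ j → Disjoint (C i) (C j)) →
            (∀ i, ξ i ∈ C i) → (∀ i, ξ i ∈ (X : Set V)) → ∀ z ∈ X, ∃ i, ξ i = z := by
          intro C ξ hC h1 h2 z hz
          have hinj : Function.Injective ξ := by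
            intro i j hij
            by_contra hne
            exact Set.disjoint_left.1 (hC i j hne) (h1 i) (by rw [hij]; exact h1 j)
          have himg : univ.image ξ = X := by
            apply Finset.eq_of_subset_of_card_le
            · intro w hw
              rw [Finset.mem_image] at hw
              obtain ⟨i, _, rfl⟩ := hw
              exact h2 i
            · rw [Finset.card_image_of_injective _ hinj, hXc]; simp
          rw [← himg, Finset.mem_image] at hz
          obtain ⟨i, _, hi⟩ := hz
          exact ⟨i, hi⟩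
        have uniq : ∀ (C : Fin k → Set V) (ξ : Fin k → V), (∀ i j, i ≠ j → Disjoint (C i) (C j)) →
            (∀ i, ξ i ∈ C i) → (∀ i, ξ i ∈ (X : Set V)) → ∀ i, ∀ z ∈ C i, z ∈ (X : Set V) → z = ξ i := by
          intro C ξ hC h1 h2 i z hz hzX
          obtain ⟨j, hj⟩ := bij C ξ hC h1 h2 z hzX
          by_cases hij : i = j
          · rw [hij, hj]
          · exfalso
            exact Set.disjoint_left.1 (hC i j hij) hz (by rw [← hj]; exact h1 j)
        have hσ : ∀ i, ∃ j, η j = ξ i := fun i => bij D η d2 hη hηX (ξ i) (hξX i)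
        choose σ hσ using hσ
        have cG : ∀ i, Cn G (C i) := fun i => (c1 i).mono_graph (fun u _ v _ h => hG2le u v h)
        have dG : ∀ i, Cn G (D i) := fun i => (d1 i).mono_graph (fun u _ v _ h => hG2le u v h)
        have tC := fun i => trim_spec (cG i) (ha i) (hξ i) (hξX i) (uniq C ξ c2 hξ hξX i)
        have tD := fun i => trim_spec (dG i) (hb i) (hη i) (hηX i) (uniq D η d2 hη hηX i)
        have hσinj : ∀ i j, σ i = σ j → i = j := by
          intro i j hij
          by_contra hne
          have : ξ i = ξ j := by rw [← hσ i, ← hσ j, hij]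
          exact Set.disjoint_left.1 (c2 i j hne) (hξ i) (by rw [this]; exact hξ j)
        have cross : ∀ i j, i ≠ j → Disjoint (trim G (C i) X (a i) (ξ i)) (trim G (D (σ j)) X (b (σ j)) (η (σ j))) := by
          intro i j hij
          rw [Set.disjoint_left]
          intro z h1 h2
          by_cases hz : z ∈ (X : Set V)
          · have e1 := uniq C ξ c2 hξ hξX i z ((tC i).2.2.2.1 h1) hz
            have e2 := uniq D η d2 hη hηX (σ j) z ((tD (σ j)).2.2.2.1 h2) hz
            rw [hσ j] at e2
            exact Set.disjoint_left.1 (c2 i j hij) (hξ i) (by rw [← e1, e2]; exact hξ j)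
          · obtain ⟨h3, h4⟩ := (tC i).2.2.2.2 z h1 hz
            obtain ⟨h5, h6⟩ := (tD (σ j)).2.2.2.2 z h2 hz
            exact hSpX (a i) (haA i) (b (σ j)) (hbB (σ j)) h3 h5 (h4.trans h6.symm)
        refine ⟨fun i => trim G (C i) X (a i) (ξ i) ∪ trim G (D (σ i)) X (b (σ i)) (η (σ i)), ?_, ?_, ?_, ?_⟩
        · intro i
          refine (tC i).1.union_of_mem (tD (σ i)).1 (tC i).2.2.1 ?_
          rw [← hσ i]
          exact (tD (σ i)).2.2.1
        · intro i j hij
          rw [Set.disjoint_union_left, Set.disjoint_union_right, Set.disjoint_union_right]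
          refine ⟨⟨?_, cross i j hij⟩, (cross j i hij.symm).symm, ?_⟩
          · exact Set.disjoint_of_subset (tC i).2.2.2.1 (tC j).2.2.2.1 (c2 i j hij)
          · exact Set.disjoint_of_subset (tD (σ i)).2.2.2.1 (tD (σ j)).2.2.2.1
              (d2 _ _ (fun h => hij (hσinj i j h)))
        · intro i
          exact ⟨a i, Or.inl (tC i).2.1, haA i⟩
        · intro i
          exact ⟨b (σ i), Or.inr (tD (σ i)).2.1, hbB (σ i)⟩

/-- **Menger's theorem** -/
theorem menger [Fintype V] (G : SimpleGraph V) (A B : Set V) (k : ℕ)
    (h : ∀ X : Finset V, Sp G A B (X : Set V) → k ≤ X.card) : Lk G A B k :=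
  menger_aux _ _ G A B k le_rfl le_rfl h

end Pool.Agent.Lib.MP_4332cb_co
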