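import Pool.Agent.Lib.MP_4332cb_co.Menger

/-!
Cutting a connected set of bounded degree into connected pieces of controlled size, where the size
is measured by a subadditive set function.
-/

namespace Pool.Agent.Lib.MP_4332cb_co

open Finset

variable {V : Type*}

/-- subadditive set function -/
structure SubAdd (r : Set V → ℕ) : Prop where
  empty : r ∅ = 0
  union : ∀ A B, r (A ∪ B) ≤ r A + r B

lemma SubAdd.biUnion {r : Set V → ℕ} (hr : SubAdd r) {ι : Type*} (s : Finset ι) (D : ι → Set V) :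
    r (⋃ i ∈ s, D i) ≤ ∑ i ∈ s, r (D i) := by
  classical
  induction s using Finset.induction_on with
  | empty => simp [hr.empty]
  | insert a s ha ih =>
    rw [Finset.set_biUnion_insert, Finset.sum_insert ha]
    exact (hr.union _ _).trans (by omega)

open Classical in
/-- the set of neighbours -/
noncomputable def nb [Fintype V] (G : SimpleGraph V) (v : V) : Finset V := univ.filter (fun w => G.Adj v w)

lemma mem_nb [Fintype V] {G : SimpleGraph V} {v w : V} : w ∈ nb G v ↔ G.Adj v w := by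
  classical
  simp [nb]

theorem extract [Fintype V] {G : SimpleGraph V} {B : Set V} (hB : Cn G B) {Δ δ q : ℕ}
    (hdeg : ∀ v, (nb G v).card ≤ Δ) {r : Set V → ℕ} (hr : SubAdd r) (hδ : ∀ v, r {v} ≤ δ) :
    ∀ n : ℕ, ∀ Z : Set V, Z.ncard ≤ n → Z ⊆ B → Cn G Z → q ≤ r Z → (B \ Z = ∅ ∨ Cn G (B \ Z)) →
      ∃ Z ⊆ B, Cn G Z ∧ q ≤ r Z ∧ r Z ≤ δ + Δ * (q - 1) ∧ (B \ Z = ∅ ∨ Cn G (B \ Z)) := by
  classical
  intro n
  induction n using Nat.strong_induction_on with
  | _ n ih =>
  intro Z hn hZB hZ hq hC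
  -- the vertex `z`
  have hz : ∃ z ∈ Z, (B \ Z = ∅) ∨ (Cn G (B \ Z) ∧ ∃ c ∈ B \ Z, G.Adj z c) := by
    rcases hC with h | h
    · obtain ⟨z, hz⟩ := hZ.1
      exact ⟨z, hz, Or.inl h⟩
    · obtain ⟨z0, hz0⟩ := hZ.1
      obtain ⟨c0, hc0⟩ := h.1
      have h1 := hB.2 z0 (hZB hz0) c0 hc0.1
      rcases first_hit (X := B \ Z) h1 (hZB hz0) with h2 | ⟨h2, h3⟩ | ⟨h2, w, z, h3, h4, h5, h6⟩
      · exact absurd hz0 h2.2
      · exact absurd hc0 (h3.mem ⟨hZB hz0, h2⟩).2
      · have hw := h3.mem ⟨hZB hz0, h2⟩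
        refine ⟨w, ?_, Or.inr ⟨h, z, h4, h6⟩⟩
        by_contra hwZ
        exact hw.2 ⟨hw.1, hwZ⟩
  obtain ⟨z, hzZ, hzC⟩ := hz
  set D : V → Set V := fun u => cmp G (Z \ {z}) u with hD
  set N : Finset V := (nb G z).filter (fun u => u ∈ Z) with hN
  have hNmem : ∀ u ∈ N, G.Adj z u ∧ u ∈ Z ∧ u ≠ z := by
    intro u hu
    rw [hN, Finset.mem_filter, mem_nb] at hu
    exact ⟨hu.1, hu.2, hu.1.ne'⟩
  have hNc : N.card ≤ Δ := (Finset.card_filter_le _ _).trans (hdeg z)
  have hDsub : ∀ u ∈ N, D u ⊆ Z \ {z} := by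
    intro u hu
    exact cmp_subset ⟨(hNmem u hu).2.1, (hNmem u hu).2.2⟩
  -- every element of `Z \ {z}` is in some `D u`
  have hcov : ∀ y ∈ Z, y ≠ z → ∃ u ∈ N, y ∈ D u := by
    intro y hy hyz
    have h1 := hZ.2 y hy z hzZ
    rcases first_hit (X := {z}) h1 hy with h2 | ⟨h2, h3⟩ | ⟨h2, w, z', h3, h4, h5, h6⟩
    · exact absurd h2 hyz
    · exact absurd rfl (h3.mem ⟨hy, h2⟩).2
    · have : z' = z := h4
      subst this
      have hw := h3.mem ⟨hy, h2⟩
      refine ⟨w, ?_, ?_⟩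
      · rw [hN, Finset.mem_filter, mem_nb]
        exact ⟨h6.symm, hw.1⟩
      · exact h3.symm
  have hZeq : Z = {z} ∪ ⋃ u ∈ N, D u := by
    apply Set.Subset.antisymm
    · intro y hy
      by_cases hyz : y = z
      · exact Or.inl hyz
      · obtain ⟨u, hu, hyu⟩ := hcov y hy hyz
        exact Or.inr (Set.mem_biUnion hu hyu)
    · rintro y (hy | hy)
      · have : y = z := hy
        rw [this]; exact hzZ
      · rw [Set.mem_iUnion₂] at hy
        obtain ⟨u, hu, hyu⟩ := hy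
        exact (hDsub u hu hyu).1
  by_cases hall : ∀ u ∈ N, r (D u) < q
  · refine ⟨Z, hZB, hZ, hq, ?_, hC⟩
    have h1 : r Z ≤ r {z} + r (⋃ u ∈ N, D u) := by
      conv_lhs => rw [hZeq]
      exact hr.union _ _
    have h2 : r (⋃ u ∈ N, D u) ≤ ∑ u ∈ N, r (D u) := hr.biUnion N D
    have h3 : ∑ u ∈ N, r (D u) ≤ ∑ u ∈ N, (q - 1) :=
      Finset.sum_le_sum (fun u hu => by have := hall u hu; omega)
    rw [Finset.sum_const, smul_eq_mul] at h3
    have h4 : N.card * (q - 1) ≤ Δ * (q - 1) := Nat.mul_le_mul_right _ hNc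
    have := hδ z
    omega
  · push Not at hall
    obtain ⟨u, hu, hqu⟩ := hall
    have hss : D u ⊂ Z := by
      refine ⟨fun y hy => (hDsub u hu hy).1, fun h => ?_⟩
      exact (hDsub u hu (h hzZ)).2 rfl
    have hlt : (D u).ncard < Z.ncard := Set.ncard_lt_ncard hss (Set.toFinite _)
    refine ih (D u).ncard (by omega) (D u) le_rfl (hss.1.trans hZB) Cn_cmp hqu (Or.inr ?_)
    -- the complement is connected
    have hzB : z ∈ B \ D u := ⟨hZB hzZ, fun h => (hDsub u hu h).2 rfl⟩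
    refine Cn_of_center hzB ?_
    rintro y ⟨hyB, hyD⟩
    by_cases hyZ : y ∈ Z
    · by_cases hyz : y = z
      · rw [hyz]; exact RI.refl _
      · obtain ⟨u', hu', hyu'⟩ := hcov y hyZ hyz
        have hdis : ∀ w ∈ D u', w ∉ D u := by
          intro w hw hw'
          apply hyD
          have h1 : RI G (Z \ {z}) u w := hw'
          have h2 : RI G (Z \ {z}) u' w := hw
          have h3 : RI G (Z \ {z}) u' y := hyu'
          exact h1.trans (h2.symm.trans h3)
        have hsub : D u' ⊆ B \ D u := fun w hw => ⟨hZB (hDsub u' hu' hw).1, hdis w hw⟩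
        have hu'm : u' ∈ D u' := mem_cmp_self
        exact (RI.single (hNmem u' hu').1 hzB (hsub hu'm)).trans
          ((Cn_cmp.2 u' hu'm y hyu').monoS hsub)
    · rcases hzC with h | ⟨h, c, hc, hzc⟩
      · exfalso
        have : y ∈ B \ Z := ⟨hyB, hyZ⟩
        rw [h] at this
        exact this
      · have hsub : B \ Z ⊆ B \ D u := fun w hw => ⟨hw.1, fun h' => hw.2 (hss.1 h')⟩
        exact (RI.single hzc hzB (hsub hc)).trans ((h.2 c hc y ⟨hyB, hyZ⟩).monoS hsub)

/-- **Pieces lemma** -/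
theorem pieces [Fintype V] {G : SimpleGraph V} {Δ δ q : ℕ} (hΔ : 1 ≤ Δ) (hδ1 : 1 ≤ δ) (hq1 : 1 ≤ q)
    (hdeg : ∀ v, (nb G v).card ≤ Δ) {r : Set V → ℕ} (hr : SubAdd r) (hδ : ∀ v, r {v} ≤ δ) :
    ∀ (m : ℕ) (B : Set V), Cn G B → m * (δ + Δ * (q - 1)) ≤ r B →
      ∃ Z : Fin m → Set V, (∀ i, Cn G (Z i)) ∧ (∀ i, Z i ⊆ B) ∧
        (∀ i j, i ≠ j → Disjoint (Z i) (Z j)) ∧ ∀ i, q ≤ r (Z i) := by
  classical
  intro m
  induction m with
  | zero =>
    intro B _ _
    exact ⟨fun i => i.elim0, fun i => i.elim0, fun i => i.elim0, fun i => i.elim0, fun i => i.elim0⟩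
  | succ m ih =>
    intro B hB hm
    have hcq : q ≤ δ + Δ * (q - 1) := by
      have : 1 * (q - 1) ≤ Δ * (q - 1) := Nat.mul_le_mul_right _ hΔ
      omega
    have hm' : m * (δ + Δ * (q - 1)) + (δ + Δ * (q - 1)) ≤ r B := by
      have : (m + 1) * (δ + Δ * (q - 1)) = m * (δ + Δ * (q - 1)) + (δ + Δ * (q - 1)) := by ring
      omega
    obtain ⟨Z, hZB, hZ, hqZ, hZu, hC⟩ := extract hB hdeg hr hδ (q := q) _ B le_rfl le_rfl hB
      (by omega) (Or.inl (by simp))
    -- pieces of the rest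
    have hrest : ∃ Z' : Fin m → Set V, (∀ i, Cn G (Z' i)) ∧ (∀ i, Z' i ⊆ B \ Z) ∧
        (∀ i j, i ≠ j → Disjoint (Z' i) (Z' j)) ∧ ∀ i, q ≤ r (Z' i) := by
      rcases Nat.eq_zero_or_pos m with h0 | h0
      · subst h0
        exact ⟨fun i => i.elim0, fun i => i.elim0, fun i => i.elim0, fun i => i.elim0, fun i => i.elim0⟩
      · have h1 : r B ≤ r (B \ Z) + r Z := by
          have : B = (B \ Z) ∪ Z := by rw [Set.sdiff_union_of_subset hZB]
          conv_lhs => rw [this]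
          exact hr.union _ _
        have h2 : m * (δ + Δ * (q - 1)) ≤ r (B \ Z) := by omega
        rcases hC with h3 | h3
        · exfalso
          rw [h3, hr.empty] at h2
          have : 0 < m * (δ + Δ * (q - 1)) := Nat.mul_pos h0 (by omega)
          omega
        · exact ih (B \ Z) h3 h2
    obtain ⟨Z', z1, z2, z3, z4⟩ := hrest
    refine ⟨Fin.cons Z Z', ?_, ?_, ?_, ?_⟩
    · intro i
      refine Fin.cases ?_ (fun j => ?_) i
      · exact hZ
      · exact z1 j
    · intro i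
      refine Fin.cases ?_ (fun j => ?_) i
      · exact hZB
      · exact (z2 j).trans Set.sdiff_subset
    · intro i j
      refine Fin.cases ?_ (fun i' => ?_) i <;> refine Fin.cases ?_ (fun j' => ?_) j
      · intro h; exact absurd rfl h
      · intro _
        rw [Fin.cons_zero, Fin.cons_succ, Set.disjoint_left]
        intro x hx hx'
        exact (z2 j' hx').2 hx
      · intro _
        rw [Fin.cons_zero, Fin.cons_succ, Set.disjoint_left]
        intro x hx hx'
        exact (z2 i' hx).2 hx'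
      · intro h
        rw [Fin.cons_succ, Fin.cons_succ]
        exact z3 i' j' (fun e => h (by rw [e]))
    · intro i
      refine Fin.cases ?_ (fun j => ?_) i
      · exact hqZ
      · exact z4 j

end Pool.Agent.Lib.MP_4332cb_co
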