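import Pool.Agent.Lib.MP_4332cb_co.Final

/-!
Reduction to bounded degree that keeps the girth, and removal of small islands.
-/

namespace Pool.Agent.Lib.MP_4332cb_co

open Finset

universe u

/-- `K` is obtained from `G` by contracting disjoint stars (and deleting edges and vertices) -/
def SM {U V : Type*} (K : SimpleGraph U) (G : SimpleGraph V) : Prop :=
  ∃ (f : U → Set V) (c : U → V), (∀ u, c u ∈ f u) ∧ (∀ u, ∀ x ∈ f u, x = c u ∨ G.Adj (c u) x) ∧
    (∀ u v, u ≠ v → Disjoint (f u) (f v)) ∧ ∀ u v, K.Adj u v → ∃ x ∈ f u, ∃ y ∈ f v, G.Adj x y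

lemma SM.Mn {U V : Type*} {K : SimpleGraph U} {G : SimpleGraph V} (h : SM K G) : Mn K G := by
  obtain ⟨f, c, hc, hst, hdis, hadj⟩ := h
  refine ⟨f, fun u => ?_, hdis, hadj⟩
  refine Cn_of_center (hc u) ?_
  intro x hx
  rcases hst u x hx with rfl | h
  · exact RI.refl _
  · exact RI.single h (hc u) hx

/-- contracting disjoint stars divides the girth at most by three -/
theorem SM_girth {U V : Type*} {K : SimpleGraph U} {G : SimpleGraph V} {g : ℕ} (h : SM K G)
    (hG : ((3 * g : ℕ) : ℕ∞) ≤ G.egirth) : (g : ℕ∞) ≤ K.egirth := by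
  classical
  obtain ⟨f, c, hc, hst, hdis, hadj⟩ := h
  have hcell : ∀ u v x, x ∈ f u → x ∈ f v → u = v := by
    intro u v x hu hv
    by_contra hne
    exact Set.disjoint_left.1 (hdis u v hne) hu hv
  -- walks inside a cell
  have hin : ∀ u, ∀ x ∈ f u, ∃ q : G.Walk (c u) x, q.length ≤ 1 ∧
      ∀ e ∈ q.edges, ∃ a ∈ f u, ∃ b ∈ f u, e = s(a, b) := by
    intro u x hx
    rcases hst u x hx with rfl | h
    · exact ⟨.nil, by simp, by simp⟩
    · refine ⟨.cons h .nil, by simp, ?_⟩
      intro e he
      rw [SimpleGraph.Walk.edges_cons, SimpleGraph.Walk.edges_nil, List.mem_singleton] at he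
      exact ⟨c u, hc u, x, hx, he⟩
  have hlift : ∀ (a b : U) (p : K.Walk a b), ∃ q : G.Walk (c a) (c b), q.length ≤ 3 * p.length ∧
      ∀ e ∈ q.edges, (∃ u, ∃ x ∈ f u, ∃ y ∈ f u, e = s(x, y)) ∨
        (∃ u v, s(u, v) ∈ p.edges ∧ ∃ x ∈ f u, ∃ y ∈ f v, e = s(x, y)) := by
    intro a b p
    induction p with
    | nil => exact ⟨.nil, by simp, by simp⟩
    | @cons a m b h p ih =>
      obtain ⟨q, q1, q2⟩ := ih
      obtain ⟨x, hx, y, hy, hxy⟩ := hadj a m h
      obtain ⟨q3, q4, q5⟩ := hin a x hx
      obtain ⟨q6, q7, q8⟩ := hin m y hy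
      refine ⟨q3.append (.cons hxy (q6.reverse.append q)), ?_, ?_⟩
      · rw [SimpleGraph.Walk.length_append, SimpleGraph.Walk.length_cons, SimpleGraph.Walk.length_append,
          SimpleGraph.Walk.length_reverse, SimpleGraph.Walk.length_cons]
        omega
      · intro e he
        rw [SimpleGraph.Walk.edges_append, List.mem_append, SimpleGraph.Walk.edges_cons, List.mem_cons,
          SimpleGraph.Walk.edges_append, List.mem_append, SimpleGraph.Walk.edges_reverse,
          List.mem_reverse] at he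
        rcases he with h1 | h1 | h1 | h1
        · exact Or.inl ⟨a, q5 e h1⟩
        · refine Or.inr ⟨a, m, ?_, x, hx, y, hy, h1⟩
          rw [SimpleGraph.Walk.edges_cons]; exact List.mem_cons_self
        · exact Or.inl ⟨m, q8 e h1⟩
        · rcases q2 e h1 with h2 | ⟨u, v, h2, h3⟩
          · exact Or.inl h2
          · refine Or.inr ⟨u, v, ?_, h3⟩
            rw [SimpleGraph.Walk.edges_cons]; exact List.mem_cons_of_mem _ h2
  rw [SimpleGraph.le_egirth]
  intro a w hw
  cases w with
  | nil => exact absurd hw (by simp)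
  | @cons _ m _ h p =>
    rw [SimpleGraph.Walk.cons_isCycle_iff] at hw
    obtain ⟨hp, he⟩ := hw
    obtain ⟨x, hx, y, hy, hxy⟩ := hadj a m h
    obtain ⟨q, q1, q2⟩ := hlift m a p
    obtain ⟨q3, q4, q5⟩ := hin a x hx
    obtain ⟨q6, q7, q8⟩ := hin m y hy
    set P : G.Walk y x := q6.reverse.append (q.append q3) with hP
    have hPl : P.length ≤ 3 * p.length + 2 := by
      rw [hP, SimpleGraph.Walk.length_append, SimpleGraph.Walk.length_append,
        SimpleGraph.Walk.length_reverse]
      omega
    have hnot : s(x, y) ∉ P.edges := by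
      intro hmem
      have hin' : ∀ u, (∃ a ∈ f u, ∃ b ∈ f u, s(x, y) = s(a, b)) → False := by
        rintro u ⟨x', hx', y', hy', e⟩
        rcases Sym2.eq_iff.1 e with ⟨e1, e2⟩ | ⟨e1, e2⟩
        · exact h.ne ((hcell _ _ _ hx (e1 ▸ hx')).trans (hcell _ _ _ hy (e2 ▸ hy')).symm)
        · exact h.ne ((hcell _ _ _ hx (e1 ▸ hy')).trans (hcell _ _ _ hy (e2 ▸ hx')).symm)
      rw [hP, SimpleGraph.Walk.edges_append, List.mem_append, SimpleGraph.Walk.edges_reverse,
        List.mem_reverse, SimpleGraph.Walk.edges_append, List.mem_append] at hmem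
      rcases hmem with h1 | h1 | h1
      · exact hin' m (q8 _ h1)
      · rcases q2 _ h1 with ⟨u, h2⟩ | ⟨u, v, h2, x', hx', y', hy', e⟩
        · exact hin' u h2
        · rcases Sym2.eq_iff.1 e with ⟨e1, e2⟩ | ⟨e1, e2⟩
          · have h3 := hcell _ _ _ hx (e1 ▸ hx')
            have h4 := hcell _ _ _ hy (e2 ▸ hy')
            rw [← h3, ← h4] at h2
            exact he h2
          · have h3 := hcell _ _ _ hx (e1 ▸ hy')
            have h4 := hcell _ _ _ hy (e2 ▸ hx')
            rw [← h3, ← h4, Sym2.eq_swap] at h2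
            exact he h2
      · exact hin' a (q5 _ h1)
    have hcyc : (SimpleGraph.Walk.cons hxy P.bypass).IsCycle := by
      rw [SimpleGraph.Walk.cons_isCycle_iff]
      exact ⟨P.bypass_isPath, fun h1 => hnot (P.edges_bypass_subset_edges h1)⟩
    have h1 := SimpleGraph.le_egirth.1 hG x _ hcyc
    rw [SimpleGraph.Walk.length_cons] at h1
    have h2 : 3 * g ≤ P.bypass.length + 1 := by exact_mod_cast h1
    have h3 := P.length_bypass_le_length
    have h4 : g ≤ p.length + 1 := by omega
    rw [SimpleGraph.Walk.length_cons]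
    exact_mod_cast h4

/-- no small islands: every nonempty set of at most `s` vertices has a vertex with at least two
neighbours outside the set -/
def NoIsland {V : Type*} (G : SimpleGraph V) (s : ℕ) : Prop :=
  ∀ S : Set V, S.Nonempty → S.Finite → S.ncard ≤ s →
    ∃ v ∈ S, ∃ x y, x ≠ y ∧ x ∉ S ∧ y ∉ S ∧ G.Adj v x ∧ G.Adj v y

/-- removing small islands -/
theorem islands {s c : ℕ} (P : ∀ (V : Type u) [Fintype V], SimpleGraph V → Prop)
    (hP : ∀ (V : Type u) [Fintype V] (G : SimpleGraph V) (A : Set V) [Fintype A], P V G → P A (G.induce A))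
    (hcol : ∀ (V : Type u) [Fintype V] (G : SimpleGraph V), P V G → NoIsland G s →
      ∃ f : V → Bool, ∀ C, Cn G C → (∀ x ∈ C, ∀ y ∈ C, f x = f y) → C.ncard ≤ c) :
    ∀ (V : Type u) [Fintype V] (G : SimpleGraph V), P V G →
      ∃ f : V → Bool, ∀ C, Cn G C → (∀ x ∈ C, ∀ y ∈ C, f x = f y) → C.ncard ≤ max c s := by
  classical
  have main : ∀ n : ℕ, ∀ (V : Type u) [Fintype V] (G : SimpleGraph V), P V G → Fintype.card V ≤ n →
      ∃ f : V → Bool, ∀ C, Cn G C → (∀ x ∈ C, ∀ y ∈ C, f x = f y) → C.ncard ≤ max c s := by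
    intro n
    induction n with
    | zero =>
      intro V _ G _ hn
      refine ⟨fun _ => true, fun C hC _ => ?_⟩
      obtain ⟨x, _⟩ := hC.1
      have : 0 < Fintype.card V := Fintype.card_pos_iff.2 ⟨x⟩
      omega
    | succ n ih =>
      intro V _ G hPG hn
      by_cases hno : NoIsland G s
      · obtain ⟨f, hf⟩ := hcol V G hPG hno
        exact ⟨f, fun C hC hm => (hf C hC hm).trans (le_max_left _ _)⟩
      unfold NoIsland at hno
      push Not at hno
      obtain ⟨S, hS, _, hSs, hSi⟩ := hno
      obtain ⟨v0, hv0⟩ := hS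
      have hcard : Fintype.card (Sᶜ : Set V) ≤ n := by
        have h1 : Fintype.card (Sᶜ : Set V) < Fintype.card V := by
          refine Fintype.card_lt_of_injective_of_notMem (fun x : (Sᶜ : Set V) => x.1)
            Subtype.val_injective (b := v0) ?_
          rintro ⟨x, hx⟩
          have hx' : x.1 = v0 := hx
          exact x.2 (by rw [hx']; exact hv0)
        omega
      obtain ⟨f', hf'⟩ := ih (Sᶜ : Set V) (G.induce Sᶜ) (hP V G Sᶜ hPG) hcard
      set g : V → Bool := fun v => if h : v ∈ S then true else f' ⟨v, h⟩ with hg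
      set f : V → Bool := fun v => if v ∈ S then
        (if h : ∃ x, x ∉ S ∧ G.Adj v x then !(g h.choose) else true) else g v with hf
      have hout : ∀ v, v ∈ S → ∀ x, x ∉ S → G.Adj v x → f v ≠ f x := by
        intro v hv x hx hvx
        have hex : ∃ x, x ∉ S ∧ G.Adj v x := ⟨x, hx, hvx⟩
        have e : hex.choose = x := by
          by_contra hne
          exact hSi v hv _ x hne hex.choose_spec.1 hx hex.choose_spec.2 hvx
        have h1 : f v = !(g x) := by
          rw [hf]
          simp only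
          rw [if_pos hv, dif_pos hex, e]
        have h2 : f x = g x := by
          rw [hf]
          simp only
          rw [if_neg hx]
        rw [h1, h2]
        cases g x <;> simp
      refine ⟨f, fun C hC hm => ?_⟩
      by_cases hmeet : ∃ v ∈ C, v ∈ S
      · obtain ⟨v, hv, hvS⟩ := hmeet
        have hsub : C ⊆ S := by
          intro y hy
          by_contra hyS
          obtain ⟨a, b, ha, haS, hb, hbS, hab⟩ := leave hC hv hvS hy hyS
          exact hout a haS b hbS hab (hm a ha b hb)
        exact ((Set.ncard_le_ncard hsub (Set.toFinite _)).trans hSs).trans (le_max_right _ _)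
      · push Not at hmeet
        set C' : Set (Sᶜ : Set V) := {x | x.1 ∈ C} with hC'
        have himg : C = Subtype.val '' C' := by
          ext x
          constructor
          · intro hx; exact ⟨⟨x, hmeet x hx⟩, hx, rfl⟩
          · rintro ⟨y, hy, rfl⟩; exact hy
        have hcn : Cn (G.induce Sᶜ) C' := by
          obtain ⟨x0, hx0⟩ := hC.1
          refine ⟨⟨⟨x0, hmeet x0 hx0⟩, hx0⟩, ?_⟩
          have key : ∀ x (hx : x ∈ C) y (hy : y ∈ C), RI G C x y →
              RI (G.induce Sᶜ) C' ⟨x, hmeet x hx⟩ ⟨y, hmeet y hy⟩ := by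
            intro x hx y hy hxy
            induction hxy with
            | refl => exact RI.refl _
            | tail h1 h2 ih =>
              exact (ih h2.2.1).trans (RI.single h2.1 h2.2.1 h2.2.2)
          rintro ⟨x, hx⟩ hxC ⟨y, hy⟩ hyC
          exact key x hxC y hyC (hC.2 x hxC y hyC)
        have h1 := hf' C' hcn (by
          rintro ⟨x, hx⟩ hxC ⟨y, hy⟩ hyC
          have h2 := hm x hxC y hyC
          have e1 : f x = f' ⟨x, hx⟩ := by
            rw [hf]
            simp only
            rw [if_neg hx, hg]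
            simp only
            rw [dif_neg hx]
          have e2 : f y = f' ⟨y, hy⟩ := by
            rw [hf]
            simp only
            rw [if_neg hy, hg]
            simp only
            rw [dif_neg hy]
          rw [← e1, ← e2]; exact h2)
        rw [himg, Set.ncard_image_of_injective _ Subtype.val_injective]
        exact h1
  intro V _ G hPG
  exact main _ V G hPG (le_refl _)

open Classical in
/-- **Reduction to bounded degree**, by contracting stars. -/
theorem reductionS {V : Type u} [Fintype V] {G : SimpleGraph V} {r : V → ℕ} (hg : (9 : ℕ∞) ≤ G.egirth) (hr : Function.Injective r) {p : ℕ}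
    (hdir : ∀ a, (univ.filter (fun v => Dir G {x | r x ≤ r a} a v)).card ≤ p)
    {α : Type*} (ot : α → α) (hot : ∀ x, ot x ≠ x) {c : ℕ} (hc1 : 1 ≤ c)
    (hcol : ∀ (U : Type u) [Fintype U] (K : SimpleGraph U), SM K G → (∀ v, (nb K v).card ≤ (p + 1) * p) →
      ∃ f : U → α, ∀ C, Cn K C → (∀ x ∈ C, ∀ y ∈ C, f x = f y) → C.ncard ≤ c) :
    ∃ f : V → α, ∀ C, Cn G C → (∀ x ∈ C, ∀ y ∈ C, f x = f y) → C.ncard ≤ c * (p + 1) := by
  have hGpG : ∀ u v, (Gp G r).Adj u v → G.Adj u v := fun u v h => h.1
  have hpdeg := Gp_deg hdir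
  set Wd : V → Prop := fun w => ∃ a, Frc G r a w with hWd
  have hs1 : ∀ w w', Wd w → Wd w' → ¬ (Gp G r).Adj w w' := by
    rintro w w' ⟨a, ha⟩ ⟨a', ha'⟩ h
    exact sc1 hg hr ha ha' h
  have hs2 : ∀ w w' x, Wd w → Wd w' → (Gp G r).Adj w x → (Gp G r).Adj w' x → w = w' := by
    rintro w w' x ⟨a, ha⟩ ⟨a', ha'⟩ h h'
    exact sc2 hg hr ha ha' h h'
  -- the projection
  have hπ : ∀ x, ∃ y, (Wd x → y = x) ∧ (∀ w, Wd w → (Gp G r).Adj w x → y = w) ∧
      ((¬ Wd x ∧ ∀ w, Wd w → ¬ (Gp G r).Adj w x) → y = x) := by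
    intro x
    by_cases h1 : Wd x
    · exact ⟨x, fun _ => rfl, fun w hw h => absurd h (hs1 w x hw h1), fun _ => rfl⟩
    · by_cases h2 : ∃ w, Wd w ∧ (Gp G r).Adj w x
      · obtain ⟨w, hw, hwx⟩ := h2
        refine ⟨w, fun h => absurd h h1, fun w' hw' h => hs2 w w' x hw hw' hwx h, fun h => ?_⟩
        exact absurd hwx (h.2 w hw)
      · push Not at h2
        exact ⟨x, fun h => rfl, fun w hw h => absurd h (h2 w hw), fun _ => rfl⟩
  choose π hπ1 hπ2 hπ3 using hπ
  have hπcase : ∀ x, π x = x ∨ (Wd (π x) ∧ (Gp G r).Adj (π x) x) := by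
    intro x
    by_cases h1 : Wd x
    · exact Or.inl (hπ1 x h1)
    · by_cases h2 : ∃ w, Wd w ∧ (Gp G r).Adj w x
      · obtain ⟨w, hw, hwx⟩ := h2
        right
        rw [hπ2 x w hw hwx]
        exact ⟨hw, hwx⟩
      · push Not at h2
        exact Or.inl (hπ3 x ⟨h1, h2⟩)
  have hππ : ∀ x, π (π x) = π x := by
    intro x
    rcases hπcase x with h | h
    · rw [h, h]
    · exact hπ1 _ h.1
  -- the quotient
  let U := {u : V // π u = u}
  let K : SimpleGraph U :=
    { Adj := fun u v => u ≠ v ∧ ∃ x y, π x = u.1 ∧ π y = v.1 ∧ (Gp G r).Adj x y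
      symm := ⟨by rintro u v ⟨h, x, y, hx, hy, hxy⟩; exact ⟨h.symm, y, x, hy, hx, hxy.symm⟩⟩
      loopless := ⟨by rintro u ⟨h, _⟩; exact h rfl⟩ }
  have hKG : SM K G := by
    refine ⟨fun u => {x | π x = u.1}, fun u => u.1, fun u => u.2, ?_, ?_, ?_⟩
    · intro u x hx
      have hx' : π x = u.1 := hx
      rcases hπcase x with h | h
      · left; exact h.symm.trans hx'
      · right
        rw [hx'] at h
        exact hGpG _ _ h.2
    · intro u v huv
      rw [Set.disjoint_left]
      intro x hx hx'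
      have h1 : π x = u.1 := hx
      have h2 : π x = v.1 := hx'
      exact huv (Subtype.ext (h1.symm.trans h2))
    · rintro u v ⟨_, x, y, hx, hy, hxy⟩
      exact ⟨x, hx, y, hy, hGpG _ _ hxy⟩
  have hfib : ∀ u : V, (univ.filter (fun x => π x = u)).card ≤ p + 1 := by
    intro u
    have hsub : univ.filter (fun x => π x = u) ⊆ insert u (nb (Gp G r) u) := by
      intro x hx
      rw [Finset.mem_filter] at hx
      rw [Finset.mem_insert, mem_nb]
      rcases hπcase x with h | h
      · left; rw [← h]; exact hx.2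
      · right; rw [← hx.2]; exact h.2
    have h1 := Finset.card_le_card hsub
    have h2 := Finset.card_insert_le u (nb (Gp G r) u)
    have h3 := hpdeg u
    omega
  have hKdeg : ∀ v, (nb K v).card ≤ (p + 1) * p := by
    intro u
    have h1 : (nb K u).card ≤
        (((univ.filter (fun x => π x = u.1)).biUnion (fun x => nb (Gp G r) x)).image π).card := by
      refine Finset.card_le_card_of_injOn (fun v => v.1) ?_ (fun x _ y _ h => Subtype.ext h)
      intro v hv
      rw [Finset.mem_coe, mem_nb] at hv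
      obtain ⟨_, x, y, hx, hy, hxy⟩ := hv
      rw [Finset.mem_coe, Finset.mem_image]
      refine ⟨y, ?_, hy⟩
      rw [Finset.mem_biUnion]
      exact ⟨x, by rw [Finset.mem_filter]; exact ⟨mem_univ _, hx⟩, mem_nb.2 hxy⟩
    calc (nb K u).card ≤ _ := h1
      _ ≤ ((univ.filter (fun x => π x = u.1)).biUnion (fun x => nb (Gp G r) x)).card := Finset.card_image_le
      _ ≤ (univ.filter (fun x => π x = u.1)).card * p :=
          Finset.card_biUnion_le_card_mul _ _ _ (fun x _ => hpdeg x)
      _ ≤ (p + 1) * p := Nat.mul_le_mul_right _ (hfib u.1)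
  obtain ⟨fK, hfK⟩ := hcol U K hKG hKdeg
  set f0 : V → α := fun v => fK ⟨π v, hππ v⟩ with hf0
  -- recolouring
  have hrec : ∀ n : ℕ, ∃ f : V → α, ∀ v, r v < n → (∀ a, Frc G r a v → f v ≠ f a) ∧ (f v = f0 v ∨ Wd v) := by
    intro n
    induction n with
    | zero => exact ⟨f0, fun v h => absurd h (Nat.not_lt_zero _)⟩
    | succ n ih =>
      obtain ⟨f, hf⟩ := ih
      refine ⟨fun v => if r v = n then (if ∃ a, Frc G r a v ∧ f0 v = f a then ot (f0 v) else f0 v) else f v, ?_⟩
      intro v hv
      simp only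
      by_cases hvn : r v = n
      · rw [if_pos hvn]
        by_cases hex : ∃ a, Frc G r a v ∧ f0 v = f a
        · rw [if_pos hex]
          obtain ⟨a, ha, hfa⟩ := hex
          refine ⟨?_, Or.inr ⟨a, ha⟩⟩
          intro a' ha'
          have e : a = a' := Frc_uniq hr ha ha'
          subst e
          have hne : r a ≠ n := by have := ha.1; omega
          rw [if_neg hne, ← hfa]
          exact hot _
        · rw [if_neg hex]
          refine ⟨?_, Or.inl rfl⟩
          intro a' ha'
          have hne : r a' ≠ n := by have := ha'.1; omega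
          rw [if_neg hne]
          intro e
          exact hex ⟨a', ha', e⟩
      · rw [if_neg hvn]
        have h1 := hf v (by omega)
        refine ⟨?_, h1.2⟩
        intro a ha
        have hne : r a ≠ n := by have := ha.1; omega
        rw [if_neg hne]
        exact h1.1 a ha
  obtain ⟨m, hm⟩ : ∃ m, ∀ v, r v < m := by
    obtain ⟨m, hm⟩ := Finset.exists_nat_subset_range (univ.image r)
    exact ⟨m, fun v => Finset.mem_range.1 (hm (Finset.mem_image_of_mem _ (mem_univ v)))⟩
  obtain ⟨f, hf⟩ := hrec m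
  have hf1 : ∀ a w, Frc G r a w → f w ≠ f a := fun a w h => (hf w (hm w)).1 a h
  have hf2 : ∀ v, ¬ Wd v → f v = f0 v := fun v hv => (hf v (hm v)).2.resolve_right hv
  refine ⟨f, ?_⟩
  intro C hC hmono
  -- `C` is connected in the bounded degree graph
  have hCp : Cn (Gp G r) C := by
    refine hC.mono_graph ?_
    intro u hu v hv huv
    rcases Gp_or_Frc hr huv with h | h | h
    · exact h
    · exact absurd (hmono v hv u hu) (hf1 u v h)
    · exact absurd (hmono u hu v hv) (hf1 v u h)
  by_cases hrecol : ∃ v ∈ C, f v ≠ f0 v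
  · obtain ⟨v, hv, hvf⟩ := hrecol
    have hWv : Wd v := by
      by_contra h
      exact hvf (hf2 v h)
    have hsub : C ⊆ {v} := by
      intro y hy
      by_contra hyv
      obtain ⟨a, b, ha, haA, hb, hbA, hab⟩ := leave hCp hv (show v ∈ ({v} : Set V) from rfl) hy hyv
      have hav : a = v := haA
      subst hav
      have hWb : ¬ Wd b := fun h => hs1 a b hWv h hab
      have h1 : f b = f0 b := hf2 b hWb
      have h2 : π b = a := hπ2 b a hWv hab
      have h3 : π a = a := hπ1 a hWv
      have h4 : f0 b = f0 a := by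
        rw [hf0]
        simp only
        congr 1
        apply Subtype.ext
        show π b = π a
        rw [h2, h3]
      apply hvf
      rw [← h4, ← h1]
      exact hmono a ha b hb
    have h1 : C.ncard ≤ 1 := by
      have := Set.ncard_le_ncard hsub (Set.toFinite _)
      rwa [Set.ncard_singleton] at this
    have h2 : 1 ≤ c * (p + 1) := Nat.mul_pos hc1 (Nat.succ_pos _)
    omega
  · push Not at hrecol
    set C' : Set U := {u | ∃ x ∈ C, π x = u.1} with hC'
    let im : V → U := fun x => ⟨π x, hππ x⟩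
    have him : ∀ x ∈ C, im x ∈ C' := fun x hx => ⟨x, hx, rfl⟩
    have hC'C : Cn K C' := by
      obtain ⟨x0, hx0⟩ := hC.1
      refine Cn_of_center (him x0 hx0) ?_
      have hgen : ∀ x, RI (Gp G r) C x0 x → RI K C' (im x0) (im x) := by
        intro x h
        induction h with
        | refl => exact RI.refl _
        | @tail y z h1 h2 ih =>
          by_cases e : im y = im z
          · rw [← e]; exact ih
          · exact ih.trans (RI.single ⟨e, y, z, rfl, rfl, h2.1⟩ (him y h2.2.1) (him z h2.2.2))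
      rintro u ⟨x, hx, hxu⟩
      have hu : u = im x := Subtype.ext hxu.symm
      rw [hu]
      exact hgen x (hCp.2 x0 hx0 x hx)
    have h1 := hfK C' hC'C (by
      rintro u ⟨x, hx, hxu⟩ v ⟨y, hy, hyv⟩
      have e1 : u = im x := Subtype.ext hxu.symm
      have e2 : v = im y := Subtype.ext hyv.symm
      rw [e1, e2]
      have h2 := hmono x hx y hy
      rw [hrecol x hx, hrecol y hy] at h2
      exact h2)
    -- count
    set C'F : Finset U := univ.filter (fun u => u ∈ C') with hC'F
    have hC'Fc : C'F.card = C'.ncard := by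
      rw [← Set.ncard_coe_finset]
      congr 1
      ext v; simp [hC'F]
    have hsub : C ⊆ ((C'F.biUnion (fun u => univ.filter (fun x => π x = u.1)) : Finset V) : Set V) := by
      intro x hx
      rw [Finset.mem_coe, Finset.mem_biUnion]
      refine ⟨im x, ?_, ?_⟩
      · rw [hC'F, Finset.mem_filter]; exact ⟨mem_univ _, him x hx⟩
      · rw [Finset.mem_filter]; exact ⟨mem_univ _, rfl⟩
    have h2 : C.ncard ≤ (C'F.biUnion (fun u => univ.filter (fun x => π x = u.1))).card := by
      rw [← Set.ncard_coe_finset]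
      exact Set.ncard_le_ncard hsub (Finset.finite_toSet _)
    have h3 : (C'F.biUnion (fun u => univ.filter (fun x => π x = u.1))).card ≤ C'F.card * (p + 1) :=
      Finset.card_biUnion_le_card_mul _ _ _ (fun u _ => hfib u.1)
    calc C.ncard ≤ _ := h2
      _ ≤ _ := h3
      _ ≤ c * (p + 1) := Nat.mul_le_mul_right _ (by rw [hC'Fc]; exact h1)


open Classical in
/-- **Two colours: reduction to bounded degree, keeping the girth up to a factor three.** -/
theorem two_red {t g p : ℕ} (hp : p = 2 ^ (t + 1)) {V : Type u} [Fintype V] {G : SimpleGraph V}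
    (hg : (9 : ℕ∞) ≤ G.egirth) (hg3 : ((3 * g : ℕ) : ℕ∞) ≤ G.egirth) (hKM : ¬ KM G t)
    {c : ℕ} (hc1 : 1 ≤ c)
    (hcol : ∀ (U : Type u) [Fintype U] (K : SimpleGraph U), ¬ KM K t → (g : ℕ∞) ≤ K.egirth →
      (∀ v, (nb K v).card ≤ (p + 1) * p) →
      ∃ f : U → Bool, ∀ C, Cn K C → (∀ x ∈ C, ∀ y ∈ C, f x = f y) → C.ncard ≤ c) :
    ∃ f : V → Bool, ∀ C, Cn G C → (∀ x ∈ C, ∀ y ∈ C, f x = f y) → C.ncard ≤ c * (p + 1) := by
  subst hp
  obtain ⟨r, hr, hdir⟩ := exists_order (V := V)
    (fun S a => (univ.filter (fun v => Dir G (S : Set V) a v)).card ≤ 2 ^ (t + 1))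
    (fun S hS => order_step hg hKM S hS)
  refine reductionS hg hr (p := 2 ^ (t + 1)) ?_ (fun x : Bool => !x) ?_ hc1 ?_
  · intro a
    have h := hdir a
    have e : ((univ.filter (fun x => r x ≤ r a) : Finset V) : Set V) = {x | r x ≤ r a} := by
      ext x; simp
    rw [e] at h
    convert h
  · intro x; cases x <;> simp
  · intro U _ K hK hdeg
    exact hcol U K (fun h => hKM (h.of_Mn hK.Mn)) (SM_girth hK hg3) hdeg

end Pool.Agent.Lib.MP_4332cb_co
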