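import Pool.Agent.Lib.MP_4332cb_co.LayerN

/-!
Graphs of girth at least seven without a large complete minor: three colours, the third one used only
in one of `n` parts.
-/

namespace Pool.Agent.Lib.MP_4332cb_co

open Finset

universe u

section Abs

variable {V : Type u} {G : SimpleGraph V} {lv : V → ℕ}

/-- the vertices in the blocks `j - 1`, `j`, `j + 1` -/
def chk (lv : V → ℕ) (j : ℕ) : Set V := {v | j ≤ lv v + 1 ∧ lv v ≤ j + 1}

/-- power graph on layer `j` -/
def pwA (G : SimpleGraph V) (lv : V → ℕ) (m j : ℕ) : SimpleGraph V where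
  Adj u v := u ≠ v ∧ lv u = j ∧ lv v = j ∧ ∃ D, Cn G D ∧ D.ncard ≤ m ∧ u ∈ D ∧ v ∈ D ∧ D ⊆ chk lv j
  symm := ⟨by
    rintro u v ⟨h1, h2, h3, D, h4, h5, h6, h7, h8⟩
    exact ⟨h1.symm, h3, h2, D, h4, h5, h7, h6, h8⟩⟩
  loopless := ⟨by rintro u ⟨h, _⟩; exact h rfl⟩

variable [Fintype V]

lemma pwA_deg {Δ : ℕ} (hdeg : ∀ v, (nb G v).card ≤ Δ) (m j : ℕ) :
    ∀ u, (nb (pwA G lv m j) u).card ≤ (Δ + 1) ^ m := by
  intro u
  refine le_trans (Finset.card_le_card ?_) (Nbh_card hdeg u m)
  intro v hv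
  rw [mem_nb] at hv
  obtain ⟨_, _, _, D, h4, h5, h6, h7, _⟩ := hv
  exact Finset.mem_coe.1 (Nbh_cover h4 h6 h5 h7)

/-- bound on the separators of the power graph -/
def K4A (K Δ m : ℕ) : ℕ := K * (Δ + 1) ^ m + 1

open Classical in
theorem pwA_bal {K Δ : ℕ} (hdeg : ∀ v, (nb G v).card ≤ Δ)
    (hreg : ∀ (j : ℕ) (S : Finset V), ∃ X : Finset V, X.card ≤ K ∧ ∀ C, Cn G C → C ⊆ chk lv j →
      Disjoint C (X : Set V) → 2 * (S.filter (fun v => v ∈ C)).card ≤ S.card)
    (m j : ℕ) (hm : 1 ≤ m) : Bal (pwA G lv m j) (K4A K Δ m) := by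
  classical
  intro S
  by_cases hS : S.card ≤ 1
  · refine ⟨S, by unfold K4A; omega, ?_⟩
    intro C _ hd
    have : S.filter (fun v => v ∈ C) = ∅ := by
      rw [Finset.filter_eq_empty_iff]
      intro v hv hvC
      exact Set.disjoint_left.1 hd hvC hv
    rw [this]; simp
  · push Not at hS
    obtain ⟨X, hX, hXb⟩ := hreg j S
    refine ⟨X.biUnion (fun x => Nbh G x m), ?_, ?_⟩
    · have h1 : (X.biUnion (fun x => Nbh G x m)).card ≤ X.card * (Δ + 1) ^ m :=
        Finset.card_biUnion_le_card_mul _ _ _ (fun x _ => Nbh_card hdeg x m)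
      have h2 : X.card * (Δ + 1) ^ m ≤ K * (Δ + 1) ^ m := Nat.mul_le_mul_right _ hX
      unfold K4A; omega
    · intro C hC hd
      by_cases hlay : ∃ u ∈ C, lv u ≠ j
      · obtain ⟨u, hu, huj⟩ := hlay
        have hiso : ∀ w, ¬ (pwA G lv m j).Adj w u := fun w h => huj h.2.2.1
        have hCu : C ⊆ {u} := by
          intro v hv
          have h1 := hC.2 v hv u hu
          have : v = u := RI_ne_of_isolated hiso h1
          exact this
        have h2 : (S.filter (fun v => v ∈ C)).card ≤ 1 := by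
          apply Finset.card_le_one.2
          intro x hx y hy
          rw [Finset.mem_filter] at hx hy
          have e1 : x = u := hCu hx.2
          have e2 : y = u := hCu hy.2
          rw [e1, e2]
        omega
      · push Not at hlay
        have hchunk : ∀ u ∈ C, u ∈ chk lv j := by
          intro u hu
          have := hlay u hu
          show j ≤ lv u + 1 ∧ lv u ≤ j + 1
          omega
        set C' : Set V := {y | ∃ u ∈ C, ∃ D, Cn G D ∧ D.ncard ≤ m ∧ u ∈ D ∧ y ∈ D ∧ D ⊆ chk lv j} with hC'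
        have hCC' : C ⊆ C' := by
          intro u hu
          refine ⟨u, hu, {u}, Cn_singleton G u, ?_, rfl, rfl, ?_⟩
          · rw [Set.ncard_singleton]; exact hm
          · rintro v hv
            have : v = u := hv
            rw [this]; exact hchunk u hu
        have hDC' : ∀ u ∈ C, ∀ D, Cn G D → D.ncard ≤ m → u ∈ D → D ⊆ chk lv j → D ⊆ C' :=
          fun u hu D h1 h2 h3 h4 y hy => ⟨u, hu, D, h1, h2, h3, hy, h4⟩
        have hC'C : Cn G C' := by
          obtain ⟨u0, hu0⟩ := hC.1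
          refine Cn_of_center (hCC' hu0) ?_
          have hgen : ∀ u, RI (pwA G lv m j) C u0 u → RI G C' u0 u := by
            intro u h
            induction h with
            | refl => exact RI.refl _
            | @tail y z h2 h3 ih =>
              obtain ⟨⟨_, _, _, D, d1, d2, d3, d4, d5⟩, hy, hz⟩ := h3
              exact ih.trans ((d1.2 y d3 z d4).monoS (hDC' y hy D d1 d2 d3 d5))
          rintro y ⟨u, hu, D, d1, d2, d3, d4, d5⟩
          exact (hgen u (hC.2 u0 hu0 u hu)).trans ((d1.2 u d3 y d4).monoS (hDC' u hu D d1 d2 d3 d5))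
        have hC'j : C' ⊆ chk lv j := by
          rintro y ⟨u, _, D, _, _, _, d4, d5⟩
          exact d5 d4
        have hC'X : Disjoint C' (X : Set V) := by
          rw [Set.disjoint_left]
          rintro y ⟨u, hu, D, d1, d2, d3, d4, _⟩ hyX
          apply Set.disjoint_left.1 hd hu
          rw [Finset.mem_coe, Finset.mem_biUnion]
          exact ⟨y, hyX, Finset.mem_coe.1 (Nbh_cover d1 d4 d2 d3)⟩
        have h1 : 2 * (S.filter (fun v => v ∈ C')).card ≤ S.card := by
          convert hXb C' hC'C hC'j hC'X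
        have h2 : (S.filter (fun v => v ∈ C)).card ≤ (S.filter (fun v => v ∈ C')).card := by
          apply Finset.card_le_card
          intro v hv
          rw [Finset.mem_filter] at hv ⊢
          exact ⟨hv.1, hCC' hv.2⟩
        omega


/-- clustering of one block at scale `m` -/
def ccA (K Δ m : ℕ) : ℕ := 24 * K4A K Δ m * (Δ + 1) ^ m

/-- the three scales -/
def sclA (K Δ : ℕ) : ℕ → ℕ
  | 0 => 2
  | 1 => ccA K Δ 2 + 2
  | _ => ccA K Δ 2 + ccA K Δ (ccA K Δ 2 + 2) + 2

/-- the clustering bound of each type of block -/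
def clA (K Δ i : ℕ) : ℕ := ccA K Δ (sclA K Δ i)

/-- final bound -/
def CBA (K Δ : ℕ) : ℕ :=
  (clA K Δ 0 + clA K Δ 1 + clA K Δ 2 + 1) + (clA K Δ 0 + clA K Δ 1 + clA K Δ 2 + 1) +
    (clA K Δ 0 + clA K Δ 1 + clA K Δ 2 + 1) * Δ * (clA K Δ 0 + clA K Δ 1 + clA K Δ 2 + 1)

open Classical in
/-- three colours along blocks of a graph of bounded degree -/
theorem three_abs {K Δ : ℕ} (hdeg : ∀ v, (nb G v).card ≤ Δ) (hadj : ∀ u v, G.Adj u v → lv u ≤ lv v + 1)
    (hreg : ∀ (j : ℕ) (S : Finset V), ∃ X : Finset V, X.card ≤ K ∧ ∀ C, Cn G C → C ⊆ chk lv j →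
      Disjoint C (X : Set V) → 2 * (S.filter (fun v => v ∈ C)).card ≤ S.card) :
    ∃ f : V → Fin 3, (∀ v, f v = 2 → lv v % 3 ≠ 0) ∧
      ∀ C, Cn G C → (∀ x ∈ C, ∀ y ∈ C, f x = f y) → C.ncard ≤ CBA K Δ := by
  classical
  have hK4 : ∀ m, 1 ≤ K4A K Δ m := fun m => by unfold K4A; omega
  have hscl : ∀ i, 2 ≤ sclA K Δ i := by
    intro i
    rcases i with _ | _ | i
    · exact le_refl _
    · show 2 ≤ ccA K Δ 2 + 2; omega
    · show 2 ≤ ccA K Δ 2 + ccA K Δ (ccA K Δ 2 + 2) + 2; omega
  have hcol : ∀ j, ∃ f : V → Bool, ∀ C, Cn (pwA G lv (sclA K Δ (j % 3)) j) C →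
      (∀ x ∈ C, ∀ y ∈ C, f x = f y) → C.ncard ≤ clA K Δ (j % 3) := by
    intro j
    have h1 := two_col (J := pwA G lv (sclA K Δ (j % 3)) j) (hK4 (sclA K Δ (j % 3)))
      (Nat.one_le_pow _ _ (by omega)) (pwA_deg hdeg _ j)
      (pwA_bal hdeg hreg _ j (by have := hscl (j % 3); omega))
    exact h1
  choose g hg using hcol
  -- connected sets of `G` inside a layer
  have hlayer : ∀ j, ∀ D, Cn G D → (∀ x ∈ D, lv x = j) → (∀ x ∈ D, ∀ y ∈ D, g j x = g j y) →
      D.ncard ≤ clA K Δ (j % 3) := by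
    intro j D hD hDj hm
    refine hg j D ⟨hD.1, ?_⟩ hm
    intro x hx y hy
    refine (hD.2 x hx y hy).mono ?_ (le_refl _)
    intro u hu v hv huv
    refine ⟨huv.ne, hDj u hu, hDj v hv, {u} ∪ {v}, (Cn_singleton G u).union_of_adj (Cn_singleton G v) rfl rfl huv,
      ?_, Or.inl rfl, Or.inr rfl, ?_⟩
    · have h5 : ({u} ∪ {v} : Set V).ncard ≤ ({u} : Set V).ncard + ({v} : Set V).ncard :=
        Set.ncard_union_le _ _
      rw [Set.ncard_singleton, Set.ncard_singleton] at h5
      have := hscl (j % 3)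
      omega
    · have h1 := hDj u hu
      have h2 := hDj v hv
      rintro w (h | h)
      · have : w = u := h
        rw [this]; show j ≤ lv u + 1 ∧ lv u ≤ j + 1; omega
      · have : w = v := h
        rw [this]; show j ≤ lv v + 1 ∧ lv v ≤ j + 1; omega
  set F : V → ℕ := fun v => (lv v + (if g (lv v) v = true then 1 else 0)) % 3 with hF
  refine ⟨fun v => ⟨F v, Nat.mod_lt _ (by norm_num)⟩, ?_, ?_⟩
  · intro v hv h0
    have h1 : F v = 2 := congrArg Fin.val hv
    rw [hF] at h1
    simp only at h1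
    split_ifs at h1 <;> omega
  intro C hC hmono
  have hmono' : ∀ x ∈ C, ∀ y ∈ C, F x = F y := fun x hx y hy => congrArg Fin.val (hmono x hx y hy)
  obtain ⟨x0, hx0⟩ := hC.1
  set c := F x0 with hc
  have hc3 : c < 3 := Nat.mod_lt _ (by norm_num)
  have hFc : ∀ x ∈ C, F x = c := fun x hx => hmono' x hx x0 hx0
  -- the upper layer
  obtain ⟨j, hjc, hj0⟩ : ∃ j, j % 3 = c ∧ (lv x0 = j ∨ lv x0 + 1 = j) := by
    have h1 := hFc x0 hx0
    rw [hF] at h1
    simp only at h1
    split_ifs at h1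
    · exact ⟨lv x0 + 1, h1, Or.inr rfl⟩
    · exact ⟨lv x0, by omega, Or.inl rfl⟩
  have hallC : ∀ x ∈ C, lv x = j ∨ lv x + 1 = j := by
    have hgen : ∀ x, RI G C x0 x → lv x = j ∨ lv x + 1 = j := by
      intro x h
      induction h with
      | refl => exact hj0
      | @tail y z h1 h2 ih =>
        have h3 := hadj y z h2.1
        have h4 := hadj z y h2.1.symm
        have h5 := hFc z h2.2.2
        rw [hF] at h5
        simp only at h5
        split_ifs at h5 <;> omega
    exact fun x hx => hgen x (hC.2 x0 hx0 x hx)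
  -- values of `g`
  have hghi : ∀ x ∈ C, lv x = j → g j x = false := by
    intro x hx hxj
    have h5 := hFc x hx
    rw [hF] at h5
    simp only at h5
    rw [hxj] at h5
    by_contra hcon
    rw [Bool.not_eq_false] at hcon
    rw [if_pos hcon] at h5
    omega
  have hglo : ∀ x ∈ C, lv x + 1 = j → g (lv x) x = true := by
    intro x hx hxj
    have h5 := hFc x hx
    rw [hF] at h5
    simp only at h5
    by_contra hcon
    rw [if_neg hcon] at h5
    omega
  set Hi : Set V := {v | lv v = j} with hHi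
  set Lo : Set V := {v | lv v + 1 = j} with hLo
  have hdis : Disjoint Hi Lo := by
    rw [Set.disjoint_left]
    intro x hx hx'
    have h1 : lv x = j := hx
    have h2 : lv x + 1 = j := hx'
    omega
  -- generic estimate
  have hHiD : ∀ D, D ⊆ C ∩ Hi → Cn G D → D.ncard ≤ clA K Δ (j % 3) + 1 := by
    intro D hD hDc
    have := hlayer j D hDc (fun x hx => (hD hx).2) (fun x hx y hy => by
      rw [hghi x (hD hx).1 (hD hx).2, hghi y (hD hy).1 (hD hy).2])
    omega
  have hLoD : ∀ D, D ⊆ C ∩ Lo → Cn G D → D.ncard ≤ clA K Δ ((j + 2) % 3) + 1 := by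
    intro D hD hDc
    obtain ⟨x, hx⟩ := hDc.1
    have hxj : lv x + 1 = j := (hD hx).2
    have hall : ∀ y ∈ D, lv y = lv x := by
      intro y hy
      have hyj : lv y + 1 = j := (hD hy).2
      omega
    have h1 := hlayer (lv x) D hDc hall (fun y hy z hz => by
      have h1 := hglo y (hD hy).1 (hD hy).2
      have h2 := hglo z (hD hz).1 (hD hz).2
      rw [hall y hy] at h1
      rw [hall z hz] at h2
      rw [h1, h2])
    have h2 : lv x % 3 = (j + 2) % 3 := by omega
    rw [h2] at h1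
    omega
  have hHiJ : ∀ D, D ⊆ C ∩ Hi → Cn (pwA G lv (sclA K Δ (j % 3)) j) D → D.ncard ≤ clA K Δ (j % 3) := by
    intro D hD hDc
    refine hg j D hDc (fun x hx y hy => ?_)
    rw [hghi x (hD hx).1 (hD hx).2, hghi y (hD hy).1 (hD hy).2]
  have hchHi : ∀ D, D ⊆ C → D ⊆ chk lv j := by
    intro D hD x hx
    rcases hallC x (hD hx) with h | h
    · show j ≤ lv x + 1 ∧ lv x ≤ j + 1; omega
    · show j ≤ lv x + 1 ∧ lv x ≤ j + 1; omega
  have hCU : C ⊆ Lo ∪ Hi := by
    intro x hx
    rcases hallC x hx with h | h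
    · exact Or.inr h
    · exact Or.inl h
  have s0 : sclA K Δ 0 = 2 := rfl
  have s1 : sclA K Δ 1 = ccA K Δ 2 + 2 := rfl
  have s2 : sclA K Δ 2 = ccA K Δ 2 + ccA K Δ (ccA K Δ 2 + 2) + 2 := rfl
  have l0 : clA K Δ 0 = ccA K Δ 2 := rfl
  have l1 : clA K Δ 1 = ccA K Δ (ccA K Δ 2 + 2) := rfl
  have hccpos : ∀ m, 1 ≤ ccA K Δ m := by
    intro m
    unfold ccA
    have := hK4 m
    have h2 : 1 ≤ (Δ + 1) ^ m := Nat.one_le_pow _ _ (by omega)
    exact Nat.mul_pos (by omega) h2
  have hfin : ∀ a b, a ≤ clA K Δ 0 + clA K Δ 1 + clA K Δ 2 + 1 → b ≤ clA K Δ 0 + clA K Δ 1 + clA K Δ 2 + 1 →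
      a + b + b * Δ * a ≤ CBA K Δ := by
    intro a b ha hb
    unfold CBA
    have h1 : b * Δ * a ≤ (clA K Δ 0 + clA K Δ 1 + clA K Δ 2 + 1) * Δ * (clA K Δ 0 + clA K Δ 1 + clA K Δ 2 + 1) :=
      Nat.mul_le_mul (Nat.mul_le_mul_right _ hb) ha
    omega
  -- case distinction on the colour
  rcases (show c = 0 ∨ c = 1 ∨ c = 2 by omega) with h | h | h
  · -- upper layer type 0 (low scale), lower layer type 2 (high scale)
    have hj3 : j % 3 = 0 := by omega
    have hj3' : (j + 2) % 3 = 2 := by omega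
    by_cases hjpos : j = 0
    · -- only the upper layer
      have hsub : C ⊆ C ∩ Hi := by
        intro x hx
        rcases hallC x hx with h' | h'
        · exact ⟨hx, h'⟩
        · omega
      have h1 := hHiD C hsub hC
      rw [hj3] at h1
      refine le_trans ?_ (hfin (clA K Δ 0 + 1) 0 (by omega) (by omega))
      omega
    · obtain ⟨i, rfl⟩ : ∃ i, j = i + 1 := ⟨j - 1, by omega⟩
      have hi3 : i % 3 = 2 := by omega
      have hg' : ∀ D, D ⊆ C ∩ Lo → Cn (pwA G lv (sclA K Δ (i % 3)) i) D → D.ncard ≤ clA K Δ (i % 3) := by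
        intro D hD hDc
        refine hg i D hDc (fun x hx y hy => ?_)
        have h1 : lv x + 1 = i + 1 := (hD hx).2
        have h2 : lv y + 1 = i + 1 := (hD hy).2
        have h3 := hglo x (hD hx).1 h1
        have h4 := hglo y (hD hy).1 h2
        have e1 : lv x = i := by omega
        have e2 : lv y = i := by omega
        rw [e1] at h3
        rw [e2] at h4
        rw [h3, h4]
      have := two_layer (J := pwA G lv (sclA K Δ (i % 3)) i) (a := clA K Δ 0) (b := clA K Δ (i % 3)) hdeg hC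
        (P := Hi) (Q := Lo) (by rw [Set.union_comm]; exact hCU) hdis (by rw [l0]; exact hccpos 2)
        (by
          intro D hD hDc
          have := hlayer (i + 1) D hDc (fun x hx => (hD hx).2) (fun x hx y hy => by
            rw [hghi x (hD hx).1 (hD hx).2, hghi y (hD hy).1 (hD hy).2])
          rw [hj3] at this
          exact this) hg'
        (by
          rintro u hu v hv huv ⟨D, d1, d2, d3, d4, d5⟩
          have e1 : lv u + 1 = i + 1 := hu.2
          have e2 : lv v + 1 = i + 1 := hv.2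
          refine ⟨huv, by omega, by omega, D, d1, ?_, d3, d4, ?_⟩
          · rw [hi3, s2]
            rw [l0] at d2
            omega
          · intro x hx
            rcases hallC x (d5 hx) with h' | h'
            · show i ≤ lv x + 1 ∧ lv x ≤ i + 1; omega
            · show i ≤ lv x + 1 ∧ lv x ≤ i + 1; omega)
      rw [hi3] at this
      refine le_trans this (hfin _ _ (by omega) (by omega))
  · -- upper layer type 1 (high scale), lower layer type 0
    have hj3 : j % 3 = 1 := by omega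
    have hj3' : (j + 2) % 3 = 0 := by omega
    have := two_layer (J := pwA G lv (sclA K Δ (j % 3)) j) (a := clA K Δ 0) (b := clA K Δ (j % 3)) hdeg hC
      (P := Lo) (Q := Hi) hCU hdis.symm (by rw [l0]; exact hccpos 2)
      (by
        intro D hD hDc
        obtain ⟨x, hx⟩ := hDc.1
        have hxj : lv x + 1 = j := (hD hx).2
        have hall : ∀ y ∈ D, lv y = lv x := by
          intro y hy
          have hyj : lv y + 1 = j := (hD hy).2
          omega
        have h1 := hlayer (lv x) D hDc hall (fun y hy z hz => by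
          have h1 := hglo y (hD hy).1 (hD hy).2
          have h2 := hglo z (hD hz).1 (hD hz).2
          rw [hall y hy] at h1
          rw [hall z hz] at h2
          rw [h1, h2])
        have h2 : lv x % 3 = 0 := by omega
        rw [h2] at h1
        exact h1) hHiJ
      (by
        rintro u hu v hv huv ⟨D, d1, d2, d3, d4, d5⟩
        refine ⟨huv, hu.2, hv.2, D, d1, ?_, d3, d4, hchHi D d5⟩
        rw [hj3, s1]
        rw [l0] at d2
        omega)
    rw [hj3] at this
    refine le_trans this (hfin _ _ (by omega) (by omega))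
  · -- upper layer type 2 (high scale), lower layer type 1
    have hj3 : j % 3 = 2 := by omega
    have := two_layer (J := pwA G lv (sclA K Δ (j % 3)) j) (a := clA K Δ 1) (b := clA K Δ (j % 3)) hdeg hC
      (P := Lo) (Q := Hi) hCU hdis.symm (by rw [l1]; exact hccpos _)
      (by
        intro D hD hDc
        obtain ⟨x, hx⟩ := hDc.1
        have hxj : lv x + 1 = j := (hD hx).2
        have hall : ∀ y ∈ D, lv y = lv x := by
          intro y hy
          have hyj : lv y + 1 = j := (hD hy).2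
          omega
        have h1 := hlayer (lv x) D hDc hall (fun y hy z hz => by
          have h1 := hglo y (hD hy).1 (hD hy).2
          have h2 := hglo z (hD hz).1 (hD hz).2
          rw [hall y hy] at h1
          rw [hall z hz] at h2
          rw [h1, h2])
        have h2 : lv x % 3 = 1 := by omega
        rw [h2] at h1
        exact h1) hHiJ
      (by
        rintro u hu v hv huv ⟨D, d1, d2, d3, d4, d5⟩
        refine ⟨huv, hu.2, hv.2, D, d1, ?_, d3, d4, hchHi D d5⟩
        rw [hj3, s2]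
        rw [l1] at d2
        omega)
    rw [hj3] at this
    refine le_trans this (hfin _ _ (by omega) (by omega))


end Abs

open Classical in
/-- **Forced vertices**, three colours: the new colours on `W` are of the form `pick x`. -/
theorem forcedA {V : Type u} [Fintype V] {G : SimpleGraph V} (hg : (7 : ℕ∞) ≤ G.egirth) {p : ℕ}
    (hmin : ∀ S : Finset V, S.Nonempty →
      ∃ a ∈ S, (univ.filter (fun v => Dir7 G (S : Set V) a v)).card ≤ p) :
    ∃ (H : SimpleGraph V) (W : Set V), H ≤ G ∧ (∀ v, (nb H v).card ≤ p) ∧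
      (∀ u ∈ W, ∀ v ∈ W, ¬ H.Adj u v) ∧
      ∀ pick : Fin 3 → Fin 3, (∀ x, pick x ≠ x) → ∀ f0 : V → Fin 3, ∃ f : V → Fin 3,
        (∀ v, v ∉ W → f v = f0 v) ∧ (∀ v, v ∈ W → ∃ x, f v = pick x) ∧
        ∀ u v, G.Adj u v → f u = f v → H.Adj u v := by
  obtain ⟨r, hr, hdir0⟩ := exists_order (V := V)
    (fun S a => (univ.filter (fun v => Dir7 G (S : Set V) a v)).card ≤ p) hmin
  have hdir : ∀ a, (univ.filter (fun v => Dir7 G {x | r x ≤ r a} a v)).card ≤ p := by
    intro a
    have h := hdir0 a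
    have e : ((univ.filter (fun x => r x ≤ r a) : Finset V) : Set V) = {x | r x ≤ r a} := by
      ext x; simp
    rw [e] at h
    convert h
  set Frc : V → V → Prop := fun a w => r a < r w ∧ G.Adj a w ∧ ¬ Dir7 G {x | r x ≤ r a} a w with hF
  set H : SimpleGraph V :=
    { Adj := fun u v => G.Adj u v ∧ ((r u < r v ∧ Dir7 G {x | r x ≤ r u} u v) ∨
        (r v < r u ∧ Dir7 G {x | r x ≤ r v} v u))
      symm := ⟨by
        rintro u v ⟨h1, h2⟩
        exact ⟨h1.symm, h2.symm⟩⟩
      loopless := ⟨by rintro u ⟨h, _⟩; exact h.ne rfl⟩ } with hH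
  have hor : ∀ u v, G.Adj u v → H.Adj u v ∨ Frc u v ∨ Frc v u := by
    intro u v h
    have hne : r u ≠ r v := fun e => h.ne (hr e)
    rcases lt_or_gt_of_ne hne with h1 | h1
    · by_cases hD : Dir7 G {x | r x ≤ r u} u v
      · exact Or.inl ⟨h, Or.inl ⟨h1, hD⟩⟩
      · exact Or.inr (Or.inl ⟨h1, h, hD⟩)
    · by_cases hD : Dir7 G {x | r x ≤ r v} v u
      · exact Or.inl ⟨h, Or.inr ⟨h1, hD⟩⟩
      · exact Or.inr (Or.inr ⟨h1, h.symm, hD⟩)
  have hnot : ∀ a w, Frc a w → ¬ H.Adj a w := by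
    rintro a w h ⟨_, ⟨_, h2⟩ | ⟨h1, _⟩⟩
    · exact h.2.2 h2
    · exact absurd h1 (not_lt.2 h.1.le)
  have huniq : ∀ a a' w, Frc a w → Frc a' w → a = a' := by
    have key : ∀ a a' w, Frc a w → Frc a' w → r a < r a' → False := by
      intro a a' w h h' hlt
      apply h'.2.2
      refine ⟨h'.2.1, Or.inr (Or.inl ⟨a, ?_, ?_, h.2.1.symm⟩)⟩
      · show r a ≤ r a'; exact hlt.le
      · rintro rfl; exact lt_irrefl _ hlt
    intro a a' w h h'
    by_contra hne
    rcases lt_or_gt_of_ne (fun e => hne (hr e) : r a ≠ r a') with h1 | h1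
    · exact key a a' w h h' h1
    · exact key a' a w h' h h1
  have hsc1 : ∀ a w a' w', Frc a w → Frc a' w' → H.Adj w w' → False := by
    have key : ∀ a w a' w', Frc a w → Frc a' w' → H.Adj w w' → r a < r a' → False := by
      intro a w a' w' h h' hadj hlt
      apply h'.2.2
      refine ⟨h'.2.1, ?_⟩
      by_cases hw : r w ≤ r a'
      · right; left
        refine ⟨w, hw, ?_, hadj.1.symm⟩
        rintro rfl
        exact hnot _ _ h' hadj
      · right; right
        exact ⟨w, hw, a, hlt.le, hadj.1.symm, h.2.1.symm⟩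
    intro a w a' w' h h' hadj
    by_cases e : a = a'
    · subst e
      exact no_tri7 hg h.2.1 hadj.1 h'.2.1
    · rcases lt_or_gt_of_ne (fun e' => e (hr e') : r a ≠ r a') with h1 | h1
      · exact key a w a' w' h h' hadj h1
      · exact key a' w' a w h' h hadj.symm h1
  refine ⟨H, {w | ∃ a, Frc a w}, fun u v h => h.1, ?_, ?_, ?_⟩
  · intro v
    refine le_trans (Finset.card_le_card ?_) (hdir v)
    intro w hw
    rw [mem_nb] at hw
    rw [Finset.mem_filter]
    refine ⟨mem_univ _, ?_⟩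
    rcases hw.2 with h | h
    · exact h.2
    · exact ⟨hw.1, Or.inl h.1.le⟩
  · rintro u ⟨a, ha⟩ v ⟨b, hb⟩ h
    exact hsc1 a u b v ha hb h
  · intro pick hpick f0
    have hrec : ∀ n : ℕ, ∃ f : V → Fin 3, ∀ v, r v < n →
        (∀ a, Frc a v → f v ≠ f a) ∧ ((¬ ∃ a, Frc a v) → f v = f0 v) ∧
          ((∃ a, Frc a v) → ∃ x, f v = pick x) := by
      intro n
      induction n with
      | zero => exact ⟨f0, fun v h => absurd h (Nat.not_lt_zero _)⟩
      | succ n ih =>
        obtain ⟨f, hf⟩ := ih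
        refine ⟨fun v => if r v = n then (if h : ∃ a, Frc a v then pick (f h.choose) else f0 v) else f v, ?_⟩
        intro v hv
        simp only
        by_cases hvn : r v = n
        · rw [if_pos hvn]
          by_cases hex : ∃ a, Frc a v
          · rw [dif_pos hex]
            refine ⟨?_, fun h => absurd hex h, fun _ => ⟨_, rfl⟩⟩
            intro a' ha'
            have e : hex.choose = a' := huniq _ _ v hex.choose_spec ha'
            have hne : r a' ≠ n := by have := ha'.1; omega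
            rw [if_neg hne, e]
            exact hpick _
          · rw [dif_neg hex]
            exact ⟨fun a ha => absurd ⟨a, ha⟩ hex, fun _ => rfl, fun h => absurd h hex⟩
        · rw [if_neg hvn]
          have h1 := hf v (by omega)
          refine ⟨?_, h1.2⟩
          intro a ha
          have hne : r a ≠ n := by have := ha.1; omega
          rw [if_neg hne]
          exact h1.1 a ha
    obtain ⟨m, hm⟩ : ∃ m, ∀ v, r v < m := by
      obtain ⟨m, hm⟩ := Finset.exists_nat_subset_range (univ.image r)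
      exact ⟨m, fun v => Finset.mem_range.1 (hm (Finset.mem_image_of_mem _ (mem_univ v)))⟩
    obtain ⟨f, hf⟩ := hrec m
    refine ⟨f, fun v hv => (hf v (hm v)).2.1 hv, fun v hv => (hf v (hm v)).2.2 hv, ?_⟩
    intro u v huv he
    rcases hor u v huv with h | h | h
    · exact h
    · exact absurd he.symm ((hf v (hm v)).1 u h)
    · exact absurd he ((hf u (hm u)).1 v h)

open Classical in
theorem Sup_reg {V : Type u} [Fintype V] {H : SimpleGraph V} {W A A' : Set V} {p k : ℕ}
    (hdeg : ∀ v, (nb H v).card ≤ p) (hAA : A ⊆ A') (hnb : ∀ x ∈ A, ∀ w, H.Adj x w → w ∈ A')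
    (hb : ∀ S : Finset V, ∃ X : Finset V, X.card ≤ k ∧ ∀ C, Cn H C → C ⊆ A' → Disjoint C (X : Set V) →
      2 * (S.filter (fun v => v ∈ C)).card ≤ S.card) (S : Finset V) :
    ∃ X : Finset V, X.card ≤ k * (p + 1) + 1 ∧ ∀ C, Cn (Sup H W Set.univ) C → C ⊆ A →
      Disjoint C (X : Set V) → 2 * (S.filter (fun v => v ∈ C)).card ≤ S.card := by
  by_cases hS : S.card ≤ 1
  · refine ⟨S, by omega, ?_⟩
    intro C _ _ hd
    have : S.filter (fun v => v ∈ C) = ∅ := by
      rw [Finset.filter_eq_empty_iff]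
      intro v hv hvC
      exact Set.disjoint_left.1 hd hvC hv
    rw [this]; simp
  push Not at hS
  obtain ⟨X, hX, hXb⟩ := hb S
  refine ⟨X.biUnion (fun x => insert x (nb H x)), ?_, ?_⟩
  · have h1 : (X.biUnion (fun x => insert x (nb H x))).card ≤ X.card * (p + 1) := by
      apply Finset.card_biUnion_le_card_mul
      intro x _
      have h2 := Finset.card_insert_le x (nb H x)
      have h3 := hdeg x
      omega
    have h2 : X.card * (p + 1) ≤ k * (p + 1) := Nat.mul_le_mul_right _ hX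
    omega
  · intro C hC hCA hd
    by_cases hgood : ∀ u ∈ C, u ∉ W
    · set C' : Set V := {y | ∃ x ∈ C, y = x ∨ (y ∈ W ∧ H.Adj x y)} with hC'
      have hCC' : C ⊆ C' := fun x hx => ⟨x, hx, Or.inl rfl⟩
      have hC'c : Cn H C' := by
        obtain ⟨x0, hx0⟩ := hC.1
        refine Cn_of_center (hCC' hx0) ?_
        have hgen : ∀ x, RI (Sup H W Set.univ) C x0 x → RI H C' x0 x := by
          intro x h
          induction h with
          | refl => exact RI.refl _
          | @tail y z h2 h3 ih =>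
            obtain ⟨⟨_, _, _, h4⟩, hy, hz⟩ := h3
            refine ih.trans ?_
            rcases h4 with h | ⟨w, w1, w2, w3, w4⟩
            · exact RI.single h (hCC' hy) (hCC' hz)
            · have hw : w ∈ C' := ⟨y, hy, Or.inr ⟨w1, w3⟩⟩
              exact (RI.single w3 (hCC' hy) hw).trans (RI.single w4 hw (hCC' hz))
        rintro y ⟨x, hx, h | ⟨h1, h3⟩⟩
        · rw [h]; exact hgen x (hC.2 x0 hx0 x hx)
        · exact (hgen x (hC.2 x0 hx0 x hx)).trans (RI.single h3 (hCC' hx) ⟨x, hx, Or.inr ⟨h1, h3⟩⟩)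
      have hC'D : C' ⊆ A' := by
        rintro y ⟨x, hx, h | ⟨h1, h3⟩⟩
        · rw [h]; exact hAA (hCA hx)
        · exact hnb x (hCA hx) y h3
      have hC'X : Disjoint C' (X : Set V) := by
        rw [Set.disjoint_left]
        rintro y ⟨x, hx, h | ⟨h1, h3⟩⟩ hyX
        · apply Set.disjoint_left.1 hd hx
          rw [Finset.mem_coe, Finset.mem_biUnion]
          exact ⟨y, hyX, by rw [h]; exact Finset.mem_insert_self _ _⟩
        · apply Set.disjoint_left.1 hd hx
          rw [Finset.mem_coe, Finset.mem_biUnion]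
          exact ⟨y, hyX, Finset.mem_insert_of_mem (mem_nb.2 h3.symm)⟩
      have h1 : 2 * (S.filter (fun v => v ∈ C')).card ≤ S.card := by
        convert hXb C' hC'c hC'D hC'X
      have h2 : (S.filter (fun v => v ∈ C)).card ≤ (S.filter (fun v => v ∈ C')).card := by
        apply Finset.card_le_card
        intro v hv
        rw [Finset.mem_filter] at hv ⊢
        exact ⟨hv.1, hCC' hv.2⟩
      omega
    · push Not at hgood
      obtain ⟨u, hu, hbad⟩ := hgood
      have hiso : ∀ w, ¬ (Sup H W Set.univ).Adj w u := fun w h => h.2.2.1.1 hbad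
      have hCu : C ⊆ {u} := by
        intro v hv
        exact RI_ne_of_isolated hiso (hC.2 v hv u hu)
      have h2 : (S.filter (fun v => v ∈ C)).card ≤ 1 := by
        apply Finset.card_le_one.2
        intro x hx y hy
        rw [Finset.mem_filter] at hx hy
        have e1 : x = u := hCu hx.2
        have e2 : y = u := hCu hy.2
        rw [e1, e2]
      omega


/-! ### Blocks -/

/-- the type of a layer inside its period -/
def tp (r : ℕ) : ℕ := if r < 2 then 1 else if r < 4 then 2 else 3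

/-- the block containing layer `s`; the period is `6 * n` layers: two blocks of two layers each and
one block with all other layers -/
def blk (n s : ℕ) : ℕ := 3 * (s / (6 * n)) + tp (s % (6 * n))

lemma blk_eq {n q r : ℕ} (hr : r < 6 * n) : blk n (6 * n * q + r) = 3 * q + tp r := by
  unfold blk
  rw [Nat.mul_add_div (by omega), Nat.mul_add_mod, Nat.mod_eq_of_lt hr, Nat.div_eq_of_lt hr, add_zero]

lemma blk_step {n : ℕ} (hn : 1 ≤ n) (s : ℕ) :
    blk n s ≤ blk n (s + 1) ∧ blk n (s + 2) ≤ blk n s + 1 ∧ blk n (s + 6 * n) = blk n s + 3 := by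
  have h0 := Nat.div_add_mod s (6 * n)
  set q := s / (6 * n) with hq
  set r := s % (6 * n) with hr
  have hrn : r < 6 * n := Nat.mod_lt _ (by omega)
  rw [← h0]
  have e0 : blk n (6 * n * q + r) = 3 * q + tp r := blk_eq hrn
  have e3 : blk n (6 * n * q + r + 6 * n) = 3 * (q + 1) + tp r := by
    rw [← blk_eq (q := q + 1) hrn]
    congr 1
    ring
  have e1 : blk n (6 * n * q + r + 1) = if r + 1 < 6 * n then 3 * q + tp (r + 1) else 3 * (q + 1) + tp 0 := by
    split_ifs with h
    · rw [add_assoc, blk_eq h]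
    · rw [← blk_eq (q := q + 1) (r := 0) (by omega : 0 < 6 * n)]
      congr 1
      have : r + 1 = 6 * n := by omega
      rw [add_assoc, this]
      ring
  have e2 : blk n (6 * n * q + r + 2) = if r + 2 < 6 * n then 3 * q + tp (r + 2)
      else 3 * (q + 1) + tp (r + 2 - 6 * n) := by
    split_ifs with h
    · rw [add_assoc, blk_eq h]
    · rw [← blk_eq (q := q + 1) (r := r + 2 - 6 * n) (by omega : r + 2 - 6 * n < 6 * n)]
      congr 1
      have h1 : 6 * n * (q + 1) = 6 * n * q + 6 * n := by ring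
      rw [h1]
      omega
  rw [e0, e1, e2, e3]
  unfold tp
  refine ⟨?_, ?_, ?_⟩
  · split_ifs <;> omega
  · split_ifs <;> omega
  · omega

lemma blk_mono {n : ℕ} (hn : 1 ≤ n) {s s' : ℕ} (h : s ≤ s') : blk n s ≤ blk n s' :=
  monotone_nat_of_le_succ (f := blk n) (fun s => (blk_step hn s).1) h

lemma blk_mod {n j l : ℕ} (hn : 1 ≤ n) (hj : j < n)
    (h : blk n (l + 6 * (n - j)) % 3 ≠ 0) : (l / 6) % n = j := by
  by_contra hcon
  have h1 := not_dvd_shift hj hcon
  apply h
  have h2 : (l + 6 * (n - j)) % (6 * n) = (l + 6 * (n - j)) % 6 + 6 * ((l + 6 * (n - j)) / 6 % n) :=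
    Nat.mod_mul
  have h3 : (l + 6 * (n - j)) / 6 = l / 6 + (n - j) := by omega
  rw [h3] at h2
  have h4 : (l / 6 + (n - j)) % n ≠ 0 := fun e => h1 (Nat.dvd_of_mod_eq_zero e)
  have h5 : 4 ≤ (l + 6 * (n - j)) % (6 * n) := by omega
  unfold blk tp
  rw [if_neg (by omega), if_neg (by omega)]
  omega

/-- final bound -/
noncomputable def B3 (t p n : ℕ) : ℕ :=
  CBA (KN t p (6 * n + 4) * (p + 1) + 1) (p * (p + 1)) * (p + 1) + 1

theorem third_connected {t p n : ℕ} (ht : 1 ≤ t) (hp : 1 ≤ p) (hn : 1 ≤ n) {V : Type u} [Fintype V]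
    {H : SimpleGraph V} (hH : H.Connected) (hdeg : ∀ v, (nb H v).card ≤ p) (hKM : ¬ KM H t)
    {W : Set V} (hW : ∀ u ∈ W, ∀ v ∈ W, ¬ H.Adj u v) :
    ∃ l : V → ℕ, ∀ j, j < n → ∃ f0 : V → Fin 3, (∀ v, f0 v = 2 → l v % n = j) ∧
      ∀ f : V → Fin 3, (∀ v, v ∉ W → f v = f0 v) →
      ∀ C, Cn H C → (∀ x ∈ C, ∀ y ∈ C, f x = f y) → C.ncard ≤ B3 t p n := by
  classical
  obtain ⟨L⟩ := exists_layering hH
  refine ⟨fun v => L.lv v / 6, fun j hj => ?_⟩
  set lam : V → ℕ := fun v => blk n (L.lv v + 6 * (n - j)) with hlam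
  have hadj : ∀ u v, (Sup H W Set.univ).Adj u v → lam u ≤ lam v + 1 := by
    intro u v h
    have h1 : L.lv u ≤ L.lv v + 2 := by
      rcases h.2.2.2 with h | ⟨w, _, _, h2, h3⟩
      · have := L.adj_le u v h; omega
      · have h4 := L.adj_le u w h2
        have h5 := L.adj_le w v h3
        omega
    have h2 := blk_mono hn (show L.lv u + 6 * (n - j) ≤ L.lv v + 6 * (n - j) + 2 by omega)
    exact h2.trans (blk_step hn _).2.1
  have hreg : ∀ (i : ℕ) (S : Finset V), ∃ X : Finset V, X.card ≤ KN t p (6 * n + 4) * (p + 1) + 1 ∧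
      ∀ C, Cn (Sup H W Set.univ) C → C ⊆ chk lam i → Disjoint C (X : Set V) →
        2 * (S.filter (fun v => v ∈ C)).card ≤ S.card := by
    intro i S
    by_cases hne : (chk lam i).Nonempty
    · obtain ⟨v0, hv0, hmin⟩ := Set.exists_min_image (chk lam i) L.lv (Set.toFinite _) hne
      have hup : ∀ x ∈ chk lam i, L.lv x < L.lv v0 + 6 * n := by
        intro x hx
        by_contra hcon
        have h1 := blk_mono hn (show L.lv v0 + 6 * (n - j) + 6 * n ≤ L.lv x + 6 * (n - j) by omega)
        rw [(blk_step hn _).2.2] at h1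
        have h2 : i ≤ lam v0 + 1 := hv0.1
        have h3 : lam x ≤ i + 1 := hx.2
        have h4 : lam v0 = blk n (L.lv v0 + 6 * (n - j)) := rfl
        have h5 : lam x = blk n (L.lv x + 6 * (n - j)) := rfl
        omega
      refine Sup_reg (A' := L.Reg (6 * n + 4) (L.lv v0 - 2)) hdeg ?_ ?_
        (fun S => L.reg_bal ht hp hdeg hKM (6 * n + 4) (L.lv v0 - 2) S) S
      · intro x hx
        have h1 := hup x hx
        have h2 := hmin x hx
        show (L.lv v0 - 2 = 0 ∨ L.lv v0 - 2 < L.lv x) ∧ L.lv x ≤ L.lv v0 - 2 + (6 * n + 4)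
        omega
      · intro x hx w hxw
        have h1 := hup x hx
        have h2 := hmin x hx
        have h3 := L.adj_le x w hxw
        have h4 := L.adj_le w x hxw.symm
        show (L.lv v0 - 2 = 0 ∨ L.lv v0 - 2 < L.lv w) ∧ L.lv w ≤ L.lv v0 - 2 + (6 * n + 4)
        omega
    · refine ⟨∅, by simp, fun C hC hCi _ => ?_⟩
      exfalso
      obtain ⟨x, hx⟩ := hC.1
      exact hne ⟨x, hCi hx⟩
  obtain ⟨f0, hf0, hf1⟩ := three_abs (G := Sup H W Set.univ) (lv := lam) (Sup_deg hdeg) hadj hreg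
  refine ⟨f0, fun v hv => ?_, ?_⟩
  · exact blk_mod hn hj (hf0 v hv)
  · intro f hf C hC hm
    exact Sup_colour (f0 := f0) (f := f) hdeg hW hf1 (fun v _ hv => hf v hv) hC (Set.subset_univ C) hm

/-- the disconnected case -/
theorem third_band {t p n : ℕ} (ht : 1 ≤ t) (hp : 1 ≤ p) (hn : 1 ≤ n) {V : Type u} [Fintype V]
    {H : SimpleGraph V} (hdeg : ∀ v, (nb H v).card ≤ p) (hKM : ¬ KM H t)
    {W : Set V} (hW : ∀ u ∈ W, ∀ v ∈ W, ¬ H.Adj u v) :
    ∃ l : V → ℕ, ∀ j, j < n → ∃ f0 : V → Fin 3, (∀ v, f0 v = 2 → l v % n = j) ∧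
      ∀ f : V → Fin 3, (∀ v, v ∉ W → f v = f0 v) →
      ∀ C, Cn H C → (∀ x ∈ C, ∀ y ∈ C, f x = f y) → C.ncard ≤ B3 t p n := by
  classical
  have hcomp : ∀ c : H.ConnectedComponent, ∃ l : c.supp → ℕ, ∀ j, j < n → ∃ f0 : c.supp → Fin 3,
      (∀ v, f0 v = 2 → l v % n = j) ∧
      ∀ f : c.supp → Fin 3, (∀ v, v ∉ {x : c.supp | x.1 ∈ W} → f v = f0 v) →
      ∀ C, Cn (H.induce c.supp) C → (∀ x ∈ C, ∀ y ∈ C, f x = f y) →
        C.ncard ≤ B3 t p n := by
    intro c
    have hconn : (H.induce c.supp).Connected := c.connected_toSimpleGraph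
    refine third_connected ht hp hn hconn ?_ ?_ ?_
    · intro v
      refine le_trans ?_ (hdeg v.1)
      refine Finset.card_le_card_of_injOn Subtype.val ?_ (fun x _ y _ h => Subtype.ext h)
      intro w hw
      rw [Finset.mem_coe, mem_nb] at hw ⊢
      exact hw
    · intro h
      exact hKM (h.of_Mn (Mn_of_embedding Subtype.val Subtype.val_injective (fun u w h => h)))
    · intro u hu v hv h
      exact hW u.1 hu v.1 hv h
  choose l hl using hcomp
  refine ⟨fun v => l (H.connectedComponentMk v) ⟨v, rfl⟩, fun j hj => ?_⟩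
  have h0 : ∀ c : H.ConnectedComponent, ∃ f0 : c.supp → Fin 3, (∀ v, f0 v = 2 → l c v % n = j) ∧
      ∀ f : c.supp → Fin 3, (∀ v, v ∉ {x : c.supp | x.1 ∈ W} → f v = f0 v) →
      ∀ C, Cn (H.induce c.supp) C → (∀ x ∈ C, ∀ y ∈ C, f x = f y) →
        C.ncard ≤ B3 t p n := fun c => hl c j hj
  choose F hF2 hF using h0
  refine ⟨fun v => F (H.connectedComponentMk v) ⟨v, rfl⟩, fun v hv => hF2 _ _ hv, ?_⟩
  intro f hf C hC hmono
  obtain ⟨x0, hx0⟩ := hC.1
  set c := H.connectedComponentMk x0 with hc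
  have hCc : ∀ x ∈ C, H.connectedComponentMk x = c := by
    have hgen : ∀ x, RI H C x0 x → H.connectedComponentMk x = c := by
      intro x h
      induction h with
      | refl => rfl
      | tail h1 h2 ih =>
        rw [← ih]
        exact (SimpleGraph.ConnectedComponent.sound h2.1.reachable).symm
    exact fun x hx => hgen x (hC.2 x0 hx0 x hx)
  have hFeq : ∀ x (hx : H.connectedComponentMk x = c),
      F (H.connectedComponentMk x) ⟨x, rfl⟩ = F c ⟨x, hx⟩ := by
    intro x h
    clear_value c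
    subst h
    rfl
  set C' : Set c.supp := {x | x.1 ∈ C} with hC'
  have hC'C : Cn (H.induce c.supp) C' := by
    refine Cn_of_center (x := ⟨x0, hCc x0 hx0⟩) hx0 ?_
    have hgen : ∀ x, RI H C x0 x → ∀ hx : x ∈ c.supp,
        RI (H.induce c.supp) C' ⟨x0, hCc x0 hx0⟩ ⟨x, hx⟩ := by
      intro x h
      induction h with
      | refl => intro _; exact RI.refl _
      | @tail y z h1 h2 ih =>
        intro hz
        refine (ih (hCc y h2.2.1)).trans (RI.single ?_ h2.2.1 h2.2.2)
        exact h2.1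
    rintro ⟨x, hx⟩ hxC
    exact hgen x (hC.2 x0 hx0 x hxC) hx
  have h1 := hF c (fun x => f x.1) (by
      rintro ⟨x, hx⟩ hxW
      have hxW' : x ∉ W := hxW
      exact (hf x hxW').trans (hFeq x hx)) C' hC'C (by
      rintro ⟨x, hx⟩ hxC ⟨y, hy⟩ hyC
      exact hmono x hxC y hyC)
  have h2 : C.ncard = C'.ncard := by
    have : C = Subtype.val '' C' := by
      ext x
      constructor
      · intro hx; exact ⟨⟨x, hCc x hx⟩, hx, rfl⟩
      · rintro ⟨y, hy, rfl⟩; exact hy
    rw [this, Set.ncard_image_of_injective _ Subtype.val_injective]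
  omega

/-- **Three colours, the third one used only in one of `n` parts.** -/
theorem third {t n : ℕ} (ht : 1 ≤ t) (hn : 1 ≤ n) {V : Type u} [Fintype V] {G : SimpleGraph V}
    (hg : (7 : ℕ∞) ≤ G.egirth) (hKM : ¬ KM G t) :
    ∃ cls : V → Fin n, ∀ j : Fin n, ∃ f : V → Fin 3, (∀ v, f v = 2 → cls v = j) ∧
      ∀ C, Cn G C → (∀ x ∈ C, ∀ y ∈ C, f x = f y) → C.ncard ≤ B3 t (2 ^ (t + 1)) n := by
  classical
  obtain ⟨H, W, hHG, hdeg, hW, hext⟩ := forcedA (p := 2 ^ (t + 1)) hg (by
    intro S hS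
    obtain ⟨M, hM, hMd⟩ := order_minor7 hg S
    by_contra hcon
    push Not at hcon
    apply hKM
    refine KM.of_Mn ?_ hM
    have hcard : Fintype.card {s : V // s ∈ S} = S.card := Fintype.card_coe S
    refine dens t S.card _ M hcard (Finset.card_pos.2 hS) ?_
    have hsum : (PA M).card = ∑ a : {s : V // s ∈ S}, (nb M a).card := by
      unfold PA nb
      rw [Finset.card_filter, Fintype.sum_prod_type]
      apply Finset.sum_congr rfl
      intro a _
      rw [Finset.card_filter]
    rw [hsum]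
    calc 2 ^ (t+1) * S.card = ∑ a : {s : V // s ∈ S}, 2 ^ (t+1) := by
          rw [Finset.sum_const, Finset.card_univ, smul_eq_mul, hcard, mul_comm]
      _ ≤ _ := Finset.sum_le_sum (fun a _ => by
          have h1 := hMd a
          have h2 := hcon a.1 a.2
          omega))
  have hKMH : ¬ KM H t := fun h => hKM (h.of_Mn (Mn_of_le hHG))
  obtain ⟨l, hl⟩ := third_band ht (Nat.one_le_pow _ _ (by norm_num)) hn hdeg hKMH hW
  refine ⟨fun v => ⟨l v % n, Nat.mod_lt _ hn⟩, fun j => ?_⟩
  obtain ⟨f0, hf2', hf0⟩ := hl j.1 j.2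
  obtain ⟨f, hf1, hfp, hf2⟩ := hext ![1, 0, 0] (by decide) f0
  refine ⟨f, ?_, fun C hC hm => ?_⟩
  · intro v hv
    by_cases hvW : v ∈ W
    · exfalso
      obtain ⟨x, hx⟩ := hfp v hvW
      rw [hv] at hx
      fin_cases x <;> simp at hx
    · rw [hf1 v hvW] at hv
      exact Fin.ext (hf2' v hv)
  · have hCH : Cn H C := hC.mono_graph (fun a ha b hb hab => hf2 a b hab (hm a ha b hb))
    exact hf0 f hf1 C hCH hm

end Pool.Agent.Lib.MP_4332cb_co
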